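import Pool.Agent.H86R3.Ulim

set_option autoImplicit false

open Filter Topology Set MeasureTheory

namespace Pool.Agent.H86R3.Beta

/-- The circle group. -/
abbrev G : Type := UnitAddCircle
/-- The Stone-Cech compactification of the natural numbers. -/
abbrev B : Type := StoneCech ℕ

noncomputable def q : ℕ → G := TopologicalSpace.denseSeq G

lemma exists_near (n : ℕ) (y : G) : ∃ k, dist (q k) y < 1 / ((n : ℝ) + 1) := by
  have h := TopologicalSpace.denseRange_denseSeq G
  obtain ⟨k, hk⟩ := h.exists_dist_lt y (ε := 1 / ((n : ℝ) + 1)) (by positivity)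
  exact ⟨k, by rw [dist_comm]; exact hk⟩

open Classical in
/-- A Borel choice of a natural number whose dense point is near `y`. -/
noncomputable def cn (n : ℕ) (y : G) : ℕ := Nat.find (exists_near n y)

lemma cn_spec (n : ℕ) (y : G) : dist (q (cn n y)) y < 1 / ((n : ℝ) + 1) := by
  classical
  exact Nat.find_spec (exists_near n y)

lemma measurable_cn (n : ℕ) : Measurable (cn n) := by
  classical
  apply measurable_find
  intro k
  apply IsOpen.measurableSet
  exact isOpen_lt (continuous_const.dist continuous_id) continuous_const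

instance : IsProbabilityMeasure (volume : Measure G) := ⟨UnitAddCircle.measure_univ⟩

/-- The basic averages. -/
noncomputable def av (F : B × B → ℝ) (n m : ℕ) (θ : G) : ℝ :=
  ∫ y : G, F (stoneCechUnit (cn n (y + θ)), stoneCechUnit (cn m y))

lemma measurable_integrand (F : B × B → ℝ) (n m : ℕ) (θ : G) :
    Measurable (fun y : G => F (stoneCechUnit (cn n (y + θ)), stoneCechUnit (cn m y))) := by
  have h1 : Measurable (fun y : G => (cn n (y + θ), cn m y)) :=
    ((measurable_cn n).comp (measurable_add_const θ)).prodMk (measurable_cn m)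
  have h2 : Measurable (fun p : ℕ × ℕ => F (stoneCechUnit p.1, stoneCechUnit p.2)) :=
    Measurable.of_discrete
  exact h2.comp h1

lemma integrable_integrand (F : B × B → ℝ) {C : ℝ} (hF : ∀ p, |F p| ≤ C) (n m : ℕ) (θ : G) :
    Integrable (fun y : G => F (stoneCechUnit (cn n (y + θ)), stoneCechUnit (cn m y))) := by
  refine Integrable.of_bound (measurable_integrand F n m θ).aestronglyMeasurable C ?_
  exact Eventually.of_forall fun y => hF _

lemma abs_av_le (F : B × B → ℝ) {C : ℝ} (hF : ∀ p, |F p| ≤ C) (n m : ℕ) (θ : G) :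
    |av F n m θ| ≤ C := by
  have := norm_integral_le_of_norm_le_const (μ := (volume : Measure G)) (C := C)
    (f := fun y : G => F (stoneCechUnit (cn n (y + θ)), stoneCechUnit (cn m y)))
    (Eventually.of_forall fun y => hF _)
  simpa [av] using this

lemma av_add (F F' : B × B → ℝ) {C C' : ℝ} (hF : ∀ p, |F p| ≤ C) (hF' : ∀ p, |F' p| ≤ C')
    (n m : ℕ) (θ : G) : av (fun p => F p + F' p) n m θ = av F n m θ + av F' n m θ := by
  unfold av
  exact integral_add (integrable_integrand F hF n m θ) (integrable_integrand F' hF' n m θ)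

lemma av_smul (F : B × B → ℝ) (c : ℝ) (n m : ℕ) (θ : G) :
    av (fun p => c * F p) n m θ = c * av F n m θ := by
  unfold av
  exact integral_const_mul c _

/-- The functional `M_θ`. -/
noncomputable def M (F : B × B → ℝ) (θ : G) : ℝ := ulim (fun n => ulim (fun m => av F n m θ))

lemma abs_ulim_av_le (F : B × B → ℝ) {C : ℝ} (hF : ∀ p, |F p| ≤ C) (n : ℕ) (θ : G) :
    |ulim (fun m => av F n m θ)| ≤ C := abs_ulim_le fun m => abs_av_le F hF n m θ

lemma abs_M_le (F : B × B → ℝ) {C : ℝ} (hF : ∀ p, |F p| ≤ C) (θ : G) : |M F θ| ≤ C :=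
  abs_ulim_le fun n => abs_ulim_av_le F hF n θ

lemma M_add (F F' : B × B → ℝ) {C C' : ℝ} (hF : ∀ p, |F p| ≤ C) (hF' : ∀ p, |F' p| ≤ C')
    (θ : G) : M (fun p => F p + F' p) θ = M F θ + M F' θ := by
  unfold M
  have h1 : ∀ n, ulim (fun m => av (fun p => F p + F' p) n m θ)
      = ulim (fun m => av F n m θ) + ulim (fun m => av F' n m θ) := by
    intro n
    rw [← ulim_add (fun m => abs_av_le F hF n m θ) (fun m => abs_av_le F' hF' n m θ)]
    congr 1
    funext m
    exact av_add F F' hF hF' n m θ
  simp_rw [h1]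
  exact ulim_add (fun n => abs_ulim_av_le F hF n θ) (fun n => abs_ulim_av_le F' hF' n θ)

lemma M_smul (F : B × B → ℝ) {C : ℝ} (hF : ∀ p, |F p| ≤ C) (c : ℝ)
    (θ : G) : M (fun p => c * F p) θ = c * M F θ := by
  unfold M
  have h1 : ∀ n, ulim (fun m => av (fun p => c * F p) n m θ)
      = c * ulim (fun m => av F n m θ) := by
    intro n
    rw [← ulim_smul c (fun m => abs_av_le F hF n m θ)]
    congr 1
    funext m
    exact av_smul F c n m θ
  simp_rw [h1]
  exact ulim_smul c (fun n => abs_ulim_av_le F hF n θ)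

end Pool.Agent.H86R3.Beta
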