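import Pool.Agent.H86R3.BetaA

set_option autoImplicit false

open Filter Topology Set MeasureTheory

namespace Pool.Agent.H86R3.Beta

abbrev H : Type := Lp ℝ 2 (volume : Measure G)

lemma memLp_bdd {h : G → ℝ} (hm : Measurable h) {C : ℝ} (hC : ∀ y, |h y| ≤ C) :
    MemLp h 2 (volume : Measure G) :=
  MemLp.of_bound hm.aestronglyMeasurable C (Eventually.of_forall hC)

lemma norm_toLp_le {h : G → ℝ} (hm : Measurable h) {C : ℝ} (hC : ∀ y, |h y| ≤ C) (hC0 : 0 ≤ C) :
    ‖(memLp_bdd hm hC).toLp h‖ ≤ C := by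
  have h1 := Lp.norm_le_of_ae_bound (μ := (volume : Measure G)) (p := 2)
    (f := (memLp_bdd hm hC).toLp h) hC0 (by
      filter_upwards [(memLp_bdd hm hC).coeFn_toLp] with y hy
      rw [hy]; exact hC y)
  have h2 : measureUnivNNReal (volume : Measure G) = 1 := by
    simp [measureUnivNNReal]
  rw [h2] at h1
  simpa using h1

lemma inner_toLp {h k : G → ℝ} (hh : MemLp h 2 (volume : Measure G))
    (hk : MemLp k 2 (volume : Measure G)) :
    inner ℝ (hh.toLp h) (hk.toLp k) = ∫ y : G, h y * k y := by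
  rw [L2.inner_def]
  apply integral_congr_ae
  filter_upwards [hh.coeFn_toLp, hk.coeFn_toLp] with y h1 h2
  rw [h1, h2]
  simp [mul_comm]

lemma meas_f (f : B → ℝ) (n : ℕ) (θ : G) :
    Measurable (fun y : G => f (stoneCechUnit (cn n (y + θ)))) := by
  have h2 : Measurable (fun p : ℕ => f (stoneCechUnit p)) := Measurable.of_discrete
  exact h2.comp ((measurable_cn n).comp (measurable_add_const θ))

lemma meas_g (g : B → ℝ) (m : ℕ) :
    Measurable (fun y : G => g (stoneCechUnit (cn m y))) := by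
  have h2 : Measurable (fun p : ℕ => g (stoneCechUnit p)) := Measurable.of_discrete
  exact h2.comp (measurable_cn m)

/-- Equicontinuity in the group variable for products. -/
lemma equicont (f g : B → ℝ) {Cf Cg : ℝ} (hf : ∀ p, |f p| ≤ Cf) (hg : ∀ p, |g p| ≤ Cg)
    (ε : ℝ) (hε : 0 < ε) : ∃ δ > 0, ∀ θ θ' : G, dist θ θ' < δ → ∀ n,
      |ulim (fun m => av (fun p => f p.1 * g p.2) n m θ) -
        ulim (fun m => av (fun p => f p.1 * g p.2) n m θ')| ≤ ε := by
  have hCf : 0 ≤ Cf := (abs_nonneg _).trans (hf (stoneCechUnit 0))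
  have hCg : 0 ≤ Cg := (abs_nonneg _).trans (hg (stoneCechUnit 0))
  -- the vectors
  let vL : ℕ → H := fun m => (memLp_bdd (meas_g g m) (fun y => hg _)).toLp _
  have hvL : ∀ m, ‖vL m‖ ≤ Cg := fun m => norm_toLp_le (meas_g g m) (fun y => hg _) hCg
  let uL : ℕ → G → H := fun n θ => (memLp_bdd (meas_f f n θ) (fun y => hf _)).toLp _
  have huL : ∀ n θ, ‖uL n θ‖ ≤ Cf := fun n θ => norm_toLp_le (meas_f f n θ) (fun y => hf _) hCf
  have hbd : ∀ (u : H) (m : ℕ), |inner ℝ u (vL m)| ≤ ‖u‖ * Cg := by
    intro u m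
    calc |inner ℝ u (vL m)| ≤ ‖u‖ * ‖vL m‖ := abs_real_inner_le_norm _ _
      _ ≤ ‖u‖ * Cg := by gcongr; exact hvL m
  let φl : H →ₗ[ℝ] ℝ :=
    { toFun := fun u => ulim (fun m => inner ℝ u (vL m))
      map_add' := by
        intro u u'
        rw [← ulim_add (hbd u) (hbd u')]
        congr 1
        funext m
        exact inner_add_left _ _ _
      map_smul' := by
        intro c u
        rw [RingHom.id_apply, smul_eq_mul, ← ulim_smul c (hbd u)]
        congr 1
        funext m
        exact real_inner_smul_left _ _ _ }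
  let φ : H →L[ℝ] ℝ := φl.mkContinuous Cg (by
    intro u
    rw [Real.norm_eq_abs, mul_comm]
    exact abs_ulim_le (hbd u))
  have hφ : ∀ u : H, φ u = ulim (fun m => inner ℝ u (vL m)) := fun u => rfl
  let v : H := (InnerProductSpace.toDual ℝ H).symm φ
  have hv : ∀ u : H, inner ℝ v u = φ u := fun u => InnerProductSpace.toDual_symm_apply
  have hav : ∀ n m θ, av (fun p => f p.1 * g p.2) n m θ = inner ℝ (uL n θ) (vL m) := by
    intro n m θ
    rw [inner_toLp]
    rfl
  have hkey : ∀ n θ, ulim (fun m => av (fun p => f p.1 * g p.2) n m θ) = inner ℝ v (uL n θ) := by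
    intro n θ
    rw [hv, hφ]
    congr 1
    funext m
    exact hav n m θ
  set η : ℝ := ε / (3 * (Cf + 1)) with hη
  have hη0 : 0 < η := by positivity
  obtain ⟨w, hw⟩ := (ContinuousMap.toLp_denseRange ℝ (volume : Measure G) ℝ
    (p := 2) (by norm_num)).exists_dist_lt v hη0
  -- uniform continuity of `w`
  have hwu : UniformContinuous w := CompactSpace.uniformContinuous_of_continuous w.continuous
  obtain ⟨δ, hδ, hδw⟩ := Metric.uniformContinuous_iff.mp hwu η hη0
  refine ⟨δ, hδ, fun θ θ' hθ n => ?_⟩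
  rw [hkey, hkey]
  have h1 : ∀ θ, |inner ℝ v (uL n θ) - inner ℝ (ContinuousMap.toLp 2 (volume : Measure G) ℝ w : H)
      (uL n θ)| ≤ η * Cf := by
    intro θ
    rw [← inner_sub_left]
    calc _ ≤ ‖v - (ContinuousMap.toLp 2 (volume : Measure G) ℝ w : H)‖ * ‖uL n θ‖ :=
          abs_real_inner_le_norm _ _
      _ ≤ η * Cf := by
          gcongr
          · rw [← dist_eq_norm]; exact hw.le
          · exact huL n θ
  have hwm : Measurable w := w.continuous.measurable
  have hwb : ∀ y, |w y| ≤ ‖w‖ := fun y => w.norm_coe_le_norm y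
  have hwL : (ContinuousMap.toLp 2 (volume : Measure G) ℝ w : H) = (memLp_bdd hwm hwb).toLp w := by
    apply Lp.ext
    filter_upwards [ContinuousMap.coeFn_toLp (p := 2) (𝕜 := ℝ) (volume : Measure G) w,
      (memLp_bdd hwm hwb).coeFn_toLp] with y h2 h3
    rw [h2, h3]
  have h4 : ∀ θ, inner ℝ (ContinuousMap.toLp 2 (volume : Measure G) ℝ w : H) (uL n θ)
      = ∫ y : G, w (y - θ) * f (stoneCechUnit (cn n y)) := by
    intro θ
    rw [hwL, inner_toLp]
    rw [← integral_add_right_eq_self (fun y : G => w (y - θ) * f (stoneCechUnit (cn n y))) θ]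
    simp
  have hmf : Measurable (fun y : G => f (stoneCechUnit (cn n y))) := meas_g f n
  have hint : ∀ θ, Integrable (fun y : G => w (y - θ) * f (stoneCechUnit (cn n y))) := by
    intro θ
    refine Integrable.of_bound ((((hwm.comp (measurable_sub_const θ))).mul hmf).aestronglyMeasurable)
      (‖w‖ * Cf) ?_
    refine Eventually.of_forall fun y => ?_
    rw [norm_mul]
    gcongr
    · exact w.norm_coe_le_norm _
    · exact hf _
  have h5 : |(∫ y : G, w (y - θ) * f (stoneCechUnit (cn n y))) -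
      ∫ y : G, w (y - θ') * f (stoneCechUnit (cn n y))| ≤ η * Cf := by
    rw [← integral_sub (hint θ) (hint θ')]
    have h6 := norm_integral_le_of_norm_le_const (μ := (volume : Measure G)) (C := η * Cf)
      (f := fun y : G => w (y - θ) * f (stoneCechUnit (cn n y)) -
        w (y - θ') * f (stoneCechUnit (cn n y))) (Eventually.of_forall fun y => by
          rw [← sub_mul, norm_mul]
          gcongr
          · have : dist (y - θ) (y - θ') < δ := by
              rw [dist_sub_left]; exact hθ
            have := hδw this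
            rw [Real.dist_eq] at this
            exact this.le
          · exact hf _)
    simpa using h6
  have h7 := h1 θ
  have h8 := h1 θ'
  rw [h4] at h7 h8
  have h9 : 3 * (η * Cf) ≤ ε := by
    rw [hη]
    have : 3 * (ε / (3 * (Cf + 1)) * Cf) = ε * (Cf / (Cf + 1)) := by
      field_simp
    rw [this]
    have h10 : Cf / (Cf + 1) ≤ 1 := by
      rw [div_le_one (by linarith)]; linarith
    calc ε * (Cf / (Cf + 1)) ≤ ε * 1 := by gcongr
      _ = ε := mul_one _
  rw [abs_le] at h5 h7 h8 ⊢
  constructor <;> linarith [h5.1, h5.2, h7.1, h7.2, h8.1, h8.2]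

end Pool.Agent.H86R3.Beta
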