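import Pool.Agent.H86R3.BetaB

set_option autoImplicit false

open Filter Topology Set MeasureTheory

namespace Pool.Agent.H86R3.Beta

lemma cont_prod (f g : C(B, ℝ)) : Continuous (fun θ : G => M (fun p => f p.1 * g p.2) θ) := by
  rw [Metric.continuous_iff]
  intro θ ε hε
  have hf : ∀ p, |f p| ≤ ‖f‖ := fun p => f.norm_coe_le_norm p
  have hg : ∀ p, |g p| ≤ ‖g‖ := fun p => g.norm_coe_le_norm p
  have hfg : ∀ p : B × B, |f p.1 * g p.2| ≤ ‖f‖ * ‖g‖ := by
    intro p
    rw [abs_mul]
    gcongr
    · exact hf _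
    · exact hg _
  obtain ⟨δ, hδ, h⟩ := equicont f g hf hg (ε / 2) (half_pos hε)
  refine ⟨δ, hδ, fun θ' hθ' => ?_⟩
  rw [Real.dist_eq]
  refine lt_of_le_of_lt ?_ (half_lt_self hε)
  exact abs_ulim_sub_le (fun n => abs_ulim_av_le _ hfg n θ') (fun n => abs_ulim_av_le _ hfg n θ)
    (fun n => h θ' θ hθ' n)

/-- The pure tensors form a submonoid. -/
def tens : Submonoid C(B × B, ℝ) where
  carrier := {F | ∃ f g : C(B, ℝ), ∀ p, F p = f p.1 * g p.2}
  one_mem' := ⟨1, 1, fun p => by simp⟩
  mul_mem' := by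
    rintro F F' ⟨f, g, h⟩ ⟨f', g', h'⟩
    refine ⟨f * f', g * g', fun p => ?_⟩
    rw [ContinuousMap.mul_apply, h, h', ContinuousMap.mul_apply, ContinuousMap.mul_apply]
    ring

lemma M_sub_le (F F' : C(B × B, ℝ)) (θ : G) : |M F θ - M F' θ| ≤ ‖F - F'‖ := by
  have h1 : ∀ p, |F p| ≤ ‖F‖ := fun p => F.norm_coe_le_norm p
  have h2 : ∀ p, |(-1 : ℝ) * F' p| ≤ ‖F'‖ := fun p => by
    rw [abs_mul]; simpa using F'.norm_coe_le_norm p
  have h3 := M_add (fun p => F p) (fun p => (-1 : ℝ) * F' p) h1 h2 θ
  rw [M_smul (fun p => F' p) (fun p => F'.norm_coe_le_norm p) (-1) θ] at h3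
  have h4 : M F θ - M F' θ = M (fun p => F p + (-1 : ℝ) * F' p) θ := by
    rw [h3]; ring
  rw [h4]
  apply abs_M_le
  intro p
  have := (F - F').norm_coe_le_norm p
  rw [ContinuousMap.sub_apply] at this
  rw [show F p + (-1 : ℝ) * F' p = F p - F' p by ring]
  exact this

lemma cont_span (F : C(B × B, ℝ)) (hF : F ∈ Submodule.span ℝ (tens : Set C(B × B, ℝ))) :
    Continuous (fun θ : G => M F θ) := by
  induction hF using Submodule.span_induction with
  | mem F h =>
    obtain ⟨f, g, h⟩ := h
    have : (F : B × B → ℝ) = fun p => f p.1 * g p.2 := funext h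
    rw [this]
    exact cont_prod f g
  | zero =>
    have h0 : ∀ θ : G, M (0 : C(B × B, ℝ)) θ = 0 := by
      intro θ
      have := abs_M_le (0 : C(B × B, ℝ)) (C := 0) (fun p => by simp) θ
      exact abs_eq_zero.mp (le_antisymm this (abs_nonneg _))
    simp_rw [h0]
    exact continuous_const
  | add F F' _ _ h1 h2 =>
    have : ∀ θ, M (F + F' : C(B × B, ℝ)) θ = M F θ + M F' θ := fun θ =>
      M_add F F' (fun p => F.norm_coe_le_norm p) (fun p => F'.norm_coe_le_norm p) θ
    simp_rw [this]
    exact h1.add h2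
  | smul c F _ h1 =>
    have : ∀ θ, M (c • F : C(B × B, ℝ)) θ = c * M F θ := fun θ =>
      M_smul F (fun p => F.norm_coe_le_norm p) c θ
    simp_rw [this]
    exact continuous_const.mul h1

lemma dense_span : (Submodule.span ℝ (tens : Set C(B × B, ℝ))).topologicalClosure = ⊤ := by
  have hsep : (Algebra.adjoin ℝ (tens : Set C(B × B, ℝ))).SeparatesPoints := by
    intro x y hxy
    have : x.1 ≠ y.1 ∨ x.2 ≠ y.2 := by
      by_contra h
      push Not at h
      exact hxy (Prod.ext h.1 h.2)
    rcases this with h | h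
    · obtain ⟨f, hf⟩ := exists_continuous_zero_one_of_isClosed (X := B) (isClosed_singleton (x := x.1))
        (isClosed_singleton (x := y.1)) (by simpa using h)
      refine ⟨_, ⟨f.comp ⟨Prod.fst, continuous_fst⟩, Algebra.subset_adjoin ?_, rfl⟩, ?_⟩
      · exact ⟨f, 1, fun p => by simp⟩
      · have h1 := hf.1 (mem_singleton x.1)
        have h2 := hf.2.1 (mem_singleton y.1)
        simp only [ContinuousMap.comp_apply, ContinuousMap.coe_mk]
        rw [h1, h2]; simp
    · obtain ⟨f, hf⟩ := exists_continuous_zero_one_of_isClosed (X := B) (isClosed_singleton (x := x.2))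
        (isClosed_singleton (x := y.2)) (by simpa using h)
      refine ⟨_, ⟨f.comp ⟨Prod.snd, continuous_snd⟩, Algebra.subset_adjoin ?_, rfl⟩, ?_⟩
      · exact ⟨1, f, fun p => by simp⟩
      · have h1 := hf.1 (mem_singleton x.2)
        have h2 := hf.2.1 (mem_singleton y.2)
        simp only [ContinuousMap.comp_apply, ContinuousMap.coe_mk]
        rw [h1, h2]; simp
  have h := ContinuousMap.subalgebra_topologicalClosure_eq_top_of_separatesPoints _ hsep
  have h1 : Subalgebra.toSubmodule (Algebra.adjoin ℝ (tens : Set C(B × B, ℝ)))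
      = Submodule.span ℝ (tens : Set C(B × B, ℝ)) := by
    rw [Algebra.adjoin_eq_span, Submonoid.closure_eq]
  rw [← h1]
  ext F
  constructor
  · intro _; trivial
  · intro _
    have h2 : F ∈ (Algebra.adjoin ℝ (tens : Set C(B × B, ℝ))).topologicalClosure := by
      rw [h]; trivial
    exact h2

lemma cont_M (F : C(B × B, ℝ)) : Continuous (fun θ : G => M F θ) := by
  rw [Metric.continuous_iff]
  intro θ ε hε
  have hF : F ∈ (Submodule.span ℝ (tens : Set C(B × B, ℝ))).topologicalClosure := by
    rw [dense_span]; trivial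
  have hF' : F ∈ closure ((Submodule.span ℝ (tens : Set C(B × B, ℝ))) : Set C(B × B, ℝ)) := hF
  obtain ⟨F', hF'm, hd⟩ := Metric.mem_closure_iff.mp hF' (ε / 4) (by linarith)
  obtain ⟨δ, hδ, h⟩ := (Metric.continuous_iff.mp (cont_span F' hF'm)) θ (ε / 4) (by linarith)
  refine ⟨δ, hδ, fun θ' hθ' => ?_⟩
  have h1 := M_sub_le F F' θ
  have h2 := M_sub_le F F' θ'
  have h3 := h θ' hθ'
  rw [dist_eq_norm] at hd
  rw [Real.dist_eq] at h3 ⊢
  rw [abs_le] at h1 h2
  rw [abs_lt] at h3 ⊢
  constructor <;> linarith [h1.1, h1.2, h2.1, h2.2, h3.1, h3.2]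

/-- The operator `T`. -/
noncomputable def T : C(B × B, ℝ) →L[ℝ] C(G, ℝ) :=
  LinearMap.mkContinuous
    { toFun := fun F => ⟨fun θ => M F θ, cont_M F⟩
      map_add' := by
        intro F F'
        ext θ
        exact M_add F F' (fun p => F.norm_coe_le_norm p) (fun p => F'.norm_coe_le_norm p) θ
      map_smul' := by
        intro c F
        ext θ
        exact M_smul F (fun p => F.norm_coe_le_norm p) c θ } 1 (by
    intro F
    rw [one_mul, ContinuousMap.norm_le _ (norm_nonneg _)]
    intro θ
    exact abs_M_le F (fun p => F.norm_coe_le_norm p) θ)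

lemma T_apply (F : C(B × B, ℝ)) (θ : G) : T F θ = M F θ := rfl

/-- The extension of the dense sequence to the Stone-Cech compactification. -/
noncomputable def bq : B → G := stoneCechExtend (continuous_of_discreteTopology (f := q))

lemma continuous_bq : Continuous bq := continuous_stoneCechExtend _

lemma bq_unit (n : ℕ) : bq (stoneCechUnit n) = q n := by
  have := stoneCechExtend_extends (continuous_of_discreteTopology (f := q))
  exact congrFun this n

noncomputable def Q : C(B × B, G) := ⟨fun p => bq p.1 - bq p.2,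
  (continuous_bq.comp continuous_fst).sub (continuous_bq.comp continuous_snd)⟩

/-- The operator `S`. -/
noncomputable def S : C(G, ℝ) →L[ℝ] C(B × B, ℝ) :=
  LinearMap.mkContinuous
    { toFun := fun h => h.comp Q
      map_add' := by intro h h'; rfl
      map_smul' := by intro c h; rfl } 1 (by
    intro h
    rw [one_mul, ContinuousMap.norm_le _ (norm_nonneg _)]
    intro p
    exact h.norm_coe_le_norm _)

lemma S_apply (h : C(G, ℝ)) (p : B × B) : S h p = h (bq p.1 - bq p.2) := rfl

lemma TS (h : C(G, ℝ)) : T (S h) = h := by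
  ext θ
  rw [T_apply]
  have hu : UniformContinuous h := CompactSpace.uniformContinuous_of_continuous h.continuous
  -- closeness of the averages
  have hclose : ∀ ε > 0, ∃ N : ℕ, ∀ n ≥ N, ∀ m ≥ N, |av (S h) n m θ - h θ| ≤ ε := by
    intro ε hε
    obtain ⟨δ, hδ, hδh⟩ := Metric.uniformContinuous_iff.mp hu ε hε
    obtain ⟨N, hN⟩ := exists_nat_one_div_lt (half_pos hδ)
    refine ⟨N, fun n hn m hm => ?_⟩
    have hNn : ∀ k : ℕ, N ≤ k → 1 / ((k : ℝ) + 1) < δ / 2 := by
      intro k hk
      refine lt_of_le_of_lt ?_ hN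
      have : (N : ℝ) ≤ k := by exact_mod_cast hk
      gcongr
    have h1 : av (S h) n m θ - h θ = ∫ y : G, (S h (stoneCechUnit (cn n (y + θ)),
        stoneCechUnit (cn m y)) - h θ) := by
      rw [integral_sub (integrable_integrand (S h) (fun p => (S h).norm_coe_le_norm p) n m θ)
        (integrable_const _)]
      simp [av]
    rw [h1]
    have h6 := norm_integral_le_of_norm_le_const (μ := (volume : Measure G)) (C := ε)
      (f := fun y : G => (S h (stoneCechUnit (cn n (y + θ)),
        stoneCechUnit (cn m y)) - h θ)) (Eventually.of_forall fun y => by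
          rw [S_apply, bq_unit, bq_unit, ← dist_eq_norm]
          refine (hδh ?_).le
          have e1 := cn_spec n (y + θ)
          have e2 := cn_spec m y
          have e3 := hNn n hn
          have e4 := hNn m hm
          calc dist (q (cn n (y + θ)) - q (cn m y)) θ
              = dist (q (cn n (y + θ)) - q (cn m y)) ((y + θ) - y) := by
                rw [add_sub_cancel_left]
            _ ≤ dist (q (cn n (y + θ))) (y + θ) + dist (q (cn m y)) y := dist_sub_sub_le _ _ _ _
            _ < δ := by linarith)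
    simpa using h6
  have hin : ∀ ε > 0, ∃ N : ℕ, ∀ n ≥ N, |ulim (fun m => av (S h) n m θ) - h θ| ≤ ε := by
    intro ε hε
    obtain ⟨N, hN⟩ := hclose ε hε
    refine ⟨N, fun n hn => ?_⟩
    have hb := fun m => abs_av_le (S h) (fun p => (S h).norm_coe_le_norm p) n m θ
    have ht := tendsto_ulim hb
    have ht2 : Tendsto (fun m => |av (S h) n m θ - h θ|) (hyperfilter ℕ : Filter ℕ)
        (𝓝 |ulim (fun m => av (S h) n m θ) - h θ|) := (ht.sub_const _).abs
    refine le_of_tendsto ht2 ?_
    have hev : ∀ᶠ m in (atTop : Filter ℕ), |av (S h) n m θ - h θ| ≤ ε := by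
      filter_upwards [eventually_ge_atTop N] with m hm
      exact hN n hn m hm
    rw [← Nat.cofinite_eq_atTop] at hev
    exact hyperfilter_le_cofinite hev
  unfold M
  apply ulim_eq_of_tendsto
  rw [Metric.tendsto_atTop]
  intro ε hε
  obtain ⟨N, hN⟩ := hin (ε / 2) (half_pos hε)
  refine ⟨N, fun n hn => ?_⟩
  rw [Real.dist_eq]
  exact lt_of_le_of_lt (hN n hn) (half_lt_self hε)

end Pool.Agent.H86R3.Beta
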