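import Mathlib

set_option autoImplicit false

open Filter Topology Set

namespace Pool.Agent.H86R3

/-- Short name for the space of real null sequences. -/
abbrev CZ : Type := ZeroAtInftyContinuousMap ℕ ℝ

namespace CZ

/-- The element of `c_0` given by a null sequence. -/
noncomputable def ofSeq (a : ℕ → ℝ) (h : Tendsto a atTop (𝓝 0)) : CZ where
  toFun := a
  continuous_toFun := continuous_of_discreteTopology
  zero_at_infty' := by
    rw [cocompact_eq_cofinite, Nat.cofinite_eq_atTop]; exact h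

@[simp] lemma ofSeq_apply (a : ℕ → ℝ) (h : Tendsto a atTop (𝓝 0)) (n : ℕ) :
    ofSeq a h n = a n := rfl

lemma tendsto (f : CZ) : Tendsto f atTop (𝓝 0) := by
  have := f.zero_at_infty'
  rw [cocompact_eq_cofinite, Nat.cofinite_eq_atTop] at this
  exact this

lemma abs_apply_le (f : CZ) (n : ℕ) : |f n| ≤ ‖f‖ := by
  have := f.toBCF.norm_coe_le_norm n
  rw [ZeroAtInftyContinuousMap.norm_toBCF_eq_norm] at this
  exact this

lemma norm_le_iff (f : CZ) {C : ℝ} (hC : 0 ≤ C) : ‖f‖ ≤ C ↔ ∀ n, |f n| ≤ C := by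
  rw [← ZeroAtInftyContinuousMap.norm_toBCF_eq_norm, BoundedContinuousFunction.norm_le hC]
  rfl

/-- Truncation to the first `N` coordinates. -/
noncomputable def trunc (f : CZ) (N : ℕ) : CZ :=
  ofSeq (fun n => if n < N then f n else 0) (by
    refine tendsto_const_nhds.congr' ?_
    filter_upwards [eventually_ge_atTop N] with n hn
    simp [not_lt.mpr hn])

@[simp] lemma trunc_apply (f : CZ) (N n : ℕ) : trunc f N n = if n < N then f n else 0 := rfl

/-- Unit vectors. -/
noncomputable def unit (k : ℕ) : CZ :=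
  ofSeq (fun n => if n = k then 1 else 0) (by
    refine tendsto_const_nhds.congr' ?_
    filter_upwards [eventually_gt_atTop k] with n hn
    simp [hn.ne'])

@[simp] lemma unit_apply (k n : ℕ) : unit k n = if n = k then 1 else 0 := rfl

lemma trunc_eq_sum (f : CZ) (N : ℕ) : trunc f N = ∑ k ∈ Finset.range N, f k • unit k := by
  ext n
  have h1 : ∀ s : Finset ℕ, (∑ k ∈ s, f k • unit k) n = ∑ k ∈ s, (f k • unit k) n := by
    intro s
    induction s using Finset.induction_on with
    | empty => simp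
    | insert a s ha ih =>
      rw [Finset.sum_insert ha, Finset.sum_insert ha, ← ih]; rfl
  rw [h1]
  simp only [trunc_apply, ZeroAtInftyContinuousMap.smul_apply, unit_apply, smul_eq_mul, mul_ite,
    mul_one, mul_zero, Finset.sum_ite_eq, Finset.mem_range]

lemma norm_sub_trunc_le (f : CZ) (N : ℕ) : ∀ C : ℝ, 0 ≤ C → (∀ n, N ≤ n → |f n| ≤ C) →
    ‖f - trunc f N‖ ≤ C := by
  intro C hC h
  rw [norm_le_iff _ hC]
  intro n
  rw [ZeroAtInftyContinuousMap.sub_apply, trunc_apply]
  split_ifs with hn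
  · simpa using hC
  · simpa using h n (not_lt.mp hn)

lemma tendsto_trunc (f : CZ) : Tendsto (fun N => trunc f N) atTop (𝓝 f) := by
  rw [Metric.tendsto_atTop]
  intro ε hε
  have h := (Metric.tendsto_atTop.mp (tendsto f)) (ε / 2) (half_pos hε)
  obtain ⟨N, hN⟩ := h
  refine ⟨N, fun n hn => ?_⟩
  rw [dist_comm, dist_eq_norm]
  refine lt_of_le_of_lt (norm_sub_trunc_le f n (ε / 2) (half_pos hε).le ?_) (half_lt_self hε)
  intro m hm
  have := hN m (hn.trans hm)
  rw [Real.dist_eq, sub_zero] at this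
  exact this.le

/-- For a bounded functional, the values on the unit vectors are absolutely summable. -/
lemma sum_abs_le (φ : CZ →L[ℝ] ℝ) (s : Finset ℕ) : ∑ k ∈ s, |φ (unit k)| ≤ ‖φ‖ := by
  classical
  set a : ℕ → ℝ := fun n => if n ∈ s then SignType.sign (φ (unit n)) else 0 with ha
  have hlim : Tendsto a atTop (𝓝 0) := by
    refine tendsto_const_nhds.congr' ?_
    obtain ⟨N, hN⟩ := s.exists_nat_subset_range
    filter_upwards [eventually_ge_atTop N] with n hn
    have : n ∉ s := fun h => by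
      have := Finset.mem_range.mp (hN h); omega
    simp [ha, this]
  have hval : φ (∑ k ∈ s, (SignType.sign (φ (unit k)) : ℝ) • unit k) = ∑ k ∈ s, |φ (unit k)| := by
    rw [map_sum]
    refine Finset.sum_congr rfl fun k _ => ?_
    rw [map_smul, smul_eq_mul, sign_mul_self]
  have heq : (∑ k ∈ s, (SignType.sign (φ (unit k)) : ℝ) • unit k) = ofSeq a hlim := by
    ext n
    have h1 : ∀ t : Finset ℕ, (∑ k ∈ t, (SignType.sign (φ (unit k)) : ℝ) • unit k) n
        = ∑ k ∈ t, ((SignType.sign (φ (unit k)) : ℝ) • unit k) n := by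
      intro t
      induction t using Finset.induction_on with
      | empty => simp
      | insert a t ha ih =>
        rw [Finset.sum_insert ha, Finset.sum_insert ha, ← ih]; rfl
    rw [h1]
    simp only [ZeroAtInftyContinuousMap.smul_apply, unit_apply, smul_eq_mul, mul_ite,
      mul_one, mul_zero, Finset.sum_ite_eq, ofSeq_apply, ha]
  have hnorm : ‖ofSeq a hlim‖ ≤ 1 := by
    rw [norm_le_iff _ zero_le_one]
    intro n
    rw [ofSeq_apply, ha]
    dsimp only
    split_ifs
    · rcases lt_trichotomy (φ (unit n)) 0 with h | h | h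
      · simp [sign_neg h]
      · simp [h]
      · simp [sign_pos h]
    · simp
  calc ∑ k ∈ s, |φ (unit k)| = φ (ofSeq a hlim) := by rw [← hval, heq]
    _ ≤ ‖φ (ofSeq a hlim)‖ := le_abs_self _
    _ ≤ ‖φ‖ * ‖ofSeq a hlim‖ := φ.le_opNorm _
    _ ≤ ‖φ‖ * 1 := by gcongr
    _ = ‖φ‖ := mul_one _

/-- Tail smallness of a bounded functional on `c_0`. -/
lemma exists_tail (φ : CZ →L[ℝ] ℝ) {ε : ℝ} (hε : 0 < ε) :
    ∃ N : ℕ, ∀ a : CZ, (∀ n, n < N → a n = 0) → |φ a| ≤ ε * ‖a‖ := by
  have hsum : Summable (fun k => |φ (unit k)|) :=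
    summable_of_sum_le (fun _ => abs_nonneg _) (sum_abs_le φ)
  obtain ⟨s, hs⟩ := (summable_iff_vanishing_norm.mp hsum) ε hε
  obtain ⟨N, hN⟩ := s.exists_nat_subset_range
  refine ⟨N, fun a ha => ?_⟩
  have hbound : ∀ K : ℕ, |φ (trunc a K)| ≤ ε * ‖a‖ := by
    intro K
    rw [trunc_eq_sum, map_sum]
    have h1 : ∑ k ∈ Finset.range K, φ (a k • unit k)
        = ∑ k ∈ (Finset.range K).filter (fun k => N ≤ k), φ (a k • unit k) := by
      symm
      apply Finset.sum_subset (Finset.filter_subset _ _)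
      intro x hx hx'
      have : x < N := by
        by_contra h
        exact hx' (Finset.mem_filter.mpr ⟨hx, not_lt.mp h⟩)
      rw [ha x this, zero_smul, map_zero]
    rw [h1]
    have hdisj : Disjoint ((Finset.range K).filter (fun k => N ≤ k)) s := by
      rw [Finset.disjoint_left]
      intro x hx hxs
      have h2 := Finset.mem_range.mp (hN hxs)
      have h3 := (Finset.mem_filter.mp hx).2
      omega
    have h4 := hs _ hdisj
    rw [Real.norm_eq_abs, abs_of_nonneg (Finset.sum_nonneg fun _ _ => abs_nonneg _)] at h4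
    calc |∑ k ∈ (Finset.range K).filter (fun k => N ≤ k), φ (a k • unit k)|
        ≤ ∑ k ∈ (Finset.range K).filter (fun k => N ≤ k), |φ (a k • unit k)| :=
          Finset.abs_sum_le_sum_abs _ _
      _ ≤ ∑ k ∈ (Finset.range K).filter (fun k => N ≤ k), ‖a‖ * |φ (unit k)| := by
          refine Finset.sum_le_sum fun k _ => ?_
          rw [map_smul, smul_eq_mul, abs_mul]
          gcongr
          exact abs_apply_le a k
      _ = ‖a‖ * ∑ k ∈ (Finset.range K).filter (fun k => N ≤ k), |φ (unit k)| := by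
          rw [Finset.mul_sum]
      _ ≤ ‖a‖ * ε := by gcongr
      _ = ε * ‖a‖ := mul_comm _ _
  have hlim : Tendsto (fun K => |φ (trunc a K)|) atTop (𝓝 |φ a|) :=
    ((φ.continuous.tendsto a).comp (tendsto_trunc a)).abs
  exact le_of_tendsto' hlim hbound

end CZ

end Pool.Agent.H86R3
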