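import Pool.Agent.H86R3.BetaC
import Pool.Agent.H86R3.CZero

set_option autoImplicit false

open Filter Topology Set MeasureTheory

namespace Pool.Agent.H86R3.Beta

instance : Nontrivial G := by
  refine ⟨⟨((1 / 2 : ℝ) : G), 0, ?_⟩⟩
  intro h
  rw [AddCircle.coe_eq_zero_iff] at h
  obtain ⟨n, hn⟩ := h
  have h1 : (n : ℝ) = 1 / 2 := by simpa using hn
  have h2 : (2 * n : ℝ) = 1 := by rw [h1]; norm_num
  have h3 : (2 * n : ℤ) = 1 := by exact_mod_cast h2
  omega

/-- The identity of `C(G)` does not factor through `c_0`. -/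
lemma no_factor (Ψ : CZ →L[ℝ] C(G, ℝ)) (Θ : C(G, ℝ) →L[ℝ] CZ) (h : ∀ f, Ψ (Θ f) = f) : False := by
  set c : ℝ := ‖Θ‖ + 1 with hc
  have hc0 : 0 < c := by positivity
  set ε : ℝ := 1 / (4 * c) with hε
  have hε0 : 0 < ε := by positivity
  let F : ℕ → Set G := fun N => {x | ∀ a : CZ, (∀ n, n < N → a n = 0) → |Ψ a x| ≤ ε * ‖a‖}
  have hclosed : ∀ N, IsClosed (F N) := by
    intro N
    have : F N = ⋂ a : CZ, ⋂ _ : (∀ n, n < N → a n = 0), {x | |Ψ a x| ≤ ε * ‖a‖} := by
      ext x; simp [F]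
    rw [this]
    refine isClosed_iInter fun a => isClosed_iInter fun _ => ?_
    exact isClosed_le (Ψ a).continuous.abs continuous_const
  have hunion : (⋃ N, F N) = univ := by
    rw [eq_univ_iff_forall]
    intro x
    obtain ⟨N, hN⟩ := CZ.exists_tail ((ContinuousMap.evalCLM ℝ x).comp Ψ) hε0
    exact mem_iUnion.mpr ⟨N, fun a ha => hN a ha⟩
  obtain ⟨N, x, hx⟩ := nonempty_interior_of_iUnion_of_closed hclosed hunion
  -- a second point near `x`
  have hopen : IsOpen (interior (F N) ∩ ⋂ k ∈ Finset.range N,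
      {y | |Ψ (CZ.unit k) y - Ψ (CZ.unit k) x| < ε / (N + 1)}) := by
    refine isOpen_interior.inter ?_
    refine isOpen_biInter_finset fun k _ => ?_
    exact isOpen_lt (((Ψ (CZ.unit k)).continuous.sub continuous_const).abs) continuous_const
  have hxm : x ∈ interior (F N) ∩ ⋂ k ∈ Finset.range N,
      {y | |Ψ (CZ.unit k) y - Ψ (CZ.unit k) x| < ε / (N + 1)} := by
    refine ⟨hx, ?_⟩
    rw [mem_iInter₂]
    intro k _
    simp only [mem_ofPred_eq, sub_self, abs_zero]
    positivity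
  obtain ⟨y, hy, hyx⟩ : ∃ y, y ∈ interior (F N) ∩ (⋂ k ∈ Finset.range N,
      {y | |Ψ (CZ.unit k) y - Ψ (CZ.unit k) x| < ε / (N + 1)}) ∧ y ≠ x := by
    have hne : (𝓝[≠] x).NeBot := inferInstance
    have hmem : (interior (F N) ∩ ⋂ k ∈ Finset.range N,
      {y | |Ψ (CZ.unit k) y - Ψ (CZ.unit k) x| < ε / (N + 1)}) ∩ {x}ᶜ ∈ 𝓝[≠] x :=
      inter_mem (mem_nhdsWithin_of_mem_nhds (hopen.mem_nhds hxm)) self_mem_nhdsWithin
    obtain ⟨y, hy⟩ := hne.nonempty_of_mem hmem
    exact ⟨y, hy.1, hy.2⟩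
  obtain ⟨f, hf⟩ := exists_continuous_zero_one_of_isClosed (X := G) (isClosed_singleton (x := x))
    (isClosed_singleton (x := y)) (by simpa using hyx.symm)
  have hfx : f x = 0 := hf.1 (mem_singleton x)
  have hfy : f y = 1 := hf.2.1 (mem_singleton y)
  have hfn : ‖f‖ ≤ 1 := by
    rw [ContinuousMap.norm_le _ zero_le_one]
    intro z
    have := hf.2.2 z
    rw [Real.norm_eq_abs, abs_of_nonneg this.1]
    exact this.2
  set a : CZ := Θ f with ha
  have han : ‖a‖ ≤ c := by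
    calc ‖a‖ ≤ ‖Θ‖ * ‖f‖ := Θ.le_opNorm f
      _ ≤ ‖Θ‖ * 1 := by gcongr
      _ ≤ c := by rw [hc]; linarith
  have hΨa : Ψ a = f := h f
  -- split `a`
  have hsplit : a = CZ.trunc a N + (a - CZ.trunc a N) := by abel
  have htail : ∀ n, n < N → (a - CZ.trunc a N) n = 0 := by
    intro n hn
    rw [ZeroAtInftyContinuousMap.sub_apply, CZ.trunc_apply, if_pos hn, sub_self]
  have htn : ‖a - CZ.trunc a N‖ ≤ ‖a‖ :=
    CZ.norm_sub_trunc_le a N ‖a‖ (norm_nonneg _) (fun n _ => CZ.abs_apply_le a n)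
  have hx1 : |Ψ (a - CZ.trunc a N) x| ≤ ε * c := by
    have := interior_subset hx (a - CZ.trunc a N) htail
    calc _ ≤ ε * ‖a - CZ.trunc a N‖ := this
      _ ≤ ε * c := by gcongr; exact htn.trans han
  have hy1 : |Ψ (a - CZ.trunc a N) y| ≤ ε * c := by
    have := interior_subset hy.1 (a - CZ.trunc a N) htail
    calc _ ≤ ε * ‖a - CZ.trunc a N‖ := this
      _ ≤ ε * c := by gcongr; exact htn.trans han
  have htr : |Ψ (CZ.trunc a N) y - Ψ (CZ.trunc a N) x| ≤ ε * c := by
    rw [CZ.trunc_eq_sum, map_sum, ContinuousMap.sum_apply, ContinuousMap.sum_apply,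
      ← Finset.sum_sub_distrib]
    calc |∑ k ∈ Finset.range N, (Ψ (a k • CZ.unit k) y - Ψ (a k • CZ.unit k) x)|
        ≤ ∑ k ∈ Finset.range N, |Ψ (a k • CZ.unit k) y - Ψ (a k • CZ.unit k) x| :=
          Finset.abs_sum_le_sum_abs _ _
      _ ≤ ∑ k ∈ Finset.range N, c * (ε / (N + 1)) := by
          refine Finset.sum_le_sum fun k hk => ?_
          rw [map_smul, ContinuousMap.smul_apply, ContinuousMap.smul_apply, smul_eq_mul,
            smul_eq_mul, ← mul_sub, abs_mul]
          have h1 := mem_iInter₂.mp hy.2 k hk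
          gcongr
          · exact (CZ.abs_apply_le a k).trans han
          · exact h1.le
      _ = N * (c * (ε / (N + 1))) := by rw [Finset.sum_const, Finset.card_range, nsmul_eq_mul]
      _ = ε * c * (N / (N + 1)) := by ring
      _ ≤ ε * c * 1 := by
          gcongr
          rw [div_le_one (by positivity)]
          linarith
      _ = ε * c := mul_one _
  have hfin : |f y - f x| ≤ 3 * (ε * c) := by
    rw [← hΨa, hsplit, map_add, ContinuousMap.add_apply, ContinuousMap.add_apply]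
    rw [abs_le] at hx1 hy1 htr ⊢
    constructor <;> linarith [hx1.1, hx1.2, hy1.1, hy1.2, htr.1, htr.2]
  rw [hfx, hfy, sub_zero, abs_one] at hfin
  have : ε * c = 1 / 4 := by rw [hε]; field_simp
  rw [this] at hfin
  norm_num at hfin

/-- `C(G)` is not finite dimensional. -/
lemma not_findim : ¬ FiniteDimensional ℝ C(G, ℝ) := by
  intro hfd
  -- the identity would factor through `c_0`
  have := hfd
  let n := Module.finrank ℝ C(G, ℝ)
  let b := Module.finBasis ℝ C(G, ℝ)
  let Θl : C(G, ℝ) →ₗ[ℝ] CZ := b.constr ℝ (fun i => CZ.unit i)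
  let Ψl : CZ →ₗ[ℝ] C(G, ℝ) :=
    { toFun := fun a => ∑ i : Fin n, a i • b i
      map_add' := by
        intro a a'
        simp only [ZeroAtInftyContinuousMap.add_apply, add_smul, Finset.sum_add_distrib]
      map_smul' := by
        intro c a
        simp only [ZeroAtInftyContinuousMap.smul_apply, smul_eq_mul, mul_smul, Finset.smul_sum,
          RingHom.id_apply] }
  let Θ : C(G, ℝ) →L[ℝ] CZ := LinearMap.toContinuousLinearMap Θl
  let Ψ : CZ →L[ℝ] C(G, ℝ) := Ψl.mkContinuous (∑ i : Fin n, ‖b i‖) (by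
    intro a
    calc ‖∑ i : Fin n, a i • b i‖ ≤ ∑ i : Fin n, ‖a i • b i‖ := norm_sum_le _ _
      _ ≤ ∑ i : Fin n, ‖b i‖ * ‖a‖ := by
          refine Finset.sum_le_sum fun i _ => ?_
          rw [norm_smul, mul_comm]
          gcongr
          exact CZ.abs_apply_le a i
      _ = (∑ i : Fin n, ‖b i‖) * ‖a‖ := by rw [Finset.sum_mul])
  refine no_factor Ψ Θ ?_
  have : ∀ f, Ψl (Θl f) = f := by
    intro f
    have h2 : Ψl ∘ₗ Θl = LinearMap.id := by
      apply b.ext
      intro j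
      simp only [LinearMap.comp_apply, LinearMap.id_apply, Θl, Module.Basis.constr_basis]
      change ∑ i : Fin n, (CZ.unit (j : ℕ)) (i : ℕ) • b i = b j
      simp only [CZ.unit_apply, ite_smul, one_smul, zero_smul]
      rw [Finset.sum_eq_single j]
      · simp
      · intro i _ hij
        rw [if_neg]
        intro h; exact hij (Fin.ext h)
      · simp
    exact LinearMap.congr_fun h2 f
  exact this

theorem main : ¬ (∀ X : Submodule ℝ C(StoneCech ℕ × StoneCech ℕ, ℝ),
      X.ClosedComplemented →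
      TopologicalSpace.SeparableSpace X →
      ¬ FiniteDimensional ℝ X →
      Nonempty (X ≃L[ℝ] ZeroAtInftyContinuousMap ℕ ℝ)) := by
  intro hall
  have hmem : ∀ f, S f ∈ LinearMap.range (S : C(G, ℝ) →ₗ[ℝ] C(B × B, ℝ)) := fun f => ⟨f, rfl⟩
  let X : Submodule ℝ C(B × B, ℝ) := LinearMap.range (S : C(G, ℝ) →ₗ[ℝ] C(B × B, ℝ))
  let S' : C(G, ℝ) →L[ℝ] X := S.codRestrict X hmem
  let T' : X →L[ℝ] C(G, ℝ) := T.comp X.subtypeL
  have hT'S' : ∀ f, T' (S' f) = f := fun f => TS f
  have hS'T' : ∀ x, S' (T' x) = x := by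
    rintro ⟨x, ⟨f, rfl⟩⟩
    have : T' (⟨S f, hmem f⟩ : X) = f := TS f
    change S' (T' (⟨S f, hmem f⟩ : X)) = _
    rw [this]; rfl
  have h1 : X.ClosedComplemented := by
    refine ⟨S'.comp T, fun x => ?_⟩
    exact hS'T' x
  have h2 : TopologicalSpace.SeparableSpace X := by
    have hsurj : Function.Surjective S' := fun x => ⟨T' x, hS'T' x⟩
    exact hsurj.denseRange.separableSpace S'.continuous
  have h3 : ¬ FiniteDimensional ℝ X := by
    intro hfd
    apply not_findim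
    have hsurj : Function.Surjective (T' : X →ₗ[ℝ] C(G, ℝ)) := fun f => ⟨S' f, hT'S' f⟩
    exact Module.Finite.of_surjective (T' : X →ₗ[ℝ] C(G, ℝ)) hsurj
  obtain ⟨Φ⟩ := hall X h1 h2 h3
  refine no_factor (T'.comp (Φ.symm : CZ →L[ℝ] X)) ((Φ : X →L[ℝ] CZ).comp S') ?_
  intro f
  simp only [ContinuousLinearMap.comp_apply, ContinuousLinearEquiv.coe_coe,
    ContinuousLinearEquiv.symm_apply_apply]
  exact hT'S' f

end Pool.Agent.H86R3.Beta
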