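import Mathlib

set_option autoImplicit false

open Filter Topology Set
open scoped NNReal unitInterval

namespace Pool.Agent.H86R3

/-- Digit functions on the unit interval, pointwise null, with all patterns of size at most `n`. -/
lemma exists_e (n : ℕ) : ∃ e : ℕ → C(I, ℝ≥0), (∀ m t, e m t ≤ 1) ∧
    (∀ t, Tendsto (fun m => e m t) atTop (𝓝 0)) ∧
    ∀ u : Finset ℕ, u.card ≤ n → ∃ t, ∀ m ∈ u, e m t = 1 := by
  have hperf : Perfect (univ : Set I) :=
    ⟨isClosed_univ, isPreconnected_univ.preperfect_of_nontrivial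
      ⟨0, mem_univ _, 1, mem_univ _, zero_ne_one⟩⟩
  obtain ⟨f, -, hfc, hfi⟩ := hperf.exists_nat_bool_injection univ_nonempty
  have hemb : IsClosedEmbedding f := hfc.isClosedEmbedding hfi
  let d : ℕ → C(ℕ → Bool, ℝ) := fun m => ⟨fun x => if x m then 1 else 0, by
    have h1 : Continuous fun b : Bool => (if b then (1 : ℝ) else 0) :=
      continuous_of_discreteTopology
    exact h1.comp (continuous_apply m)⟩
  have hd : ∀ m x, d m x ∈ Set.Icc (0 : ℝ) 1 := by
    intro m x
    change (if x m then (1 : ℝ) else 0) ∈ Set.Icc (0 : ℝ) 1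
    split_ifs <;> simp
  have hex : ∀ m, ∃ g : C(I, ℝ), (∀ y, g y ∈ Set.Icc (0 : ℝ) 1) ∧ g ∘ f = d m := fun m =>
    ContinuousMap.exists_extension_forall_mem_of_isClosedEmbedding (d m) (hd m)
      ⟨0, by simp⟩ hemb
  choose e0 he0 he0f using hex
  let Fn : Set I := {t | ∀ N : ℕ, ∑ m ∈ Finset.range N, e0 m t ≤ n}
  have hFc : IsClosed Fn := by
    have : Fn = ⋂ N : ℕ, {t | ∑ m ∈ Finset.range N, e0 m t ≤ n} := by
      ext t; simp [Fn]
    rw [this]
    refine isClosed_iInter fun N => isClosed_le ?_ continuous_const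
    exact continuous_finsetSum _ fun m _ => (e0 m).continuous
  have hpt : ∀ u : Finset ℕ, u.card ≤ n → ∃ t ∈ Fn, ∀ m ∈ u, e0 m t = 1 := by
    intro u hu
    refine ⟨f (fun m => decide (m ∈ u)), ?_, ?_⟩
    · intro N
      have h1 : ∀ m, e0 m (f (fun m => decide (m ∈ u))) = if m ∈ u then 1 else 0 := by
        intro m
        have := congrFun (he0f m) (fun m => decide (m ∈ u))
        simp only [Function.comp_apply] at this
        rw [this]
        simp [d]
      simp only [h1]
      rw [Finset.sum_ite_mem, Finset.sum_const, nsmul_eq_mul, mul_one]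
      have h2 : (Finset.range N ∩ u).card ≤ u.card := Finset.card_le_card Finset.inter_subset_right
      exact_mod_cast h2.trans hu
    · intro m hm
      have := congrFun (he0f m) (fun m => decide (m ∈ u))
      simp only [Function.comp_apply] at this
      rw [this]
      simp [d, hm]
  have hne : Fn.Nonempty := by
    obtain ⟨t, ht, _⟩ := hpt ∅ (by simp)
    exact ⟨t, ht⟩
  let e : ℕ → C(I, ℝ≥0) := fun m => ⟨fun t => Real.toNNReal (e0 m t - m * Metric.infDist t Fn),
    continuous_real_toNNReal.comp ((e0 m).continuous.sub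
      (continuous_const.mul (Metric.continuous_infDist_pt Fn)))⟩
  have he : ∀ m t, e m t = Real.toNNReal (e0 m t - m * Metric.infDist t Fn) := fun m t => rfl
  refine ⟨e, ?_, ?_, ?_⟩
  · intro m t
    rw [he, Real.toNNReal_le_one]
    have h1 := (he0 m t).2
    have h2 : 0 ≤ (m : ℝ) * Metric.infDist t Fn := by
      have := Metric.infDist_nonneg (x := t) (s := Fn)
      positivity
    linarith
  · intro t
    by_cases ht : t ∈ Fn
    · have h0 : Metric.infDist t Fn = 0 := Metric.infDist_zero_of_mem ht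
      have hs : Summable (fun m => e0 m t) :=
        summable_of_sum_range_le (fun m => (he0 m t).1) (fun N => ht N)
      have h1 := hs.tendsto_atTop_zero
      have h2 : Tendsto (fun m => Real.toNNReal (e0 m t)) atTop (𝓝 (Real.toNNReal 0)) :=
        (continuous_real_toNNReal.tendsto 0).comp h1
      rw [Real.toNNReal_zero] at h2
      refine h2.congr fun m => ?_
      rw [he, h0, mul_zero, sub_zero]
    · have h0 : 0 < Metric.infDist t Fn :=
        (hFc.notMem_iff_infDist_pos hne).mp ht
      refine tendsto_const_nhds.congr' ?_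
      obtain ⟨N, hN⟩ := exists_nat_gt (1 / Metric.infDist t Fn)
      filter_upwards [eventually_ge_atTop N] with m hm
      rw [he, eq_comm, Real.toNNReal_eq_zero]
      have h1 := (he0 m t).2
      have h2 : (N : ℝ) ≤ m := by exact_mod_cast hm
      rw [div_lt_iff₀ h0] at hN
      have h3 : (N : ℝ) * Metric.infDist t Fn ≤ m * Metric.infDist t Fn := by gcongr
      linarith
  · intro u hu
    obtain ⟨t, ht, htu⟩ := hpt u hu
    refine ⟨t, fun m hm => ?_⟩
    rw [he, Metric.infDist_zero_of_mem ht, htu m hm]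
    simp

/-- The same on every space that maps onto the unit interval. -/
lemma exists_e' {K : Type*} [TopologicalSpace K] (ψ : C(K, I)) (hψ : Function.Surjective ψ)
    (n : ℕ) : ∃ e : ℕ → C(K, ℝ≥0), (∀ m t, e m t ≤ 1) ∧
    (∀ t, Tendsto (fun m => e m t) atTop (𝓝 0)) ∧
    ∀ u : Finset ℕ, u.card ≤ n → ∃ t, ∀ m ∈ u, e m t = 1 := by
  obtain ⟨e, h1, h2, h3⟩ := exists_e n
  refine ⟨fun m => (e m).comp ψ, fun m t => h1 m _, fun t => h2 _, fun u hu => ?_⟩
  obtain ⟨t, ht⟩ := h3 u hu
  obtain ⟨x, rfl⟩ := hψ t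
  exact ⟨x, ht⟩

end Pool.Agent.H86R3
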