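import Pool.Agent.H86R3.VecMeas

set_option autoImplicit false

open Filter Topology Set

namespace Pool.Agent.H86R3

variable {K : Type*} [TopologicalSpace K] [CompactSpace K]

/-- No complemented copy of `c_0`. -/
def NoC0 (K : Type*) [TopologicalSpace K] [CompactSpace K] : Prop :=
  ¬ ∃ (J : CZ →L[ℝ] C(K, ℝ)) (Q : C(K, ℝ) →L[ℝ] CZ), Q.comp J = ContinuousLinearMap.id ℝ _

/-- Functions with pairwise disjoint supports form a WUC sequence. -/
lemma wuc_of_disjoint (f : ℕ → C(K, ℝ)) (hf : ∀ n, ‖f n‖ ≤ 1)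
    (hd : ∀ m n, m < n → ∀ t, f n t ≠ 0 → f m t = 0) : WUC f 1 := by
  classical
  intro F a ha
  rw [ContinuousMap.norm_le _ zero_le_one]
  intro t
  rw [ContinuousMap.sum_apply]
  have hd' : ∀ m n, m ≠ n → f n t ≠ 0 → f m t = 0 := by
    intro m n hmn hn
    rcases lt_or_gt_of_ne hmn with h | h
    · exact hd m n h t hn
    · by_contra hm
      exact hn (hd n m h t hm)
  by_cases hex : ∃ n ∈ F, f n t ≠ 0
  · obtain ⟨n, hn, hnt⟩ := hex
    rw [Finset.sum_eq_single n]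
    · rw [ContinuousMap.smul_apply, norm_smul]
      calc ‖a n‖ * ‖f n t‖ ≤ 1 * 1 := by
            gcongr
            · exact ha n
            · exact ((f n).norm_coe_le_norm t).trans (hf n)
        _ = 1 := one_mul 1
    · intro m _ hmn
      rw [ContinuousMap.smul_apply, hd' m n hmn hnt, smul_zero]
    · intro h; exact absurd hn h
  · push Not at hex
    rw [Finset.sum_eq_zero]
    · simp
    · intro n hn
      rw [ContinuousMap.smul_apply, hex n hn, smul_zero]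

/-- Uniform smallness of weak-star null sequences near a closed set, if `c_0` is not complemented
in `C(K)`. -/
lemma unif_small [T2Space K] (hK : NoC0 K) (A : Set K)
    (ν : ℕ → C(K, ℝ) →L[ℝ] ℝ) {D : ℝ} (hD : ∀ n, ‖ν n‖ ≤ D)
    (hν : ∀ f, Tendsto (fun n => ν n f) atTop (𝓝 0)) {ε : ℝ} (hε : 0 < ε) :
    ∃ U : Set K, IsOpen U ∧ A ⊆ U ∧ ∃ i0 : ℕ, ∀ i, i0 ≤ i → ∀ φ : C(K, ℝ), ‖φ‖ ≤ 1 →
      (∀ t ∈ A, φ t = 0) → (∀ t, t ∉ U → φ t = 0) → |ν i φ| ≤ ε := by
  by_contra hcon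
  push Not at hcon
  have hD0 : 0 ≤ D := (norm_nonneg (ν 0)).trans (hD 0)
  set η : ℝ := ε / (2 * (D + 1)) with hηd
  have hη : 0 < η := by positivity
  let St := {p : Set K × ℕ // IsOpen p.1 ∧ A ⊆ p.1}
  have hstep : ∀ s : St, ∃ (i : ℕ) (φ : C(K, ℝ)), s.1.2 + 1 ≤ i ∧ ‖φ‖ ≤ 1 ∧ (∀ t ∈ A, φ t = 0) ∧
      (∀ t, t ∉ s.1.1 → φ t = 0) ∧ ε < |ν i φ| := by
    intro s
    obtain ⟨i, hi, φ, h1, h2, h3, h4⟩ := hcon s.1.1 s.2.1 s.2.2 (s.1.2 + 1)
    exact ⟨i, φ, hi, h1, h2, h3, h4⟩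
  choose I Φ hI hΦn hΦA hΦU hΦν using hstep
  have hnext : ∀ s : St, IsOpen (s.1.1 ∩ {t | ‖Φ s t‖ < η}) ∧ A ⊆ s.1.1 ∩ {t | ‖Φ s t‖ < η} := by
    intro s
    refine ⟨s.2.1.inter (isOpen_lt (Φ s).continuous.norm continuous_const), fun t ht => ⟨s.2.2 ht, ?_⟩⟩
    rw [mem_ofPred_eq, hΦA s t ht, norm_zero]; exact hη
  let st : ℕ → St := fun n => Nat.rec ⟨(univ, 0), isOpen_univ, subset_univ _⟩
    (fun _ s => ⟨(s.1.1 ∩ {t | ‖Φ s t‖ < η}, I s), hnext s⟩) n
  have hst : ∀ n, st (n + 1) = ⟨((st n).1.1 ∩ {t | ‖Φ (st n) t‖ < η}, I (st n)), hnext (st n)⟩ :=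
    fun n => rfl
  let f : ℕ → C(K, ℝ) := fun n => soft η hη (Φ (st n))
  let idx : ℕ → ℕ := fun n => I (st n)
  have hidx : StrictMono idx := by
    apply strictMono_nat_of_lt_succ
    intro n
    have h1 := hI (st (n + 1))
    have h2 : (st (n + 1)).1.2 = I (st n) := by rw [hst]
    rw [h2] at h1
    exact h1
  have hUanti : Antitone (fun n => (st n).1.1) := by
    apply antitone_nat_of_succ_le
    intro n
    rw [hst]
    exact inter_subset_left
  have hfn : ∀ n, ‖f n‖ ≤ 1 := fun n => (norm_soft η hη _).trans (hΦn _)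
  have hfout : ∀ n t, t ∉ (st n).1.1 → f n t = 0 := by
    intro n t ht
    apply soft_eq_zero
    rw [hΦU _ t ht, norm_zero]; exact hη.le
  have hfin : ∀ n t, t ∈ (st (n + 1)).1.1 → f n t = 0 := by
    intro n t ht
    apply soft_eq_zero
    rw [hst] at ht
    exact ht.2.le
  have hdisj : ∀ m n, m < n → ∀ t, f n t ≠ 0 → f m t = 0 := by
    intro m n hmn t ht
    have h1 : t ∈ (st n).1.1 := by
      by_contra h
      exact ht (hfout n t h)
    exact hfin m t (hUanti (Nat.succ_le_of_lt hmn) h1)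
  have hw := wuc_of_disjoint f hfn hdisj
  have hval : ∀ n, ε / 2 ≤ |ν (idx n) (f n)| := by
    intro n
    have h1 : |ν (idx n) (Φ (st n) - f n)| ≤ ε / 2 := by
      calc |ν (idx n) (Φ (st n) - f n)| ≤ ‖ν (idx n)‖ * ‖Φ (st n) - f n‖ :=
            (ν (idx n)).le_opNorm _
        _ ≤ D * η := by
            gcongr
            · exact hD _
            · exact norm_sub_soft η hη _
        _ = ε / 2 * (D / (D + 1)) := by rw [hηd]; field_simp
        _ ≤ ε / 2 * 1 := by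
            gcongr
            rw [div_le_one (by positivity)]; linarith
        _ = ε / 2 := mul_one _
    have h2 := hΦν (st n)
    have h3 : ν (idx n) (Φ (st n)) = ν (idx n) (Φ (st n) - f n) + ν (idx n) (f n) := by
      rw [← map_add, sub_add_cancel]
    have h4 := abs_add_le (ν (idx n) (Φ (st n) - f n)) (ν (idx n) (f n))
    rw [← h3] at h4
    change ε < |ν (idx n) (Φ (st n))| at h2
    linarith
  exact hK (hw.complemented (half_pos hε) (fun n => ν (idx n)) (fun n => hD _)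
    (fun g => (hν g).comp hidx.tendsto_atTop) hval)

variable {X : Type*} [NormedAddCommGroup X] [NormedSpace ℝ X]

/-- Elementary tensors. -/
noncomputable def ten (x : X) : C(K, ℝ) →L[ℝ] C(K, X) :=
  LinearMap.mkContinuous
    { toFun := fun f => sm f (ContinuousMap.const K x)
      map_add' := by intro f g; ext t; simp [add_smul]
      map_smul' := by intro c f; ext t; simp [mul_smul] } ‖x‖ (by
    intro f
    have := norm_sm_le f (ContinuousMap.const K x) (norm_nonneg f) (norm_nonneg x)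
      (fun t => f.norm_coe_le_norm t) (fun t => le_rfl)
    rw [mul_comm]
    exact this)

@[simp] lemma ten_apply (x : X) (f : C(K, ℝ)) (t : K) : ten x f t = f t • x := rfl

lemma norm_ten_le (x : X) : ‖(ten x : C(K, ℝ) →L[ℝ] C(K, X))‖ ≤ ‖x‖ :=
  LinearMap.mkContinuous_norm_le _ (norm_nonneg _) _

/-- Approximation by finite sums of elementary tensors. -/
lemma exists_tensor_approx (H : C(K, X)) {ε : ℝ} (hε : 0 < ε) :
    ∃ (T : Finset X) (ψ : X → C(K, ℝ)), (∀ x ∈ T, ∀ t, 0 ≤ ψ x t ∧ ψ x t ≤ 1) ∧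
      ∀ t, ‖H t - ∑ x ∈ T, ψ x t • x‖ ≤ ε := by
  classical
  obtain ⟨T0, _, hT0f, hcov⟩ := (isCompact_range H.continuous).finite_cover_balls (half_pos hε)
  set T := hT0f.toFinset with hT
  have hcov' : ∀ t, ∃ x ∈ T, ‖H t - x‖ < ε / 2 := by
    intro t
    have := hcov (mem_range_self t)
    rw [mem_iUnion₂] at this
    obtain ⟨x, hx, hxt⟩ := this
    refine ⟨x, by simpa [hT] using hx, ?_⟩
    rwa [Metric.mem_ball, dist_eq_norm] at hxt
  let w : X → K → ℝ := fun x t => max 0 (ε - ‖H t - x‖)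
  have hw0 : ∀ x t, 0 ≤ w x t := fun x t => le_max_left _ _
  have hwc : ∀ x, Continuous (w x) := fun x =>
    continuous_const.max (continuous_const.sub (H.continuous.sub continuous_const).norm)
  have hsum : ∀ t, 0 < ∑ x ∈ T, w x t := by
    intro t
    obtain ⟨x, hx, hxt⟩ := hcov' t
    refine Finset.sum_pos' (fun x _ => hw0 x t) ⟨x, hx, ?_⟩
    exact lt_max_of_lt_right (by linarith)
  refine ⟨T, fun x => ⟨fun t => w x t / ∑ y ∈ T, w y t,
    (hwc x).div (continuous_finsetSum _ fun y _ => hwc y) fun t => (hsum t).ne'⟩, ?_, ?_⟩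
  · intro x hx t
    refine ⟨div_nonneg (hw0 x t) (hsum t).le, ?_⟩
    change w x t / ∑ y ∈ T, w y t ≤ 1
    rw [div_le_one (hsum t)]
    exact Finset.single_le_sum (fun y _ => hw0 y t) hx
  · intro t
    change ‖H t - ∑ x ∈ T, (w x t / ∑ y ∈ T, w y t) • x‖ ≤ ε
    have h1 : H t - ∑ x ∈ T, (w x t / ∑ y ∈ T, w y t) • x
        = ∑ x ∈ T, (w x t / ∑ y ∈ T, w y t) • (H t - x) := by
      simp only [smul_sub, Finset.sum_sub_distrib]
      rw [← Finset.sum_smul, ← Finset.sum_div, div_self (hsum t).ne', one_smul]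
    rw [h1]
    calc ‖∑ x ∈ T, (w x t / ∑ y ∈ T, w y t) • (H t - x)‖
        ≤ ∑ x ∈ T, ‖(w x t / ∑ y ∈ T, w y t) • (H t - x)‖ := norm_sum_le _ _
      _ ≤ ∑ x ∈ T, (w x t / ∑ y ∈ T, w y t) * ε := by
          refine Finset.sum_le_sum fun x _ => ?_
          rw [norm_smul, Real.norm_eq_abs, abs_of_nonneg (div_nonneg (hw0 x t) (hsum t).le)]
          rcases le_or_gt ‖H t - x‖ ε with h | h
          · gcongr
          · have : w x t = 0 := max_eq_left (by linarith)
            rw [this]; simp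
      _ = ε := by rw [← Finset.sum_mul, ← Finset.sum_div, div_self (hsum t).ne', one_mul]

/-- Vector valued version of `unif_small`. -/
lemma unif_small_vec [T2Space K] (hK : NoC0 K) (A : Set K)
    (ν : ℕ → C(K, X) →L[ℝ] ℝ) {D : ℝ} (hD : ∀ n, ‖ν n‖ ≤ D)
    (hν : ∀ f, Tendsto (fun n => ν n f) atTop (𝓝 0)) (H : C(K, X)) {ε : ℝ} (hε : 0 < ε) :
    ∃ U : Set K, IsOpen U ∧ A ⊆ U ∧ ∃ i0 : ℕ, ∀ i, i0 ≤ i → ∀ φ : C(K, ℝ), ‖φ‖ ≤ 1 →
      (∀ t ∈ A, φ t = 0) → (∀ t, t ∉ U → φ t = 0) → |ν i (sm φ H)| ≤ ε := by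
  classical
  have hD0 : 0 ≤ D := (norm_nonneg (ν 0)).trans (hD 0)
  set ε' : ℝ := ε / (2 * (D + 1)) with hε'd
  have hε' : 0 < ε' := by positivity
  obtain ⟨T, ψ, hψ, hψH⟩ := exists_tensor_approx H hε'
  set ε'' : ℝ := ε / (2 * (T.card + 1)) with hε''d
  have hε'' : 0 < ε'' := by positivity
  have hex : ∀ x : X, ∃ U : Set K, IsOpen U ∧ A ⊆ U ∧ ∃ i0 : ℕ, ∀ i, i0 ≤ i → ∀ φ : C(K, ℝ),
      ‖φ‖ ≤ 1 → (∀ t ∈ A, φ t = 0) → (∀ t, t ∉ U → φ t = 0) → |ν i (ten x φ)| ≤ ε'' := by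
    intro x
    obtain ⟨U, h1, h2, i0, h3⟩ := unif_small hK A (fun n => (ν n).comp (ten x)) (D := D * ‖x‖)
      (fun n => by
        calc ‖(ν n).comp (ten x)‖ ≤ ‖ν n‖ * ‖(ten x : C(K, ℝ) →L[ℝ] C(K, X))‖ :=
              ContinuousLinearMap.opNorm_comp_le _ _
          _ ≤ D * ‖x‖ := by
              gcongr
              · exact hD n
              · exact norm_ten_le x) (fun f => hν (ten x f)) hε''
    exact ⟨U, h1, h2, i0, h3⟩
  choose U hUo hUA i0 hU using hex
  refine ⟨⋂ x ∈ T, U x, isOpen_biInter_finset fun x _ => hUo x,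
    fun t ht => mem_iInter₂.mpr fun x _ => hUA x ht, T.sup i0, fun i hi φ hφ hφA hφU => ?_⟩
  have hφ1 : ∀ t, |φ t| ≤ 1 := fun t => (φ.norm_coe_le_norm t).trans hφ
  have happ : ‖sm φ H - ∑ x ∈ T, ten x (φ * ψ x)‖ ≤ ε' := by
    rw [ContinuousMap.norm_le _ hε'.le]
    intro t
    have : (sm φ H - ∑ x ∈ T, ten x (φ * ψ x)) t = φ t • (H t - ∑ x ∈ T, ψ x t • x) := by
      rw [ContinuousMap.sub_apply, ContinuousMap.sum_apply, sm_apply, smul_sub, Finset.smul_sum]
      congr 1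
      refine Finset.sum_congr rfl fun x _ => ?_
      rw [ten_apply, ContinuousMap.mul_apply, mul_smul]
    rw [this, norm_smul]
    calc ‖φ t‖ * ‖H t - ∑ x ∈ T, ψ x t • x‖ ≤ 1 * ε' := by
          gcongr
          · exact hφ1 t
          · exact hψH t
      _ = ε' := one_mul _
  have h1 : |ν i (sm φ H - ∑ x ∈ T, ten x (φ * ψ x))| ≤ ε / 2 := by
    calc _ ≤ ‖ν i‖ * ‖sm φ H - ∑ x ∈ T, ten x (φ * ψ x)‖ := (ν i).le_opNorm _
      _ ≤ D * ε' := by
          gcongr
          exact hD i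
      _ = ε / 2 * (D / (D + 1)) := by rw [hε'd]; field_simp
      _ ≤ ε / 2 * 1 := by
          gcongr
          rw [div_le_one (by positivity)]; linarith
      _ = ε / 2 := mul_one _
  have h2 : |ν i (∑ x ∈ T, ten x (φ * ψ x))| ≤ ε / 2 := by
    rw [map_sum]
    calc |∑ x ∈ T, ν i (ten x (φ * ψ x))| ≤ ∑ x ∈ T, |ν i (ten x (φ * ψ x))| :=
          Finset.abs_sum_le_sum_abs _ _
      _ ≤ ∑ x ∈ T, ε'' := by
          refine Finset.sum_le_sum fun x hx => ?_
          refine hU x i ((Finset.le_sup hx).trans hi) _ ?_ ?_ ?_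
          · rw [ContinuousMap.norm_le _ zero_le_one]
            intro t
            rw [ContinuousMap.mul_apply, norm_mul]
            have h3 := hψ x hx t
            calc ‖φ t‖ * ‖ψ x t‖ ≤ 1 * 1 := by
                  gcongr
                  · exact hφ1 t
                  · rw [Real.norm_eq_abs, abs_of_nonneg h3.1]; exact h3.2
              _ = 1 := one_mul 1
          · intro t ht
            rw [ContinuousMap.mul_apply, hφA t ht, zero_mul]
          · intro t ht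
            rw [ContinuousMap.mul_apply, hφU t (fun h => ht (mem_iInter₂.mp h x hx)), zero_mul]
      _ = T.card * ε'' := by rw [Finset.sum_const, nsmul_eq_mul]
      _ = ε / 2 * (T.card / (T.card + 1)) := by rw [hε''d]; field_simp
      _ ≤ ε / 2 * 1 := by
          gcongr
          rw [div_le_one (by positivity)]; linarith
      _ = ε / 2 := mul_one _
  have h3 : ν i (sm φ H) = ν i (sm φ H - ∑ x ∈ T, ten x (φ * ψ x)) +
      ν i (∑ x ∈ T, ten x (φ * ψ x)) := by rw [← map_add, sub_add_cancel]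
  rw [h3]
  calc _ ≤ _ := abs_add_le _ _
    _ ≤ ε := by linarith

end Pool.Agent.H86R3
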