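import Pool.Agent.H86R3.Groth

set_option autoImplicit false

open Filter Topology Set

namespace Pool.Agent.H86R3

variable {K : Type*} [TopologicalSpace K] [CompactSpace K] [T2Space K]
variable {L : Type*} [TopologicalSpace L] [CompactSpace L]
variable {X : Type*} [NormedAddCommGroup X] [NormedSpace ℝ X] [CompleteSpace X]

/-- No isomorphic copy of `c_0`. -/
def NoCopy (X : Type*) [NormedAddCommGroup X] [NormedSpace ℝ X] : Prop :=
  ¬ ∃ (T : CZ →L[ℝ] X) (c : ℝ), 0 < c ∧ ∀ f : CZ, c * ‖f‖ ≤ ‖T f‖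

omit [T2Space K] in
/-- Pointwise Cauchy property. -/
lemma pointwise_cauchy (hX : NoCopy X) (J : C(L, ℝ) →L[ℝ] C(K, X)) (u : ℕ → C(L, ℝ))
    (hanti : ∀ l, Antitone (fun k => u k l)) (h01 : ∀ k l, 0 ≤ u k l ∧ u k l ≤ 1) (t : K) :
    CauchySeq (fun k => J (u k) t) := by
  by_contra hcon
  rw [Metric.cauchySeq_iff'] at hcon
  push Not at hcon
  obtain ⟨ε, hε, h⟩ := hcon
  choose g hg hgd using h
  let a : ℕ → ℕ := fun n => Nat.rec 0 (fun _ m => g m) n
  have ha : ∀ n, a (n + 1) = g (a n) := fun n => rfl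
  have hamono : Monotone a := monotone_nat_of_le_succ fun n => by rw [ha]; exact hg _
  have hw : WUC (fun n => J (u (a n) - u (a (n + 1))) t) ‖J‖ := by
    intro F c hc
    have h1 : ∑ n ∈ F, c n • J (u (a n) - u (a (n + 1))) t
        = J (∑ n ∈ F, c n • (u (a n) - u (a (n + 1)))) t := by
      rw [map_sum, ContinuousMap.sum_apply]
      refine Finset.sum_congr rfl fun n _ => ?_
      rw [map_smul, ContinuousMap.smul_apply]
    rw [h1]
    have h2 : ‖∑ n ∈ F, c n • (u (a n) - u (a (n + 1)))‖ ≤ 1 := by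
      rw [ContinuousMap.norm_le _ zero_le_one]
      intro l
      rw [ContinuousMap.sum_apply]
      have hnn : ∀ n, 0 ≤ u (a n) l - u (a (n + 1)) l := fun n =>
        sub_nonneg.mpr (hanti l (hamono (Nat.le_succ n)))
      calc ‖∑ n ∈ F, (c n • (u (a n) - u (a (n + 1)))) l‖
          ≤ ∑ n ∈ F, ‖(c n • (u (a n) - u (a (n + 1)))) l‖ := norm_sum_le _ _
        _ ≤ ∑ n ∈ F, (u (a n) l - u (a (n + 1)) l) := by
            refine Finset.sum_le_sum fun n _ => ?_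
            rw [ContinuousMap.smul_apply, ContinuousMap.sub_apply, norm_smul, Real.norm_eq_abs,
              Real.norm_eq_abs, abs_of_nonneg (hnn n)]
            calc _ ≤ 1 * (u (a n) l - u (a (n + 1)) l) := by
                  gcongr
                  · exact hnn n
                  · exact hc n
              _ = _ := one_mul _
        _ ≤ ∑ n ∈ Finset.range (F.sup id + 1), (u (a n) l - u (a (n + 1)) l) := by
            refine Finset.sum_le_sum_of_subset_of_nonneg ?_ (fun n _ _ => hnn n)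
            intro n hn
            rw [Finset.mem_range]
            exact Nat.lt_succ_of_le (Finset.le_sup (f := id) hn)
        _ = u (a 0) l - u (a (F.sup id + 1)) l := by
            rw [Finset.sum_range_sub' (fun n => u (a n) l)]
        _ ≤ 1 := by linarith [(h01 (a 0) l).2, (h01 (a (F.sup id + 1)) l).1]
    calc ‖J (∑ n ∈ F, c n • (u (a n) - u (a (n + 1)))) t‖
        ≤ ‖J (∑ n ∈ F, c n • (u (a n) - u (a (n + 1))))‖ := ContinuousMap.norm_coe_le_norm _ _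
      _ ≤ ‖J‖ * ‖∑ n ∈ F, c n • (u (a n) - u (a (n + 1)))‖ := J.le_opNorm _
      _ ≤ ‖J‖ * 1 := by gcongr
      _ = ‖J‖ := mul_one _
  refine hX (hw.embeds hε fun n => ?_)
  have := hgd (a n)
  rw [dist_comm, dist_eq_norm] at this
  rw [map_sub, ContinuousMap.sub_apply, ha]
  exact this

/-- The functional `δ_l ∘ Q`. -/
noncomputable def mu (Q : C(K, X) →L[ℝ] C(L, ℝ)) (l : L) : C(K, X) →L[ℝ] ℝ :=
  (ContinuousMap.evalCLM ℝ l).comp Q

omit [T2Space K] [CompleteSpace X] in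
lemma mu_apply (Q : C(K, X) →L[ℝ] C(L, ℝ)) (l : L) (G : C(K, X)) : mu Q l G = Q G l := rfl

omit [T2Space K] [CompleteSpace X] in
lemma norm_mu_le (Q : C(K, X) →L[ℝ] C(L, ℝ)) (l : L) : ‖mu Q l‖ ≤ ‖Q‖ := by
  apply ContinuousLinearMap.opNorm_le_bound _ (norm_nonneg Q)
  intro G
  rw [mu_apply]
  exact (ContinuousMap.norm_coe_le_norm _ _).trans (Q.le_opNorm G)

omit [T2Space K] [CompleteSpace X] in
lemma V.scaled {μ : C(K, X) →L[ℝ] ℝ} {O : Set K} {c : ℝ} (h : V μ O c) {r : ℝ} (hr : 0 < r)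
    (G : C(K, X)) (hG : ‖G‖ ≤ r) (hG0 : ∀ t, t ∉ O → G t = 0) : |μ G| ≤ c * r := by
  have h1 := h (r⁻¹ • G) (by
    rw [norm_smul, Real.norm_eq_abs, abs_of_pos (inv_pos.mpr hr), inv_mul_le_iff₀ hr, mul_one]
    exact hG) (fun t ht => by rw [ContinuousMap.smul_apply, hG0 t ht, smul_zero])
  rw [map_smul, smul_eq_mul, abs_mul, abs_of_pos (inv_pos.mpr hr), inv_mul_le_iff₀ hr] at h1
  linarith

/-- The key increment of norms. -/
lemma increment (hX : NoCopy X) (hK : NoC0 K) (J : C(L, ℝ) →L[ℝ] C(K, X))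
    (Q : C(K, X) →L[ℝ] C(L, ℝ)) (hQJ : Q.comp J = ContinuousLinearMap.id ℝ _)
    (u : ℕ → C(L, ℝ)) (hanti : ∀ l, Antitone (fun k => u k l))
    (h01 : ∀ k l, 0 ≤ u k l ∧ u k l ≤ 1) (s : L) (si : ℕ → L) (hsi : Tendsto si atTop (𝓝 s))
    (hus : ∀ k, u k s = 1) (hz : ∀ i, ∃ k0, ∀ k, k0 ≤ k → u k (si i) = 0) :
    ∀ᶠ i in atTop, ‖mu Q s‖ + 1 / (2 * (‖J‖ + 1)) ≤ ‖mu Q (si i)‖ := by
  have hQJ' : ∀ f, Q (J f) = f := fun f => by
    have := congrArg (fun T : C(L, ℝ) →L[ℝ] C(L, ℝ) => T f) hQJ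
    simpa using this
  set a : ℝ := ‖J‖ + 1 with ha
  set b : ℝ := ‖Q‖ + 1 with hb
  have ha0 : 0 < a := by positivity
  have hb0 : 0 < b := by positivity
  set ε : ℝ := 1 / (2 * (5 * a + 2 + 2 * b)) with hεd
  have hε : 0 < ε := by positivity
  set F : ℕ → C(K, X) := fun k => J (u k) with hF
  have hun : ∀ k, ‖u k‖ ≤ 1 := by
    intro k
    rw [ContinuousMap.norm_le _ zero_le_one]
    intro l
    rw [Real.norm_eq_abs, abs_of_nonneg (h01 k l).1]
    exact (h01 k l).2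
  have hFn : ∀ k, ‖F k‖ ≤ ‖J‖ := by
    intro k
    calc ‖F k‖ ≤ ‖J‖ * ‖u k‖ := J.le_opNorm _
      _ ≤ ‖J‖ * 1 := by gcongr; exact hun k
      _ = ‖J‖ := mul_one _
  have hFa : ∀ k, ‖F k‖ ≤ a := fun k => (hFn k).trans (by rw [ha]; linarith)
  -- the closed sets
  set A : ℕ → Set K := fun k => {t | ∀ i j, k ≤ i → k ≤ j → ‖F i t - F j t‖ ≤ ε} with hA
  have hAc : ∀ k, IsClosed (A k) := by
    intro k
    have : A k = ⋂ i, ⋂ j, ⋂ (_ : k ≤ i), ⋂ (_ : k ≤ j), {t | ‖F i t - F j t‖ ≤ ε} := by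
      ext t; simp [hA]
    rw [this]
    refine isClosed_iInter fun i => isClosed_iInter fun j => isClosed_iInter fun _ =>
      isClosed_iInter fun _ => ?_
    exact isClosed_le ((F i).continuous.sub (F j).continuous).norm continuous_const
  have hAmono : Monotone A := fun k k' hkk' t ht i j hi hj => ht i j (hkk'.trans hi) (hkk'.trans hj)
  have hAun : ⋂ k, (A k)ᶜ = ∅ := by
    rw [← compl_iUnion, compl_empty_iff, eq_univ_iff_forall]
    intro t
    have hc := pointwise_cauchy hX J u hanti h01 t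
    obtain ⟨N, hN⟩ := (Metric.cauchySeq_iff.mp hc) ε hε
    refine mem_iUnion.mpr ⟨N, fun i j hi hj => ?_⟩
    have := hN i hi j hj
    rw [dist_eq_norm] at this
    exact this.le
  obtain ⟨k, hk⟩ := V_tendsto_zero (mu Q s) (fun k => (A k)ᶜ) (fun k => (hAc k).isOpen_compl)
    (fun k k' h => compl_subset_compl.mpr (hAmono h)) hAun hε
  -- a nearly norming function
  obtain ⟨G, hGn, hG⟩ : ∃ G : C(K, X), ‖G‖ ≤ 1 ∧ ‖mu Q s‖ - ε ≤ mu Q s G := by
    rcases lt_or_ge (‖mu Q s‖ - ε) 0 with h | h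
    · exact ⟨0, by simp, by simpa using h.le⟩
    · obtain ⟨G, hG1, hG2⟩ := (mu Q s).exists_lt_apply_of_lt_opNorm
        (show ‖mu Q s‖ - ε < ‖mu Q s‖ by linarith)
      rcases le_total 0 (mu Q s G) with h' | h'
      · refine ⟨G, hG1.le, ?_⟩
        rw [Real.norm_eq_abs, abs_of_nonneg h'] at hG2
        exact hG2.le
      · refine ⟨-G, by rw [norm_neg]; exact hG1.le, ?_⟩
        rw [Real.norm_eq_abs, abs_of_nonpos h'] at hG2
        rw [map_neg]; exact hG2.le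
  -- the weak-star null sequence
  set ν : ℕ → C(K, X) →L[ℝ] ℝ := fun i => mu Q (si i) - mu Q s with hν
  have hνn : ∀ i, ‖ν i‖ ≤ 2 * ‖Q‖ := by
    intro i
    calc ‖ν i‖ ≤ ‖mu Q (si i)‖ + ‖mu Q s‖ := norm_sub_le _ _
      _ ≤ 2 * ‖Q‖ := by linarith [norm_mu_le Q (si i), norm_mu_le Q s]
  have hν0 : ∀ H, Tendsto (fun i => ν i H) atTop (𝓝 0) := by
    intro H
    have h1 : Tendsto (fun i => Q H (si i)) atTop (𝓝 (Q H s)) :=
      ((Q H).continuous.tendsto s).comp hsi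
    have h2 := h1.sub_const (Q H s)
    rw [sub_self] at h2
    exact h2
  obtain ⟨U₁, hU₁o, hU₁A, i₁, hU₁⟩ := unif_small_vec hK (A k) ν hνn hν0 G hε
  obtain ⟨U₂, hU₂o, hU₂A, i₂, hU₂⟩ := unif_small_vec hK (A k) ν hνn hν0 (F k) hε
  have hUo : IsOpen (U₁ ∩ U₂) := hU₁o.inter hU₂o
  have hUA : A k ⊆ U₁ ∩ U₂ := subset_inter hU₁A hU₂A
  obtain ⟨φ, hφ0, hφ1, hφ⟩ := exists_continuous_zero_one_of_isClosed (X := K)
    hUo.isClosed_compl (hAc k) (by
      rw [Set.disjoint_left]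
      intro t ht ht'
      exact ht (hUA ht'))
  have ev1 : ∀ᶠ i in atTop, |ν i (sm φ G)| ≤ ε := by
    have := ((hν0 (sm φ G)).abs)
    rw [abs_zero] at this
    exact this.eventually_le_const hε
  have ev2 : ∀ᶠ i in atTop, |ν i (sm φ (F k))| ≤ ε := by
    have := ((hν0 (sm φ (F k))).abs)
    rw [abs_zero] at this
    exact this.eventually_le_const hε
  filter_upwards [ev1, ev2, eventually_ge_atTop i₁, eventually_ge_atTop i₂] with i he1 he2 hi1 hi2
  obtain ⟨j, hjk, hj0⟩ : ∃ j, k ≤ j ∧ u j (si i) = 0 := by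
    obtain ⟨k0, hk0⟩ := hz i
    exact ⟨max k k0, le_max_left _ _, hk0 _ (le_max_right _ _)⟩
  have hWo : IsOpen {t | ‖F j t - F k t‖ < 2 * ε} :=
    isOpen_lt ((F j).continuous.sub (F k).continuous).norm continuous_const
  have hWA : A k ⊆ {t | ‖F j t - F k t‖ < 2 * ε} := by
    intro t ht
    have := ht j k hjk le_rfl
    rw [mem_ofPred_eq]
    linarith
  obtain ⟨φ', hφ'0, hφ'1, hφ'⟩ := exists_continuous_zero_one_of_isClosed (X := K)
    (hUo.inter hWo).isClosed_compl (hAc k) (by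
      rw [Set.disjoint_left]
      intro t ht ht'
      exact ht ⟨hUA ht', hWA ht'⟩)
  have hφ'out : ∀ t, t ∉ (U₁ ∩ U₂) ∩ {t | ‖F j t - F k t‖ < 2 * ε} → φ' t = 0 := fun t ht => hφ'0 ht
  have hφout : ∀ t, t ∉ U₁ ∩ U₂ → φ t = 0 := fun t ht => hφ0 ht
  have hφ'in : ∀ t ∈ A k, φ' t = 1 := fun t ht => hφ'1 ht
  have hφin : ∀ t ∈ A k, φ t = 1 := fun t ht => hφ1 ht
  have hdn : ‖φ' - φ‖ ≤ 1 := by
    rw [ContinuousMap.norm_le _ zero_le_one]
    intro t
    rw [ContinuousMap.sub_apply, Real.norm_eq_abs, abs_le]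
    have h1 := hφ t
    have h2 := hφ' t
    constructor <;> linarith [h1.1, h1.2, h2.1, h2.2]
  have hd0 : ∀ t ∈ A k, (φ' - φ) t = 0 := by
    intro t ht
    rw [ContinuousMap.sub_apply, hφ'in t ht, hφin t ht, sub_self]
  have hd1 : ∀ t, t ∉ U₁ → (φ' - φ) t = 0 := by
    intro t ht
    rw [ContinuousMap.sub_apply, hφ'out t (fun h => ht h.1.1), hφout t (fun h => ht h.1), sub_self]
  have hd2 : ∀ t, t ∉ U₂ → (φ' - φ) t = 0 := by
    intro t ht
    rw [ContinuousMap.sub_apply, hφ'out t (fun h => ht h.1.2), hφout t (fun h => ht h.2), sub_self]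
  have hb1 := hU₁ i hi1 (φ' - φ) hdn hd0 hd1
  have hb2 := hU₂ i hi2 (φ' - φ) hdn hd0 hd2
  have h1φ' : ∀ t, |(1 - φ') t| ≤ 1 := by
    intro t
    have h2 := hφ' t
    rw [ContinuousMap.sub_apply, ContinuousMap.one_apply, abs_of_nonneg (by linarith [h2.2])]
    linarith [h2.1]
  have h1φ'0 : ∀ t, t ∉ (A k)ᶜ → (1 - φ') t = 0 := by
    intro t ht
    rw [ContinuousMap.sub_apply, ContinuousMap.one_apply, hφ'in t (not_not.mp ht), sub_self]
  -- (a)
  have hea : |mu Q (si i) (sm φ' (F j - F k))| ≤ b * (2 * ε) := by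
    have hn : ‖sm φ' (F j - F k)‖ ≤ 2 * ε := by
      rw [ContinuousMap.norm_le _ (by positivity)]
      intro t
      rw [sm_apply, norm_smul, ContinuousMap.sub_apply]
      by_cases ht : t ∈ (U₁ ∩ U₂) ∩ {t | ‖F j t - F k t‖ < 2 * ε}
      · have h2 := hφ' t
        calc ‖φ' t‖ * ‖F j t - F k t‖ ≤ 1 * (2 * ε) := by
              gcongr
              · rw [Real.norm_eq_abs, abs_of_nonneg h2.1]; exact h2.2
              · exact (show ‖F j t - F k t‖ < 2 * ε from ht.2).le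
          _ = 2 * ε := one_mul _
      · rw [hφ'out t ht, norm_zero, zero_mul]; positivity
    calc _ ≤ ‖mu Q (si i)‖ * ‖sm φ' (F j - F k)‖ := (mu Q (si i)).le_opNorm _
      _ ≤ b * (2 * ε) := by
          gcongr
          exact (norm_mu_le Q _).trans (by rw [hb]; linarith)
  -- (c), (d)
  have hec : |mu Q s (sm (1 - φ') (F k))| ≤ ε * a := by
    refine hk.scaled ha0 _ ?_ ?_
    · have := norm_sm_le (1 - φ') (F k) zero_le_one ha0.le h1φ'
        (fun t => ((F k).norm_coe_le_norm t).trans (hFa k))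
      simpa using this
    · intro t ht
      rw [sm_apply, h1φ'0 t ht, zero_smul]
  have hed : |mu Q s (sm (1 - φ') G)| ≤ ε := by
    refine hk _ ?_ ?_
    · have := norm_sm_le (1 - φ') G zero_le_one zero_le_one h1φ'
        (fun t => (G.norm_coe_le_norm t).trans hGn)
      simpa using this
    · intro t ht
      rw [sm_apply, h1φ'0 t ht, zero_smul]
  -- identities
  have smadd : ∀ (α β : C(K, ℝ)) (H : C(K, X)), sm (α + β) H = sm α H + sm β H := by
    intro α β H; ext t; simp [add_smul]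
  have smsub : ∀ (α : C(K, ℝ)) (H H' : C(K, X)), sm α (H - H') = sm α H - sm α H' := by
    intro α H H'; ext t; simp [smul_sub]
  have sm1 : ∀ H : C(K, X), H = sm φ' H + sm (1 - φ') H := by
    intro H; rw [← smadd]; ext t; simp
  have sm2 : ∀ H : C(K, X), sm φ' H = sm (φ' - φ) H + sm φ H := by
    intro H; rw [← smadd]; ext t; simp
  have hFj : mu Q (si i) (F j) = 0 := by rw [mu_apply, hF, hQJ', hj0]
  have hFk : mu Q s (F k) = 1 := by rw [mu_apply, hF, hQJ', hus]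
  have e1 : mu Q (si i) (F j) = mu Q (si i) (sm φ' (F j)) + mu Q (si i) (sm (1 - φ') (F j)) := by
    rw [← map_add, ← sm1]
  have e2 : mu Q s (F k) = mu Q s (sm φ' (F k)) + mu Q s (sm (1 - φ') (F k)) := by
    rw [← map_add, ← sm1]
  have e3 : mu Q s G = mu Q s (sm φ' G) + mu Q s (sm (1 - φ') G) := by
    rw [← map_add, ← sm1]
  have e4 : mu Q (si i) (sm φ' (F j - F k)) = mu Q (si i) (sm φ' (F j))
      - mu Q (si i) (sm φ' (F k)) := by rw [smsub, map_sub]
  have e5 : mu Q (si i) (sm φ' (F k)) = mu Q s (sm φ' (F k)) + (ν i (sm (φ' - φ) (F k))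
      + ν i (sm φ (F k))) := by
    rw [← map_add, ← sm2, hν, _root_.sub_apply]; ring
  have e6 : mu Q (si i) (sm φ' G) = mu Q s (sm φ' G) + (ν i (sm (φ' - φ) G)
      + ν i (sm φ G)) := by
    rw [← map_add, ← sm2, hν, _root_.sub_apply]; ring
  -- test function
  set Hh : C(K, X) := sm φ' G - a⁻¹ • sm (1 - φ') (F j) with hHh
  have hHn : ‖Hh‖ ≤ 1 := by
    rw [ContinuousMap.norm_le _ zero_le_one]
    intro t
    have h2 := hφ' t
    rw [hHh, ContinuousMap.sub_apply, ContinuousMap.smul_apply, sm_apply, sm_apply]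
    have n1 : ‖φ' t • G t‖ ≤ φ' t := by
      rw [norm_smul, Real.norm_eq_abs, abs_of_nonneg h2.1]
      calc φ' t * ‖G t‖ ≤ φ' t * 1 := by
            gcongr
            · exact h2.1
            · exact (G.norm_coe_le_norm t).trans hGn
        _ = φ' t := mul_one _
    have n2 : ‖a⁻¹ • (1 - φ') t • F j t‖ ≤ 1 - φ' t := by
      rw [norm_smul, norm_smul, Real.norm_eq_abs, Real.norm_eq_abs, abs_of_pos (inv_pos.mpr ha0),
        ContinuousMap.sub_apply, ContinuousMap.one_apply, abs_of_nonneg (by linarith [h2.2] :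
          (0 : ℝ) ≤ 1 - φ' t)]
      rw [inv_mul_le_iff₀ ha0]
      have h3 : ‖F j t‖ ≤ a := ((F j).norm_coe_le_norm t).trans (hFa j)
      have h4 : (0 : ℝ) ≤ 1 - φ' t := by linarith [h2.2]
      calc (1 - φ' t) * ‖F j t‖ ≤ (1 - φ' t) * a := by gcongr
        _ = a * (1 - φ' t) := mul_comm _ _
    calc _ ≤ ‖φ' t • G t‖ + ‖a⁻¹ • (1 - φ') t • F j t‖ := norm_sub_le _ _
      _ ≤ 1 := by linarith
  have hfinal : mu Q (si i) Hh ≤ ‖mu Q (si i)‖ := by
    calc mu Q (si i) Hh ≤ ‖mu Q (si i) Hh‖ := le_abs_self _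
      _ ≤ ‖mu Q (si i)‖ * ‖Hh‖ := (mu Q (si i)).le_opNorm _
      _ ≤ ‖mu Q (si i)‖ * 1 := by gcongr
      _ = _ := mul_one _
  rw [hHh, map_sub, map_smul, smul_eq_mul] at hfinal
  rw [abs_le] at hb1 hb2 hea hec hed he1 he2
  have k1 : mu Q (si i) (sm (1 - φ') (F j)) ≤ -(1 - ε * (a + 2 + 2 * b)) := by
    nlinarith [hb2.1, hb2.2, hea.1, hea.2, hec.1, hec.2, he2.1, he2.2]
  have k2 : ‖mu Q s‖ - 4 * ε ≤ mu Q (si i) (sm φ' G) := by
    linarith [hb1.1, hb1.2, hed.1, hed.2, he1.1, he1.2]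
  have k3 : a⁻¹ * mu Q (si i) (sm (1 - φ') (F j)) ≤ a⁻¹ * (-(1 - ε * (a + 2 + 2 * b))) := by
    have := inv_pos.mpr ha0
    gcongr
  have k4 : a⁻¹ * (1 - ε * (a + 2 + 2 * b)) - 4 * ε = 1 / (2 * a) := by
    rw [hεd]
    field_simp
    ring
  linarith

end Pool.Agent.H86R3
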