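import Pool.Agent.H86R3.Wnc3
import Pool.Agent.H86R3.Efun

set_option autoImplicit false

open Filter Topology Set
open scoped ENNReal NNReal unitInterval
open Pool.Agent.H86R3 Pool.Agent.H86R3.Wnc

namespace Pool.Agent.H86R3.JB

universe u

theorem exists_bad (K : Type u) [TopologicalSpace K] [CompactSpace K] [T2Space K]
    (ψ : C(K, unitInterval)) (hψ : Function.Surjective ψ) (c : ℝ≥0) :
    ∃ A : Set C(K, ℂ), A.Nonempty ∧ Bornology.IsBounded A ∧
      (c : ℝ≥0∞) * wk A < deBlasi A ∧ (c : ℝ≥0∞) * wck A < deBlasi A := by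
  obtain ⟨n, hn⟩ := exists_nat_gt (c : ℝ)
  obtain ⟨e, he, he0, hpts⟩ := exists_e' ψ hψ (n + 1)
  have hbdd : Bornology.IsBounded (AA e (n + 1) 0 []) := by
    rw [isBounded_iff_forall_norm_le]
    refine ⟨(n + 1 : ℕ), ?_⟩
    rintro _ ⟨s, hs, rfl⟩
    rw [ContinuousMap.norm_le _ (by positivity)]
    intro t
    have h1 := FF_le he s t
    have h2 := EE_length (n + 1) 0 [] s hs
    rw [List.length_nil, zero_add] at h2
    rw [h2] at h1
    change ‖toC (FF e s) t‖ ≤ _
    rw [toC_apply, Complex.norm_real, Real.norm_eq_abs, abs_of_nonneg (NNReal.coe_nonneg _)]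
    exact_mod_cast h1
  have hne : (AA e (n + 1) 0 []).Nonempty := by
    have : ∀ (k a : ℕ) (s : List ℕ), (EE k a s).Nonempty := by
      intro k
      induction k with
      | zero => intro a s; exact ⟨s, rfl⟩
      | succ k ih =>
        intro a s
        obtain ⟨s', hs'⟩ := ih (a + 1) ((a + 1) :: s)
        exact ⟨s', a + 1, Nat.lt_succ_self a, hs'⟩
    exact (this (n + 1) 0 []).image _
  have hwk : wk (AA e (n + 1) 0 []) ≤ ENNReal.ofReal (1 / 2) :=
    (excess_le_iff _ _ _).mpr (wk_small he he0 (n + 1) 0 [])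
  have hlow : ENNReal.ofReal (n / 2) ≤ deBlasi (AA e (n + 1) 0 []) := lower he0 n hpts
  have hmid : (c : ℝ≥0∞) * ENNReal.ofReal (1 / 2) < ENNReal.ofReal (n / 2) := by
    rw [← ENNReal.ofReal_coe_nnreal, ← ENNReal.ofReal_mul (NNReal.coe_nonneg c)]
    rw [ENNReal.ofReal_lt_ofReal_iff_of_nonneg (by positivity)]
    linarith
  have h1 : (c : ℝ≥0∞) * wk (AA e (n + 1) 0 []) < deBlasi (AA e (n + 1) 0 []) :=
    (mul_le_mul_right hwk _).trans_lt (hmid.trans_le hlow)
  refine ⟨AA e (n + 1) 0 [], hne, hbdd, h1, ?_⟩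
  exact (mul_le_mul_right (wck_le_wk hbdd) _).trans_lt h1

/-- The Stone-Cech compactification of the natural numbers maps continuously onto the unit
interval. -/
theorem exists_surj : ∃ ψ : C(StoneCech ℕ, unitInterval), Function.Surjective ψ := by
  have hc : Continuous (TopologicalSpace.denseSeq unitInterval) := continuous_of_discreteTopology
  refine ⟨⟨stoneCechExtend hc, continuous_stoneCechExtend hc⟩, ?_⟩
  rw [← Set.range_eq_univ]
  have hclosed : IsClosed (Set.range (stoneCechExtend hc)) :=
    (isCompact_range (continuous_stoneCechExtend hc)).isClosed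
  have hdense : Dense (Set.range (stoneCechExtend hc)) := by
    refine (TopologicalSpace.denseRange_denseSeq unitInterval).mono ?_
    rintro _ ⟨n, rfl⟩
    exact ⟨stoneCechUnit n, stoneCechExtend_stoneCechUnit hc n⟩
  exact (hclosed.closure_eq ▸ hdense.closure_eq :)

/-! ### the predual -/

/-- The space of absolutely summable sequences. -/
abbrev Ell : Type := lp (fun _ : ℕ => ℂ) 1

lemma summable_ell (x : Ell) : Summable fun n => ‖x n‖ := by
  have h := lp.memℓp x
  have h2 := h.summable (by simp)
  simpa using h2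

lemma norm_ell (x : Ell) : ‖x‖ = ∑' n, ‖x n‖ := by
  have := lp.norm_eq_tsum_rpow (p := 1) (by simp) x
  simpa using this

/-- The value of a continuous function on the Stone-Cech compactification at an integer. -/
noncomputable def val (f : C(StoneCech ℕ, ℂ)) (n : ℕ) : ℂ := f (stoneCechUnit n)

lemma norm_val_le (f : C(StoneCech ℕ, ℂ)) (n : ℕ) : ‖val f n‖ ≤ ‖f‖ := f.norm_coe_le_norm _

lemma summable_pair (f : C(StoneCech ℕ, ℂ)) (x : Ell) : Summable fun n => val f n * x n := by
  refine Summable.of_norm_bounded ((summable_ell x).mul_left ‖f‖) fun n => ?_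
  rw [norm_mul]
  exact mul_le_mul_of_nonneg_right (norm_val_le f n) (norm_nonneg _)

/-- The functional on summable sequences given by a continuous function. -/
noncomputable def pair (f : C(StoneCech ℕ, ℂ)) : StrongDual ℂ Ell :=
  LinearMap.mkContinuous
    { toFun := fun x => ∑' n, val f n * x n
      map_add' := by
        intro x y
        rw [← (summable_pair f x).tsum_add (summable_pair f y)]
        refine tsum_congr fun n => ?_
        rw [← mul_add]; rfl
      map_smul' := by
        intro c x
        rw [RingHom.id_apply, smul_eq_mul, ← tsum_mul_left]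
        refine tsum_congr fun n => ?_
        change val f n * (c * x n) = _
        ring }
    ‖f‖
    (by
      intro x
      change ‖∑' n, val f n * x n‖ ≤ _
      rw [norm_ell, ← tsum_mul_left]
      refine (norm_tsum_le_tsum_norm (summable_pair f x).norm).trans ?_
      refine Summable.tsum_le_tsum ?_ (summable_pair f x).norm ((summable_ell x).mul_left ‖f‖)
      intro n
      rw [norm_mul]
      exact mul_le_mul_of_nonneg_right (norm_val_le f n) (norm_nonneg _))

lemma pair_apply (f : C(StoneCech ℕ, ℂ)) (x : Ell) : pair f x = ∑' n, val f n * x n := rfl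

lemma norm_pair_le (f : C(StoneCech ℕ, ℂ)) : ‖pair f‖ ≤ ‖f‖ :=
  LinearMap.mkContinuous_norm_le _ (norm_nonneg _) _

lemma pair_single (f : C(StoneCech ℕ, ℂ)) (n : ℕ) : pair f (lp.single 1 n (1 : ℂ)) = val f n := by
  rw [pair_apply, tsum_eq_single n]
  · simp
  · intro m hm
    rw [lp.single_apply_ne _ _ _ hm, mul_zero]

lemma norm_le_pair (f : C(StoneCech ℕ, ℂ)) : ‖f‖ ≤ ‖pair f‖ := by
  rw [ContinuousMap.norm_le _ (norm_nonneg _)]
  intro x
  have hclosed : IsClosed {x : StoneCech ℕ | ‖f x‖ ≤ ‖pair f‖} :=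
    isClosed_le f.continuous.norm continuous_const
  have hsub : Set.range (stoneCechUnit : ℕ → StoneCech ℕ) ⊆ {x | ‖f x‖ ≤ ‖pair f‖} := by
    rintro _ ⟨n, rfl⟩
    change ‖val f n‖ ≤ _
    rw [← pair_single]
    refine (ContinuousLinearMap.le_opNorm _ _).trans ?_
    rw [lp.norm_single (by simp), norm_one, mul_one]
  have := hclosed.closure_subset_iff.mpr hsub
  rw [denseRange_stoneCechUnit.closure_eq] at this
  exact this (Set.mem_univ x)

/-- The pairing as a linear isometry. -/
noncomputable def pairₗᵢ : C(StoneCech ℕ, ℂ) →ₗᵢ[ℂ] StrongDual ℂ Ell where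
  toFun := pair
  map_add' := by
    intro f g
    ext x
    change pair (f + g) x = pair f x + pair g x
    rw [pair_apply, pair_apply, pair_apply, ← (summable_pair f x).tsum_add (summable_pair g x)]
    refine tsum_congr fun n => ?_
    change (f (stoneCechUnit n) + g (stoneCechUnit n)) * x n = _
    rw [add_mul]; rfl
  map_smul' := by
    intro c f
    ext x
    change pair (c • f) x = c * pair f x
    rw [pair_apply, pair_apply, ← tsum_mul_left]
    refine tsum_congr fun n => ?_
    change (c * f (stoneCechUnit n)) * x n = _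
    rw [mul_assoc]; rfl
  norm_map' := fun f => le_antisymm (norm_pair_le f) (norm_le_pair f)

lemma pair_surjective : Function.Surjective pairₗᵢ := by
  intro φ
  let v : ℕ → ℂ := fun n => φ (lp.single 1 n (1 : ℂ))
  have hv : ∀ n, ‖v n‖ ≤ ‖φ‖ := fun n => by
    refine (φ.le_opNorm _).trans ?_
    rw [lp.norm_single (by simp), norm_one, mul_one]
  let g : ℕ → Metric.closedBall (0 : ℂ) ‖φ‖ := fun n => ⟨v n, by
    rw [Metric.mem_closedBall, dist_zero_right]; exact hv n⟩
  have hg : Continuous g := continuous_of_discreteTopology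
  have : CompactSpace (Metric.closedBall (0 : ℂ) ‖φ‖) :=
    isCompact_iff_compactSpace.mp (isCompact_closedBall _ _)
  let f : C(StoneCech ℕ, ℂ) :=
    ⟨fun x => Subtype.val (stoneCechExtend hg x),
      continuous_subtype_val.comp (continuous_stoneCechExtend hg)⟩
  refine ⟨f, ?_⟩
  have hval : ∀ n, val f n = v n := fun n => by
    change ((stoneCechExtend hg (stoneCechUnit n) : Metric.closedBall (0 : ℂ) ‖φ‖) : ℂ) = v n
    rw [stoneCechExtend_stoneCechUnit]
  ext x
  change pair f x = φ x
  have h1 := (lp.hasSum_single (p := 1) (by simp) x).mapL φ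
  rw [pair_apply, ← h1.tsum_eq]
  refine tsum_congr fun n => ?_
  rw [hval]
  have h2 : (lp.single 1 n (x n) : Ell) = (x n) • (lp.single 1 n (1 : ℂ) : Ell) := by
    rw [← lp.single_smul, smul_eq_mul, mul_one]
  rw [h2, map_smul, smul_eq_mul, mul_comm]

/-- `C(βℕ)` is isometrically the dual of the space of absolutely summable sequences. -/
noncomputable def dualIso : C(StoneCech ℕ, ℂ) ≃ₗᵢ[ℂ] StrongDual ℂ Ell :=
  LinearIsometryEquiv.ofSurjective pairₗᵢ pair_surjective

end Pool.Agent.H86R3.JB
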