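import Pool.Agent.H86R3.JB1

set_option autoImplicit false

open Filter Topology Set
open scoped ENNReal NNReal ComplexConjugate

namespace Pool.Agent.H86R3.JB

universe u

/-- The axioms of a JB*-triple, for the triple product `{a, b, x} = L a b x`. -/
structure IsJBTriple (E : Type u) [NormedAddCommGroup E] [NormedSpace ℂ E]
    (L : E → E → E →L[ℂ] E) : Prop where
  complete : CompleteSpace E
  continuous : Continuous fun p : E × E × E => L p.1 p.2.1 p.2.2
  add_left : ∀ a a' b x, L (a + a') b x = L a b x + L a' b x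
  smul_left : ∀ (z : ℂ) (a b x : E), L (z • a) b x = z • L a b x
  add_mid : ∀ a b b' x, L a (b + b') x = L a b x + L a b' x
  smul_mid : ∀ (z : ℂ) (a b x : E), L a (z • b) x = conj z • L a b x
  symm : ∀ a b x, L a b x = L x b a
  jordan : ∀ x y a b, L x y * L a b = L (L x y a) b - L a (L y x b) + L a b * L x y
  hermitian : ∀ (a : E) (t : ℝ), ‖NormedSpace.exp (((t : ℂ) * Complex.I) • L a a)‖ ≤ 1
  spectrum_nonneg : ∀ (a : E), ∀ z ∈ spectrum ℂ (L a a), 0 ≤ z.re ∧ z.im = 0
  norm_cube : ∀ a, ‖L a a a‖ = ‖a‖ ^ 3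

/-- A JBW*-triple: a JB*-triple that is isometrically a dual Banach space. -/
def IsJBWTriple (E : Type u) [NormedAddCommGroup E] [NormedSpace ℂ E]
    (L : E → E → E →L[ℂ] E) : Prop :=
  IsJBTriple E L ∧ ∃ (P : Type u) (_ : NormedAddCommGroup P) (_ : NormedSpace ℂ P)
    (_ : CompleteSpace P), Nonempty (E ≃ₗᵢ[ℂ] StrongDual ℂ P)

section

variable {K : Type u} [TopologicalSpace K] [CompactSpace K]

/-- Multiplication operators, as an algebra homomorphism. -/
noncomputable def mulHom : C(K, ℂ) →ₐ[ℂ] (C(K, ℂ) →L[ℂ] C(K, ℂ)) where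
  toFun a := ContinuousLinearMap.mul ℂ C(K, ℂ) a
  map_one' := by ext x; simp
  map_mul' := by intro a b; ext x t; simp [mul_assoc]
  map_zero' := by ext x; simp
  map_add' := by intro a b; ext x t; simp [add_mul]
  commutes' := by intro r; ext x t; simp [Algebra.algebraMap_eq_smul_one]

lemma mulHom_apply (a x : C(K, ℂ)) : mulHom a x = a * x := rfl

lemma norm_mulHom_le (a : C(K, ℂ)) : ‖mulHom a‖ ≤ ‖a‖ :=
  ContinuousLinearMap.opNorm_mul_apply_le _ _ _

lemma continuous_mulHom : Continuous (mulHom : C(K, ℂ) → (C(K, ℂ) →L[ℂ] C(K, ℂ))) :=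
  (ContinuousLinearMap.mul ℂ C(K, ℂ)).continuous

/-- The triple product `{a, b, x} = a b* x` of the commutative C*-algebra `C(K)`. -/
noncomputable def tri (a b : C(K, ℂ)) : C(K, ℂ) →L[ℂ] C(K, ℂ) := mulHom (a * star b)

lemma tri_apply (a b x : C(K, ℂ)) : tri a b x = a * star b * x := rfl

lemma exp_apply (f : C(K, ℂ)) (t : K) : (NormedSpace.exp f) t = Complex.exp (f t) := by
  have h := NormedSpace.map_exp (ContinuousMap.evalAlgHom ℂ ℂ t) 
    (continuous_eval_const (F := C(K, ℂ)) t) f
  rw [Complex.exp_eq_exp_ℂ]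
  exact h

theorem isJBTriple : IsJBTriple C(K, ℂ) tri where
  complete := inferInstance
  continuous := by
    have : (fun p : C(K, ℂ) × C(K, ℂ) × C(K, ℂ) => tri p.1 p.2.1 p.2.2) =
        fun p => p.1 * star p.2.1 * p.2.2 := rfl
    rw [this]
    fun_prop
  add_left a a' b x := by simp only [tri_apply]; ring
  smul_left z a b x := by simp only [tri_apply, smul_mul_assoc]
  add_mid a b b' x := by simp only [tri_apply, star_add]; ring
  smul_mid z a b x := by
    simp only [tri_apply, star_smul, mul_smul_comm, smul_mul_assoc]; rfl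
  symm a b x := by simp only [tri_apply]; ring
  jordan x y a b := by
    ext1 z
    simp only [mul_apply_eq_comp, add_apply,
      sub_apply, tri_apply, star_mul, star_star]
    ring
  hermitian a t := by
    have h1 : (((t : ℂ) * Complex.I) • tri a a) = mulHom (((t : ℂ) * Complex.I) • (a * star a)) := by
      rw [map_smul]; rfl
    have h0 := NormedSpace.map_exp (mulHom : C(K, ℂ) →ₐ[ℂ] (C(K, ℂ) →L[ℂ] C(K, ℂ)))
      continuous_mulHom (((t : ℂ) * Complex.I) • (a * star a))
    rw [h1, ← h0]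
    refine (norm_mulHom_le _).trans ?_
    rw [ContinuousMap.norm_le _ zero_le_one]
    intro s
    rw [exp_apply]
    have h2 : ((((t : ℂ) * Complex.I) • (a * star a)) s) = ((t * ‖a s‖ ^ 2 : ℝ) : ℂ) * Complex.I := by
      change ((t : ℂ) * Complex.I) * (a s * (starRingEnd ℂ) (a s)) = _
      rw [Complex.mul_conj']
      push_cast
      ring
    rw [h2, Complex.norm_exp_ofReal_mul_I]
  spectrum_nonneg a z hz := by
    have h1 : z ∈ spectrum ℂ (a * star a) := AlgHom.spectrum_apply_subset mulHom _ hz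
    rw [ContinuousMap.spectrum_eq_range] at h1
    obtain ⟨s, rfl⟩ := h1
    have h2 : (a * star a) s = ((‖a s‖ ^ 2 : ℝ) : ℂ) := by
      change a s * (starRingEnd ℂ) (a s) = _
      rw [Complex.mul_conj']
      push_cast
      ring
    rw [h2]
    exact ⟨by rw [Complex.ofReal_re]; positivity, Complex.ofReal_im _⟩
  norm_cube a := by
    rw [tri_apply]
    refine le_antisymm ?_ ?_
    · calc ‖a * star a * a‖ ≤ ‖a * star a‖ * ‖a‖ := norm_mul_le _ _
        _ = ‖a‖ ^ 3 := by rw [CStarRing.norm_self_mul_star]; ring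
    · rcases eq_or_lt_of_le (norm_nonneg a) with h0 | h0
      · rw [← h0]; simp
      · have h1 : ‖a‖ * ‖a‖ ^ 3 ≤ ‖a‖ * ‖a * star a * a‖ := by
          calc ‖a‖ * ‖a‖ ^ 3 = (‖a‖ * ‖a‖) * (‖a‖ * ‖a‖) := by ring
            _ = ‖a * star a‖ * ‖a * star a‖ := by rw [CStarRing.norm_self_mul_star]
            _ = ‖star (a * star a) * (a * star a)‖ := by rw [CStarRing.norm_star_mul_self]
            _ = ‖star a * (a * star a * a)‖ := by
                congr 1
                rw [star_mul, star_star]; ring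
            _ ≤ ‖star a‖ * ‖a * star a * a‖ := norm_mul_le _ _
            _ = ‖a‖ * ‖a * star a * a‖ := by rw [norm_star]
        exact le_of_mul_le_mul_left h1 h0

end

theorem isJBWTriple : IsJBWTriple C(StoneCech ℕ, ℂ) tri :=
  ⟨isJBTriple, Ell, inferInstance, inferInstance, inferInstance, ⟨dualIso⟩⟩

end Pool.Agent.H86R3.JB
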