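import Mathlib

set_option autoImplicit false

open Filter Topology Set
open scoped ENNReal

namespace Pool.Agent.H86R3.Wnc

variable {X : Type*} [NormedAddCommGroup X] [NormedSpace ℂ X]

/-- The bidual of a complex normed space. -/
abbrev Bidual (X : Type*) [NormedAddCommGroup X] [NormedSpace ℂ X] : Type _ :=
  StrongDual ℂ (StrongDual ℂ X)

/-- The canonical embedding of `X` into its bidual. -/
noncomputable abbrev canon (X : Type*) [NormedAddCommGroup X] [NormedSpace ℂ X] :
    X →L[ℂ] Bidual X :=
  NormedSpace.inclusionInDoubleDual ℂ X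

/-- The excess `sup_{a ∈ A} dist(a, B)`, with values in `[0, ∞]`. -/
noncomputable def excess {Y : Type*} [PseudoEMetricSpace Y] (A B : Set Y) : ℝ≥0∞ :=
  ⨆ a ∈ A, Metric.infEDist a B

/-- Compactness in the weak topology. -/
def IsWeaklyCompact (L : Set X) : Prop := IsCompact (toWeakSpace ℂ X '' L)

/-- The De Blasi measure of weak non-compactness
`ω(A) = inf {sup_{a ∈ A} dist(a, L) : L ⊆ X nonempty and weakly compact}`. -/
noncomputable def deBlasi (A : Set X) : ℝ≥0∞ :=
  ⨅ (L : Set X) (_ : L.Nonempty) (_ : IsWeaklyCompact L), excess A L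

/-- The weak-star closure, in the bidual, of the canonical image of `A`. -/
def bidualClosure (A : Set X) : Set (Bidual X) :=
  {z | StrongDual.toWeakDual z ∈ closure ((fun a => StrongDual.toWeakDual (canon X a)) '' A)}

/-- `wk(A) = sup {dist(z, X) : z in the weak-star closure of A in the bidual}`. -/
noncomputable def wk (A : Set X) : ℝ≥0∞ := excess (bidualClosure A) (Set.range (canon X))

/-- The weak-star cluster points, in the bidual, of a sequence of `X`. -/
def clust (x : ℕ → X) : Set (Bidual X) :=
  {z | MapClusterPt (StrongDual.toWeakDual z) atTop (fun n => StrongDual.toWeakDual (canon X (x n)))}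

/-- `wck(A)`, the supremum over the sequences in `A` of the distance between the set of weak-star
cluster points of the sequence and `X`. -/
noncomputable def wck (A : Set X) : ℝ≥0∞ :=
  ⨆ (x : ℕ → X) (_ : ∀ n, x n ∈ A), ⨅ z ∈ clust x, Metric.infEDist z (Set.range (canon X))

lemma excess_le_iff {Y : Type*} [PseudoEMetricSpace Y] (A B : Set Y) (r : ℝ≥0∞) :
    excess A B ≤ r ↔ ∀ a ∈ A, Metric.infEDist a B ≤ r := by
  simp [excess]

/-- A weak-star cluster point of a sequence of `A` lies in the weak-star closure. -/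
lemma clust_subset {A : Set X} {x : ℕ → X} (hx : ∀ n, x n ∈ A) : clust x ⊆ bidualClosure A := by
  intro z hz
  have h1 : MapClusterPt (StrongDual.toWeakDual z) atTop
    (fun n => StrongDual.toWeakDual (canon X (x n))) := hz
  change StrongDual.toWeakDual z ∈ closure _
  rw [mem_closure_iff_clusterPt]
  refine h1.clusterPt.mono ?_
  rw [Filter.le_principal_iff, Filter.mem_map]
  exact Filter.univ_mem' fun n => ⟨x n, hx n, rfl⟩

lemma norm_canon_le (a : X) : ‖canon X a‖ ≤ ‖a‖ := NormedSpace.double_dual_bound ℂ X a

/-- Bounded sequences have weak-star cluster points in the bidual. -/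
lemma clust_nonempty {A : Set X} (hA : Bornology.IsBounded A) {x : ℕ → X} (hx : ∀ n, x n ∈ A) :
    (clust x).Nonempty := by
  obtain ⟨R, hR⟩ := hA.exists_norm_le
  have hcomp := WeakDual.isCompact_closedBall (𝕜 := ℂ) (E := StrongDual ℂ X)
    (0 : StrongDual ℂ (StrongDual ℂ X)) R
  have hmem : ∀ n, StrongDual.toWeakDual (canon X (x n)) ∈
      (WeakDual.toStrongDual ⁻¹' Metric.closedBall (0 : StrongDual ℂ (StrongDual ℂ X)) R) := by
    intro n
    have h1 : ‖canon X (x n)‖ ≤ R := (norm_canon_le (x n)).trans (hR _ (hx n))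
    have h2 : canon X (x n) ∈ Metric.closedBall (0 : StrongDual ℂ (StrongDual ℂ X)) R := by
      rw [Metric.mem_closedBall]
      exact (dist_zero_right (canon X (x n))).trans_le h1
    exact h2
  obtain ⟨z, _, hz⟩ := hcomp.exists_mapClusterPt_of_frequently (l := atTop)
    (f := fun n => StrongDual.toWeakDual (canon X (x n)))
    (Filter.Eventually.frequently (Filter.Eventually.of_forall hmem))
  refine ⟨WeakDual.toStrongDual z, ?_⟩
  exact hz

lemma wck_le_wk {A : Set X} (hA : Bornology.IsBounded A) : wck A ≤ wk A := by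
  refine iSup₂_le fun x hx => ?_
  obtain ⟨z, hz⟩ := clust_nonempty hA hx
  refine (iInf₂_le z hz).trans ?_
  exact (excess_le_iff _ _ _).mp le_rfl z (clust_subset hx hz)

end Pool.Agent.H86R3.Wnc
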