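import Mathlib
import Pool.Agent.H86R3.WncDefs

set_option autoImplicit false

open Filter Topology Set
open scoped ENNReal InnerProductSpace

namespace Pool.Agent.H86R3.KH

variable {H : Type*} [NormedAddCommGroup H] [InnerProductSpace ℂ H]

/-- The Banach space of compact operators on `H`, with the operator norm. -/
def K (H : Type*) [NormedAddCommGroup H] [InnerProductSpace ℂ H] : Type _ :=
  compactOperator (RingHom.id ℂ) H H

noncomputable instance : NormedAddCommGroup (K H) :=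
  inferInstanceAs (NormedAddCommGroup (compactOperator (RingHom.id ℂ) H H))

noncomputable instance : NormedSpace ℂ (K H) :=
  inferInstanceAs (NormedSpace ℂ (compactOperator (RingHom.id ℂ) H H))

/-- The isometric inclusion of the compact operators into the bounded operators. -/
noncomputable def incl (H : Type*) [NormedAddCommGroup H] [InnerProductSpace ℂ H] :
    K H →ₗᵢ[ℂ] (H →L[ℂ] H) :=
  (compactOperator (RingHom.id ℂ) H H).subtypeₗᵢ

/-- A compact operator, as an element of `K H`. -/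
def mk (T : H →L[ℂ] H) (hT : IsCompactOperator T) : K H := ⟨T, hT⟩

lemma incl_mk (T : H →L[ℂ] H) (hT : IsCompactOperator T) : incl H (mk T hT) = T := rfl

lemma isCompact_incl (x : K H) : IsCompactOperator (incl H x) := x.2

lemma norm_incl (x : K H) : ‖incl H x‖ = ‖x‖ := (incl H).norm_map x

lemma K_ext {x y : K H} (h : ∀ v, incl H x v = incl H y v) : x = y :=
  (incl H).injective (ContinuousLinearMap.ext h)

/-- The rank one operator `h ↦ ⟪a, h⟫ b`. -/
noncomputable def rk (a b : H) : K H :=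
  mk ((innerSL ℂ a).smulRight b) (by
    have h1 : IsCompactOperator (innerSL ℂ a) :=
      isCompactOperator_of_locallyCompactSpace_dom (innerSL ℂ a)
    have h2 := h1.clm_comp (ContinuousLinearMap.toSpanSingleton ℂ b)
    have h3 : ((innerSL ℂ a).smulRight b : H → H) =
        (ContinuousLinearMap.toSpanSingleton ℂ b) ∘ (innerSL ℂ a) := by
      ext h; simp
    rw [h3]
    exact h2)

lemma rk_apply (a b h : H) : incl H (rk a b) h = ⟪a, h⟫_ℂ • b := by
  rw [rk, incl_mk]
  simp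

variable {Γ : Type*}

/-- Finite combination of the rank one operators `f i ⊗ g (i, β)`. -/
noncomputable def op (f : ℕ → H) (g : ℕ × Γ → H) (s : Finset (ℕ × Γ)) (c : ℕ × Γ → ℂ) : K H :=
  ∑ p ∈ s, c p • rk (f p.1) (g p)

lemma op_apply (f : ℕ → H) (g : ℕ × Γ → H) (s : Finset (ℕ × Γ)) (c : ℕ × Γ → ℂ) (h : H) :
    incl H (op f g s c) h = ∑ p ∈ s, (c p * ⟪f p.1, h⟫_ℂ) • g p := by
  have : incl H (op f g s c) = ∑ p ∈ s, c p • incl H (rk (f p.1) (g p)) := by
    simp [op, map_sum]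
  rw [this, sum_apply]
  refine Finset.sum_congr rfl fun p _ => ?_
  rw [smul_apply, rk_apply, smul_smul]

lemma norm_sq_sum_orthonormal {ι : Type*} {v : ι → H} (hv : Orthonormal ℂ v) (s : Finset ι)
    (c : ι → ℂ) : ‖∑ i ∈ s, c i • v i‖ ^ 2 = ∑ i ∈ s, ‖c i‖ ^ 2 := by
  classical
  have h1 := hv.inner_sum c c s
  have h2 : (‖∑ i ∈ s, c i • v i‖ ^ 2 : ℝ) = RCLike.re (⟪∑ i ∈ s, c i • v i, ∑ i ∈ s, c i • v i⟫_ℂ) := by
    rw [← norm_sq_eq_re_inner (𝕜 := ℂ)]
  rw [h2, h1, map_sum]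
  refine Finset.sum_congr rfl fun i _ => ?_
  rw [RCLike.conj_mul]
  norm_cast

/-- Norm bound for block-row operators. -/
lemma norm_op_le {f : ℕ → H} {g : ℕ × Γ → H} (hf : Orthonormal ℂ f) (hg : Orthonormal ℂ g)
    [DecidableEq Γ] (s : Finset (ℕ × Γ)) (c : ℕ × Γ → ℂ) {r : ℝ} (hr : 0 ≤ r)
    (hrow : ∀ i, ∑ p ∈ s with p.1 = i, ‖c p‖ ^ 2 ≤ r ^ 2) : ‖op f g s c‖ ≤ r := by
  rw [← norm_incl]
  refine ContinuousLinearMap.opNorm_le_bound _ hr fun h => ?_
  refine (sq_le_sq₀ (norm_nonneg _) (by positivity)).mp ?_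
  rw [op_apply, norm_sq_sum_orthonormal hg, mul_pow]
  calc ∑ p ∈ s, ‖c p * ⟪f p.1, h⟫_ℂ‖ ^ 2
      = ∑ i ∈ s.image Prod.fst, ∑ p ∈ s with p.1 = i, ‖c p‖ ^ 2 * ‖⟪f i, h⟫_ℂ‖ ^ 2 := by
        rw [← Finset.sum_fiberwise_of_maps_to (s := s) (t := s.image Prod.fst) (g := Prod.fst)
          (fun p hp => Finset.mem_image_of_mem _ hp)]
        refine Finset.sum_congr rfl fun i _ => Finset.sum_congr rfl fun p hp => ?_
        rw [Finset.mem_filter] at hp
        rw [norm_mul, mul_pow, hp.2]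
    _ ≤ ∑ i ∈ s.image Prod.fst, r ^ 2 * ‖⟪f i, h⟫_ℂ‖ ^ 2 := by
        refine Finset.sum_le_sum fun i _ => ?_
        rw [← Finset.sum_mul]
        exact mul_le_mul_of_nonneg_right (hrow i) (by positivity)
    _ ≤ r ^ 2 * ‖h‖ ^ 2 := by
        rw [← Finset.mul_sum]
        exact mul_le_mul_of_nonneg_left (hf.sum_inner_products_le h) (by positivity)

/-- A compact operator sends an orthonormal sequence to a norm null sequence. -/
lemma tendsto_compact_orthonormal [CompleteSpace H] {f : ℕ → H} (hf : Orthonormal ℂ f)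
    (y : K H) : Tendsto (fun i => incl H y (f i)) atTop (𝓝 0) := by
  have hc := (isCompact_incl y).isCompact_closure_image_closedBall 1
  refine hc.tendsto_nhds_of_unique_mapClusterPt (Eventually.of_forall fun i => ?_) ?_
  · refine subset_closure ⟨f i, ?_, rfl⟩
    simp [hf.1 i]
  · intro z _ hz
    -- the weak limit is zero
    have hb : Tendsto (fun i => ⟪(ContinuousLinearMap.adjoint (incl H y)) z, f i⟫_ℂ) atTop (𝓝 0) := by
      have h1 : Summable (fun i => ‖⟪f i, (ContinuousLinearMap.adjoint (incl H y)) z⟫_ℂ‖ ^ 2) :=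
        hf.inner_products_summable _
      have h2 := h1.tendsto_atTop_zero
      rw [tendsto_zero_iff_norm_tendsto_zero]
      have h3 : Tendsto (fun i => Real.sqrt
          (‖⟪f i, (ContinuousLinearMap.adjoint (incl H y)) z⟫_ℂ‖ ^ 2)) atTop (𝓝 (Real.sqrt 0)) :=
        (Real.continuous_sqrt.tendsto 0).comp h2
      rw [Real.sqrt_zero] at h3
      refine h3.congr fun i => ?_
      rw [Real.sqrt_sq (norm_nonneg _), norm_inner_symm]
    have hb' : Tendsto (fun i => ⟪z, (incl H y) (f i)⟫_ℂ) atTop (𝓝 0) := by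
      refine hb.congr fun i => ?_
      rw [ContinuousLinearMap.adjoint_inner_left]
    have hcl : MapClusterPt (⟪z, z⟫_ℂ) atTop (fun i => ⟪z, (incl H y) (f i)⟫_ℂ) := by
      have hcont : ContinuousAt (fun w : H => ⟪z, w⟫_ℂ) z := by fun_prop
      exact hz.continuousAt_comp hcont
    have h4 : ⟪z, z⟫_ℂ = 0 := by
      have h5 : ClusterPt (⟪z, z⟫_ℂ) (𝓝 (0 : ℂ)) := ClusterPt.mono hcl hb'
      exact eq_of_nhds_neBot h5
    exact inner_self_eq_zero.mp h4

end Pool.Agent.H86R3.KH
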