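import Mathlib
import Pool.Agent.H86R3.KH1

set_option autoImplicit false

open Filter Topology Set
open scoped ENNReal InnerProductSpace

namespace Pool.Agent.H86R3.KH

open Pool.Agent.H86R3.Wnc

section general

variable {X : Type*} [NormedAddCommGroup X] [NormedSpace ℂ X]

/-- A point of the weak-star closure of a range is an ultrafilter limit. -/
lemma exists_ultrafilter_of_mem {P : Type*} (x : P → X) {z : Bidual X}
    (hz : z ∈ bidualClosure (range x)) :
    ∃ U : Ultrafilter P, ∀ φ : StrongDual ℂ X, Tendsto (fun p => φ (x p)) U (𝓝 (z φ)) := by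
  have h1 : StrongDual.toWeakDual z ∈
      closure (range (fun p => StrongDual.toWeakDual (canon X (x p)))) := by
    have h2 : StrongDual.toWeakDual z ∈
      closure ((fun a => StrongDual.toWeakDual (canon X a)) '' (range x)) := hz
    rwa [← range_comp] at h2
  rw [mem_closure_iff_clusterPt, ← map_top] at h1
  have h2 : MapClusterPt (StrongDual.toWeakDual z) ⊤
    (fun p => StrongDual.toWeakDual (canon X (x p))) := h1
  rw [mapClusterPt_iff_ultrafilter] at h2
  obtain ⟨U, -, hU⟩ := h2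
  refine ⟨U, fun φ => ?_⟩
  have h3 := ((WeakDual.eval_continuous φ).tendsto (StrongDual.toWeakDual z)).comp hU
  exact h3

end general

variable {H : Type*} [NormedAddCommGroup H] [InnerProductSpace ℂ H] {Γ : Type*}

lemma rk_add (a b c : H) : rk a (b + c) = rk a b + rk a c := by
  refine K_ext fun h => ?_
  rw [map_add, add_apply, rk_apply, rk_apply, rk_apply, smul_add]

lemma rk_smul (a : H) (t : ℂ) (b : H) : rk a (t • b) = t • rk a b := by
  refine K_ext fun h => ?_
  rw [map_smul, smul_apply, rk_apply, rk_apply, smul_comm]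

lemma norm_rk_le (a b : H) : ‖rk a b‖ ≤ ‖a‖ * ‖b‖ := by
  rw [← norm_incl]
  refine ContinuousLinearMap.opNorm_le_bound _ (by positivity) fun h => ?_
  rw [rk_apply, norm_smul]
  have := norm_inner_le_norm (𝕜 := ℂ) a h
  nlinarith [norm_nonneg b]

/-- The functional `v ↦ φ (a ⊗ v)`. -/
noncomputable def slice (φ : StrongDual ℂ (K H)) (a : H) : StrongDual ℂ H :=
  LinearMap.mkContinuous
    { toFun := fun v => φ (rk a v)
      map_add' := fun v w => by rw [rk_add, map_add]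
      map_smul' := fun t v => by rw [rk_smul, map_smul]; rfl } (‖φ‖ * ‖a‖) (by
    intro v
    have h1 : ‖φ (rk a v)‖ ≤ ‖φ‖ * ‖rk a v‖ := φ.le_opNorm _
    have h2 := norm_rk_le a v
    calc ‖φ (rk a v)‖ ≤ ‖φ‖ * ‖rk a v‖ := h1
      _ ≤ ‖φ‖ * (‖a‖ * ‖v‖) := mul_le_mul_of_nonneg_left h2 (norm_nonneg _)
      _ = ‖φ‖ * ‖a‖ * ‖v‖ := by ring)

lemma slice_apply (φ : StrongDual ℂ (K H)) (a v : H) : slice φ a v = φ (rk a v) := rfl

lemma finite_large [CompleteSpace H] {f : ℕ → H} {g : ℕ × Γ → H} (hg : Orthonormal ℂ g)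
    (φ : StrongDual ℂ (K H)) (i : ℕ) {δ : ℝ} (hδ : 0 < δ) :
    {β : Γ | δ ≤ ‖φ (rk (f i) (g (i, β)))‖}.Finite := by
  set w := (InnerProductSpace.toDual ℂ H).symm (slice φ (f i)) with hw
  have hw1 : ∀ v, ⟪w, v⟫_ℂ = φ (rk (f i) v) := by
    intro v
    rw [hw, InnerProductSpace.toDual_symm_apply, slice_apply]
  have hg' : Orthonormal ℂ (fun β : Γ => g (i, β)) :=
    hg.comp (fun β => (i, β)) (fun a b h => by simpa using h)
  have h1 := (hg'.inner_products_summable w).tendsto_cofinite_zero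
  have h2 : ∀ᶠ β in cofinite, ‖⟪g (i, β), w⟫_ℂ‖ ^ 2 < δ ^ 2 :=
    h1.eventually (gt_mem_nhds (by positivity))
  refine (Filter.eventually_cofinite.mp h2).subset fun β hβ => ?_
  simp only [mem_setOf_eq, not_lt] at hβ ⊢
  rw [norm_inner_symm, hw1]
  exact pow_le_pow_left₀ hδ.le hβ 2

lemma map_op (f : ℕ → H) (g : ℕ × Γ → H) (s : Finset (ℕ × Γ)) (c : ℕ × Γ → ℂ)
    (φ : StrongDual ℂ (K H)) :
    φ (op f g s c) = ∑ p ∈ s, c p * φ (rk (f p.1) (g p)) := by
  simp [op, map_sum]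

open Classical in
/-- Uniform smallness of the tails. -/
lemma tail {f : ℕ → H} {g : ℕ × Γ → H} (hf : Orthonormal ℂ f) (hg : Orthonormal ℂ g)
    (φ : StrongDual ℂ (K H)) (M : ℕ) {ε : ℝ} (hε : 0 < ε) :
    ∃ n : ℕ, ∀ N : ℕ, ∀ B : Finset Γ, B.card ≤ M →
      ‖φ (op f g (Finset.Ico n N ×ˢ B) 1)‖ ≤ ε := by
  set T : Set ℝ := {t | ∃ (s : Finset (ℕ × Γ)) (c : ℕ × Γ → ℂ),
    (∀ i, ∑ p ∈ s with p.1 = i, ‖c p‖ ^ 2 ≤ (1 : ℝ) ^ 2) ∧ t = ‖φ (op f g s c)‖} with hT
  have hTb : ∀ t ∈ T, t ≤ ‖φ‖ := by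
    rintro t ⟨s, c, hc, rfl⟩
    have h1 := norm_op_le hf hg s c zero_le_one hc
    calc ‖φ (op f g s c)‖ ≤ ‖φ‖ * ‖op f g s c‖ := φ.le_opNorm _
      _ ≤ ‖φ‖ * 1 := mul_le_mul_of_nonneg_left h1 (norm_nonneg _)
      _ = ‖φ‖ := mul_one _
  have hTbdd : BddAbove T := ⟨‖φ‖, hTb⟩
  have hTne : T.Nonempty := ⟨_, ∅, 0, by simp, rfl⟩
  set S := sSup T with hS
  have hM : (0 : ℝ) < Real.sqrt (M + 1) := Real.sqrt_pos.mpr (by positivity)
  obtain ⟨t, ⟨s₀, c₀, hc₀, rfl⟩, ht⟩ := exists_lt_of_lt_csSup hTne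
    (show S - ε / Real.sqrt (M + 1) < S by
      have : 0 < ε / Real.sqrt (M + 1) := by positivity
      linarith)
  refine ⟨(s₀.image Prod.fst).sup id + 1, fun N B hB => ?_⟩
  set n := (s₀.image Prod.fst).sup id + 1 with hn
  have hs₀ : ∀ p ∈ s₀, p.1 < n := by
    intro p hp
    have h1 : p.1 ≤ (s₀.image Prod.fst).sup id :=
      Finset.le_sup (f := id) (Finset.mem_image_of_mem _ hp)
    omega
  set s₁ := Finset.Ico n N ×ˢ B with hs₁
  have hs₁' : ∀ p ∈ s₁, n ≤ p.1 := by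
    intro p hp
    rw [hs₁, Finset.mem_product, Finset.mem_Ico] at hp
    exact hp.1.1
  have hdisj : Disjoint s₀ s₁ := by
    rw [Finset.disjoint_left]
    intro p hp hp'
    have := hs₀ p hp
    have := hs₁' p hp'
    omega
  obtain ⟨θ₀, hθ₀, hθ₀'⟩ := RCLike.exists_norm_eq_mul_self (φ (op f g s₀ c₀))
  obtain ⟨θ₁, hθ₁, hθ₁'⟩ := RCLike.exists_norm_eq_mul_self (φ (op f g s₁ 1))
  set r : ℝ := (Real.sqrt (M + 1))⁻¹ with hr
  set c : ℕ × Γ → ℂ := fun p => if p ∈ s₀ then θ₀ * c₀ p else θ₁ * (r : ℂ) with hc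
  have hval : φ (op f g (s₀ ∪ s₁) c) = θ₀ * φ (op f g s₀ c₀) + r * (θ₁ * φ (op f g s₁ 1)) := by
    rw [map_op, Finset.sum_union hdisj, map_op, map_op, Finset.mul_sum, Finset.mul_sum,
      Finset.mul_sum]
    congr 1
    · refine Finset.sum_congr rfl fun p hp => ?_
      simp only [hc, hp, if_true]
      ring
    · refine Finset.sum_congr rfl fun p hp => ?_
      have : p ∉ s₀ := fun h => (Finset.disjoint_left.mp hdisj h) hp
      simp only [hc, this, if_false, Pi.one_apply]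
      ring
  have hrow : ∀ i, ∑ p ∈ (s₀ ∪ s₁) with p.1 = i, ‖c p‖ ^ 2 ≤ (1 : ℝ) ^ 2 := by
    intro i
    by_cases hi : i < n
    · have h1 : ((s₀ ∪ s₁).filter fun p => p.1 = i) = s₀.filter fun p => p.1 = i := by
        ext p
        simp only [Finset.mem_filter, Finset.mem_union]
        constructor
        · rintro ⟨h | h, h'⟩
          · exact ⟨h, h'⟩
          · have := hs₁' p h
            omega
        · rintro ⟨h, h'⟩
          exact ⟨Or.inl h, h'⟩
      rw [h1]
      refine le_trans (le_of_eq ?_) (hc₀ i)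
      refine Finset.sum_congr rfl fun p hp => ?_
      rw [Finset.mem_filter] at hp
      simp only [hc, hp.1, if_true, norm_mul, hθ₀, one_mul]
    · have h1 : ((s₀ ∪ s₁).filter fun p => p.1 = i) ⊆ B.map ⟨fun β => (i, β), fun a b h => by
          simpa using h⟩ := by
        intro p hp
        simp only [Finset.mem_filter, Finset.mem_union] at hp
        rcases hp.1 with h | h
        · have := hs₀ p h
          omega
        · rw [hs₁, Finset.mem_product] at h
          rw [Finset.mem_map]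
          exact ⟨p.2, h.2, by rw [← hp.2]; rfl⟩
      have h2 : ∀ p ∈ (s₀ ∪ s₁).filter (fun p => p.1 = i), ‖c p‖ ^ 2 = ((M : ℝ) + 1)⁻¹ := by
        intro p hp
        simp only [Finset.mem_filter, Finset.mem_union] at hp
        have h3 : p ∉ s₀ := by
          intro h
          have := hs₀ p h
          omega
        simp only [hc, h3, if_false, norm_mul, hθ₁, one_mul]
        rw [Complex.norm_real, Real.norm_eq_abs, sq_abs, hr, inv_pow, Real.sq_sqrt (by positivity)]
      rw [Finset.sum_congr rfl h2, Finset.sum_const, nsmul_eq_mul]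
      have h4 : (((s₀ ∪ s₁).filter fun p => p.1 = i).card : ℝ) ≤ M := by
        have := Finset.card_le_card h1
        rw [Finset.card_map] at this
        exact_mod_cast this.trans hB
      have h5 : (0 : ℝ) < M + 1 := by positivity
      rw [one_pow, ← div_eq_mul_inv, div_le_one h5]
      linarith
  have hmem : ‖φ (op f g (s₀ ∪ s₁) c)‖ ∈ T := ⟨_, _, hrow, rfl⟩
  have hle : ‖φ (op f g (s₀ ∪ s₁) c)‖ ≤ S := le_csSup hTbdd hmem
  rw [hval, ← hθ₀', ← hθ₁'] at hle
  have hre : ((‖φ (op f g s₀ c₀)‖ : ℂ) + r * (‖φ (op f g s₁ 1)‖ : ℂ)) =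
      ((‖φ (op f g s₀ c₀)‖ + r * ‖φ (op f g s₁ 1)‖ : ℝ) : ℂ) := by push_cast; ring
  have hrpos : 0 < r := by positivity
  have hle' : ‖φ (op f g s₀ c₀)‖ + r * ‖φ (op f g s₁ 1)‖ ≤ S := by
    have h1 : ‖((‖φ (op f g s₀ c₀)‖ + r * ‖φ (op f g s₁ 1)‖ : ℝ) : ℂ)‖ ≤ S := by
      rw [← hre]
      exact hle
    rw [Complex.norm_real, Real.norm_of_nonneg (by positivity)] at h1
    exact h1
  have h6 : r * ‖φ (op f g s₁ 1)‖ ≤ ε / Real.sqrt (M + 1) := by linarith
  rw [hr, inv_mul_eq_div] at h6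
  exact (div_le_div_iff_of_pos_right hM).mp h6

open Classical in
/-- The moving part tends weakly to zero. -/
lemma moving [CompleteSpace H] {f : ℕ → H} {g : ℕ × Γ → H} (hf : Orthonormal ℂ f)
    (hg : Orthonormal ℂ g) {P : Type*} (U : Ultrafilter P) (N : P → ℕ) (B : P → Finset Γ) (M : ℕ)
    (hB : ∀ p, (B p).card ≤ M) (S : Finset Γ) (hS : ∀ β, (∀ᶠ p in U, β ∈ B p) → β ∈ S)
    (φ : StrongDual ℂ (K H)) :
    Tendsto (fun p => φ (op f g (Finset.range (N p) ×ˢ (B p \ S)) 1)) U (𝓝 0) := by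
  rw [Metric.tendsto_nhds]
  intro ε hε
  obtain ⟨n, hn⟩ := tail hf hg φ M (half_pos hε)
  set δ : ℝ := ε / (2 * (n * M + 1)) with hδ
  have hδpos : 0 < δ := by positivity
  have hfin : ∀ i, {β : Γ | δ ≤ ‖φ (rk (f i) (g (i, β)))‖}.Finite := fun i =>
    finite_large (f := f) hg φ i hδpos
  have hev : ∀ᶠ p in U, ∀ β ∈ (⋃ i ∈ Finset.range n, {β : Γ | δ ≤ ‖φ (rk (f i) (g (i, β)))‖}),
      β ∉ B p \ S := by
    have hF : (⋃ i ∈ Finset.range n, {β : Γ | δ ≤ ‖φ (rk (f i) (g (i, β)))‖}).Finite :=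
      Set.Finite.biUnion (Finset.finite_toSet _) fun i _ => hfin i
    rw [Filter.eventually_all_finite hF]
    intro β _
    by_cases hβ : β ∈ S
    · exact Eventually.of_forall fun p => by simp [hβ]
    · have h1 : ¬ ∀ᶠ p in U, β ∈ B p := fun h => hβ (hS β h)
      rw [Ultrafilter.eventually_not.symm] at h1
      exact h1.mono fun p hp => by simp [hp]
  filter_upwards [hev] with p hp
  rw [dist_zero_right]
  have hsplit : φ (op f g (Finset.range (N p) ×ˢ (B p \ S)) 1) =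
      φ (op f g (Finset.range (min n (N p)) ×ˢ (B p \ S)) 1) +
      φ (op f g (Finset.Ico n (N p) ×ˢ (B p \ S)) 1) := by
    rw [map_op, map_op, map_op, ← Finset.sum_union]
    · congr 1
      rw [← Finset.union_product]
      congr 1
      ext i
      simp only [Finset.mem_range, Finset.mem_union, Finset.mem_Ico]
      omega
    · rw [Finset.disjoint_left]
      intro q hq hq'
      rw [Finset.mem_product, Finset.mem_range] at hq
      rw [Finset.mem_product, Finset.mem_Ico] at hq'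
      omega
  rw [hsplit]
  have hB' : (B p \ S).card ≤ M := (Finset.card_le_card Finset.sdiff_subset).trans (hB p)
  have h1 := hn (N p) (B p \ S) hB'
  have h2 : ‖φ (op f g (Finset.range (min n (N p)) ×ˢ (B p \ S)) 1)‖ ≤ n * M * δ := by
    rw [map_op]
    refine (norm_sum_le _ _).trans ?_
    have h3 : ∀ q ∈ Finset.range (min n (N p)) ×ˢ (B p \ S),
        ‖(1 : ℕ × Γ → ℂ) q * φ (rk (f q.1) (g q))‖ ≤ δ := by
      intro q hq
      rw [Finset.mem_product, Finset.mem_range] at hq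
      rw [Pi.one_apply, one_mul]
      by_contra hcon
      push Not at hcon
      refine hp q.2 ?_ hq.2
      simp only [mem_iUnion, Finset.mem_range]
      exact ⟨q.1, by omega, hcon.le⟩
    refine (Finset.sum_le_card_nsmul _ _ _ h3).trans ?_
    rw [nsmul_eq_mul, Finset.card_product, Finset.card_range]
    refine mul_le_mul_of_nonneg_right ?_ hδpos.le
    push_cast
    have h4 : ((min n (N p) : ℕ) : ℝ) ≤ n := by exact_mod_cast min_le_left _ _
    have h5 : (((B p \ S).card : ℕ) : ℝ) ≤ M := by exact_mod_cast hB'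
    push_cast at h4
    exact mul_le_mul h4 h5 (by positivity) (by positivity)
  have h3 : (n : ℝ) * M * δ < ε / 2 := by
    rw [hδ]
    rw [mul_div_assoc', div_lt_div_iff₀ (by positivity) (by norm_num)]
    nlinarith [hε, (by positivity : (0 : ℝ) ≤ n * M)]
  calc ‖φ (op f g (Finset.range (min n (N p)) ×ˢ (B p \ S)) 1) +
      φ (op f g (Finset.Ico n (N p) ×ˢ (B p \ S)) 1)‖
      ≤ ‖φ (op f g (Finset.range (min n (N p)) ×ˢ (B p \ S)) 1)‖ +
        ‖φ (op f g (Finset.Ico n (N p) ×ˢ (B p \ S)) 1)‖ := norm_add_le _ _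
    _ < ε := by linarith

end Pool.Agent.H86R3.KH
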