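import Pool.Agent.H86R3.Wnc1

set_option autoImplicit false

open Filter Topology Set
open scoped ENNReal NNReal

namespace Pool.Agent.H86R3.Wnc

variable {K : Type*} [TopologicalSpace K] [CompactSpace K] [T2Space K]

/-- The sets of functions. -/
noncomputable def AA (e : ℕ → C(K, ℝ≥0)) (k a : ℕ) (s : List ℕ) : Set C(K, ℂ) :=
  (fun s' => toC (FF e s')) '' EE k a s

omit [T2Space K] in
/-- Distance to the canonical image from a norm bound. -/
lemma infEDist_le_of_norm {z : Bidual C(K, ℂ)} {g : C(K, ℂ)} {r : ℝ}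
    (h : ‖z - canon _ g‖ ≤ r) :
    Metric.infEDist z (Set.range (canon C(K, ℂ))) ≤ ENNReal.ofReal r := by
  refine (Metric.infEDist_le_edist_of_mem (Set.mem_range_self g)).trans ?_
  rw [edist_dist, dist_eq_norm]
  exact ENNReal.ofReal_le_ofReal h

/-- The weak-star closure is within one half of the space. -/
lemma wk_small {e : ℕ → C(K, ℝ≥0)} (he : ∀ m t, e m t ≤ 1)
    (he0 : ∀ t, Tendsto (fun m => e m t) atTop (𝓝 0)) (k : ℕ) :
    ∀ (a : ℕ) (s : List ℕ), ∀ z ∈ bidualClosure (AA e k a s),
      Metric.infEDist z (Set.range (canon C(K, ℂ))) ≤ ENNReal.ofReal (1 / 2) := by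
  induction k with
  | zero =>
    intro a s z hz
    have h1 : AA e 0 a s = {toC (FF e s)} := by
      simp only [AA, EE, image_singleton]
    have h2 : StrongDual.toWeakDual z ∈
        closure ((fun a => StrongDual.toWeakDual (canon _ a)) '' (AA e 0 a s)) := hz
    rw [h1, image_singleton, isClosed_singleton.closure_eq, mem_singleton_iff] at h2
    have h3 : z = canon _ (toC (FF e s)) := StrongDual.toWeakDual.injective h2
    have h4 : z ∈ Set.range (canon C(K, ℂ)) := ⟨_, h3.symm⟩
    rw [Metric.infEDist_zero_of_mem h4]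
    exact zero_le
  | succ k ih =>
    intro a s z hz
    by_cases hex : ∃ m, a < m ∧ z ∈ bidualClosure (AA e k m (m :: s))
    · obtain ⟨m, _, hm⟩ := hex
      exact ih m (m :: s) z hm
    · push Not at hex
      -- `z` is in the closure of the part with large next index
      have htail : ∀ M : ℕ, z ∈ bidualClosure (⋃ m ∈ {m | a < m ∧ M < m}, AA e k m (m :: s)) := by
        intro M
        have hsplit : AA e (k + 1) a s = (⋃ m ∈ (Finset.range (M + 1)).filter (fun m => a < m),
            AA e k m (m :: s)) ∪ ⋃ m ∈ {m | a < m ∧ M < m}, AA e k m (m :: s) := by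
          ext f
          simp only [AA, EE, mem_image, mem_ofPred_eq, mem_union, mem_iUnion, Finset.mem_filter,
            Finset.mem_range, exists_prop]
          constructor
          · rintro ⟨s', ⟨m, hm, hs'⟩, rfl⟩
            rcases lt_or_ge M m with h | h
            · right; exact ⟨m, ⟨hm, h⟩, s', hs', rfl⟩
            · left; exact ⟨m, ⟨by omega, hm⟩, s', hs', rfl⟩
          · rintro (⟨m, ⟨_, hm⟩, s', hs', rfl⟩ | ⟨m, ⟨hm, _⟩, s', hs', rfl⟩)
            · exact ⟨s', ⟨m, hm, hs'⟩, rfl⟩
            · exact ⟨s', ⟨m, hm, hs'⟩, rfl⟩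
        have h2 : StrongDual.toWeakDual z ∈
            closure ((fun a => StrongDual.toWeakDual (canon _ a)) '' (AA e (k + 1) a s)) := hz
        rw [hsplit, image_union, closure_union, image_iUnion₂] at h2
        rcases h2 with h2 | h2
        · exfalso
          rw [Finset.closure_biUnion, mem_iUnion₂] at h2
          obtain ⟨m, hm, h3⟩ := h2
          exact hex m (Finset.mem_filter.mp hm).2 h3
        · exact h2
      -- the approximating element
      set g : C(K, ℂ) := toC (FF e s) + ContinuousMap.const K (1 / 2 : ℂ) with hg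
      apply infEDist_le_of_norm (g := g)
      apply ContinuousLinearMap.opNorm_le_bound _ (by norm_num)
      intro φ
      apply le_of_forall_pos_le_add
      intro ε hε
      obtain ⟨M0, hM0⟩ := tail_small he he0 φ k hε
      have hz' := htail M0
      have hclosed : IsClosed {w : WeakDual ℂ (StrongDual ℂ C(K, ℂ)) |
          ‖w φ - φ g‖ ≤ 1 / 2 * ‖φ‖ + ε} := by
        refine isClosed_le ?_ continuous_const
        exact ((WeakDual.eval_continuous φ).sub continuous_const).norm
      have hsub : (fun a => StrongDual.toWeakDual (canon _ a)) ''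
          (⋃ m ∈ {m | a < m ∧ M0 < m}, AA e k m (m :: s)) ⊆
          {w : WeakDual ℂ (StrongDual ℂ C(K, ℂ)) | ‖w φ - φ g‖ ≤ 1 / 2 * ‖φ‖ + ε} := by
        rintro _ ⟨f, hf, rfl⟩
        rw [mem_iUnion₂] at hf
        obtain ⟨m, ⟨_, hmM⟩, s', hs', rfl⟩ := hf
        change ‖φ (toC (FF e s')) - φ g‖ ≤ 1 / 2 * ‖φ‖ + ε
        have h1 : toC (FF e s') - g = (toC (FF e (m :: s)) - g) +
            (toC (FF e s') - toC (FF e (m :: s))) := by abel
        have h2 : ‖toC (FF e (m :: s)) - g‖ ≤ 1 / 2 := by
          rw [ContinuousMap.norm_le _ (by norm_num)]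
          intro t
          have h3 : (toC (FF e (m :: s)) - g) t
              = (((FF e (m :: s) t : ℝ) - (FF e s t : ℝ) - 1 / 2 : ℝ) : ℂ) := by
            rw [hg]; simp; ring
          rw [h3, Complex.norm_real, Real.norm_eq_abs, abs_le]
          have h4 : (FF e s t : ℝ) ≤ (FF e (m :: s) t : ℝ) := by
            exact_mod_cast FF_cons_ge e m s t
          have h5 : (FF e (m :: s) t : ℝ) ≤ (FF e s t : ℝ) + 1 := by
            exact_mod_cast FF_cons_le he m s t
          constructor <;> linarith
        have h3 : ‖φ (toC (FF e s') - toC (FF e (m :: s)))‖ ≤ ε := by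
          apply hM0
          intro t η hη
          obtain ⟨h4, h5⟩ := FF_ext e k m s s' hs' t
          have h6 := h5 η (fun m' hm' => hη m' (hmM.trans hm'))
          have h7 : (toC (FF e s') - toC (FF e (m :: s))) t
              = (((FF e s' t : ℝ) - (FF e (m :: s) t : ℝ) : ℝ) : ℂ) := by simp
          have h4' : (FF e (m :: s) t : ℝ) ≤ (FF e s' t : ℝ) := by exact_mod_cast h4
          have h6' : (FF e s' t : ℝ) ≤ (FF e (m :: s) t : ℝ) + k * η := by exact_mod_cast h6
          rw [h7, Complex.norm_real, Real.norm_eq_abs, abs_of_nonneg (by linarith)]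
          linarith
        rw [← map_sub, h1, map_add]
        calc _ ≤ ‖φ (toC (FF e (m :: s)) - g)‖ + ‖φ (toC (FF e s') - toC (FF e (m :: s)))‖ :=
              norm_add_le _ _
          _ ≤ ‖φ‖ * ‖toC (FF e (m :: s)) - g‖ + ε := by
              gcongr
              exact φ.le_opNorm _
          _ ≤ ‖φ‖ * (1 / 2) + ε := by gcongr
          _ = 1 / 2 * ‖φ‖ + ε := by ring
      have h5 := closure_minimal hsub hclosed hz'
      exact h5

/-- Weak limits along the ultrafilter inside a weakly compact set. -/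
lemma weak_limit {X : Type*} [NormedAddCommGroup X] [NormedSpace ℂ X] {L : Set X}
    (hL : IsWeaklyCompact L) (x : ℕ → X) (hx : ∀ m, x m ∈ L) :
    ∃ y ∈ L, ∀ φ : StrongDual ℂ X, Tendsto (fun m => φ (x m)) (hyperfilter ℕ : Filter ℕ)
      (𝓝 (φ y)) := by
  have hle : ((hyperfilter ℕ).map (fun m => toWeakSpace ℂ X (x m)) : Filter (WeakSpace ℂ X)) ≤
      𝓟 (toWeakSpace ℂ X '' L) := by
    rw [Filter.le_principal_iff]
    change (fun m => toWeakSpace ℂ X (x m)) ⁻¹' (toWeakSpace ℂ X '' L) ∈ (hyperfilter ℕ : Filter ℕ)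
    exact Filter.mem_of_superset Filter.univ_mem (fun m _ => ⟨x m, hx m, rfl⟩)
  obtain ⟨_, ⟨y, hy, rfl⟩, hlim⟩ := IsCompact.ultrafilter_le_nhds hL _ hle
  refine ⟨y, hy, fun φ => ?_⟩
  have hc : Continuous fun w : WeakSpace ℂ X => (topDualPairing ℂ X).flip w φ :=
    WeakBilin.eval_continuous _ φ
  have h1 : Tendsto (fun m => toWeakSpace ℂ X (x m)) (hyperfilter ℕ : Filter ℕ)
      (𝓝 (toWeakSpace ℂ X y)) := hlim
  exact (hc.tendsto _).comp h1

end Pool.Agent.H86R3.Wnc
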