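import Mathlib
import Pool.Agent.H86R3.KH2
import Pool.Agent.H86R3.Wnc2

set_option autoImplicit false

open Filter Topology Set
open scoped ENNReal InnerProductSpace

namespace Pool.Agent.H86R3.KH

open Pool.Agent.H86R3.Wnc

variable {H : Type*} [NormedAddCommGroup H] [InnerProductSpace ℂ H] {Γ : Type*}

/-- Index set of the test family: `M` points of `Γ` whose codes agree on the first `N` bits. -/
def Idx (r : Γ → ℕ → Bool) (M : ℕ) : Type _ :=
  {q : Finset Γ × ℕ // q.1.card = M ∧ ∀ β ∈ q.1, ∀ β' ∈ q.1, ∀ i < q.2, r β i = r β' i}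

/-- The test family. -/
noncomputable def xx (f : ℕ → H) (g : ℕ × Γ → H) (r : Γ → ℕ → Bool) (M : ℕ) (q : Idx r M) : K H :=
  op f g (Finset.range q.1.2 ×ˢ q.1.1) 1

lemma exists_fixed {Y : Type*} {P : Type*} (U : Ultrafilter P) (B : P → Finset Y) (M : ℕ)
    (hB : ∀ p, (B p).card ≤ M) :
    ∃ S : Finset Y, S.card ≤ M ∧ ∀ β, (∀ᶠ p in U, β ∈ B p) ↔ β ∈ S := by
  classical
  set S' : Set Y := {β | ∀ᶠ p in U, β ∈ B p} with hS'
  have hcard : ∀ F : Finset Y, (F : Set Y) ⊆ S' → F.card ≤ M := by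
    intro F hF
    have h1 : ∀ᶠ p in U, ∀ β ∈ F, β ∈ B p := by
      rw [Filter.eventually_all_finset]
      exact fun β hβ => hF hβ
    obtain ⟨p, hp⟩ := h1.exists
    exact (Finset.card_le_card hp).trans (hB p)
  have hfin : S'.Finite := by
    by_contra hinf
    obtain ⟨F, hF, hFc⟩ := (Set.not_finite.mp hinf : S'.Infinite).exists_subset_card_eq (M + 1)
    have := hcard F hF
    omega
  refine ⟨hfin.toFinset, hcard _ (by simp), fun β => ?_⟩
  simp [hS']

section upper

variable [CompleteSpace H]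

open Classical in
theorem wk_le_one {f : ℕ → H} {g : ℕ × Γ → H} (hf : Orthonormal ℂ f) (hg : Orthonormal ℂ g)
    {r : Γ → ℕ → Bool} (hr : Function.Injective r) (M : ℕ) :
    wk (range (xx f g r M)) ≤ 1 := by
  unfold wk
  rw [excess_le_iff]
  intro z hz
  obtain ⟨U, hU⟩ := exists_ultrafilter_of_mem _ hz
  obtain ⟨S, hSM, hS⟩ := exists_fixed U (fun p : Idx r M => p.1.1) M (fun p => p.2.1.le)
  have hmov : ∀ φ : StrongDual ℂ (K H), Tendsto (fun p : Idx r M =>
      φ (op f g (Finset.range p.1.2 ×ˢ (p.1.1 \ S)) 1)) U (𝓝 0) := fun φ =>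
    moving hf hg U (fun p => p.1.2) (fun p => p.1.1) M (fun p => p.2.1.le) S
      (fun β hβ => (hS β).mp hβ) φ
  have hSB : ∀ᶠ p : Idx r M in U, S ⊆ p.1.1 := by
    have : ∀ᶠ p : Idx r M in U, ∀ β ∈ S, β ∈ p.1.1 := by
      rw [Filter.eventually_all_finset]
      exact fun β hβ => (hS β).mpr hβ
    exact this.mono fun p hp β hβ => hp β hβ
  have hu : ∀ φ : StrongDual ℂ (K H), Tendsto (fun p : Idx r M =>
      φ (op f g (Finset.range p.1.2 ×ˢ S) 1)) U (𝓝 (z φ)) := by
    intro φ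
    have h1 := (hU φ).sub (hmov φ)
    rw [sub_zero] at h1
    refine h1.congr' (hSB.mono fun p hp => ?_)
    have h2 : xx f g r M p = op f g (Finset.range p.1.2 ×ˢ S) 1 +
        op f g (Finset.range p.1.2 ×ˢ (p.1.1 \ S)) 1 := by
      rw [xx, op, op, op, ← Finset.sum_union]
      · rw [← Finset.product_union, Finset.union_sdiff_of_subset hp]
      · rw [Finset.disjoint_left]
        intro q hq hq'
        rw [Finset.mem_product] at hq hq'
        exact (Finset.mem_sdiff.mp hq'.2).2 hq.2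
    rw [h2, map_add]
    simp
  by_cases hcard : S.card ≤ 1
  · -- the limit has norm at most one
    have hz1 : ‖z‖ ≤ 1 := by
      refine ContinuousLinearMap.opNorm_le_bound _ zero_le_one fun φ => ?_
      refine le_of_tendsto (hu φ).norm (Eventually.of_forall fun p => ?_)
      have h1 : ‖op f g (Finset.range p.1.2 ×ˢ S) 1‖ ≤ 1 := by
        refine norm_op_le hf hg _ _ zero_le_one fun i => ?_
        have h2 : ((Finset.range p.1.2 ×ˢ S).filter fun q => q.1 = i) ⊆
            S.map ⟨fun β => (i, β), fun a b h => by simpa using h⟩ := by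
          intro q hq
          rw [Finset.mem_filter, Finset.mem_product] at hq
          rw [Finset.mem_map]
          exact ⟨q.2, hq.1.2, by rw [← hq.2]; rfl⟩
        have h3 := Finset.card_le_card h2
        rw [Finset.card_map] at h3
        simp only [Pi.one_apply, norm_one, one_pow, Finset.sum_const, nsmul_eq_mul, mul_one]
        exact_mod_cast h3.trans hcard
      calc ‖φ (op f g (Finset.range p.1.2 ×ˢ S) 1)‖
          ≤ ‖φ‖ * ‖op f g (Finset.range p.1.2 ×ˢ S) 1‖ := φ.le_opNorm _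
        _ ≤ ‖φ‖ * 1 := mul_le_mul_of_nonneg_left h1 (norm_nonneg _)
        _ = 1 * ‖φ‖ := by ring
    have h0 : (0 : Bidual (K H)) ∈ Set.range (canon (K H)) := ⟨0, map_zero _⟩
    refine (Metric.infEDist_le_edist_of_mem h0).trans ?_
    have h1 : edist z (0 : Bidual (K H)) = ENNReal.ofReal ‖z‖ :=
      (edist_dist _ _).trans (congrArg ENNReal.ofReal (dist_zero_right z))
    exact h1.trans_le (ENNReal.ofReal_le_one.mpr hz1)
  · push Not at hcard
    obtain ⟨β, hβ, β', hβ', hne⟩ := Finset.one_lt_card.mp hcard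
    have hne' : r β ≠ r β' := fun h => hne (hr h)
    obtain ⟨i, hi⟩ := Function.ne_iff.mp hne'
    have hbd : ∀ᶠ p : Idx r M in U, p.1.2 ∈ Finset.range (i + 1) := by
      refine hSB.mono fun p hp => ?_
      rw [Finset.mem_range]
      by_contra hcon
      exact hi (p.2.2 β (hp hβ) β' (hp hβ') i (by omega))
    have hmap : ((Finset.range (i + 1) : Finset ℕ) : Set ℕ) ∈ U.map (fun p : Idx r M => p.1.2) :=
      hbd
    obtain ⟨n, -, hn⟩ := Ultrafilter.eq_pure_of_finite_mem (Finset.finite_toSet _) hmap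
    have hn' : ∀ᶠ p : Idx r M in U, p.1.2 = n := by
      have h1 : ({n} : Set ℕ) ∈ U.map (fun p : Idx r M => p.1.2) := by
        rw [hn]
        exact Ultrafilter.mem_pure.mpr rfl
      exact h1
    have hz1 : z = canon (K H) (op f g (Finset.range n ×ˢ S) 1) := by
      ext φ
      refine tendsto_nhds_unique (hu φ) ?_
      refine tendsto_const_nhds.congr' (hn'.mono fun p hp => ?_)
      change φ (op f g (Finset.range n ×ˢ S) 1) = φ (op f g (Finset.range p.1.2 ×ˢ S) 1)
      rw [hp]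
    have h0 : z ∈ Set.range (canon (K H)) := ⟨_, hz1.symm⟩
    rw [Metric.infEDist_zero_of_mem h0]
    exact zero_le_one

end upper

/-- The coordinate functional `y ↦ ⟪b, y a⟫`. -/
noncomputable def coord (a b : H) : StrongDual ℂ (K H) :=
  ((innerSL ℂ b).comp (ContinuousLinearMap.apply ℂ H a)).comp (incl H).toContinuousLinearMap

lemma coord_apply (a b : H) (y : K H) : coord a b y = ⟪b, incl H y a⟫_ℂ := rfl

lemma xx_apply {f : ℕ → H} {g : ℕ × Γ → H} (hf : Orthonormal ℂ f) {r : Γ → ℕ → Bool} {M : ℕ}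
    (q : Idx r M) {i : ℕ} (hi : i < q.1.2) :
    incl H (xx f g r M q) (f i) = ∑ β ∈ q.1.1, g (i, β) := by
  classical
  rw [xx, op_apply, Finset.sum_product]
  rw [Finset.sum_eq_single_of_mem i (Finset.mem_range.mpr hi)]
  · refine Finset.sum_congr rfl fun β _ => ?_
    simp [hf.1 i]
  · intro j _ hj
    refine Finset.sum_eq_zero fun β _ => ?_
    simp [hf.2 hj]

lemma exists_large {f : ℕ → H} {g : ℕ × Γ → H} (hf : Orthonormal ℂ f) (hg : Orthonormal ℂ g)
    {r : Γ → ℕ → Bool} {M : ℕ} (hM : 0 < M) (q : Idx r M) {i : ℕ} (hi : i < q.1.2) {c : ℝ}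
    (y : K H) (hy : ‖xx f g r M q - y‖ ≤ c) :
    ∃ β ∈ q.1.1, (M - c ^ 2) / (2 * M) ≤ (coord (f i) (g (i, β)) y).re := by
  have hM' : (0 : ℝ) < M := by exact_mod_cast hM
  set v := incl H y (f i) with hv
  have hg' : Orthonormal ℂ (fun β : Γ => g (i, β)) :=
    hg.comp (fun β => (i, β)) (fun a b h => by simpa using h)
  set u := ∑ β ∈ q.1.1, g (i, β) with hu
  have hun : ‖u‖ ^ 2 = M := by
    have h1 := norm_sq_sum_orthonormal hg' q.1.1 1
    simp only [Pi.one_apply, one_smul, norm_one, one_pow, Finset.sum_const, nsmul_eq_mul,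
      mul_one, q.2.1] at h1
    exact h1
  have huv : ‖u - v‖ ≤ c := by
    have h1 : u - v = incl H (xx f g r M q - y) (f i) := by
      rw [map_sub, sub_apply, xx_apply hf q hi]
    rw [h1]
    calc ‖incl H (xx f g r M q - y) (f i)‖ ≤ ‖incl H (xx f g r M q - y)‖ * ‖f i‖ :=
          ContinuousLinearMap.le_opNorm _ _
      _ = ‖xx f g r M q - y‖ := by rw [hf.1 i, mul_one, norm_incl]
      _ ≤ c := hy
  have h2 : ‖u - v‖ ^ 2 = ‖u‖ ^ 2 - 2 * (⟪u, v⟫_ℂ).re + ‖v‖ ^ 2 := by
    have := norm_sub_sq (𝕜 := ℂ) u v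
    simpa using this
  have hc0 : 0 ≤ c := (norm_nonneg _).trans huv
  have h3 : ‖u - v‖ ^ 2 ≤ c ^ 2 := pow_le_pow_left₀ (norm_nonneg _) huv 2
  have h4 : (M - c ^ 2) / 2 ≤ (⟪u, v⟫_ℂ).re := by nlinarith [sq_nonneg ‖v‖]
  have h5 : (⟪u, v⟫_ℂ).re = ∑ β ∈ q.1.1, (coord (f i) (g (i, β)) y).re := by
    rw [hu, sum_inner, Complex.re_sum]
    rfl
  by_contra hcon
  push Not at hcon
  have h6 : ∑ β ∈ q.1.1, (coord (f i) (g (i, β)) y).re < ∑ β ∈ q.1.1, (M - c ^ 2) / (2 * M) := by
    refine Finset.sum_lt_sum_of_nonempty ?_ hcon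
    rw [← Finset.card_pos, q.2.1]
    exact hM
  rw [Finset.sum_const, q.2.1, nsmul_eq_mul] at h6
  have h7 : (M : ℝ) * ((M - c ^ 2) / (2 * M)) = (M - c ^ 2) / 2 := by
    field_simp
  linarith

/-- Condensation: an uncountable set has a point all of whose classes are infinite. -/
lemma condensation [Uncountable Γ] (α : ℕ → Type) [∀ n, Finite (α n)] (d : ∀ n, Γ → α n) :
    ∃ β, ∀ n, {β' | d n β' = d n β}.Infinite := by
  by_contra hcon
  push Not at hcon
  have h1 : (univ : Set Γ) ⊆ ⋃ n, ⋃ v : {v : α n // {β' | d n β' = v}.Finite}, {β' | d n β' = v.1} := by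
    intro β _
    obtain ⟨n, hn⟩ := hcon β
    simp only [mem_iUnion]
    exact ⟨n, ⟨d n β, hn⟩, rfl⟩
  have h2 : (⋃ n, ⋃ v : {v : α n // {β' | d n β' = v}.Finite}, {β' | d n β' = v.1} :
      Set Γ).Countable := by
    refine countable_iUnion fun n => ?_
    have : Finite {v : α n // {β' | d n β' = v}.Finite} := inferInstance
    exact countable_iUnion fun v => v.2.countable
  exact not_countable_univ (h2.mono h1)

theorem no_wc [Uncountable Γ] [CompleteSpace H] {f : ℕ → H} {g : ℕ × Γ → H}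
    (hf : Orthonormal ℂ f) (hg : Orthonormal ℂ g) {r : Γ → ℕ → Bool} {M : ℕ} (hM : 0 < M)
    {c : ℝ} (hc : c ^ 2 < M) {L : Set (K H)} (hL : IsWeaklyCompact L) (y : Idx r M → K H)
    (hyL : ∀ p, y p ∈ L) (hxy : ∀ p, ‖xx f g r M p - y p‖ ≤ c) : False := by
  classical
  have hM' : (0 : ℝ) < M := by exact_mod_cast hM
  set η : ℝ := (M - c ^ 2) / (2 * M) with hη
  have hηpos : 0 < η := div_pos (by linarith) (by positivity)
  set J : Γ → Finset ℕ → Prop := fun β F => ∃ p : Idx r M, β ∈ p.1.1 ∧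
    ∀ i ∈ F, i < p.1.2 ∧ η ≤ (coord (f i) (g (i, β)) (y p)).re with hJ
  have hJfin : ∀ β, ∀ I : Set ℕ, I.Infinite → ¬ ∀ F : Finset ℕ, (F : Set ℕ) ⊆ I → J β F := by
    intro β I hI h
    have h0 : ∀ k : ℕ, ((((Finset.range k).filter (· ∈ I)) : Finset ℕ) : Set ℕ) ⊆ I := by
      intro k i hi
      rw [Finset.mem_coe, Finset.mem_filter] at hi
      exact hi.2
    choose p hp1 hp2 using fun k => h ((Finset.range k).filter (· ∈ I)) (h0 k)
    obtain ⟨y', -, hlim⟩ := weak_limit hL (fun k => y (p k)) (fun k => hyL _)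
    have h1 : ∀ i ∈ I, η ≤ (coord (f i) (g (i, β)) y').re := by
      intro i hi
      have h2 := (Complex.continuous_re.tendsto _).comp (hlim (coord (f i) (g (i, β))))
      refine ge_of_tendsto h2 ?_
      have h3 : ∀ᶠ k in (hyperfilter ℕ : Filter ℕ), i < k := by
        have h4 : ∀ᶠ k in (cofinite : Filter ℕ), i < k := by
          rw [Nat.cofinite_eq_atTop]
          exact eventually_gt_atTop i
        exact h4.filter_mono (hyperfilter_le_cofinite)
      refine h3.mono fun k hk => ?_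
      exact (hp2 k i (Finset.mem_filter.mpr ⟨Finset.mem_range.mpr hk, hi⟩)).2
    have h2 := (tendsto_compact_orthonormal hf y').norm
    rw [norm_zero] at h2
    have h3 : ∀ᶠ i in atTop, ‖incl H y' (f i)‖ < η := h2.eventually (gt_mem_nhds hηpos)
    obtain ⟨n, hn⟩ := eventually_atTop.mp h3
    obtain ⟨i, hi, hin⟩ := hI.exists_gt n
    have h4 := h1 i hi
    have h5 : (coord (f i) (g (i, β)) y').re ≤ ‖incl H y' (f i)‖ := by
      rw [coord_apply]
      calc (⟪g (i, β), incl H y' (f i)⟫_ℂ).re ≤ ‖⟪g (i, β), incl H y' (f i)⟫_ℂ‖ :=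
            Complex.re_le_norm _
        _ ≤ ‖g (i, β)‖ * ‖incl H y' (f i)‖ := norm_inner_le_norm _ _
        _ = ‖incl H y' (f i)‖ := by rw [hg.1, one_mul]
    have := hn i hin.le
    linarith
  -- condensation point
  obtain ⟨β, hβ⟩ := condensation (fun n => (Fin n → Bool) × (Finset (Fin n) → Prop))
    (fun n β => (fun i => r β i, fun F => J β (F.map Fin.valEmbedding)))
  have hB : ∀ n, ∃ B : Finset Γ, B.card = M ∧ ∀ β' ∈ B, (∀ i < n, r β' i = r β i) ∧
      ∀ F : Finset ℕ, (∀ i ∈ F, i < n) → J β' F → J β F := by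
    intro n
    obtain ⟨B, hB, hBc⟩ := (hβ n).exists_subset_card_eq M
    refine ⟨B, hBc, fun β' hβ' => ?_⟩
    have h1 := hB hβ'
    have h2 : ((fun i : Fin n => r β' i), fun F : Finset (Fin n) => J β' (F.map Fin.valEmbedding)) =
      ((fun i : Fin n => r β i), fun F : Finset (Fin n) => J β (F.map Fin.valEmbedding)) := h1
    have h3 := congrArg Prod.fst h2
    have h4 := congrArg Prod.snd h2
    refine ⟨fun i hi => congrFun h3 ⟨i, hi⟩, fun F hF hJF => ?_⟩
    have h5 : F = (F.attachFin hF).map Fin.valEmbedding := by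
      ext i
      simp only [Finset.mem_map, Finset.mem_attachFin, Fin.valEmbedding_apply]
      constructor
      · intro hi
        exact ⟨⟨i, hF i hi⟩, hi, rfl⟩
      · rintro ⟨a, ha, rfl⟩
        exact ha
    rw [h5] at hJF ⊢
    have h6 := congrFun h4 (F.attachFin hF)
    have h7 : J β' ((F.attachFin hF).map Fin.valEmbedding) =
      J β ((F.attachFin hF).map Fin.valEmbedding) := h6
    rwa [h7] at hJF
  choose B hBc hB' using hB
  set q : ∀ n, Idx r M := fun n => ⟨(B n, n), hBc n, fun β₁ h₁ β₂ h₂ i hi => by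
    rw [(hB' n β₁ h₁).1 i hi, (hB' n β₂ h₂).1 i hi]⟩ with hq
  have hch : ∀ n i, ∃ b : Fin M, i < n →
      η ≤ (coord (f i) (g (i, (((B n).equivFinOfCardEq (hBc n)).symm b : Γ))) (y (q n))).re := by
    intro n i
    by_cases hi : i < n
    · obtain ⟨β', hβ', hβ''⟩ := exists_large hf hg hM (q n) (i := i) hi (y (q n)) (hxy (q n))
      refine ⟨(B n).equivFinOfCardEq (hBc n) ⟨β', hβ'⟩, fun _ => ?_⟩
      rw [Equiv.symm_apply_apply]
      exact hβ''
    · exact ⟨⟨0, hM⟩, fun h => absurd h hi⟩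
  choose χ hχ using hch
  have hlim : ∀ i, ∃ b : Fin M, ∀ᶠ n in (hyperfilter ℕ : Filter ℕ), χ n i = b := by
    intro i
    obtain ⟨b, -, hb⟩ := Ultrafilter.eq_pure_of_finite_mem (f := (hyperfilter ℕ).map (fun n => χ n i))
      (finite_univ) univ_mem
    refine ⟨b, ?_⟩
    have h1 : ({b} : Set (Fin M)) ∈ (hyperfilter ℕ).map (fun n => χ n i) := by
      rw [hb]
      exact Ultrafilter.mem_pure.mpr rfl
    exact h1
  choose χ' hχ' using hlim
  obtain ⟨b, hb⟩ := Finite.exists_infinite_fiber χ'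
  refine hJfin β (χ' ⁻¹' {b}) (Set.infinite_coe_iff.mp hb) fun F hF => ?_
  have h1 : ∀ᶠ n in (hyperfilter ℕ : Filter ℕ), ∀ i ∈ F, χ n i = b ∧ i < n := by
    rw [Filter.eventually_all_finset]
    intro i hi
    have h2 := hχ' i
    have h3 : χ' i = b := hF hi
    rw [h3] at h2
    have h4 : ∀ᶠ k in (hyperfilter ℕ : Filter ℕ), i < k := by
      have h4 : ∀ᶠ k in (cofinite : Filter ℕ), i < k := by
        rw [Nat.cofinite_eq_atTop]
        exact eventually_gt_atTop i
      exact h4.filter_mono (hyperfilter_le_cofinite)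
    exact h2.and h4
  obtain ⟨n, hn⟩ := h1.exists
  have hmem : (((B n).equivFinOfCardEq (hBc n)).symm b : Γ) ∈ B n :=
    (((B n).equivFinOfCardEq (hBc n)).symm b).2
  refine (hB' n _ hmem).2 F (fun i hi => (hn i hi).2) ⟨q n, hmem, fun i hi => ⟨(hn i hi).2, ?_⟩⟩
  have h2 := hχ n i (hn i hi).2
  rw [(hn i hi).1] at h2
  exact h2

/-- The De Blasi measure of the test family is at least `√M`. -/
theorem le_deBlasi [Uncountable Γ] [CompleteSpace H] {f : ℕ → H} {g : ℕ × Γ → H}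
    (hf : Orthonormal ℂ f) (hg : Orthonormal ℂ g) {r : Γ → ℕ → Bool} {M : ℕ} (hM : 0 < M) :
    ENNReal.ofReal (Real.sqrt M) ≤ deBlasi (range (xx f g r M)) := by
  unfold deBlasi
  refine le_iInf₂ fun L hLne => le_iInf fun hL => ?_
  by_contra hcon
  push Not at hcon
  obtain ⟨c, hc1, hc2⟩ := ENNReal.lt_iff_exists_nnreal_btwn.mp hcon
  have hc : (c : ℝ) ^ 2 < M := by
    have h1 : (c : ℝ) < Real.sqrt M := by
      have := (ENNReal.toReal_lt_toReal ENNReal.coe_ne_top ENNReal.ofReal_ne_top).mpr hc2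
      rwa [ENNReal.coe_toReal, ENNReal.toReal_ofReal (Real.sqrt_nonneg _)] at this
    have h2 : Real.sqrt (M : ℝ) ^ 2 = M := Real.sq_sqrt (by positivity)
    have h3 := c.coe_nonneg
    have h4 : (c : ℝ) ^ 2 < Real.sqrt (M : ℝ) ^ 2 := pow_lt_pow_left₀ h1 h3 (by norm_num)
    rwa [h2] at h4
  have hy : ∀ p : Idx r M, ∃ y ∈ L, ‖xx f g r M p - y‖ ≤ c := by
    intro p
    have h1 : Metric.infEDist (xx f g r M p) L < c :=
      lt_of_le_of_lt ((excess_le_iff (range (xx f g r M)) L _).mp le_rfl _ (mem_range_self p)) hc1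
    obtain ⟨y, hyL, hy⟩ := Metric.infEDist_lt_iff.mp h1
    refine ⟨y, hyL, ?_⟩
    rw [edist_dist, ← ENNReal.ofReal_coe_nnreal, ENNReal.ofReal_lt_ofReal_iff_of_nonneg dist_nonneg,
      dist_eq_norm] at hy
    exact hy.le
  choose y hyL hxy using hy
  exact no_wc hf hg hM hc hL y hyL hxy

end Pool.Agent.H86R3.KH
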