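import Mathlib
import Pool.Agent.H86R3.KH1

set_option autoImplicit false

open Filter Topology Set
open scoped ENNReal InnerProductSpace

namespace Pool.Agent.H86R3.KH

variable {H : Type*} [NormedAddCommGroup H] [InnerProductSpace ℂ H]

/-- `x ↦ S x T` on the compact operators. -/
noncomputable def sand (S T : H →L[ℂ] H) : K H →L[ℂ] K H :=
  LinearMap.mkContinuous
    { toFun := fun x => mk (S.comp ((incl H x).comp T))
        (((isCompact_incl x).comp_clm T).clm_comp S)
      map_add' := fun x y => K_ext fun v => by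
        simp only [incl_mk, map_add, ContinuousLinearMap.comp_apply, add_apply]
        try rfl
      map_smul' := fun t x => K_ext fun v => by
        simp only [incl_mk, map_smul, ContinuousLinearMap.comp_apply, smul_apply, RingHom.id_apply]
        try rfl }
    (‖S‖ * ‖T‖) (by
      intro x
      rw [← norm_incl]
      change ‖S.comp ((incl H x).comp T)‖ ≤ _
      calc ‖S.comp ((incl H x).comp T)‖ ≤ ‖S‖ * ‖(incl H x).comp T‖ :=
            ContinuousLinearMap.opNorm_comp_le _ _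
        _ ≤ ‖S‖ * (‖incl H x‖ * ‖T‖) := by
            gcongr
            exact ContinuousLinearMap.opNorm_comp_le _ _
        _ = ‖S‖ * ‖T‖ * ‖x‖ := by rw [norm_incl]; ring)

lemma incl_sand (S T : H →L[ℂ] H) (x : K H) (v : H) :
    incl H (sand S T x) v = S (incl H x (T v)) := rfl

lemma sand_sand (S T S' T' : H →L[ℂ] H) (x : K H) :
    sand S T (sand S' T' x) = sand (S.comp S') (T'.comp T) x := rfl

lemma norm_sand_le (S T : H →L[ℂ] H) (x : K H) : ‖sand S T x‖ ≤ ‖S‖ * ‖T‖ * ‖x‖ :=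
  LinearMap.mkContinuous_norm_le _ (by positivity) _ |> fun h =>
    ((sand S T).le_opNorm x).trans (mul_le_mul_of_nonneg_right h (norm_nonneg _))

lemma norm_sand_le' {S T : H →L[ℂ] H} (hS : ‖S‖ ≤ 1) (hT : ‖T‖ ≤ 1) (x : K H) :
    ‖sand S T x‖ ≤ ‖x‖ := by
  refine (norm_sand_le S T x).trans ?_
  have h1 : ‖S‖ * ‖T‖ ≤ 1 := by
    calc ‖S‖ * ‖T‖ ≤ 1 * 1 := mul_le_mul hS hT (norm_nonneg _) zero_le_one
      _ = 1 := one_mul 1
  calc ‖S‖ * ‖T‖ * ‖x‖ ≤ 1 * ‖x‖ := mul_le_mul_of_nonneg_right h1 (norm_nonneg _)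
    _ = ‖x‖ := one_mul _

/-- An orthogonal sequence of vectors of norm `0` or `1`. -/
structure Sys (H : Type*) [NormedAddCommGroup H] [InnerProductSpace ℂ H] where
  e : ℕ → H
  orth : ∀ i j, i ≠ j → ⟪e i, e j⟫_ℂ = 0
  nrm : ∀ i, ⟪e i, e i⟫_ℂ • e i = e i
  lim : ∀ h, Tendsto (fun n => ∑ i ∈ Finset.range n, ⟪e i, h⟫_ℂ • e i) atTop (𝓝 h)

namespace Sys

variable (B : Sys H)

/-- The partial sum projection. -/
noncomputable def P (n : ℕ) : H →L[ℂ] H :=
  ∑ i ∈ Finset.range n, (innerSL ℂ (B.e i)).smulRight (B.e i)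

lemma P_apply (n : ℕ) (h : H) : B.P n h = ∑ i ∈ Finset.range n, ⟪B.e i, h⟫_ℂ • B.e i := by
  rw [P, sum_apply]
  rfl

lemma P_e (n i : ℕ) : B.P n (B.e i) = if i < n then B.e i else 0 := by
  rw [P_apply]
  by_cases hi : i < n
  · rw [if_pos hi, Finset.sum_eq_single_of_mem i (Finset.mem_range.mpr hi)]
    · exact B.nrm i
    · intro j _ hj
      rw [B.orth j i hj, zero_smul]
  · rw [if_neg hi]
    refine Finset.sum_eq_zero fun j hj => ?_
    have : j ≠ i := by
      rintro rfl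
      exact hi (Finset.mem_range.mp hj)
    rw [B.orth j i this, zero_smul]

lemma P_comp {n m : ℕ} (hnm : n ≤ m) : (B.P n).comp (B.P m) = B.P n := by
  ext h
  rw [ContinuousLinearMap.comp_apply, P_apply B m, map_sum, P_apply B n,
    ← Finset.sum_subset (Finset.range_subset_range.mpr hnm)]
  · refine Finset.sum_congr rfl fun i hi => ?_
    rw [map_smul, P_e, if_pos (Finset.mem_range.mp hi)]
  · intro i _ hi
    rw [map_smul, P_e, if_neg (fun h => hi (Finset.mem_range.mpr h)), smul_zero]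

lemma P_comp' {n m : ℕ} (hnm : n ≤ m) : (B.P m).comp (B.P n) = B.P n := by
  ext h
  rw [ContinuousLinearMap.comp_apply, P_apply B n, map_sum]
  refine Finset.sum_congr rfl fun i hi => ?_
  rw [map_smul, P_e, if_pos (lt_of_lt_of_le (Finset.mem_range.mp hi) hnm)]

lemma inner_P (n : ℕ) (h k : H) : ⟪B.P n h, k⟫_ℂ = ⟪h, B.P n k⟫_ℂ := by
  rw [P_apply, P_apply, sum_inner, inner_sum]
  refine Finset.sum_congr rfl fun i _ => ?_
  rw [inner_smul_left, inner_smul_right, inner_conj_symm]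
  ring

lemma P_P (n : ℕ) (h : H) : B.P n (B.P n h) = B.P n h := by
  rw [← ContinuousLinearMap.comp_apply, P_comp B le_rfl]

lemma norm_sq_split (n : ℕ) (h : H) : ‖h‖ ^ 2 = ‖B.P n h‖ ^ 2 + ‖h - B.P n h‖ ^ 2 := by
  have h1 : ⟪B.P n h, h - B.P n h⟫_ℂ = 0 := by
    rw [inner_sub_right, inner_P, inner_P, P_P, sub_self]
  have h2 := norm_add_sq_eq_norm_sq_add_norm_sq_of_inner_eq_zero (𝕜 := ℂ) (B.P n h)
    (h - B.P n h) h1
  rw [add_sub_cancel] at h2
  rw [sq, sq, sq]
  exact h2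

lemma norm_P_apply_le (n : ℕ) (h : H) : ‖B.P n h‖ ≤ ‖h‖ := by
  have := norm_sq_split B n h
  have h1 : ‖B.P n h‖ ^ 2 ≤ ‖h‖ ^ 2 := by nlinarith [sq_nonneg ‖h - B.P n h‖]
  exact (sq_le_sq₀ (norm_nonneg _) (norm_nonneg _)).mp h1

lemma norm_P_le (n : ℕ) : ‖B.P n‖ ≤ 1 :=
  ContinuousLinearMap.opNorm_le_bound _ zero_le_one fun h => by
    rw [one_mul]
    exact norm_P_apply_le B n h

/-- The complementary projection. -/
noncomputable def Q (n : ℕ) : H →L[ℂ] H := ContinuousLinearMap.id ℂ H - B.P n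

lemma Q_apply (n : ℕ) (h : H) : B.Q n h = h - B.P n h := rfl

lemma norm_Q_apply_le (n : ℕ) (h : H) : ‖B.Q n h‖ ≤ ‖h‖ := by
  have := norm_sq_split B n h
  rw [Q_apply]
  have h1 : ‖h - B.P n h‖ ^ 2 ≤ ‖h‖ ^ 2 := by nlinarith [sq_nonneg ‖B.P n h‖]
  exact (sq_le_sq₀ (norm_nonneg _) (norm_nonneg _)).mp h1

lemma norm_Q_le (n : ℕ) : ‖B.Q n‖ ≤ 1 :=
  ContinuousLinearMap.opNorm_le_bound _ zero_le_one fun h => by
    rw [one_mul]
    exact norm_Q_apply_le B n h

lemma tendsto_P (h : H) : Tendsto (fun n => B.P n h) atTop (𝓝 h) := by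
  simp_rw [P_apply]
  exact B.lim h

/-- Left approximation in norm. -/
lemma tendsto_left (z : K H) : Tendsto (fun n => sand (B.Q n) (ContinuousLinearMap.id ℂ H) z) atTop
    (𝓝 0) := by
  rw [Metric.tendsto_atTop]
  intro ε hε
  have hc := (isCompact_incl z).isCompact_closure_image_closedBall 1
  obtain ⟨t, -, htf, ht⟩ := hc.finite_cover_balls (e := ε / 4) (by positivity)
  have h1 : ∀ᶠ n in atTop, ∀ k ∈ t, dist (B.P n k) k < ε / 4 := by
    rw [Filter.eventually_all_finite htf]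
    intro k _
    exact (Metric.tendsto_nhds.mp (tendsto_P B k)) _ (by positivity)
  obtain ⟨N, hN⟩ := eventually_atTop.mp h1
  refine ⟨N, fun n hn => ?_⟩
  rw [dist_zero_right, ← norm_incl]
  refine lt_of_le_of_lt (ContinuousLinearMap.opNorm_le_of_unit_norm (C := 3 * ε / 4) (by positivity)
    fun v hv => ?_) (by linarith)
  rw [incl_sand]
  have h2 : incl H z v ∈ closure (incl H z '' Metric.closedBall 0 1) :=
    subset_closure ⟨v, by simp [hv], rfl⟩
  obtain ⟨k, hk, hk'⟩ := mem_iUnion₂.mp (ht h2)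
  rw [Metric.mem_ball] at hk'
  have h3 := hN n hn k hk
  set w := incl H z v with hw
  have h4 : B.Q n w = B.Q n (w - k) + (k - B.P n k) := by
    simp only [Q_apply, map_sub]
    abel
  change ‖B.Q n w‖ ≤ _
  rw [h4]
  calc ‖B.Q n (w - k) + (k - B.P n k)‖ ≤ ‖B.Q n (w - k)‖ + ‖k - B.P n k‖ := norm_add_le _ _
    _ ≤ ‖w - k‖ + ‖k - B.P n k‖ := by
        gcongr
        exact norm_Q_apply_le B n _
    _ ≤ ε / 4 + ε / 4 := by
        rw [dist_eq_norm] at hk' h3
        rw [norm_sub_rev k]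
        exact add_le_add hk'.le h3.le
    _ ≤ 3 * ε / 4 := by linarith

/-- Right approximation in norm. -/
lemma tendsto_right [CompleteSpace H] (z : K H) :
    Tendsto (fun n => sand (ContinuousLinearMap.id ℂ H) (B.Q n) z) atTop (𝓝 0) := by
  rw [Metric.tendsto_atTop]
  intro ε hε
  obtain ⟨m, hm⟩ := (Metric.tendsto_atTop.mp (tendsto_left B z)) (ε / 2) (by positivity)
  have hm' := hm m le_rfl
  rw [dist_zero_right] at hm'
  -- the finite rank operator `P m z`
  set u : ℕ → H := fun i => ContinuousLinearMap.adjoint (incl H z) (B.e i) with hu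
  have h1 : ∀ n v, incl H (sand (B.P m) (B.Q n) z) v =
      ∑ i ∈ Finset.range m, ⟪B.Q n (u i), v⟫_ℂ • B.e i := by
    intro n v
    rw [incl_sand, P_apply]
    refine Finset.sum_congr rfl fun i _ => ?_
    congr 1
    rw [← ContinuousLinearMap.adjoint_inner_left]
    change ⟪u i, B.Q n v⟫_ℂ = ⟪B.Q n (u i), v⟫_ℂ
    simp only [Q_apply]
    rw [inner_sub_right, inner_sub_left, inner_P]
  have h2 : Tendsto (fun n => ∑ i ∈ Finset.range m, ‖B.Q n (u i)‖ * ‖B.e i‖) atTop (𝓝 0) := by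
    have h3 : ∀ i ∈ Finset.range m, Tendsto (fun n => ‖B.Q n (u i)‖ * ‖B.e i‖) atTop (𝓝 0) := by
      intro i _
      have h4 : Tendsto (fun n => B.Q n (u i)) atTop (𝓝 0) := by
        have h5 := (tendsto_const_nhds (x := u i)).sub (tendsto_P B (u i))
        rw [sub_self] at h5
        exact h5
      have h6 := (h4.norm).mul_const ‖B.e i‖
      rwa [norm_zero, zero_mul] at h6
    have h7 := tendsto_finsetSum _ h3
    rwa [Finset.sum_const_zero] at h7
  obtain ⟨N, hN⟩ := (Metric.tendsto_atTop.mp h2) (ε / 2) (by positivity)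
  refine ⟨N, fun n hn => ?_⟩
  have h3 := hN n hn
  rw [dist_zero_right, Real.norm_of_nonneg (by positivity)] at h3
  have h4 : sand (ContinuousLinearMap.id ℂ H) (B.Q n) z = sand (B.P m) (B.Q n) z +
      sand (B.Q m) (B.Q n) z := by
    refine K_ext fun v => ?_
    rw [map_add, add_apply, incl_sand, incl_sand, incl_sand]
    simp only [Q_apply, ContinuousLinearMap.id_apply, map_sub]
    abel
  have h5 : ‖sand (B.P m) (B.Q n) z‖ ≤ ∑ i ∈ Finset.range m, ‖B.Q n (u i)‖ * ‖B.e i‖ := by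
    rw [← norm_incl]
    refine ContinuousLinearMap.opNorm_le_bound _ (by positivity) fun v => ?_
    rw [h1, Finset.sum_mul]
    refine (norm_sum_le _ _).trans (Finset.sum_le_sum fun i _ => ?_)
    rw [norm_smul]
    have := norm_inner_le_norm (𝕜 := ℂ) (B.Q n (u i)) v
    calc ‖⟪B.Q n (u i), v⟫_ℂ‖ * ‖B.e i‖ ≤ (‖B.Q n (u i)‖ * ‖v‖) * ‖B.e i‖ := by gcongr
      _ = ‖B.Q n (u i)‖ * ‖B.e i‖ * ‖v‖ := by ring
  have h6 : ‖sand (B.Q m) (B.Q n) z‖ ≤ ‖sand (B.Q m) (ContinuousLinearMap.id ℂ H) z‖ := by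
    have h7 : sand (B.Q m) (B.Q n) z = sand (ContinuousLinearMap.id ℂ H) (B.Q n)
        (sand (B.Q m) (ContinuousLinearMap.id ℂ H) z) := by
      rw [sand_sand]
      rfl
    rw [h7]
    exact norm_sand_le' ContinuousLinearMap.norm_id_le (norm_Q_le B n) _
  rw [dist_zero_right, h4]
  calc _ ≤ ‖sand (B.P m) (B.Q n) z‖ + ‖sand (B.Q m) (B.Q n) z‖ := norm_add_le _ _
    _ < ε := by linarith

/-- Two-sided approximation in norm. -/
lemma tendsto_two_sided [CompleteSpace H] (z : K H) :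
    Tendsto (fun n => sand (B.P n) (B.P n) z) atTop (𝓝 z) := by
  have h1 := tendsto_left B z
  have h2 := tendsto_right B z
  have h3 : Tendsto (fun n => sand (B.P n) (B.P n) z - z) atTop (𝓝 0) := by
    rw [tendsto_zero_iff_norm_tendsto_zero]
    have h4 : Tendsto (fun n => ‖sand (B.Q n) (ContinuousLinearMap.id ℂ H) z‖ +
        ‖sand (ContinuousLinearMap.id ℂ H) (B.Q n) z‖) atTop (𝓝 0) := by
      have := h1.norm.add h2.norm
      rwa [norm_zero, add_zero] at this
    refine squeeze_zero (fun n => norm_nonneg _) (fun n => ?_) h4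
    have h5 : sand (B.P n) (B.P n) z - z = -(sand (B.Q n) (ContinuousLinearMap.id ℂ H) z) -
        sand (B.P n) (ContinuousLinearMap.id ℂ H) (sand (ContinuousLinearMap.id ℂ H) (B.Q n) z) := by
      refine K_ext fun v => ?_
      rw [map_sub, map_sub, map_neg, sand_sand]
      simp only [sub_apply, neg_apply, incl_sand, Q_apply,
        ContinuousLinearMap.comp_apply, ContinuousLinearMap.id_apply, map_sub]
      abel
    rw [h5]
    calc _ ≤ ‖-(sand (B.Q n) (ContinuousLinearMap.id ℂ H) z)‖ +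
          ‖sand (B.P n) (ContinuousLinearMap.id ℂ H)
            (sand (ContinuousLinearMap.id ℂ H) (B.Q n) z)‖ := norm_sub_le _ _
      _ ≤ _ := by
          rw [norm_neg]
          gcongr
          exact norm_sand_le' (norm_P_le B n) ContinuousLinearMap.norm_id_le _
  have h6 := h3.add_const z
  simpa using h6

end Sys

end Pool.Agent.H86R3.KH
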