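import Mathlib
import Pool.Agent.H86R3.KH2
import Pool.Agent.H86R3.KH5

set_option autoImplicit false

open Filter Topology Set
open scoped ENNReal InnerProductSpace

namespace Pool.Agent.H86R3.KH

open Pool.Agent.H86R3.Wnc

section general

variable {X : Type*} [NormedAddCommGroup X] [NormedSpace ℂ X]

/-- Weak-star ultrafilter limits in the bidual. -/
lemma exists_ulim {P : Type*} (U : Ultrafilter P) (x : P → X) {R : ℝ} (hR : ∀ p, ‖x p‖ ≤ R) :
    ∃ T : Bidual X, ∀ φ : StrongDual ℂ X, Tendsto (fun p => φ (x p)) U (𝓝 (T φ)) := by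
  have hcomp := WeakDual.isCompact_closedBall (𝕜 := ℂ) (E := StrongDual ℂ X)
    (0 : StrongDual ℂ (StrongDual ℂ X)) R
  have hmem : ∀ p, StrongDual.toWeakDual (canon X (x p)) ∈
      (WeakDual.toStrongDual ⁻¹' Metric.closedBall (0 : StrongDual ℂ (StrongDual ℂ X)) R) := by
    intro p
    have h1 : ‖canon X (x p)‖ ≤ R := (norm_canon_le (x p)).trans (hR _)
    have h2 : canon X (x p) ∈ Metric.closedBall (0 : StrongDual ℂ (StrongDual ℂ X)) R := by
      rw [Metric.mem_closedBall]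
      exact (dist_zero_right (canon X (x p))).trans_le h1
    exact h2
  have hle : ((U.map (fun p => StrongDual.toWeakDual (canon X (x p))) :
      Ultrafilter (WeakDual ℂ (StrongDual ℂ X))) : Filter (WeakDual ℂ (StrongDual ℂ X))) ≤
      𝓟 (WeakDual.toStrongDual ⁻¹' Metric.closedBall (0 : StrongDual ℂ (StrongDual ℂ X)) R) := by
    rw [Filter.le_principal_iff]
    change (fun p => StrongDual.toWeakDual (canon X (x p))) ⁻¹'
      (WeakDual.toStrongDual ⁻¹' Metric.closedBall (0 : StrongDual ℂ (StrongDual ℂ X)) R) ∈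
      (U : Filter P)
    exact Filter.mem_of_superset Filter.univ_mem (fun p _ => hmem p)
  obtain ⟨z, -, hz⟩ := hcomp.ultrafilter_le_nhds _ hle
  refine ⟨WeakDual.toStrongDual z, fun φ => ?_⟩
  have h1 : Tendsto (fun p => StrongDual.toWeakDual (canon X (x p))) U (𝓝 z) := hz
  exact ((WeakDual.eval_continuous φ).tendsto z).comp h1

/-- Ultrafilter limits of points of `A` lie in the weak-star closure of `A`. -/
lemma mem_bidualClosure_of_tendsto {A : Set X} {P : Type*} (U : Ultrafilter P) (x : P → X)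
    (hx : ∀ p, x p ∈ A) {T : Bidual X}
    (hT : ∀ φ : StrongDual ℂ X, Tendsto (fun p => φ (x p)) U (𝓝 (T φ))) :
    T ∈ bidualClosure A := by
  have h1 : Tendsto (fun p => StrongDual.toWeakDual (canon X (x p))) U
      (𝓝 (StrongDual.toWeakDual T)) :=
    tendsto_iff_forall_eval_tendsto_topDualPairing.mpr hT
  change StrongDual.toWeakDual T ∈ closure _
  exact mem_closure_of_tendsto h1 (Eventually.of_forall fun p => ⟨x p, hx p, rfl⟩)

/-- A bounded set whose weak-star closure in the bidual stays in the space is contained in a weakly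
compact set. -/
lemma exists_weaklyCompact {Y : Set X} (hY : Bornology.IsBounded Y)
    (h : bidualClosure Y ⊆ Set.range (canon X)) : ∃ L : Set X, IsWeaklyCompact L ∧ Y ⊆ L := by
  obtain ⟨R, hR⟩ := hY.exists_norm_le
  refine ⟨{x | canon X x ∈ bidualClosure Y}, ?_, fun y hy => ?_⟩
  · -- bound for the elements of the closure
    have hbd : ∀ z ∈ bidualClosure Y, ‖z‖ ≤ R := by
      intro z hz
      have hz' : z ∈ bidualClosure (range (fun y : Y => (y : X))) := by
        rwa [Subtype.range_coe]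
      obtain ⟨U, hU⟩ := exists_ultrafilter_of_mem _ hz'
      have hne : Nonempty Y := U.neBot.nonempty
      obtain ⟨y0⟩ := hne
      have hR0 : 0 ≤ R := (norm_nonneg _).trans (hR _ y0.2)
      refine ContinuousLinearMap.opNorm_le_bound _ hR0 fun φ => ?_
      refine le_of_tendsto (hU φ).norm (Eventually.of_forall fun p => ?_)
      calc ‖φ (p : X)‖ ≤ ‖φ‖ * ‖(p : X)‖ := φ.le_opNorm _
        _ ≤ ‖φ‖ * R := mul_le_mul_of_nonneg_left (hR _ p.2) (norm_nonneg _)
        _ = R * ‖φ‖ := mul_comm _ _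
    unfold IsWeaklyCompact
    rw [isCompact_iff_ultrafilter_le_nhds]
    intro U hU
    set V : Ultrafilter X := U.map (toWeakSpace ℂ X).symm with hV
    have hUV : ∀ s : Set X, s ∈ V ↔ toWeakSpace ℂ X '' s ∈ U := by
      intro s
      rw [hV, Ultrafilter.mem_map]
      have h1 : (toWeakSpace ℂ X).symm ⁻¹' s = toWeakSpace ℂ X '' s :=
        ((toWeakSpace ℂ X).toEquiv.image_eq_preimage_symm s).symm
      rw [h1]
    have hLV : {x | canon X x ∈ bidualClosure Y} ∈ V := by
      rw [hUV]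
      exact Filter.le_principal_iff.mp hU
    -- restrict the ultrafilter to the bounded set
    have hbdV : ∀ᶠ x in (V : Filter X), ‖x‖ ≤ R := by
      filter_upwards [hLV] with x hx
      have h1 := hbd _ hx
      have h2 : ‖canon X x‖ = ‖x‖ := (NormedSpace.inclusionInDoubleDualLi ℂ).norm_map x
      rwa [h2] at h1
    have hlim : ∃ T : Bidual X, ∀ φ : StrongDual ℂ X, Tendsto (fun x => φ x) V (𝓝 (T φ)) := by
      have h1 := exists_ulim V (fun x : X => if ‖x‖ ≤ R then x else 0) (R := max R 0) (by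
        intro x
        by_cases hx : ‖x‖ ≤ R
        · simp [hx]
        · simp [hx])
      obtain ⟨T, hT⟩ := h1
      refine ⟨T, fun φ => (hT φ).congr' ?_⟩
      filter_upwards [hbdV] with x hx
      simp [hx]
    obtain ⟨T, hT⟩ := hlim
    have hTmem : T ∈ bidualClosure Y := by
      have h1 : Tendsto (fun x => StrongDual.toWeakDual (canon X x)) V
          (𝓝 (StrongDual.toWeakDual T)) :=
        tendsto_iff_forall_eval_tendsto_topDualPairing.mpr hT
      have h2 : StrongDual.toWeakDual T ∈ closure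
          ((fun a => StrongDual.toWeakDual (canon X a)) '' Y) := by
        refine isClosed_closure.mem_of_tendsto h1 ?_
        filter_upwards [hLV] with x hx
        exact hx
      exact h2
    obtain ⟨x0, hx0⟩ := h hTmem
    refine ⟨toWeakSpace ℂ X x0, ⟨x0, ?_, rfl⟩, ?_⟩
    · change canon X x0 ∈ bidualClosure Y
      rw [hx0]
      exact hTmem
    · have h1 : Tendsto (fun x => toWeakSpace ℂ X x) V (𝓝 (toWeakSpace ℂ X x0)) := by
        refine (WeakBilin.tendsto_iff_forall_eval_tendsto (topDualPairing ℂ X).flip ?_).mpr ?_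
        · intro a b hab
          have h3 : ∀ φ : StrongDual ℂ X, φ a = φ b := fun φ => DFunLike.congr_fun hab φ
          exact (SeparatingDual.eq_iff_forall_dual_eq (R := ℂ)).mpr h3
        · intro φ
          have h2 := hT φ
          rw [← hx0] at h2
          exact h2
      have h2 : (V.map (toWeakSpace ℂ X) : Ultrafilter (WeakSpace ℂ X)) = U := by
        rw [hV, Ultrafilter.map_map]
        convert Ultrafilter.map_id U using 2
        ext w
        exact (toWeakSpace ℂ X).apply_symm_apply w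
      have h3 : ((V.map (toWeakSpace ℂ X) : Ultrafilter (WeakSpace ℂ X)) :
        Filter (WeakSpace ℂ X)) ≤ 𝓝 (toWeakSpace ℂ X x0) := h1
      rwa [h2] at h3
  · exact subset_closure ⟨y, hy, rfl⟩

end general

variable {H : Type*} [NormedAddCommGroup H] [InnerProductSpace ℂ H] [CompleteSpace H]

lemma exists_phase (w : ℂ) : ∃ a : ℂ, ‖a‖ = 1 ∧ a * w = ‖w‖ := by
  obtain ⟨a, ha, ha'⟩ := RCLike.exists_norm_eq_mul_self w
  exact ⟨a, ha, ha'.symm⟩

/-- Norm bound for `z + w` with `z` a corner and `w` annihilated on one side. -/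
lemma norm_add_le_sqrt (B : Sys H) (m : ℕ) {z w : K H} (hz : sand (B.P m) (B.P m) z = z)
    (hz1 : ‖z‖ ≤ 1) {t : ℝ} (ht : 0 ≤ t) (hw1 : ‖w‖ ≤ t)
    (hw : (∀ v, B.P m (incl H w v) = 0) ∨ (∀ v, incl H w (B.P m v) = 0)) :
    ‖z + w‖ ≤ 1 + t ^ 2 := by
  have hz' : ∀ v, incl H z v = B.P m (incl H z (B.P m v)) := by
    intro v
    conv_lhs => rw [← hz]
    rfl
  rw [← norm_incl]
  refine ContinuousLinearMap.opNorm_le_bound _ (by positivity) fun v => ?_
  rw [map_add, add_apply]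
  have hzn : ∀ v, ‖incl H z v‖ ≤ ‖v‖ := by
    intro v
    calc ‖incl H z v‖ ≤ ‖incl H z‖ * ‖v‖ := ContinuousLinearMap.le_opNorm _ _
      _ ≤ 1 * ‖v‖ := by rw [norm_incl]; gcongr
      _ = ‖v‖ := one_mul _
  have hwn : ∀ v, ‖incl H w v‖ ≤ t * ‖v‖ := by
    intro v
    calc ‖incl H w v‖ ≤ ‖incl H w‖ * ‖v‖ := ContinuousLinearMap.le_opNorm _ _
      _ ≤ t * ‖v‖ := by rw [norm_incl]; gcongr
  have key : ‖incl H z v + incl H w v‖ ^ 2 ≤ (1 + t ^ 2) * ‖v‖ ^ 2 := by
    rcases hw with hw | hw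
    · have h1 : ⟪incl H z v, incl H w v⟫_ℂ = 0 := by
        rw [hz', Sys.inner_P, hw, inner_zero_right]
      have h2 := norm_add_sq_eq_norm_sq_add_norm_sq_of_inner_eq_zero (𝕜 := ℂ) _ _ h1
      have h3 : ‖incl H z v + incl H w v‖ ^ 2 = ‖incl H z v‖ ^ 2 + ‖incl H w v‖ ^ 2 := by
        rw [sq, sq, sq]
        exact h2
      rw [h3]
      have h4 := pow_le_pow_left₀ (norm_nonneg _) (hzn v) 2
      have h5 := pow_le_pow_left₀ (norm_nonneg _) (hwn v) 2
      nlinarith
    · have h1 : incl H z v = incl H z (B.P m v) := by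
        rw [hz' v, hz' (B.P m v), Sys.P_P]
      have h2 : incl H w v = incl H w (v - B.P m v) := by
        rw [map_sub, hw, sub_zero]
      have h3 : ‖incl H z v + incl H w v‖ ≤ ‖B.P m v‖ + t * ‖v - B.P m v‖ := by
        refine (norm_add_le _ _).trans ?_
        rw [h1, h2]
        exact add_le_add (hzn _) (hwn _)
      have h4 := Sys.norm_sq_split B m v
      have h5 := pow_le_pow_left₀ (norm_nonneg _) h3 2
      refine h5.trans ?_
      rw [h4]
      nlinarith [sq_nonneg (t * ‖B.P m v‖ - ‖v - B.P m v‖)]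
  have h6 : (1 + t ^ 2) * ‖v‖ ^ 2 ≤ ((1 + t ^ 2) * ‖v‖) ^ 2 := by
    rw [mul_pow]
    refine mul_le_mul_of_nonneg_right ?_ (by positivity)
    nlinarith [sq_nonneg t]
  exact (sq_le_sq₀ (norm_nonneg _) (by positivity)).mp (key.trans h6)

/-- Functionals on the compact operators are concentrated on corners. -/
lemma shrink (B : Sys H) (φ : StrongDual ℂ (K H)) {ε : ℝ} (hε : 0 < ε) :
    ∃ N, ∀ n ≥ N, ∀ u : K H, ‖φ u - φ (sand (B.P n) (B.P n) u)‖ ≤ ε * ‖u‖ := by
  set t : ℝ := ε / (4 * (‖φ‖ + 1)) with ht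
  have htpos : 0 < t := by positivity
  have hφt : ‖φ‖ * t ≤ ε / 4 := by
    rw [ht, mul_div_assoc', div_le_div_iff₀ (by positivity) (by norm_num)]
    nlinarith [norm_nonneg φ, mul_nonneg (norm_nonneg φ) hε.le]
  set δ : ℝ := t * (ε / 4) with hδ
  have hδpos : 0 < δ := by positivity
  obtain ⟨x, hx1, hx2⟩ := φ.exists_lt_apply_of_lt_opNorm (show ‖φ‖ - δ < ‖φ‖ by linarith)
  have h1 : Tendsto (fun n => ‖φ (sand (B.P n) (B.P n) x)‖) atTop (𝓝 ‖φ x‖) :=
    ((φ.continuous.tendsto _).comp (B.tendsto_two_sided x)).norm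
  obtain ⟨m, hm⟩ := (h1.eventually (lt_mem_nhds hx2)).exists
  set z₀ := sand (B.P m) (B.P m) x with hz₀
  have hz₀1 : ‖z₀‖ ≤ 1 := (norm_sand_le' (B.norm_P_le m) (B.norm_P_le m) x).trans hx1.le
  have hz₀2 : sand (B.P m) (B.P m) z₀ = z₀ := by
    rw [hz₀, sand_sand, B.P_comp le_rfl]
  -- the key estimate
  have key : ∀ w : K H, ((∀ v, B.P m (incl H w v) = 0) ∨ (∀ v, incl H w (B.P m v) = 0)) →
      ‖φ w‖ ≤ ε / 2 * ‖w‖ := by
    intro w hw
    by_cases hw0 : w = 0
    · simp [hw0]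
    have hwpos : 0 < ‖w‖ := norm_pos_iff.mpr hw0
    obtain ⟨a, ha, ha'⟩ := exists_phase (φ z₀)
    obtain ⟨b, hb, hb'⟩ := exists_phase (φ w)
    set w' : K H := ((t / ‖w‖ : ℝ) : ℂ) • b • w with hw'
    have hw'n : ‖w'‖ ≤ t := by
      rw [hw', norm_smul, norm_smul, hb, one_mul, Complex.norm_real,
        Real.norm_of_nonneg (by positivity), div_mul_cancel₀ _ hwpos.ne']
    have h2 : ‖a • z₀ + w'‖ ≤ 1 + t ^ 2 := by
      refine norm_add_le_sqrt B m ?_ ?_ htpos.le hw'n ?_
      · rw [map_smul, hz₀2]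
      · rw [norm_smul, ha, one_mul]
        exact hz₀1
      · rcases hw with hw | hw
        · left
          intro v
          rw [hw', map_smul, map_smul, smul_apply, smul_apply, map_smul, map_smul, hw]
          simp
        · right
          intro v
          rw [hw', map_smul, map_smul, smul_apply, smul_apply, hw]
          simp
    have h3 : φ (a • z₀ + w') = ((‖φ z₀‖ + t / ‖w‖ * ‖φ w‖ : ℝ) : ℂ) := by
      rw [map_add, map_smul, hw', map_smul, map_smul, smul_eq_mul, smul_eq_mul, smul_eq_mul,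
        ha', hb']
      push_cast
      ring
    have h4 : ‖φ z₀‖ + t / ‖w‖ * ‖φ w‖ ≤ ‖φ‖ * (1 + t ^ 2) := by
      have h5 : ‖φ (a • z₀ + w')‖ ≤ ‖φ‖ * (1 + t ^ 2) :=
        (φ.le_opNorm _).trans (mul_le_mul_of_nonneg_left h2 (norm_nonneg _))
      rwa [h3, Complex.norm_real, Real.norm_of_nonneg (by positivity)] at h5
    have h5 : t / ‖w‖ * ‖φ w‖ ≤ ‖φ‖ * t ^ 2 + δ := by
      nlinarith [hm]
    have h6 : t / ‖w‖ * ‖φ w‖ ≤ t * (ε / 2) := by
      calc t / ‖w‖ * ‖φ w‖ ≤ ‖φ‖ * t ^ 2 + δ := h5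
        _ = t * (‖φ‖ * t + ε / 4) := by rw [hδ]; ring
        _ ≤ t * (ε / 4 + ε / 4) := by gcongr
        _ = t * (ε / 2) := by ring
    have h7 : ‖φ w‖ / ‖w‖ ≤ ε / 2 := by
      have h8 : t / ‖w‖ * ‖φ w‖ = t * (‖φ w‖ / ‖w‖) := by ring
      rw [h8] at h6
      exact le_of_mul_le_mul_left h6 htpos
    exact (div_le_iff₀ hwpos).mp h7
  refine ⟨m, fun n hn u => ?_⟩
  have hsplit : u = sand (B.P n) (B.P n) u + (sand (B.Q n) (ContinuousLinearMap.id ℂ H) u +
      sand (B.P n) (B.Q n) u) := by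
    refine K_ext fun v => ?_
    simp only [map_add, add_apply, incl_sand, Sys.Q_apply, ContinuousLinearMap.id_apply, map_sub]
    abel
  have h2 : φ u - φ (sand (B.P n) (B.P n) u) =
      φ (sand (B.Q n) (ContinuousLinearMap.id ℂ H) u) + φ (sand (B.P n) (B.Q n) u) := by
    conv_lhs => rw [hsplit]
    rw [map_add, map_add, ← hsplit]
    ring
  rw [h2]
  have h3 := key (sand (B.Q n) (ContinuousLinearMap.id ℂ H) u) (Or.inl fun v => by
    rw [incl_sand, Sys.Q_apply, map_sub, ← ContinuousLinearMap.comp_apply (B.P m) (B.P n),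
      B.P_comp hn, sub_self])
  have h4 := key (sand (B.P n) (B.Q n) u) (Or.inr fun v => by
    rw [incl_sand, Sys.Q_apply, ← ContinuousLinearMap.comp_apply (B.P n) (B.P m),
      B.P_comp' hn, sub_self, map_zero, map_zero])
  have h5 : ‖sand (B.Q n) (ContinuousLinearMap.id ℂ H) u‖ ≤ ‖u‖ :=
    norm_sand_le' (B.norm_Q_le n) ContinuousLinearMap.norm_id_le u
  have h6 : ‖sand (B.P n) (B.Q n) u‖ ≤ ‖u‖ := norm_sand_le' (B.norm_P_le n) (B.norm_Q_le n) u
  calc ‖φ (sand (B.Q n) (ContinuousLinearMap.id ℂ H) u) + φ (sand (B.P n) (B.Q n) u)‖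
      ≤ ‖φ (sand (B.Q n) (ContinuousLinearMap.id ℂ H) u)‖ + ‖φ (sand (B.P n) (B.Q n) u)‖ :=
        norm_add_le _ _
    _ ≤ ε / 2 * ‖u‖ + ε / 2 * ‖u‖ := by
        gcongr
        · exact h3.trans (mul_le_mul_of_nonneg_left h5 (by positivity))
        · exact h4.trans (mul_le_mul_of_nonneg_left h6 (by positivity))
    _ = ε * ‖u‖ := by ring

end Pool.Agent.H86R3.KH
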