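import Mathlib
import Pool.Agent.H86R3.KH3
import Pool.Agent.H86R3.KH6

set_option autoImplicit false

open Filter Topology Set
open scoped ENNReal InnerProductSpace ComplexConjugate

namespace Pool.Agent.H86R3.KH

open Pool.Agent.H86R3.Wnc

variable {H : Type*} [NormedAddCommGroup H] [InnerProductSpace ℂ H]

lemma rk_add_left (a b c : H) : rk (a + b) c = rk a c + rk b c := by
  refine K_ext fun h => ?_
  rw [map_add, add_apply, rk_apply, rk_apply, rk_apply, inner_add_left, add_smul]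

lemma rk_smul_left (t : ℂ) (a c : H) : rk (t • a) c = conj t • rk a c := by
  refine K_ext fun h => ?_
  rw [map_smul, smul_apply, rk_apply, rk_apply, inner_smul_left, mul_smul]

lemma coord_add_left (a b c : H) : coord (a + b) c = coord a c + coord b c := by
  ext y
  rw [add_apply, coord_apply, coord_apply, coord_apply, map_add, inner_add_right]

lemma coord_smul_left (t : ℂ) (a c : H) : coord (t • a) c = t • coord a c := by
  ext y
  rw [smul_apply, coord_apply, coord_apply, map_smul, inner_smul_right, smul_eq_mul]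

lemma coord_add_right (a b c : H) : coord a (b + c) = coord a b + coord a c := by
  ext y
  rw [add_apply, coord_apply, coord_apply, coord_apply, inner_add_left]

lemma coord_smul_right (t : ℂ) (a b : H) : coord a (t • b) = conj t • coord a b := by
  ext y
  rw [smul_apply, coord_apply, coord_apply, inner_smul_left, smul_eq_mul]

lemma norm_coord_le (a b : H) : ‖coord a b‖ ≤ ‖a‖ * ‖b‖ := by
  refine ContinuousLinearMap.opNorm_le_bound _ (by positivity) fun y => ?_
  rw [coord_apply]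
  calc ‖⟪b, incl H y a⟫_ℂ‖ ≤ ‖b‖ * ‖incl H y a‖ := norm_inner_le_norm _ _
    _ ≤ ‖b‖ * (‖incl H y‖ * ‖a‖) := by
        gcongr
        exact ContinuousLinearMap.le_opNorm _ _
    _ = ‖a‖ * ‖b‖ * ‖y‖ := by rw [norm_incl]; ring

variable [CompleteSpace H]

lemma exists_repr (ψ : H → ℂ) (hadd : ∀ a b, ψ (a + b) = ψ a + ψ b)
    (hsmul : ∀ (t : ℂ) a, ψ (t • a) = t * ψ a) (C : ℝ) (hC : ∀ a, ‖ψ a‖ ≤ C * ‖a‖) :
    ∃ u : H, ∀ a, ψ a = ⟪u, a⟫_ℂ := by
  set ℓ : StrongDual ℂ H := LinearMap.mkContinuous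
    { toFun := ψ, map_add' := hadd, map_smul' := fun t a => by
        rw [hsmul]; rfl } C hC with hℓ
  refine ⟨(InnerProductSpace.toDual ℂ H).symm ℓ, fun a => ?_⟩
  rw [InnerProductSpace.toDual_symm_apply]
  rfl

lemma exists_repr_conj (ψ : H → ℂ) (hadd : ∀ a b, ψ (a + b) = ψ a + ψ b)
    (hsmul : ∀ (t : ℂ) a, ψ (t • a) = conj t * ψ a) (C : ℝ) (hC : ∀ a, ‖ψ a‖ ≤ C * ‖a‖) :
    ∃ u : H, ∀ a, ψ a = ⟪a, u⟫_ℂ := by
  obtain ⟨u, hu⟩ := exists_repr (fun a => conj (ψ a)) (fun a b => by rw [hadd, map_add])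
    (fun t a => by rw [hsmul, map_mul, Complex.conj_conj]) C (fun a => by
      rw [RCLike.norm_conj]; exact hC a)
  refine ⟨u, fun a => ?_⟩
  rw [← inner_conj_symm, ← hu, Complex.conj_conj]

section limits

variable {P : Type*} (U : Ultrafilter P) (x : P → K H) (T : Bidual (K H))
  (hT : ∀ φ : StrongDual ℂ (K H), Tendsto (fun p => φ (x p)) U (𝓝 (T φ)))

include hT

lemma lim_left_one (b c : H) : ∃ u : H, ∀ φ : StrongDual ℂ (K H),
    Tendsto (fun p => φ (rk (ContinuousLinearMap.adjoint (incl H (x p)) b) c)) U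
      (𝓝 (φ (rk u c))) := by
  obtain ⟨u, hu⟩ := exists_repr (fun h => T (coord h b))
    (fun a a' => by rw [coord_add_left, map_add]) (fun t a => by rw [coord_smul_left, map_smul]; rfl)
    (‖T‖ * ‖b‖) (fun a => by
      calc ‖T (coord a b)‖ ≤ ‖T‖ * ‖coord a b‖ := T.le_opNorm _
        _ ≤ ‖T‖ * (‖a‖ * ‖b‖) := by gcongr; exact norm_coord_le a b
        _ = ‖T‖ * ‖b‖ * ‖a‖ := by ring)
  refine ⟨u, fun φ => ?_⟩
  obtain ⟨w, hw⟩ := exists_repr_conj (fun a => φ (rk a c))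
    (fun a a' => by rw [rk_add_left, map_add]) (fun t a => by rw [rk_smul_left, map_smul]; rfl)
    (‖φ‖ * ‖c‖) (fun a => by
      calc ‖φ (rk a c)‖ ≤ ‖φ‖ * ‖rk a c‖ := φ.le_opNorm _
        _ ≤ ‖φ‖ * (‖a‖ * ‖c‖) := by gcongr; exact norm_rk_le a c
        _ = ‖φ‖ * ‖c‖ * ‖a‖ := by ring)
  have h1 := hT (coord w b)
  have h2 : φ (rk u c) = T (coord w b) := by
    rw [hw u, hu w]
  rw [h2]
  refine h1.congr fun p => ?_
  rw [hw, coord_apply, ContinuousLinearMap.adjoint_inner_left]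

lemma lim_right_one (a a' : H) : ∃ u : H, ∀ φ : StrongDual ℂ (K H),
    Tendsto (fun p => φ (rk a (incl H (x p) a'))) U (𝓝 (φ (rk a u))) := by
  obtain ⟨u, hu⟩ := exists_repr_conj (fun w => T (coord a' w))
    (fun b b' => by rw [coord_add_right, map_add]) (fun t b => by
      rw [coord_smul_right, map_smul]; rfl)
    (‖T‖ * ‖a'‖) (fun b => by
      calc ‖T (coord a' b)‖ ≤ ‖T‖ * ‖coord a' b‖ := T.le_opNorm _
        _ ≤ ‖T‖ * (‖a'‖ * ‖b‖) := by gcongr; exact norm_coord_le a' b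
        _ = ‖T‖ * ‖a'‖ * ‖b‖ := by ring)
  refine ⟨u, fun φ => ?_⟩
  obtain ⟨w, hw⟩ := exists_repr (fun v => φ (rk a v))
    (fun b b' => by rw [rk_add, map_add]) (fun t b => by rw [rk_smul, map_smul]; rfl)
    (‖φ‖ * ‖a‖) (fun b => by
      calc ‖φ (rk a b)‖ ≤ ‖φ‖ * ‖rk a b‖ := φ.le_opNorm _
        _ ≤ ‖φ‖ * (‖a‖ * ‖b‖) := by gcongr; exact norm_rk_le a b
        _ = ‖φ‖ * ‖a‖ * ‖b‖ := by ring)
  have h1 := hT (coord a' w)
  have h2 : φ (rk a u) = T (coord a' w) := by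
    rw [hw u, hu w]
  rw [h2]
  refine h1.congr fun p => ?_
  rw [hw, coord_apply]

lemma lim_left (B : Sys H) (n : ℕ) : ∃ z : K H, ∀ φ : StrongDual ℂ (K H),
    Tendsto (fun p => φ (sand (B.P n) (ContinuousLinearMap.id ℂ H) (x p))) U (𝓝 (φ z)) := by
  choose u hu using fun i => lim_left_one U x T hT (B.e i) (B.e i)
  refine ⟨∑ i ∈ Finset.range n, rk (u i) (B.e i), fun φ => ?_⟩
  rw [map_sum]
  have h1 := tendsto_finsetSum (Finset.range n) fun i _ => hu i φ
  refine h1.congr fun p => ?_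
  rw [← map_sum]
  congr 1
  refine K_ext fun v => ?_
  rw [incl_sand, map_sum, sum_apply, Sys.P_apply]
  refine Finset.sum_congr rfl fun i _ => ?_
  rw [rk_apply, ContinuousLinearMap.adjoint_inner_left]
  rfl

lemma lim_right (B : Sys H) (n : ℕ) : ∃ z : K H, ∀ φ : StrongDual ℂ (K H),
    Tendsto (fun p => φ (sand (ContinuousLinearMap.id ℂ H) (B.P n) (x p))) U (𝓝 (φ z)) := by
  choose u hu using fun i => lim_right_one U x T hT (B.e i) (B.e i)
  refine ⟨∑ i ∈ Finset.range n, rk (B.e i) (u i), fun φ => ?_⟩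
  rw [map_sum]
  have h1 := tendsto_finsetSum (Finset.range n) fun i _ => hu i φ
  refine h1.congr fun p => ?_
  rw [← map_sum]
  congr 1
  refine K_ext fun v => ?_
  rw [incl_sand, map_sum, sum_apply, Sys.P_apply, map_sum]
  change _ = ∑ i ∈ Finset.range n, _
  refine Finset.sum_congr rfl fun i _ => ?_
  rw [rk_apply, map_smul]

lemma lim_corner (B : Sys H) (n : ℕ) : ∃ z : K H,
    Tendsto (fun p => sand (B.P n) (B.P n) (x p)) U (𝓝 z) := by
  refine ⟨∑ i ∈ Finset.range n, ∑ j ∈ Finset.range n, T (coord (B.e j) (B.e i)) •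
    rk (B.e j) (B.e i), ?_⟩
  have h1 : Tendsto (fun p => ∑ i ∈ Finset.range n, ∑ j ∈ Finset.range n,
      coord (B.e j) (B.e i) (x p) • rk (B.e j) (B.e i)) U
      (𝓝 (∑ i ∈ Finset.range n, ∑ j ∈ Finset.range n, T (coord (B.e j) (B.e i)) •
        rk (B.e j) (B.e i))) :=
    tendsto_finsetSum _ fun i _ => tendsto_finsetSum _ fun j _ =>
      (hT (coord (B.e j) (B.e i))).smul_const _
  refine h1.congr fun p => ?_
  refine K_ext fun v => ?_
  rw [incl_sand, Sys.P_apply, Sys.P_apply, map_sum, sum_apply]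
  refine Finset.sum_congr rfl fun i _ => ?_
  rw [map_sum, sum_apply, map_sum, inner_sum, Finset.sum_smul]
  refine Finset.sum_congr rfl fun j _ => ?_
  rw [map_smul, smul_apply, rk_apply, coord_apply, map_smul, inner_smul_right, smul_smul, mul_comm]

end limits

end Pool.Agent.H86R3.KH
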