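import Mathlib
import Pool.Agent.H86R3.KH7

set_option autoImplicit false

open Filter Topology Set
open scoped ENNReal InnerProductSpace ComplexConjugate

namespace Pool.Agent.H86R3.KH

open Pool.Agent.H86R3.Wnc

variable {H : Type*} [NormedAddCommGroup H] [InnerProductSpace ℂ H]

namespace Sys

variable (B : Sys H)

/-- The window projection. -/
noncomputable def E (a m : ℕ) : H →L[ℂ] H := B.P m - B.P a

/-- The window of an operator. -/
noncomputable def W (a m : ℕ) : K H →L[ℂ] K H := sand (B.E a m) (B.E a m)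

lemma Q_comp_E {a m : ℕ} (h : a ≤ m) : (B.Q a).comp (B.E a m) = B.E a m := by
  ext v
  have h1 : B.P a (B.P m v) = B.P a v := by
    rw [← ContinuousLinearMap.comp_apply, B.P_comp h]
  simp only [ContinuousLinearMap.comp_apply, Q_apply, E, sub_apply, map_sub, h1, P_P, sub_self,
    sub_zero]

lemma E_comp_Q {a m : ℕ} (h : a ≤ m) : (B.E a m).comp (B.Q a) = B.E a m := by
  ext v
  have h1 : B.P m (B.P a v) = B.P a v := by
    rw [← ContinuousLinearMap.comp_apply, B.P_comp' h]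
  simp only [ContinuousLinearMap.comp_apply, Q_apply, E, sub_apply, map_sub, h1, P_P, sub_self,
    sub_zero]

lemma P_comp_Q {a m : ℕ} (h : a ≤ m) : (B.P m).comp (B.Q a) = B.E a m := by
  ext v
  have h1 : B.P m (B.P a v) = B.P a v := by
    rw [← ContinuousLinearMap.comp_apply, B.P_comp' h]
  simp only [ContinuousLinearMap.comp_apply, Q_apply, E, sub_apply, map_sub, h1]

lemma Q_comp_P {a m : ℕ} (h : a ≤ m) : (B.Q a).comp (B.P m) = B.E a m := by
  ext v
  have h1 : B.P a (B.P m v) = B.P a v := by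
    rw [← ContinuousLinearMap.comp_apply, B.P_comp h]
  simp only [ContinuousLinearMap.comp_apply, Q_apply, E, sub_apply, h1]

lemma P_comp_E {a m n : ℕ} (h1 : a ≤ n) (h2 : n ≤ m) : (B.P n).comp (B.E a m) = B.E a n := by
  ext v
  have h3 : B.P n (B.P m v) = B.P n v := by
    rw [← ContinuousLinearMap.comp_apply, B.P_comp h2]
  have h4 : B.P n (B.P a v) = B.P a v := by
    rw [← ContinuousLinearMap.comp_apply, B.P_comp' h1]
  simp only [ContinuousLinearMap.comp_apply, E, sub_apply, map_sub, h3, h4]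

lemma E_comp_P {a m n : ℕ} (h1 : a ≤ n) (h2 : n ≤ m) : (B.E a m).comp (B.P n) = B.E a n := by
  ext v
  have h3 : B.P m (B.P n v) = B.P n v := by
    rw [← ContinuousLinearMap.comp_apply, B.P_comp' h2]
  have h4 : B.P a (B.P n v) = B.P a v := by
    rw [← ContinuousLinearMap.comp_apply, B.P_comp h1]
  simp only [ContinuousLinearMap.comp_apply, E, sub_apply, h3, h4]

lemma W_QQ {a m : ℕ} (h : a ≤ m) (x : K H) :
    B.W a m x = sand (B.P m) (B.P m) (sand (B.Q a) (B.Q a) x) := by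
  rw [sand_sand, P_comp_Q B h, Q_comp_P B h]
  rfl

lemma norm_W_le_Q {a m : ℕ} (h : a ≤ m) (x : K H) : ‖B.W a m x‖ ≤ ‖sand (B.Q a) (B.Q a) x‖ := by
  rw [W_QQ B h]
  exact norm_sand_le' (B.norm_P_le m) (B.norm_P_le m) _

lemma norm_W_le {a m : ℕ} (h : a ≤ m) (x : K H) : ‖B.W a m x‖ ≤ ‖x‖ :=
  (norm_W_le_Q B h x).trans (norm_sand_le' (B.norm_Q_le a) (B.norm_Q_le a) _)

lemma Q_W {a m : ℕ} (h : a ≤ m) (x : K H) : sand (B.Q a) (B.Q a) (B.W a m x) = B.W a m x := by
  rw [W, sand_sand, Q_comp_E B h, E_comp_Q B h]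

lemma P_W {a m n : ℕ} (h1 : a ≤ n) (h2 : n ≤ m) (x : K H) :
    sand (B.P n) (B.P n) (B.W a m x) = B.W a n x := by
  rw [W, sand_sand, P_comp_E B h1 h2, E_comp_P B h1 h2]
  rfl

lemma W_self (a : ℕ) (x : K H) : B.W a a x = 0 := by
  refine K_ext fun v => ?_
  simp [W, incl_sand, E]

lemma W_P {a m : ℕ} (h : a ≤ m) (x : K H) : B.W a m (sand (B.P m) (B.P m) x) = B.W a m x := by
  rw [W, sand_sand, E_comp_P B h le_rfl, P_comp_E B h le_rfl]

lemma P_P_of_le {s n : ℕ} (h : s ≤ n) {G : K H} (hG : sand (B.P s) (B.P s) G = G) :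
    sand (B.P n) (B.P n) G = G := by
  conv_lhs => rw [← hG]
  rw [sand_sand, B.P_comp' h, B.P_comp h, hG]

/-- Block diagonal norm bound. -/
lemma norm_block {s : ℕ} {u w : K H} (hu : sand (B.P s) (B.P s) u = u)
    (hw : sand (B.Q s) (B.Q s) w = w) {c : ℝ} (hc : 0 ≤ c) (hu1 : ‖u‖ ≤ c) (hw1 : ‖w‖ ≤ c) :
    ‖u + w‖ ≤ c := by
  rw [← norm_incl]
  refine ContinuousLinearMap.opNorm_le_bound _ hc fun v => ?_
  refine (sq_le_sq₀ (norm_nonneg _) (by positivity)).mp ?_
  rw [map_add, add_apply]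
  have h1 : incl H u v = B.P s (incl H u (B.P s v)) := by
    conv_lhs => rw [← hu]
    rfl
  have h2 : incl H w v = B.Q s (incl H w (B.Q s v)) := by
    conv_lhs => rw [← hw]
    rfl
  have h3 : ⟪incl H u v, incl H w v⟫_ℂ = 0 := by
    rw [h1, h2, inner_P, Q_apply, map_sub, P_P, sub_self, inner_zero_right]
  have h4 := norm_add_sq_eq_norm_sq_add_norm_sq_of_inner_eq_zero (𝕜 := ℂ) _ _ h3
  have h5 : ‖incl H u v + incl H w v‖ ^ 2 = ‖incl H u v‖ ^ 2 + ‖incl H w v‖ ^ 2 := by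
    rw [sq, sq, sq]
    exact h4
  have h6 : ‖incl H u v‖ ≤ c * ‖B.P s v‖ := by
    rw [h1]
    calc ‖B.P s (incl H u (B.P s v))‖ ≤ ‖incl H u (B.P s v)‖ := norm_P_apply_le B s _
      _ ≤ ‖incl H u‖ * ‖B.P s v‖ := ContinuousLinearMap.le_opNorm _ _
      _ ≤ c * ‖B.P s v‖ := by rw [norm_incl]; gcongr
  have h7 : ‖incl H w v‖ ≤ c * ‖v - B.P s v‖ := by
    rw [h2]
    calc ‖B.Q s (incl H w (B.Q s v))‖ ≤ ‖incl H w (B.Q s v)‖ := norm_Q_apply_le B s _
      _ ≤ ‖incl H w‖ * ‖B.Q s v‖ := ContinuousLinearMap.le_opNorm _ _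
      _ ≤ c * ‖v - B.P s v‖ := by rw [norm_incl, Q_apply]; gcongr
  rw [h5, mul_pow, norm_sq_split B s v]
  have h8 := pow_le_pow_left₀ (norm_nonneg _) h6 2
  have h9 := pow_le_pow_left₀ (norm_nonneg _) h7 2
  nlinarith

open Classical in
/-- The state of the greedy window construction: the start of the current window and the block
diagonal part collected so far. -/
noncomputable def st (c : ℝ) (x : K H) : ℕ → ℕ × K H
  | 0 => (0, 0)
  | n + 1 => if ‖B.W (st c x n).1 (n + 1) x‖ ≤ c then st c x n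
      else (n + 1, (st c x n).2 + B.W (st c x n).1 n x)

/-- The block diagonal operator after `n` steps. -/
noncomputable def F (c : ℝ) (x : K H) (n : ℕ) : K H := (B.st c x n).2 + B.W (B.st c x n).1 n x

lemma st_join {c : ℝ} {x : K H} {n : ℕ} (h : ‖B.W (B.st c x n).1 (n + 1) x‖ ≤ c) :
    B.st c x (n + 1) = B.st c x n := by
  rw [st, if_pos h]

lemma st_break {c : ℝ} {x : K H} {n : ℕ} (h : ¬ ‖B.W (B.st c x n).1 (n + 1) x‖ ≤ c) :
    B.st c x (n + 1) = (n + 1, B.F c x n) := by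
  rw [st, if_neg h]
  rfl

lemma st_inv {c : ℝ} (hc : 0 ≤ c) (x : K H) (n : ℕ) : (B.st c x n).1 ≤ n ∧
    sand (B.P (B.st c x n).1) (B.P (B.st c x n).1) (B.st c x n).2 = (B.st c x n).2 ∧
    ‖(B.st c x n).2‖ ≤ c ∧ ‖B.W (B.st c x n).1 n x‖ ≤ c := by
  induction n with
  | zero =>
    refine ⟨le_rfl, ?_, ?_, ?_⟩
    · simp [st]
    · simpa [st] using hc
    · have : (B.st c x 0).1 = 0 := rfl
      rw [this, W_self, norm_zero]
      exact hc
  | succ n ih =>
    obtain ⟨h1, h2, h3, h4⟩ := ih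
    by_cases h : ‖B.W (B.st c x n).1 (n + 1) x‖ ≤ c
    · rw [st_join B h]
      exact ⟨by omega, h2, h3, h⟩
    · rw [st_break B h]
      have h5 : ‖B.F c x n‖ ≤ c := norm_block B h2 (Q_W B h1 x) hc h3 h4
      refine ⟨le_rfl, ?_, h5, ?_⟩
      · change sand (B.P (n + 1)) (B.P (n + 1)) (B.F c x n) = B.F c x n
        rw [F, map_add, P_P_of_le B (by omega : (B.st c x n).1 ≤ n + 1) h2]
        congr 1
        refine P_P_of_le B (by omega : n ≤ n + 1) ?_
        exact P_W B h1 le_rfl x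
      · change ‖B.W (n + 1) (n + 1) x‖ ≤ c
        rw [W_self, norm_zero]
        exact hc

lemma norm_F_le {c : ℝ} (hc : 0 ≤ c) (x : K H) (n : ℕ) : ‖B.F c x n‖ ≤ c := by
  obtain ⟨h1, h2, h3, h4⟩ := st_inv B hc x n
  exact norm_block B h2 (Q_W B h1 x) hc h3 h4

lemma P_F_succ {c : ℝ} (hc : 0 ≤ c) (x : K H) (n : ℕ) :
    sand (B.P n) (B.P n) (B.F c x (n + 1)) = B.F c x n := by
  obtain ⟨h1, h2, -, -⟩ := st_inv B hc x n
  have h5 : sand (B.P n) (B.P n) (B.F c x n) = B.F c x n := by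
    rw [F, map_add, P_P_of_le B h1 h2, P_W B h1 le_rfl]
  by_cases h : ‖B.W (B.st c x n).1 (n + 1) x‖ ≤ c
  · have h3 : B.F c x (n + 1) = (B.st c x n).2 + B.W (B.st c x n).1 (n + 1) x := by
      rw [F, st_join B h]
    rw [h3, map_add, P_P_of_le B h1 h2, P_W B h1 (Nat.le_succ n)]
    rfl
  · have h3 : B.F c x (n + 1) = B.F c x n := by
      rw [F, st_break B h]
      change B.F c x n + B.W (n + 1) (n + 1) x = B.F c x n
      rw [W_self, add_zero]
    rw [h3, h5]

lemma P_F {c : ℝ} (hc : 0 ≤ c) (x : K H) {n m : ℕ} (hnm : n ≤ m) :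
    sand (B.P n) (B.P n) (B.F c x m) = B.F c x n := by
  induction m, hnm using Nat.le_induction with
  | base =>
    obtain ⟨h1, h2, -, -⟩ := st_inv B hc x n
    rw [F, map_add, P_P_of_le B h1 h2, P_W B h1 le_rfl]
  | succ m hnm ih =>
    rw [← ih, ← P_F_succ B hc x m, sand_sand, B.P_comp hnm, B.P_comp' hnm]

/-- The block diagonal operator produced by the greedy windows. -/
theorem exists_D [CompleteSpace H] {c : ℝ} (hc : 0 < c) (x : K H) :
    ∃ D : K H, ‖D‖ ≤ c ∧ ∀ n, sand (B.P n) (B.P n) D = B.F c x n := by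
  -- the tails of `x` are small
  have htail : ∃ s₀, ∀ s ≥ s₀, ∀ m ≥ s, ‖B.W s m x‖ ≤ c := by
    have h1 := B.tendsto_left x
    obtain ⟨s₀, hs₀⟩ := (Metric.tendsto_atTop.mp h1) c hc
    refine ⟨s₀, fun s hs m hm => ?_⟩
    refine (norm_W_le_Q B hm x).trans ?_
    have h2 := hs₀ s hs
    rw [dist_zero_right] at h2
    have h3 : sand (B.Q s) (B.Q s) x = sand (ContinuousLinearMap.id ℂ H) (B.Q s)
        (sand (B.Q s) (ContinuousLinearMap.id ℂ H) x) := by
      rw [sand_sand]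
      rfl
    rw [h3]
    exact (norm_sand_le' ContinuousLinearMap.norm_id_le (B.norm_Q_le s) _).trans h2.le
  obtain ⟨s₀, hs₀⟩ := htail
  have hconst : ∃ n₁, ∀ n ≥ n₁, B.st c x n = B.st c x n₁ := by
    by_cases h : ∃ n, s₀ ≤ (B.st c x n).1
    · obtain ⟨n₁, hn₁⟩ := h
      refine ⟨n₁, fun n hn => ?_⟩
      induction n, hn using Nat.le_induction with
      | base => rfl
      | succ n hn ih =>
        rw [← ih]
        refine st_join B (hs₀ _ (by rw [ih]; exact hn₁) _ ?_)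
        have := (st_inv B hc.le x n).1
        omega
    · push Not at h
      refine ⟨s₀, fun n hn => ?_⟩
      induction n, hn using Nat.le_induction with
      | base => rfl
      | succ n hn ih =>
        rw [← ih]
        refine st_join B ?_
        by_contra hcon
        have h1 := h (n + 1)
        rw [st_break B hcon] at h1
        change n + 1 < s₀ at h1
        omega
  obtain ⟨n₁, hn₁⟩ := hconst
  obtain ⟨h1, h2, -, -⟩ := st_inv B hc.le x n₁
  set s := (B.st c x n₁).1 with hs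
  set G := (B.st c x n₁).2 with hG
  have hbig : ∀ n ≥ n₁, sand (B.P n) (B.P n) (G + sand (B.Q s) (B.Q s) x) = B.F c x n := by
    intro n hn
    have h3 : s ≤ n := h1.trans hn
    rw [map_add, P_P_of_le B h3 h2, ← W_QQ B h3, F, hn₁ n hn]
  have hall : ∀ n, sand (B.P n) (B.P n) (G + sand (B.Q s) (B.Q s) x) = B.F c x n := by
    intro n
    rcases le_total n₁ n with h | h
    · exact hbig n h
    · have h3 := hbig n₁ le_rfl
      rw [← P_F B hc.le x h, ← h3, sand_sand, B.P_comp h, B.P_comp' h]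
  refine ⟨G + sand (B.Q s) (B.Q s) x, ?_, hall⟩
  refine le_of_tendsto (B.tendsto_two_sided (G + sand (B.Q s) (B.Q s) x)).norm
    (Eventually.of_forall fun n => ?_)
  rw [hall n]
  exact norm_F_le B hc.le x n

end Sys

end Pool.Agent.H86R3.KH
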