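import Mathlib
import Pool.Agent.H86R3.KH8

set_option autoImplicit false

open Filter Topology Set
open scoped ENNReal InnerProductSpace ComplexConjugate

namespace Pool.Agent.H86R3.KH

open Pool.Agent.H86R3.Wnc

variable {H : Type*} [NormedAddCommGroup H] [InnerProductSpace ℂ H] [CompleteSpace H]

/-- The key limit argument. -/
theorem limit_mem (B : Sys H) {c : ℝ} (hc : 0 < c) {P : Type*} (U : Ultrafilter P) (x : P → K H)
    {R : ℝ} (hR : ∀ p, ‖x p‖ ≤ R) (T : Bidual (K H))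
    (hT : ∀ φ : StrongDual ℂ (K H), Tendsto (fun p => φ (x p)) U (𝓝 (T φ)))
    (C₀ : K H) (hTC : ‖T - canon (K H) C₀‖ < c) (D : P → K H)
    (hD1 : ∀ p, ‖D p‖ ≤ c) (hD2 : ∀ p n, sand (B.P n) (B.P n) (D p) = B.F c (x p) n)
    (z : Bidual (K H))
    (hz : ∀ φ : StrongDual ℂ (K H), Tendsto (fun p => φ (x p - D p)) U (𝓝 (z φ))) :
    z ∈ Set.range (canon (K H)) := by
  classical
  set ρ := ‖T - canon (K H) C₀‖ with hρ
  have hne : Nonempty P := U.neBot.nonempty
  have hR0 : 0 ≤ R := by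
    obtain ⟨p0⟩ := hne
    exact (norm_nonneg _).trans (hR p0)
  -- Claim 1
  have claim1 : ∃ n₀, ∀ a ≥ n₀, ∀ m ≥ a, ∀ᶠ p in (U : Filter P), ‖B.W a m (x p)‖ ≤ c := by
    obtain ⟨n₀, hn₀⟩ := (Metric.tendsto_atTop.mp (B.tendsto_left C₀)) ((c - ρ) / 2) (by linarith)
    refine ⟨n₀, fun a ha m hm => ?_⟩
    have h1 : ‖B.W a m C₀‖ ≤ (c - ρ) / 2 := by
      refine (B.norm_W_le_Q hm C₀).trans ?_
      have h2 := hn₀ a ha
      rw [dist_zero_right] at h2
      have h3 : sand (B.Q a) (B.Q a) C₀ = sand (ContinuousLinearMap.id ℂ H) (B.Q a)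
          (sand (B.Q a) (ContinuousLinearMap.id ℂ H) C₀) := by
        rw [sand_sand]
        rfl
      rw [h3]
      exact (norm_sand_le' ContinuousLinearMap.norm_id_le (B.norm_Q_le a) _).trans h2.le
    obtain ⟨zm, hzm⟩ := lim_corner U x T hT B m
    have h2 : Tendsto (fun p => B.W a m (x p)) U (𝓝 (B.W a m zm)) := by
      have h3 := ((B.W a m).continuous.tendsto zm).comp hzm
      refine h3.congr fun p => ?_
      exact B.W_P hm (x p)
    set L := B.W a m zm with hL
    have h4 : ‖L‖ ≤ ρ + (c - ρ) / 2 := by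
      obtain ⟨g, hg1, hg2⟩ := exists_dual_vector'' ℂ L
      set φ : StrongDual ℂ (K H) := g.comp (B.W a m) with hφ
      have h5 : T φ = ‖L‖ := by
        refine tendsto_nhds_unique (hT φ) ?_
        have h6 := (g.continuous.tendsto L).comp h2
        rw [hg2] at h6
        exact h6
      have hφ1 : ‖φ‖ ≤ 1 := by
        refine ContinuousLinearMap.opNorm_le_bound _ zero_le_one fun y => ?_
        calc ‖g (B.W a m y)‖ ≤ ‖g‖ * ‖B.W a m y‖ := g.le_opNorm _
          _ ≤ 1 * ‖y‖ := mul_le_mul hg1 (B.norm_W_le hm y) (norm_nonneg _) zero_le_one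
      have h7 : ‖T φ‖ ≤ ρ + (c - ρ) / 2 := by
        have h8 : T φ = (T - canon (K H) C₀) φ + φ C₀ := by
          rw [sub_apply]
          change T φ = T φ - φ C₀ + φ C₀
          ring
        rw [h8]
        calc ‖(T - canon (K H) C₀) φ + φ C₀‖ ≤ ‖(T - canon (K H) C₀) φ‖ + ‖φ C₀‖ := norm_add_le _ _
          _ ≤ ρ * 1 + (c - ρ) / 2 := by
              gcongr
              · exact ((T - canon (K H) C₀).le_opNorm φ).trans
                  (mul_le_mul_of_nonneg_left hφ1 (norm_nonneg _))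
              · calc ‖g (B.W a m C₀)‖ ≤ ‖g‖ * ‖B.W a m C₀‖ := g.le_opNorm _
                  _ ≤ 1 * ((c - ρ) / 2) := mul_le_mul hg1 h1 (norm_nonneg _) zero_le_one
                  _ = (c - ρ) / 2 := one_mul _
          _ = ρ + (c - ρ) / 2 := by ring
      rw [h5] at h7
      have h8 : ‖((‖L‖ : ℝ) : ℂ)‖ = ‖L‖ := by
        rw [Complex.norm_real, Real.norm_of_nonneg (norm_nonneg _)]
      exact h8.symm.trans_le h7
    have h5 : ∀ᶠ p in (U : Filter P), ‖B.W a m (x p)‖ < c :=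
      h2.norm.eventually (gt_mem_nhds (by linarith))
    exact h5.mono fun p hp => hp.le
  obtain ⟨n₀, hn₀⟩ := claim1
  -- Claim 2
  have claim2 : ∃ n₁, ∀ m ≥ n₁, ∀ᶠ p in (U : Filter P), B.st c (x p) m = B.st c (x p) n₁ := by
    by_cases h : ∃ m ≥ n₀, ∀ᶠ p in (U : Filter P), B.st c (x p) (m + 1) ≠ B.st c (x p) m
    · obtain ⟨m, hm, hev⟩ := h
      refine ⟨m + 1, fun k hk => ?_⟩
      induction k, hk using Nat.le_induction with
      | base => exact Eventually.of_forall fun _ => rfl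
      | succ k hk ih =>
        filter_upwards [ih, hev, hn₀ (m + 1) (by omega) (k + 1) (by omega)] with p hp1 hp2 hp3
        rw [← hp1]
        refine B.st_join ?_
        have h1 : (B.st c (x p) (m + 1)).1 = m + 1 := by
          by_cases h2 : ‖B.W (B.st c (x p) m).1 (m + 1) (x p)‖ ≤ c
          · exact absurd (B.st_join h2) hp2
          · rw [B.st_break h2]
        rw [hp1, h1]
        exact hp3
    · push Not at h
      refine ⟨n₀, fun k hk => ?_⟩
      induction k, hk using Nat.le_induction with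
      | base => exact Eventually.of_forall fun _ => rfl
      | succ k hk ih =>
        have h1 : ∀ᶠ p in (U : Filter P), B.st c (x p) (k + 1) = B.st c (x p) k := h k hk
        filter_upwards [ih, h1] with p hp1 hp2
        rw [hp2, hp1]
  obtain ⟨n₁, hn₁⟩ := claim2
  -- Claim 3: constant start
  obtain ⟨s, hs⟩ : ∃ s, ∀ᶠ p in (U : Filter P), (B.st c (x p) n₁).1 = s := by
    have hmap : ((Finset.range (n₁ + 1) : Finset ℕ) : Set ℕ) ∈
        U.map (fun p => (B.st c (x p) n₁).1) := by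
      change (fun p => (B.st c (x p) n₁).1) ⁻¹' _ ∈ (U : Filter P)
      refine mem_of_superset univ_mem fun p _ => ?_
      simp only [mem_preimage, Finset.coe_range, mem_Iio]
      have := (B.st_inv hc.le (x p) n₁).1
      omega
    obtain ⟨s, -, hs⟩ := Ultrafilter.eq_pure_of_finite_mem (Finset.finite_toSet _) hmap
    refine ⟨s, ?_⟩
    have h1 : ({s} : Set ℕ) ∈ U.map (fun p => (B.st c (x p) n₁).1) := by
      rw [hs]
      exact Ultrafilter.mem_pure.mpr rfl
    exact h1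
  have hsn : s ≤ n₁ := by
    obtain ⟨p, hp⟩ := hs.exists
    rw [← hp]
    exact (B.st_inv hc.le (x p) n₁).1
  -- Claim 4
  set G : P → K H := fun p => (B.st c (x p) n₁).2 with hG
  have hGP : ∀ p, sand (B.P n₁) (B.P n₁) (G p) = G p := fun p =>
    B.P_P_of_le (B.st_inv hc.le (x p) n₁).1 (B.st_inv hc.le (x p) n₁).2.1
  obtain ⟨G₀, hG₀⟩ : ∃ G₀, Tendsto G U (𝓝 G₀) := by
    obtain ⟨TG, hTG⟩ := exists_ulim U G (R := c) (fun p => (B.st_inv hc.le (x p) n₁).2.2.1)
    obtain ⟨G₀, hG₀⟩ := lim_corner U G TG hTG B n₁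
    exact ⟨G₀, hG₀.congr fun p => hGP p⟩
  have hG₀P : ∀ n ≥ n₁, sand (B.P n) (B.P n) G₀ = G₀ := by
    intro n hn
    have h1 := ((sand (B.P n) (B.P n)).continuous.tendsto G₀).comp hG₀
    refine tendsto_nhds_unique h1 (hG₀.congr fun p => ?_)
    exact (B.P_P_of_le hn (hGP p)).symm
  -- Claim 5
  obtain ⟨z₁, hz₁⟩ := lim_left U x T hT B s
  obtain ⟨z₂, hz₂⟩ := lim_right U x T hT B s
  obtain ⟨z₃, hz₃⟩ := lim_corner U x T hT B s
  set q : P → K H := fun p => sand (B.P s) (ContinuousLinearMap.id ℂ H) (x p) +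
    sand (ContinuousLinearMap.id ℂ H) (B.P s) (x p) - sand (B.P s) (B.P s) (x p) with hq
  have hxq : ∀ p, x p = q p + sand (B.Q s) (B.Q s) (x p) := by
    intro p
    refine K_ext fun v => ?_
    simp only [hq, map_add, map_sub, add_apply, sub_apply, incl_sand, Sys.Q_apply,
      ContinuousLinearMap.id_apply]
    abel
  have hqlim : ∀ φ : StrongDual ℂ (K H), Tendsto (fun p => φ (q p)) U (𝓝 (φ (z₁ + z₂ - z₃))) := by
    intro φ
    have h1 := ((hz₁ φ).add (hz₂ φ)).sub ((φ.continuous.tendsto z₃).comp hz₃)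
    rw [← map_add, ← map_sub] at h1
    refine h1.congr fun p => ?_
    rw [hq, map_sub, map_add]
    rfl
  refine ⟨z₁ + z₂ - z₃ - G₀, ?_⟩
  set w := z₁ + z₂ - z₃ - G₀ with hw
  ext φ
  change φ w = z φ
  have hkey : ∀ ε > 0, ‖z φ - φ w‖ ≤ ε * (R + c + ‖w‖) := by
    intro ε hε
    obtain ⟨N, hN⟩ := shrink B φ hε
    set n := max N n₁ with hn
    have hnN : n ≥ N := le_max_left _ _
    have hnn : n ≥ n₁ := le_max_right _ _
    set φn : StrongDual ℂ (K H) := φ.comp (sand (B.P n) (B.P n)) with hφn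
    have h1 : Tendsto (fun p => φn (x p - D p)) U (𝓝 (φn w)) := by
      have h2 : Tendsto (fun p => φn (q p) - φ (G p)) U (𝓝 (φn (z₁ + z₂ - z₃) - φ G₀)) :=
        (hqlim φn).sub ((φ.continuous.tendsto G₀).comp hG₀)
      have h3 : φn w = φn (z₁ + z₂ - z₃) - φ G₀ := by
        rw [hw, map_sub]
        congr 1
        change φ (sand (B.P n) (B.P n) G₀) = φ G₀
        rw [hG₀P n hnn]
      rw [h3]
      refine h2.congr' ?_
      filter_upwards [hs, hn₁ n hnn] with p hp1 hp2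
      have h4 : sand (B.P n) (B.P n) (D p) = G p + B.W s n (x p) := by
        rw [hD2 p n, Sys.F, hp2, hp1]
      have h5 : sand (B.P n) (B.P n) (x p) = sand (B.P n) (B.P n) (q p) + B.W s n (x p) := by
        conv_lhs => rw [hxq p]
        rw [map_add, ← B.W_QQ (hsn.trans hnn)]
      have h6 : sand (B.P n) (B.P n) (x p - D p) = sand (B.P n) (B.P n) (q p) - G p := by
        rw [map_sub (sand (B.P n) (B.P n)) (x p) (D p), h4, h5]
        abel
      change φ (sand (B.P n) (B.P n) (q p)) - φ (G p) = φ (sand (B.P n) (B.P n) (x p - D p))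
      rw [h6, map_sub φ (sand (B.P n) (B.P n) (q p)) (G p)]
    have h2 : ‖z φ - φn w‖ ≤ ε * (R + c) := by
      refine le_of_tendsto ((hz φ).sub h1).norm (Eventually.of_forall fun p => ?_)
      refine (hN n hnN (x p - D p)).trans ?_
      gcongr
      exact (norm_sub_le _ _).trans (add_le_add (hR p) (hD1 p))
    have h3 : ‖φn w - φ w‖ ≤ ε * ‖w‖ := by
      rw [norm_sub_rev]
      exact hN n hnN w
    calc ‖z φ - φ w‖ = ‖(z φ - φn w) + (φn w - φ w)‖ := by congr 1; ring
      _ ≤ ‖z φ - φn w‖ + ‖φn w - φ w‖ := norm_add_le _ _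
      _ ≤ ε * (R + c) + ε * ‖w‖ := add_le_add h2 h3
      _ = ε * (R + c + ‖w‖) := by ring
  have hzero : ‖z φ - φ w‖ ≤ 0 := by
    refine le_of_forall_pos_le_add fun δ hδ => ?_
    have h1 : 0 < R + c + ‖w‖ + 1 := by positivity
    have h2 := hkey (δ / (R + c + ‖w‖ + 1)) (by positivity)
    refine h2.trans ?_
    rw [zero_add, div_mul_eq_mul_div, div_le_iff₀ h1]
    nlinarith
  have h1 := norm_le_zero_iff.mp hzero
  exact (sub_eq_zero.mp h1).symm

/-- The De Blasi measure is dominated by `wk` as soon as the space has a system. -/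
theorem deBlasi_le_wk (B : Sys H) {A : Set (K H)} (hA : Bornology.IsBounded A)
    (hne : A.Nonempty) : deBlasi A ≤ wk A := by
  refine le_of_forall_gt fun c' hc' => ?_
  obtain ⟨c, hc1, hc2⟩ := ENNReal.lt_iff_exists_nnreal_btwn.mp hc'
  refine lt_of_le_of_lt ?_ hc2
  have hcpos : (0 : ℝ) < c := by
    have : (0 : ℝ≥0∞) < c := lt_of_le_of_lt (zero_le) hc1
    exact_mod_cast this
  obtain ⟨R, hR⟩ := hA.exists_norm_le
  choose D hD1 hD2 using fun p : A => B.exists_D hcpos (p : K H)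
  set Y : Set (K H) := range (fun p : A => (p : K H) - D p) with hY
  have hYb : Bornology.IsBounded Y := by
    rw [isBounded_iff_forall_norm_le]
    refine ⟨R + c, ?_⟩
    rintro _ ⟨p, rfl⟩
    exact (norm_sub_le _ _).trans (add_le_add (hR _ p.2) (hD1 p))
  have hYc : bidualClosure Y ⊆ Set.range (canon (K H)) := by
    intro z hz
    obtain ⟨U, hU⟩ := exists_ultrafilter_of_mem _ hz
    obtain ⟨T, hT⟩ := exists_ulim U (fun p : A => (p : K H)) (fun p => hR _ p.2)
    have hTA : T ∈ bidualClosure A := mem_bidualClosure_of_tendsto U _ (fun p : A => p.2) hT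
    have h1 : Metric.infEDist T (Set.range (canon (K H))) < c :=
      lt_of_le_of_lt ((excess_le_iff (bidualClosure A) _ _).mp le_rfl T hTA) hc1
    obtain ⟨_, ⟨C₀, rfl⟩, hC₀⟩ := Metric.infEDist_lt_iff.mp h1
    have h2 : ‖T - canon (K H) C₀‖ < c := by
      have h3 : dist T (canon (K H) C₀) < c := by
        rw [edist_dist, ← ENNReal.ofReal_coe_nnreal] at hC₀
        exact (ENNReal.ofReal_lt_ofReal_iff_of_nonneg dist_nonneg).mp hC₀
      exact (dist_eq_norm T (canon (K H) C₀)).symm.trans_lt h3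
    exact limit_mem B hcpos U _ (fun p => hR _ p.2) T hT C₀ h2 D hD1 hD2 z hU
  obtain ⟨L, hL, hYL⟩ := exists_weaklyCompact hYb hYc
  obtain ⟨a0, ha0⟩ := hne
  have hLne : L.Nonempty := ⟨_, hYL ⟨⟨a0, ha0⟩, rfl⟩⟩
  unfold deBlasi
  refine (iInf₂_le L hLne).trans ((iInf_le _ hL).trans ?_)
  rw [excess_le_iff]
  intro a ha
  refine (Metric.infEDist_le_edist_of_mem (hYL ⟨⟨a, ha⟩, rfl⟩)).trans ?_
  rw [edist_dist, dist_eq_norm, sub_sub_cancel, ← ENNReal.ofReal_coe_nnreal]
  exact ENNReal.ofReal_le_ofReal (hD1 ⟨a, ha⟩)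

end Pool.Agent.H86R3.KH
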