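import Mathlib
import Pool.Agent.H86R3.KH9

set_option autoImplicit false

open Filter Topology Set
open scoped ENNReal InnerProductSpace ComplexConjugate

namespace Pool.Agent.H86R3.KH

open Pool.Agent.H86R3.Wnc

variable {H : Type*} [NormedAddCommGroup H] [InnerProductSpace ℂ H] [CompleteSpace H]

/-- A separable Hilbert space has a system. -/
theorem exists_sys [TopologicalSpace.SeparableSpace H] : Nonempty (Sys H) := by
  classical
  obtain ⟨w, b, hb⟩ := exists_hilbertBasis ℂ H
  have hw : Countable w := by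
    refine Pairwise.countable_of_isOpen_disjoint (s := fun i : w => Metric.ball (b i) (1 / 2)) ?_
      (fun i => Metric.isOpen_ball) (fun i => ⟨b i, Metric.mem_ball_self (by norm_num)⟩)
    intro i j hij
    refine Metric.ball_disjoint_ball ?_
    have h1 : ⟪b i, b j⟫_ℂ = 0 := b.orthonormal.2 hij
    have h2 : ‖b i - b j‖ ^ 2 = 2 := by
      rw [norm_sub_sq (𝕜 := ℂ), h1, b.orthonormal.1 i, b.orthonormal.1 j]
      norm_num
    rw [dist_eq_norm]
    by_contra hcon
    push Not at hcon
    nlinarith [norm_nonneg (b i - b j)]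
  obtain ⟨enc, henc⟩ := hw.exists_injective_nat
  set e : ℕ → H := Function.extend enc b 0 with he
  have he1 : ∀ i, e (enc i) = b i := fun i => henc.extend_apply _ _ i
  have he2 : ∀ n, n ∉ range enc → e n = 0 := fun n hn =>
    Function.extend_apply' _ _ _ (fun ⟨i, hi⟩ => hn ⟨i, hi⟩)
  refine ⟨⟨e, ?_, ?_, ?_⟩⟩
  · intro i j hij
    by_cases hi : i ∈ range enc
    · by_cases hj : j ∈ range enc
      · obtain ⟨i', rfl⟩ := hi
        obtain ⟨j', rfl⟩ := hj
        rw [he1, he1]
        exact b.orthonormal.2 (fun h => hij (by rw [h]))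
      · rw [he2 j hj, inner_zero_right]
    · rw [he2 i hi, inner_zero_left]
  · intro i
    by_cases hi : i ∈ range enc
    · obtain ⟨i', rfl⟩ := hi
      rw [he1]
      have : ⟪b i', b i'⟫_ℂ = 1 := by
        rw [inner_self_eq_norm_sq_to_K, b.orthonormal.1]
        norm_num
      rw [this, one_smul]
    · rw [he2 i hi, smul_zero]
  · intro h
    have h1 : HasSum (fun i => ⟪b i, h⟫_ℂ • b i) h := by
      have h2 := b.hasSum_repr h
      refine h2.congr_fun ?_ |> fun h => h
      intro i
      rw [b.repr_apply_apply]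
    have h2 : HasSum (fun n => ⟪e n, h⟫_ℂ • e n) h := by
      rw [← henc.hasSum_iff]
      · refine h1.congr_fun ?_ |> fun h => h
        intro i
        simp only [Function.comp_apply, he1]
      · intro n hn
        rw [he2 n hn, smul_zero]
    exact h2.tendsto_sum_nat

/-- In the presence of a system `wk` is dominated by `wck`. -/
theorem wk_le_wck (B : Sys H) {A : Set (K H)} (hA : Bornology.IsBounded A) : wk A ≤ wck A := by
  unfold wk
  rw [excess_le_iff]
  intro z hz
  obtain ⟨R, hR⟩ := hA.exists_norm_le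
  have hz' : z ∈ bidualClosure (range (fun p : A => (p : K H))) := by
    rwa [Subtype.range_coe]
  obtain ⟨U, hU⟩ := exists_ultrafilter_of_mem _ hz'
  have hne : Nonempty A := U.neBot.nonempty
  have hR0 : 0 ≤ R := by
    obtain ⟨p0⟩ := hne
    exact (norm_nonneg _).trans (hR _ p0.2)
  have hseq : ∀ k : ℕ, ∃ p : A, ∀ i ∈ Finset.range k, ∀ j ∈ Finset.range k,
      ‖coord (B.e j) (B.e i) (p : K H) - z (coord (B.e j) (B.e i))‖ < 1 / ((k : ℝ) + 1) := by
    intro k
    have h1 : ∀ᶠ p : A in (U : Filter A), ∀ i ∈ Finset.range k, ∀ j ∈ Finset.range k,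
        ‖coord (B.e j) (B.e i) (p : K H) - z (coord (B.e j) (B.e i))‖ < 1 / ((k : ℝ) + 1) := by
      rw [Filter.eventually_all_finset]
      intro i _
      rw [Filter.eventually_all_finset]
      intro j _
      have h2 := (hU (coord (B.e j) (B.e i))).sub_const (z (coord (B.e j) (B.e i)))
      rw [sub_self] at h2
      have h3 := h2.norm
      rw [norm_zero] at h3
      exact h3.eventually (gt_mem_nhds (by positivity))
    exact h1.exists
  choose x hx using hseq
  have hcoord : ∀ i j, Tendsto (fun k => coord (B.e j) (B.e i) (x k : K H)) atTop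
      (𝓝 (z (coord (B.e j) (B.e i)))) := by
    intro i j
    rw [tendsto_iff_norm_sub_tendsto_zero]
    refine squeeze_zero' (Eventually.of_forall fun k => norm_nonneg _) ?_
      tendsto_one_div_add_atTop_nhds_zero_nat
    filter_upwards [eventually_gt_atTop i, eventually_gt_atTop j] with k hi hj
    exact (hx k i (Finset.mem_range.mpr hi) j (Finset.mem_range.mpr hj)).le
  have hφ : ∀ φ : StrongDual ℂ (K H), Tendsto (fun k => φ (x k : K H)) atTop (𝓝 (z φ)) := by
    intro φ
    rw [Metric.tendsto_atTop]
    intro ε hε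
    obtain ⟨n, hn⟩ := shrink B φ (ε := ε / (4 * (R + 1))) (by positivity)
    have hn' := hn n le_rfl
    set φn : StrongDual ℂ (K H) := ∑ i ∈ Finset.range n, ∑ j ∈ Finset.range n,
      φ (rk (B.e j) (B.e i)) • coord (B.e j) (B.e i) with hφn
    have hφn' : ∀ u, φn u = φ (sand (B.P n) (B.P n) u) := by
      intro u
      have h1 : ∑ i ∈ Finset.range n, ∑ j ∈ Finset.range n,
          coord (B.e j) (B.e i) u • rk (B.e j) (B.e i) = sand (B.P n) (B.P n) u := by
        refine K_ext fun v => ?_
        rw [incl_sand, Sys.P_apply, Sys.P_apply, map_sum, sum_apply]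
        refine Finset.sum_congr rfl fun i _ => ?_
        rw [map_sum, sum_apply, map_sum, inner_sum, Finset.sum_smul]
        refine Finset.sum_congr rfl fun j _ => ?_
        rw [map_smul, smul_apply, rk_apply, coord_apply, map_smul, inner_smul_right, smul_smul,
          mul_comm]
      rw [← h1, hφn, map_sum, sum_apply]
      refine Finset.sum_congr rfl fun i _ => ?_
      rw [map_sum, sum_apply]
      refine Finset.sum_congr rfl fun j _ => ?_
      rw [smul_apply, map_smul, smul_eq_mul, smul_eq_mul, mul_comm]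
    have h1 : Tendsto (fun k => φn (x k : K H)) atTop (𝓝 (z φn)) := by
      have h2 : z φn = ∑ i ∈ Finset.range n, ∑ j ∈ Finset.range n,
          φ (rk (B.e j) (B.e i)) • z (coord (B.e j) (B.e i)) := by
        rw [hφn, map_sum]
        refine Finset.sum_congr rfl fun i _ => ?_
        rw [map_sum]
        refine Finset.sum_congr rfl fun j _ => ?_
        rw [map_smul]
      rw [h2]
      have h3 : ∀ k, φn (x k : K H) = ∑ i ∈ Finset.range n, ∑ j ∈ Finset.range n,
          φ (rk (B.e j) (B.e i)) • coord (B.e j) (B.e i) (x k : K H) := by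
        intro k
        rw [hφn, sum_apply]
        refine Finset.sum_congr rfl fun i _ => ?_
        rw [sum_apply]
        rfl
      simp_rw [h3]
      exact tendsto_finsetSum _ fun i _ => tendsto_finsetSum _ fun j _ =>
        (hcoord i j).const_smul _
    have hbd : ∀ p : A, ‖φ (p : K H) - φn (p : K H)‖ ≤ ε / 4 := by
      intro p
      rw [hφn']
      refine (hn' p).trans ?_
      have h2 := hR _ p.2
      calc ε / (4 * (R + 1)) * ‖(p : K H)‖ ≤ ε / (4 * (R + 1)) * (R + 1) := by
            gcongr
            linarith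
        _ = ε / 4 := by field_simp
    have hbd' : ‖z φ - z φn‖ ≤ ε / 4 :=
      le_of_tendsto ((hU φ).sub (hU φn)).norm (Eventually.of_forall hbd)
    obtain ⟨N, hN⟩ := (Metric.tendsto_atTop.mp h1) (ε / 4) (by positivity)
    refine ⟨N, fun k hk => ?_⟩
    have h2 := hN k hk
    rw [dist_eq_norm] at h2 ⊢
    have h3 := hbd (x k)
    calc ‖φ (x k : K H) - z φ‖ = ‖(φ (x k : K H) - φn (x k : K H)) + (φn (x k : K H) - z φn) -
          (z φ - z φn)‖ := by congr 1; ring
      _ ≤ ‖φ (x k : K H) - φn (x k : K H)‖ + ‖φn (x k : K H) - z φn‖ + ‖z φ - z φn‖ :=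
          (norm_sub_le _ _).trans (add_le_add (norm_add_le _ _) le_rfl)
      _ < ε := by linarith
  unfold wck
  refine le_trans ?_ (le_iSup₂ (fun k => (x k : K H)) (fun k => (x k).2))
  refine le_iInf₂ fun z' hz1 => ?_
  have : z' = z := by
    ext φ
    have h1 : MapClusterPt (StrongDual.toWeakDual z') atTop
      (fun n => StrongDual.toWeakDual (canon (K H) (x n : K H))) := hz1
    have h2 : MapClusterPt (z' φ) atTop (fun n => φ (x n : K H)) :=
      h1.continuousAt_comp (WeakDual.eval_continuous φ).continuousAt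
    have h3 : ClusterPt (z' φ) (𝓝 (z φ)) := ClusterPt.mono h2 (hφ φ)
    exact eq_of_nhds_neBot h3
  rw [this]

end Pool.Agent.H86R3.KH
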