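import Mathlib
import Pool.Agent.H86R3.KH3

set_option autoImplicit false

open Filter Topology Set
open scoped ENNReal InnerProductSpace Cardinal

namespace Pool.Agent.H86R3.KH

open Pool.Agent.H86R3.Wnc

universe u

variable {H : Type u} [NormedAddCommGroup H] [InnerProductSpace ℂ H]

lemma exists_families [CompleteSpace H] (hH : ¬ TopologicalSpace.SeparableSpace H) :
    ∃ (Γ : Set (ℕ → Bool)) (f : ℕ → H) (g : ℕ × Γ → H), Uncountable Γ ∧ Orthonormal ℂ f ∧
      Orthonormal ℂ g := by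
  obtain ⟨w, b, hb⟩ := exists_hilbertBasis ℂ H
  have hw : ¬ w.Countable := by
    intro hc
    refine hH ?_
    have h1 : TopologicalSpace.IsSeparable (range b) := by
      rw [hb, Subtype.range_coe]
      exact hc.isSeparable
    have h2 : TopologicalSpace.IsSeparable
        ((Submodule.span ℂ (range b) : Submodule ℂ H) : Set H) := h1.span
    have h3 := h2.closure
    rw [← Submodule.topologicalClosure_coe, b.dense_span] at h3
    rw [← TopologicalSpace.isSeparable_univ_iff]
    exact h3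
  have hw1 : ℵ₁ ≤ #w := by
    rw [← Cardinal.succ_aleph0, Order.succ_le_iff]
    rw [← not_le, Cardinal.mk_le_aleph0_iff]
    exact hw
  have hc1 : ℵ₁ ≤ #(ℕ → Bool) := by
    have : #(ℕ → Bool) = 𝔠 := by simp
    rw [this]
    exact Cardinal.aleph_one_le_continuum
  obtain ⟨Γ, hΓ⟩ := Cardinal.le_mk_iff_exists_set.mp hc1
  have hcount : Uncountable Γ := by
    rw [← not_countable_iff, ← Cardinal.mk_le_aleph0_iff, hΓ, not_le, ← Cardinal.succ_aleph0]
    exact Order.lt_succ _
  have hg : Nonempty ((ℕ × Γ) ↪ w) := by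
    rw [← Cardinal.lift_mk_le']
    have h1 : #(ℕ × Γ) = ℵ₁ := by
      rw [Cardinal.mk_prod, Cardinal.lift_id, Cardinal.lift_id, Cardinal.mk_nat, hΓ]
      exact Cardinal.aleph0_mul_eq (Cardinal.aleph0_le_aleph 1)
    rw [h1, Cardinal.lift_aleph]
    simpa using hw1
  have hf : Nonempty (ℕ ↪ w) := by
    have : Infinite w := Set.infinite_coe_iff.mpr fun h => hw h.countable
    exact ⟨Infinite.natEmbedding w⟩
  obtain ⟨g⟩ := hg
  obtain ⟨f⟩ := hf
  exact ⟨Γ, fun i => b (f i), fun q => b (g q), hcount, b.orthonormal.comp f f.injective,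
    b.orthonormal.comp g g.injective⟩

/-- On a nonseparable Hilbert space the De Blasi measure is not dominated by `wk`. -/
theorem nonseparable [CompleteSpace H] (hH : ¬ TopologicalSpace.SeparableSpace H) (C : NNReal) :
    ∃ A : Set (K H), A.Nonempty ∧ Bornology.IsBounded A ∧ C * wk A < deBlasi A := by
  obtain ⟨Γ, f, g, hΓ, hf, hg⟩ := exists_families hH
  obtain ⟨M, hM⟩ := exists_nat_gt ((C : ℝ) ^ 2)
  have hM0 : 0 < M := by
    have h1 : (0 : ℝ) < M := lt_of_le_of_lt (by positivity) hM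
    exact_mod_cast h1
  classical
  refine ⟨range (xx f g (fun β : Γ => (β : ℕ → Bool)) M), ?_, ?_, ?_⟩
  · obtain ⟨B, hB⟩ := Infinite.exists_subset_card_eq Γ M
    exact ⟨_, ⟨(B, 0), hB, fun _ _ _ _ i hi => absurd hi (Nat.not_lt_zero i)⟩, rfl⟩
  · rw [isBounded_iff_forall_norm_le]
    refine ⟨Real.sqrt M, ?_⟩
    rintro _ ⟨q, rfl⟩
    refine norm_op_le hf hg _ _ (Real.sqrt_nonneg _) fun i => ?_
    rw [Real.sq_sqrt (by positivity)]
    have h2 : ((Finset.range q.1.2 ×ˢ q.1.1).filter fun p => p.1 = i) ⊆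
        q.1.1.map ⟨fun β => (i, β), fun a b h => by simpa using h⟩ := by
      intro p hp
      rw [Finset.mem_filter, Finset.mem_product] at hp
      rw [Finset.mem_map]
      exact ⟨p.2, hp.1.2, by rw [← hp.2]; rfl⟩
    have h3 := Finset.card_le_card h2
    rw [Finset.card_map, q.2.1] at h3
    simp only [Pi.one_apply, norm_one, one_pow, Finset.sum_const, nsmul_eq_mul, mul_one]
    exact_mod_cast h3
  · have h1 := wk_le_one hf hg (r := fun β : Γ => (β : ℕ → Bool)) Subtype.val_injective M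
    have h2 := le_deBlasi hf hg (r := fun β : Γ => (β : ℕ → Bool)) hM0
    have h3 : (C : ℝ≥0∞) * wk (range (xx f g (fun β : Γ => (β : ℕ → Bool)) M)) ≤ C := by
      calc (C : ℝ≥0∞) * wk (range (xx f g (fun β : Γ => (β : ℕ → Bool)) M)) ≤ C * 1 := by gcongr
        _ = C := mul_one _
    have h4 : (C : ℝ≥0∞) < ENNReal.ofReal (Real.sqrt M) := by
      rw [← ENNReal.ofReal_coe_nnreal]
      refine (ENNReal.ofReal_lt_ofReal_iff_of_nonneg C.coe_nonneg).mpr ?_
      rw [Real.lt_sqrt C.coe_nonneg]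
      exact hM
    exact h3.trans_lt (h4.trans_le h2)

end Pool.Agent.H86R3.KH
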