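import Mathlib
import Pool.Agent.H86R3.KH10
import Pool.Agent.H86R3.KH4

set_option autoImplicit false

open Filter Topology Set
open scoped ENNReal

namespace Pool.Agent.H86R3.KH

open Pool.Agent.H86R3.Wnc

/-- Ultrafilter limits inside a weakly compact set. -/
lemma weak_limit_ultra {X : Type*} [NormedAddCommGroup X] [NormedSpace ℂ X] {L : Set X}
    (hL : IsWeaklyCompact L) {P : Type*} (U : Ultrafilter P) (x : P → X) (hx : ∀ m, x m ∈ L) :
    ∃ y ∈ L, ∀ φ : StrongDual ℂ X, Tendsto (fun m => φ (x m)) U (𝓝 (φ y)) := by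
  have hle : (U.map (fun m => toWeakSpace ℂ X (x m)) : Filter (WeakSpace ℂ X)) ≤
      𝓟 (toWeakSpace ℂ X '' L) := by
    rw [Filter.le_principal_iff]
    change (fun m => toWeakSpace ℂ X (x m)) ⁻¹' (toWeakSpace ℂ X '' L) ∈ (U : Filter P)
    exact Filter.mem_of_superset Filter.univ_mem (fun m _ => ⟨x m, hx m, rfl⟩)
  obtain ⟨_, ⟨y, hy, rfl⟩, hlim⟩ := IsCompact.ultrafilter_le_nhds hL _ hle
  refine ⟨y, hy, fun φ => ?_⟩
  have hc : Continuous fun w : WeakSpace ℂ X => (topDualPairing ℂ X).flip w φ :=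
    WeakBilin.eval_continuous _ φ
  have h1 : Tendsto (fun m => toWeakSpace ℂ X (x m)) U (𝓝 (toWeakSpace ℂ X y)) := hlim
  exact (hc.tendsto _).comp h1

/-- In every complex normed space `wk ≤ ω`. -/
theorem wk_le_deBlasi {X : Type*} [NormedAddCommGroup X] [NormedSpace ℂ X] (A : Set X) :
    wk A ≤ deBlasi A := by
  unfold deBlasi
  refine le_iInf₂ fun L hLne => le_iInf fun hL => ?_
  unfold wk
  rw [excess_le_iff]
  intro z hz
  refine le_of_forall_gt fun c' hc' => ?_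
  obtain ⟨c, hc1, hc2⟩ := ENNReal.lt_iff_exists_nnreal_btwn.mp hc'
  refine lt_of_le_of_lt ?_ hc2
  have hz' : z ∈ bidualClosure (range (fun p : A => (p : X))) := by
    rwa [Subtype.range_coe]
  obtain ⟨U, hU⟩ := exists_ultrafilter_of_mem _ hz'
  have hy : ∀ p : A, ∃ y ∈ L, ‖(p : X) - y‖ ≤ c := by
    intro p
    have h1 : Metric.infEDist (p : X) L < c :=
      lt_of_le_of_lt ((excess_le_iff A L _).mp le_rfl _ p.2) hc1
    obtain ⟨y, hyL, hy⟩ := Metric.infEDist_lt_iff.mp h1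
    refine ⟨y, hyL, ?_⟩
    rw [edist_dist, ← ENNReal.ofReal_coe_nnreal, ENNReal.ofReal_lt_ofReal_iff_of_nonneg dist_nonneg,
      dist_eq_norm] at hy
    exact hy.le
  choose y hyL hy using hy
  obtain ⟨y0, -, hy0⟩ := weak_limit_ultra hL U y hyL
  have h1 : ‖z - canon X y0‖ ≤ c := by
    refine ContinuousLinearMap.opNorm_le_bound _ c.coe_nonneg fun φ => ?_
    have h2 : Tendsto (fun p : A => φ (p : X) - φ (y p)) U (𝓝 (z φ - φ y0)) := (hU φ).sub (hy0 φ)
    have h3 : (z - canon X y0) φ = z φ - φ y0 := rfl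
    rw [h3]
    refine le_of_tendsto h2.norm (Eventually.of_forall fun p => ?_)
    rw [← map_sub]
    calc ‖φ ((p : X) - y p)‖ ≤ ‖φ‖ * ‖(p : X) - y p‖ := φ.le_opNorm _
      _ ≤ ‖φ‖ * c := mul_le_mul_of_nonneg_left (hy p) (norm_nonneg _)
      _ = c * ‖φ‖ := mul_comm _ _
  refine (Metric.infEDist_le_edist_of_mem (mem_range_self y0)).trans ?_
  have h2 : edist z (canon X y0) = ENNReal.ofReal ‖z - canon X y0‖ :=
    (edist_dist _ _).trans (congrArg ENNReal.ofReal (dist_eq_norm z (canon X y0)))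
  rw [h2, ← ENNReal.ofReal_coe_nnreal]
  exact ENNReal.ofReal_le_ofReal h1

end Pool.Agent.H86R3.KH
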