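import Mathlib
import Pool.Agent.H86R3.KH11

set_option autoImplicit false

open Filter Topology Set
open scoped ENNReal NNReal

namespace Pool.Agent.H86R3.KH

open Pool.Agent.H86R3.Wnc

universe u

/-- Two set functions are equivalent on the bounded subsets of `X` if each is bounded by a constant
multiple of the other. -/
def Equivalent {X : Type u} [NormedAddCommGroup X] (μ ν : Set X → ℝ≥0∞) : Prop :=
  ∃ c C : ℝ≥0, 0 < c ∧ 0 < C ∧ ∀ A : Set X, Bornology.IsBounded A →
    (c : ℝ≥0∞) * μ A ≤ ν A ∧ ν A ≤ (C : ℝ≥0∞) * μ A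

/-- The space `K H` of compact operators on a Hilbert space `H`: the three measures of weak
non-compactness coincide on bounded sets when `H` is separable, and for nonseparable `H` no multiple
of `wk` or `wck` dominates the De Blasi measure; so the De Blasi measure is equivalent to `wk`, and
to `wck`, exactly when `H` is separable. -/
theorem dichotomy (H : Type u) [NormedAddCommGroup H] [InnerProductSpace ℂ H] [CompleteSpace H] :
    (TopologicalSpace.SeparableSpace H → ∀ A : Set (K H), Bornology.IsBounded A →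
      deBlasi A = wk A ∧ wk A = wck A) ∧
    (¬ TopologicalSpace.SeparableSpace H → ∀ C : ℝ≥0, ∃ A : Set (K H), A.Nonempty ∧
      Bornology.IsBounded A ∧ (C : ℝ≥0∞) * wk A < deBlasi A ∧ (C : ℝ≥0∞) * wck A < deBlasi A) ∧
    (Equivalent (X := K H) wk deBlasi ↔ TopologicalSpace.SeparableSpace H) ∧
    (Equivalent (X := K H) wck deBlasi ↔ TopologicalSpace.SeparableSpace H) := by
  have hsep : TopologicalSpace.SeparableSpace H → ∀ A : Set (K H), Bornology.IsBounded A →
      deBlasi A = wk A ∧ wk A = wck A := by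
    intro hs A hA
    obtain ⟨B⟩ := exists_sys (H := H)
    refine ⟨le_antisymm ?_ (wk_le_deBlasi A), le_antisymm (wk_le_wck B hA) (wck_le_wk hA)⟩
    rcases A.eq_empty_or_nonempty with rfl | hne
    · have h1 : deBlasi (∅ : Set (K H)) ≤ excess (∅ : Set (K H)) {0} := by
        unfold deBlasi
        refine (iInf₂_le ({0} : Set (K H)) (singleton_nonempty _)).trans (iInf_le _ ?_)
        unfold IsWeaklyCompact
        rw [image_singleton]
        exact isCompact_singleton
      refine h1.trans ?_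
      rw [excess_le_iff]
      intro a ha
      exact absurd ha (notMem_empty a)
    · exact deBlasi_le_wk B hA hne
  have hnon : ¬ TopologicalSpace.SeparableSpace H → ∀ C : ℝ≥0, ∃ A : Set (K H), A.Nonempty ∧
      Bornology.IsBounded A ∧ (C : ℝ≥0∞) * wk A < deBlasi A ∧
      (C : ℝ≥0∞) * wck A < deBlasi A := by
    intro hs C
    obtain ⟨A, h1, h2, h3⟩ := nonseparable hs C
    refine ⟨A, h1, h2, h3, lt_of_le_of_lt ?_ h3⟩
    gcongr
    exact wck_le_wk h2
  refine ⟨hsep, hnon, ⟨?_, ?_⟩, ⟨?_, ?_⟩⟩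
  · rintro ⟨c, C, -, -, hC⟩
    by_contra hs
    obtain ⟨A, -, h2, h3, -⟩ := hnon hs C
    exact absurd (hC A h2).2 (not_le.mpr h3)
  · intro hs
    refine ⟨1, 1, zero_lt_one, zero_lt_one, fun A hA => ?_⟩
    rw [(hsep hs A hA).1, ENNReal.coe_one, one_mul]
    exact ⟨le_rfl, le_rfl⟩
  · rintro ⟨c, C, -, -, hC⟩
    by_contra hs
    obtain ⟨A, -, h2, -, h3⟩ := hnon hs C
    exact absurd (hC A h2).2 (not_le.mpr h3)
  · intro hs
    refine ⟨1, 1, zero_lt_one, zero_lt_one, fun A hA => ?_⟩
    rw [(hsep hs A hA).1, (hsep hs A hA).2, ENNReal.coe_one, one_mul]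
    exact ⟨le_rfl, le_rfl⟩

end Pool.Agent.H86R3.KH
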