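import Pool.Agent.H86R3.NucDefs

set_option autoImplicit false
open Filter Topology

namespace Pool.Agent.H86R3.Nuc

section

variable {X Y : Type} [NormedAddCommGroup X] [NormedSpace ℝ X]
  [NormedAddCommGroup Y] [NormedSpace ℝ Y]

/-- interleaving of two sequences -/
def mix {α : Type} (a b : ℕ → α) (n : ℕ) : α := if Even n then a (n / 2) else b (n / 2)

lemma mix_even {α : Type} (a b : ℕ → α) (k : ℕ) : mix a b (2 * k) = a k := by
  unfold mix
  rw [if_pos (even_two_mul k)]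
  congr 1
  omega

lemma mix_odd {α : Type} (a b : ℕ → α) (k : ℕ) : mix a b (2 * k + 1) = b k := by
  unfold mix
  rw [if_neg (by simp)]
  congr 1
  omega

lemma hasSum_mix {E : Type} [NormedAddCommGroup E] {f : ℕ → E} {a b : ℕ → E} {x y : E}
    (ha : HasSum a x) (hb : HasSum b y) (h1 : ∀ k, f (2 * k) = a k)
    (h2 : ∀ k, f (2 * k + 1) = b k) : HasSum f (x + y) := by
  refine HasSum.even_add_odd ?_ ?_
  · simpa [h1] using ha
  · simpa [h2] using hb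

lemma rep_add {T T' : X →L[ℝ] Y} {f f' : ℕ → X →L[ℝ] ℝ} {y y' : ℕ → Y}
    (h : IsRep T f y) (h' : IsRep T' f' y') :
    IsRep (T + T') (mix f f') (mix y y') ∧
      ∑' n, ‖mix f f' n‖ * ‖mix y y' n‖ =
        ∑' n, ‖f n‖ * ‖y n‖ + ∑' n, ‖f' n‖ * ‖y' n‖ := by
  have h1 : HasSum (fun n => ‖mix f f' n‖ * ‖mix y y' n‖)
      (∑' n, ‖f n‖ * ‖y n‖ + ∑' n, ‖f' n‖ * ‖y' n‖) := by
    refine hasSum_mix h.1.hasSum h'.1.hasSum (fun k => ?_) (fun k => ?_)
    · rw [mix_even, mix_even]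
    · rw [mix_odd, mix_odd]
  refine ⟨⟨h1.summable, fun x => ?_⟩, h1.tsum_eq⟩
  rw [add_apply]
  refine hasSum_mix (h.2 x) (h'.2 x) (fun k => ?_) (fun k => ?_)
  · rw [mix_even, mix_even]
  · rw [mix_odd, mix_odd]

lemma rep_smul {T : X →L[ℝ] Y} {f : ℕ → X →L[ℝ] ℝ} {y : ℕ → Y} (c : ℝ)
    (h : IsRep T f y) :
    IsRep (c • T) f (fun n => c • y n) ∧
      ∑' n, ‖f n‖ * ‖c • y n‖ = |c| * ∑' n, ‖f n‖ * ‖y n‖ := by
  have e1 : (fun n => ‖f n‖ * ‖c • y n‖) = fun n => |c| * (‖f n‖ * ‖y n‖) := by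
    funext n
    rw [norm_smul, Real.norm_eq_abs]; ring
  refine ⟨⟨?_, fun x => ?_⟩, ?_⟩
  · rw [e1]; exact h.1.mul_left _
  · have := (h.2 x).const_smul c
    rw [smul_apply]
    convert this using 2
    rw [smul_comm]
  · rw [e1, tsum_mul_left]

lemma rep_rank_one (a : X →L[ℝ] ℝ) (b : Y) :
    IsRep (a.smulRight b) (fun n => if n = 0 then a else 0) (fun n => if n = 0 then b else 0) ∧
      ∑' n : ℕ, ‖(if n = 0 then a else 0 : X →L[ℝ] ℝ)‖ * ‖(if n = 0 then b else 0 : Y)‖ =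
        ‖a‖ * ‖b‖ := by
  have h1 : HasSum (fun n : ℕ => ‖(if n = 0 then a else 0 : X →L[ℝ] ℝ)‖ *
      ‖(if n = 0 then b else 0 : Y)‖) (‖a‖ * ‖b‖) := by
    have := hasSum_single (f := fun n : ℕ => ‖(if n = 0 then a else 0 : X →L[ℝ] ℝ)‖ *
      ‖(if n = 0 then b else 0 : Y)‖) 0 (fun n hn => by simp [hn])
    simpa using this
  refine ⟨⟨h1.summable, fun x => ?_⟩, h1.tsum_eq⟩
  have := hasSum_single (f := fun n : ℕ => (if n = 0 then a else 0 : X →L[ℝ] ℝ) x •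
      (if n = 0 then b else 0 : Y)) 0 (fun n hn => by simp [hn])
  simpa using this

lemma rep_tail {T : X →L[ℝ] Y} {f : ℕ → X →L[ℝ] ℝ} {y : ℕ → Y} (h : IsRep T f y) (N : ℕ) :
    IsRep (T - ∑ n ∈ Finset.range N, (f n).smulRight (y n)) (fun n => f (n + N))
      (fun n => y (n + N)) := by
  refine ⟨(summable_nat_add_iff N).mpr h.1, fun x => ?_⟩
  have h1 := (hasSum_nat_add_iff' N).mpr (h.2 x)
  convert h1 using 1
  rw [sub_apply, sum_apply]
  rfl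

lemma bddBelow_set (T : X →L[ℝ] Y) :
    BddBelow {r : ℝ | ∃ f y, IsRep T f y ∧ r = ∑' n, ‖f n‖ * ‖y n‖} := by
  refine ⟨0, ?_⟩
  rintro r ⟨f, y, _, rfl⟩
  exact tsum_nonneg (fun n => by positivity)

lemma nn_nonneg (T : X →L[ℝ] Y) : 0 ≤ nuclearNorm T := by
  refine Real.sInf_nonneg ?_
  rintro r ⟨f, y, _, rfl⟩
  exact tsum_nonneg (fun n => by positivity)

lemma nn_le {T : X →L[ℝ] Y} {f : ℕ → X →L[ℝ] ℝ} {y : ℕ → Y} (h : IsRep T f y) :
    nuclearNorm T ≤ ∑' n, ‖f n‖ * ‖y n‖ :=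
  csInf_le (bddBelow_set T) ⟨f, y, h, rfl⟩

lemma le_nn {T : X →L[ℝ] Y} (hT : IsNuclear T) (r : ℝ)
    (h : ∀ f y, IsRep T f y → r ≤ ∑' n, ‖f n‖ * ‖y n‖) : r ≤ nuclearNorm T := by
  obtain ⟨f, y, hf⟩ := hT
  refine le_csInf ⟨_, f, y, hf, rfl⟩ ?_
  rintro r' ⟨f, y, h', rfl⟩
  exact h f y h'

lemma exists_rep {T : X →L[ℝ] Y} (hT : IsNuclear T) (ε : ℝ) (hε : 0 < ε) :
    ∃ f y, IsRep T f y ∧ ∑' n, ‖f n‖ * ‖y n‖ < nuclearNorm T + ε := by
  obtain ⟨f, y, hf⟩ := hT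
  have h1 : nuclearNorm T < nuclearNorm T + ε := by linarith
  have hne : {r : ℝ | ∃ f y, IsRep T f y ∧ r = ∑' n, ‖f n‖ * ‖y n‖}.Nonempty :=
    ⟨_, f, y, hf, rfl⟩
  obtain ⟨r, ⟨f, y, h2, rfl⟩, h3⟩ := exists_lt_of_csInf_lt hne h1
  exact ⟨f, y, h2, h3⟩

lemma nuclear_add {T T' : X →L[ℝ] Y} (h : IsNuclear T) (h' : IsNuclear T') :
    IsNuclear (T + T') := by
  obtain ⟨f, y, hf⟩ := h
  obtain ⟨f', y', hf'⟩ := h'
  exact ⟨_, _, (rep_add hf hf').1⟩

lemma nuclear_smul {T : X →L[ℝ] Y} (c : ℝ) (h : IsNuclear T) : IsNuclear (c • T) := by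
  obtain ⟨f, y, hf⟩ := h
  exact ⟨_, _, (rep_smul c hf).1⟩

lemma nuclear_rank_one (a : X →L[ℝ] ℝ) (b : Y) : IsNuclear (a.smulRight b) :=
  ⟨_, _, (rep_rank_one a b).1⟩

lemma nuclear_zero : IsNuclear (0 : X →L[ℝ] Y) := by
  refine ⟨fun _ => 0, fun _ => 0, ?_, fun x => ?_⟩
  · simp
  · simp

lemma nn_add_le {T T' : X →L[ℝ] Y} (h : IsNuclear T) (h' : IsNuclear T') :
    nuclearNorm (T + T') ≤ nuclearNorm T + nuclearNorm T' := by
  refine le_of_forall_pos_le_add (fun ε hε => ?_)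
  obtain ⟨f, y, hf, hf2⟩ := exists_rep h (ε / 2) (by positivity)
  obtain ⟨f', y', hf', hf2'⟩ := exists_rep h' (ε / 2) (by positivity)
  have h1 := rep_add hf hf'
  have h2 := nn_le h1.1
  rw [h1.2] at h2
  linarith

lemma nn_smul_le {T : X →L[ℝ] Y} (h : IsNuclear T) (c : ℝ) :
    nuclearNorm (c • T) ≤ |c| * nuclearNorm T := by
  refine le_of_forall_pos_le_add (fun ε hε => ?_)
  obtain ⟨f, y, hf, hf2⟩ := exists_rep h (ε / (|c| + 1)) (by positivity)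
  have h1 := rep_smul c hf
  have h2 := nn_le h1.1
  rw [h1.2] at h2
  refine h2.trans ?_
  calc |c| * ∑' n, ‖f n‖ * ‖y n‖ ≤ |c| * (nuclearNorm T + ε / (|c| + 1)) :=
        mul_le_mul_of_nonneg_left hf2.le (abs_nonneg c)
    _ = |c| * nuclearNorm T + (|c| / (|c| + 1)) * ε := by ring
    _ ≤ |c| * nuclearNorm T + 1 * ε := by
        have : |c| / (|c| + 1) ≤ 1 := by
          rw [div_le_one (by positivity)]; linarith
        have := mul_le_mul_of_nonneg_right this hε.le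
        linarith
    _ = _ := by ring

lemma nn_smul {T : X →L[ℝ] Y} (h : IsNuclear T) (c : ℝ) :
    nuclearNorm (c • T) = |c| * nuclearNorm T := by
  refine le_antisymm (nn_smul_le h c) ?_
  by_cases hc : c = 0
  · rw [hc]; simpa using nn_nonneg _
  · have h1 := nn_smul_le (nuclear_smul c h) c⁻¹
    rw [inv_smul_smul₀ hc, abs_inv] at h1
    have h2 : 0 < |c| := abs_pos.mpr hc
    calc |c| * nuclearNorm T ≤ |c| * (|c|⁻¹ * nuclearNorm (c • T)) :=
          mul_le_mul_of_nonneg_left h1 h2.le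
      _ = nuclearNorm (c • T) := by
          rw [← mul_assoc, mul_inv_cancel₀ h2.ne', one_mul]

lemma nn_rank_one_le (a : X →L[ℝ] ℝ) (b : Y) : nuclearNorm (a.smulRight b) ≤ ‖a‖ * ‖b‖ := by
  have h := rep_rank_one a b
  exact (nn_le h.1).trans h.2.le

/-- the space of nuclear operators -/
def NucSub (X Y : Type) [NormedAddCommGroup X] [NormedSpace ℝ X]
    [NormedAddCommGroup Y] [NormedSpace ℝ Y] : Submodule ℝ (X →L[ℝ] Y) where
  carrier := {T | IsNuclear T}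
  add_mem' h h' := nuclear_add h h'
  zero_mem' := nuclear_zero
  smul_mem' c _ h := nuclear_smul c h

lemma mem_NucSub {T : X →L[ℝ] Y} : T ∈ NucSub X Y ↔ IsNuclear T := Iff.rfl

/-- Hahn-Banach for the nuclear norm. -/
lemma exists_functional {S : X →L[ℝ] Y} (hS : IsNuclear S) (hpos : 0 < nuclearNorm S) :
    ∃ g : NucSub X Y →ₗ[ℝ] ℝ, g ⟨S, hS⟩ = nuclearNorm S ∧ ∀ T : NucSub X Y, g T ≤
      nuclearNorm (T : X →L[ℝ] Y) := by
  have hne : (⟨S, hS⟩ : NucSub X Y) ≠ 0 := by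
    intro h0
    have h1 : S = 0 := congrArg Subtype.val h0
    have h2 := nn_smul_le hS 0
    rw [zero_smul, abs_zero, zero_mul] at h2
    rw [h1] at hpos
    linarith
  let f : NucSub X Y →ₗ.[ℝ] ℝ :=
    LinearPMap.mkSpanSingleton (⟨S, hS⟩ : NucSub X Y) (nuclearNorm S) hne
  obtain ⟨g, hg1, hg2⟩ := exists_extension_of_le_sublinear f
    (fun T : NucSub X Y => nuclearNorm (T : X →L[ℝ] Y))
    (fun c hc T => by
      have := nn_smul T.2 c
      rw [abs_of_pos hc] at this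
      exact this)
    (fun T T' => nn_add_le T.2 T'.2)
    (fun x => by
      obtain ⟨x, hx⟩ := x
      obtain ⟨c, rfl⟩ := Submodule.mem_span_singleton.mp hx
      have h1 : f ⟨c • (⟨S, hS⟩ : NucSub X Y), hx⟩ = c • nuclearNorm S :=
        LinearPMap.mkSpanSingleton'_apply _ _ _ c _
      rw [h1, smul_eq_mul]
      have h2 := nn_smul hS c
      calc c * nuclearNorm S ≤ |c| * nuclearNorm S :=
            mul_le_mul_of_nonneg_right (le_abs_self c) hpos.le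
        _ = nuclearNorm (c • S) := h2.symm)
  refine ⟨g, ?_, hg2⟩
  have h3 := hg1 ⟨(⟨S, hS⟩ : NucSub X Y), Submodule.mem_span_singleton_self _⟩
  refine h3.trans ?_
  exact LinearPMap.mkSpanSingleton_apply ℝ ℝ hne _

end

end Pool.Agent.H86R3.Nuc
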