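import Pool.Agent.H86R3.NucA

set_option autoImplicit false
open Filter Topology

namespace Pool.Agent.H86R3.Nuc

section

variable {X Y : Type} [NormedAddCommGroup X] [NormedSpace ℝ X]
  [NormedAddCommGroup Y] [NormedSpace ℝ Y]

lemma abs_le_nn (g : NucSub X Y →ₗ[ℝ] ℝ)
    (hg : ∀ T : NucSub X Y, g T ≤ nuclearNorm (T : X →L[ℝ] Y)) (T : NucSub X Y) :
    |g T| ≤ nuclearNorm (T : X →L[ℝ] Y) := by
  refine abs_le.mpr ⟨?_, hg T⟩
  have h1 := hg (-T)
  have h2 := nn_smul T.2 (-1)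
  rw [neg_one_smul, abs_neg, abs_one, one_mul] at h2
  have h3 : ((-T : NucSub X Y) : X →L[ℝ] Y) = -(T : X →L[ℝ] Y) := rfl
  rw [map_neg, h3, h2] at h1
  linarith

/-- the rank one operator as a nuclear operator -/
def rk (a : X →L[ℝ] ℝ) (b : Y) : NucSub X Y := ⟨a.smulRight b, nuclear_rank_one a b⟩

/-- the bilinear form associated with a functional on nuclear operators -/
noncomputable def toB (g : NucSub X Y →ₗ[ℝ] ℝ) : Y →ₗ[ℝ] (X →L[ℝ] ℝ) →ₗ[ℝ] ℝ :=
  LinearMap.mk₂ ℝ (fun (b : Y) (a : X →L[ℝ] ℝ) => g (rk a b))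
    (fun b b' a => by
      rw [← map_add]; congr 1
      refine Subtype.ext (ContinuousLinearMap.ext fun x => ?_)
      show a x • (b + b') = a x • b + a x • b'
      rw [smul_add])
    (fun c b a => by
      rw [← map_smul]; congr 1
      refine Subtype.ext (ContinuousLinearMap.ext fun x => ?_)
      show a x • (c • b) = c • (a x • b)
      rw [smul_comm])
    (fun b a a' => by
      rw [← map_add]; congr 1
      refine Subtype.ext (ContinuousLinearMap.ext fun x => ?_)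
      show (a x + a' x) • b = a x • b + a' x • b
      rw [add_smul])
    (fun c b a => by
      rw [← map_smul]; congr 1
      refine Subtype.ext (ContinuousLinearMap.ext fun x => ?_)
      show (c • a x) • b = c • (a x • b)
      rw [smul_assoc])

lemma toB_apply (g : NucSub X Y →ₗ[ℝ] ℝ) (b : Y) (a : X →L[ℝ] ℝ) :
    toB g b a = g (rk a b) := rfl

theorem exists_B {S : X →L[ℝ] Y} (hS : AttainsNuclearNorm S) (hpos : 0 < nuclearNorm S)
    {ι : Type} (s : Finset ι) (a : ι → X →L[ℝ] ℝ) (b : ι → Y) :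
    ∃ B : Y →ₗ[ℝ] (X →L[ℝ] ℝ) →ₗ[ℝ] ℝ, (∀ y x', |B y x'| ≤ ‖y‖ * ‖x'‖) ∧
      (∃ y x', ‖y‖ = 1 ∧ ‖x'‖ = 1 ∧ B y x' = 1) ∧
      nuclearNorm S ≤ ∑ i ∈ s, B (b i) (a i) +
        nuclearNorm (S - ∑ i ∈ s, (a i).smulRight (b i)) := by
  obtain ⟨f, y, hrep, hatt⟩ := hS
  have hSn : IsNuclear S := ⟨f, y, hrep⟩
  obtain ⟨g, hg1, hg2⟩ := exists_functional hSn hpos
  refine ⟨toB g, fun b a => ?_, ?_, ?_⟩
  · rw [toB_apply, mul_comm]
    exact (abs_le_nn g hg2 _).trans (nn_rank_one_le a b)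
  · have hu1 : ∀ n, |g (rk (f n) (y n))| ≤ ‖f n‖ * ‖y n‖ := fun n =>
      (abs_le_nn g hg2 _).trans (nn_rank_one_le _ _)
    have hus : Summable (fun n => g (rk (f n) (y n))) :=
      Summable.of_norm_bounded hrep.1 (fun n => by rw [Real.norm_eq_abs]; exact hu1 n)
    have hu : HasSum (fun n => g (rk (f n) (y n))) (nuclearNorm S) := by
      rw [hus.hasSum_iff_tendsto_nat]
      have ht := tendsto_sum_nat_add (fun n => ‖f n‖ * ‖y n‖)
      rw [tendsto_iff_norm_sub_tendsto_zero]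
      refine squeeze_zero (fun N => norm_nonneg _) (fun N => ?_) ht
      have h1 : ∑ n ∈ Finset.range N, g (rk (f n) (y n)) - nuclearNorm S =
          - g ((⟨S, hSn⟩ : NucSub X Y) - ∑ n ∈ Finset.range N, rk (f n) (y n)) := by
        rw [map_sub, map_sum, hg1]; ring
      rw [h1, norm_neg, Real.norm_eq_abs]
      refine (abs_le_nn g hg2 _).trans ?_
      have h2 := nn_le (rep_tail hrep N)
      refine le_trans (le_of_eq ?_) h2
      congr 1
      rw [Submodule.coe_sub, AddSubmonoidClass.coe_finsetSum]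
      rfl
    have hv : HasSum (fun n => ‖f n‖ * ‖y n‖) (nuclearNorm S) := by
      rw [hatt]; exact hrep.1.hasSum
    have hd := hv.sub hu
    rw [sub_self] at hd
    have hz := (hasSum_zero_iff_of_nonneg (fun n => by
      have := (abs_le.mp (hu1 n)).2
      show 0 ≤ ‖f n‖ * ‖y n‖ - g (rk (f n) (y n))
      linarith)).mp hd
    have hex : ∃ n, ‖f n‖ * ‖y n‖ ≠ 0 := by
      by_contra hcon
      push Not at hcon
      have h0 : HasSum (fun n => ‖f n‖ * ‖y n‖) 0 := by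
        simp_rw [hcon]; exact hasSum_zero
      have := h0.unique hv
      linarith
    obtain ⟨n, hn⟩ := hex
    have hf : ‖f n‖ ≠ 0 := left_ne_zero_of_mul hn
    have hy : ‖y n‖ ≠ 0 := right_ne_zero_of_mul hn
    refine ⟨‖y n‖⁻¹ • y n, ‖f n‖⁻¹ • f n, ?_, ?_, ?_⟩
    · rw [norm_smul, norm_inv, norm_norm, inv_mul_cancel₀ hy]
    · rw [norm_smul, norm_inv, norm_norm, inv_mul_cancel₀ hf]
    · rw [map_smul, map_smul, LinearMap.smul_apply, toB_apply]
      have h1 : ‖f n‖ * ‖y n‖ - g (rk (f n) (y n)) = 0 := congrFun hz n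
      have h2 : g (rk (f n) (y n)) = ‖f n‖ * ‖y n‖ := by linarith
      rw [h2, smul_eq_mul, smul_eq_mul]
      field_simp
  · have h1 : nuclearNorm S = ∑ i ∈ s, g (rk (a i) (b i)) +
        g ((⟨S, hSn⟩ : NucSub X Y) - ∑ i ∈ s, rk (a i) (b i)) := by
      rw [map_sub, map_sum, hg1]; ring
    have h2 := hg2 ((⟨S, hSn⟩ : NucSub X Y) - ∑ i ∈ s, rk (a i) (b i))
    have h3 : (((⟨S, hSn⟩ : NucSub X Y) - ∑ i ∈ s, rk (a i) (b i) : NucSub X Y) : X →L[ℝ] Y) =
        S - ∑ i ∈ s, (a i).smulRight (b i) := by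
      rw [Submodule.coe_sub, AddSubmonoidClass.coe_finsetSum]
      rfl
    rw [h3] at h2
    have h4 : ∑ i ∈ s, toB g (b i) (a i) = ∑ i ∈ s, g (rk (a i) (b i)) :=
      Finset.sum_congr rfl (fun i _ => toB_apply g _ _)
    rw [h4]
    linarith

end

end Pool.Agent.H86R3.Nuc
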