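import Mathlib

set_option autoImplicit false
open Filter Topology
open scoped ENNReal

namespace Pool.Agent.H86R3.Nuc

/-! ### A weak form of Goldstine's theorem for two functionals -/

section Goldstine

variable {X : Type} [NormedAddCommGroup X] [NormedSpace ℝ X]

lemma opNorm_le_of_ball {h : X →L[ℝ] ℝ} {u : ℝ} (hu : ∀ x, ‖x‖ ≤ 1 → h x < u) : ‖h‖ ≤ u := by
  have hu0 : 0 < u := by
    have := hu 0 (by simp)
    simpa using this
  refine ContinuousLinearMap.opNorm_le_bound _ hu0.le (fun x => ?_)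
  by_cases hx : x = 0
  · simp [hx]
  · have hx' : 0 < ‖x‖ := norm_pos_iff.mpr hx
    have h1 := hu (‖x‖⁻¹ • x) (by rw [norm_smul, norm_inv, norm_norm, inv_mul_cancel₀ hx'.ne'])
    have h2 := hu (-(‖x‖⁻¹ • x)) (by
      rw [norm_neg, norm_smul, norm_inv, norm_norm, inv_mul_cancel₀ hx'.ne'])
    rw [map_neg, map_smul, smul_eq_mul] at h2
    rw [map_smul, smul_eq_mul] at h1
    have h3 : |‖x‖⁻¹ * h x| ≤ u := abs_le.mpr ⟨by linarith, h1.le⟩
    rw [abs_mul, abs_inv, abs_norm] at h3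
    rw [Real.norm_eq_abs]
    calc |h x| = ‖x‖⁻¹ * |h x| * ‖x‖ := by field_simp
      _ ≤ u * ‖x‖ := mul_le_mul_of_nonneg_right h3 hx'.le

lemma goldstine (ξ : (X →L[ℝ] ℝ) →ₗ[ℝ] ℝ) (hξ : ∀ g, |ξ g| ≤ ‖g‖) (g1 g2 : X →L[ℝ] ℝ)
    (ε : ℝ) (hε : 0 < ε) : ∃ x, ‖x‖ ≤ 1 ∧ |g1 x - ξ g1| ≤ ε ∧ |g2 x - ξ g2| ≤ ε := by
  let L : X →L[ℝ] ℝ × ℝ := g1.prod g2
  have hconv : Convex ℝ (closure (L '' Metric.closedBall (0 : X) 1)) :=
    ((convex_closedBall (0 : X) 1).is_linear_image L.toLinearMap.isLinear).closure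
  by_cases hv : ((ξ g1, ξ g2) : ℝ × ℝ) ∈ closure (L '' Metric.closedBall (0 : X) 1)
  · obtain ⟨p, ⟨x, hx, rfl⟩, hp⟩ := Metric.mem_closure_iff.mp hv ε hε
    refine ⟨x, by simpa using hx, ?_, ?_⟩
    · have h1 : dist (ξ g1) (g1 x) ≤ dist ((ξ g1, ξ g2) : ℝ × ℝ) (L x) := by
        rw [Prod.dist_eq]; exact le_max_left _ _
      rw [Real.dist_eq, abs_sub_comm] at h1
      linarith
    · have h1 : dist (ξ g2) (g2 x) ≤ dist ((ξ g1, ξ g2) : ℝ × ℝ) (L x) := by
        rw [Prod.dist_eq]; exact le_max_right _ _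
      rw [Real.dist_eq, abs_sub_comm] at h1
      linarith
  · exfalso
    obtain ⟨f, u, hf1, hf2⟩ := geometric_hahn_banach_closed_point hconv isClosed_closure hv
    have hf : ∀ a b : ℝ, f (a, b) = a * f (1, 0) + b * f (0, 1) := by
      intro a b
      have h1 : ((a, b) : ℝ × ℝ) = a • ((1, 0) : ℝ × ℝ) + b • ((0, 1) : ℝ × ℝ) := by
        ext <;> simp
      rw [h1, map_add, map_smul, map_smul, smul_eq_mul, smul_eq_mul]
    have h2 : ‖f (1, 0) • g1 + f (0, 1) • g2‖ ≤ u := by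
      refine opNorm_le_of_ball (fun x hx => ?_)
      have h3 := hf1 (L x) (subset_closure ⟨x, by simpa using hx, rfl⟩)
      have h4 : f (L x) = g1 x * f (1, 0) + g2 x * f (0, 1) := hf (g1 x) (g2 x)
      rw [h4] at h3
      show f (1, 0) * g1 x + f (0, 1) * g2 x < u
      linarith
    have h5 := hξ (f (1, 0) • g1 + f (0, 1) • g2)
    rw [map_add, map_smul, map_smul, smul_eq_mul, smul_eq_mul] at h5
    rw [hf] at hf2
    have h6 := (abs_le.mp h5).2
    linarith

end Goldstine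

/-! ### The renorming -/

section Graph

/-- the Hilbert space -/
abbrev H2 : Type := lp (fun _ : ℕ => ℝ) 2

/-- weights -/
noncomputable def wt (i : ℕ) : ℝ := (1 / 2) ^ (i + 1)

lemma wt_pos (i : ℕ) : 0 < wt i := by unfold wt; positivity

lemma summable_wt : Summable (fun i => wt i ^ 2) := by
  have h1 : (fun i => wt i ^ 2) = fun i : ℕ => (1 / 4) * (1 / 4 : ℝ) ^ i := by
    funext i
    unfold wt
    rw [← pow_mul, mul_comm (i + 1) 2, pow_mul, pow_succ]
    norm_num
    ring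
  rw [h1]
  exact (summable_geometric_of_lt_one (by norm_num) (by norm_num)).mul_left _

lemma tsum_wt_le : ∑' i, wt i ^ 2 ≤ 1 := by
  have h1 : (fun i => wt i ^ 2) = fun i : ℕ => (1 / 4) * (1 / 4 : ℝ) ^ i := by
    funext i
    unfold wt
    rw [← pow_mul, mul_comm (i + 1) 2, pow_mul, pow_succ]
    norm_num
    ring
  rw [h1, tsum_mul_left, tsum_geometric_of_lt_one (by norm_num) (by norm_num)]
  norm_num

variable {E : Type} [NormedAddCommGroup E] [NormedSpace ℝ E]
  (e : ℕ → E →L[ℝ] ℝ) (he : ∀ i x, |e i x| ≤ ‖x‖)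

include he in
lemma sq_le (x : E) (i : ℕ) : ‖wt i * e i x‖ ^ (2 : ℝ≥0∞).toReal ≤ ‖x‖ ^ 2 * wt i ^ 2 := by
  have h2 : ((2 : ℝ≥0∞).toReal) = ((2 : ℕ) : ℝ) := by norm_num
  rw [h2, Real.rpow_natCast, Real.norm_eq_abs, sq_abs, mul_pow, mul_comm]
  refine mul_le_mul_of_nonneg_right ?_ (by positivity)
  rw [← sq_abs]
  exact pow_le_pow_left₀ (abs_nonneg _) (he i x) 2

include he in
lemma mem_H2 (x : E) : Memℓp (fun i => wt i * e i x) 2 := by
  refine memℓp_gen ?_
  refine Summable.of_nonneg_of_le (fun i => by positivity) (fun i => sq_le e he x i) ?_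
  exact summable_wt.mul_left _

/-- the weighted coordinate map into the Hilbert space -/
noncomputable def Smap : E →L[ℝ] H2 :=
  LinearMap.mkContinuous
    { toFun := fun x => ⟨fun i => wt i * e i x, mem_H2 e he x⟩
      map_add' := fun x y => by
        ext i
        show wt i * e i (x + y) = wt i * e i x + wt i * e i y
        rw [map_add, mul_add]
      map_smul' := fun c x => by
        ext i
        show wt i * e i (c • x) = c * (wt i * e i x)
        rw [map_smul, smul_eq_mul]; ring } 1 (fun x => by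
      refine lp.norm_le_of_tsum_le (by norm_num) (by positivity) ?_
      have h2 : ((2 : ℝ≥0∞).toReal) = ((2 : ℕ) : ℝ) := by norm_num
      have h1 : ∑' i, ‖wt i * e i x‖ ^ (2 : ℝ≥0∞).toReal ≤ ∑' i, ‖x‖ ^ 2 * wt i ^ 2 := by
        refine Summable.tsum_le_tsum (fun i => sq_le e he x i) ?_ (summable_wt.mul_left _)
        exact Summable.of_nonneg_of_le (fun i => by positivity) (fun i => sq_le e he x i)
          (summable_wt.mul_left _)
      refine h1.trans ?_
      rw [tsum_mul_left, h2, Real.rpow_natCast, one_mul]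
      calc ‖x‖ ^ 2 * ∑' i, wt i ^ 2 ≤ ‖x‖ ^ 2 * 1 :=
            mul_le_mul_of_nonneg_left tsum_wt_le (by positivity)
        _ = _ := mul_one _)

lemma Smap_apply (x : E) (i : ℕ) : (Smap e he x : ℕ → ℝ) i = wt i * e i x := rfl

lemma norm_Smap_le (x : E) : ‖Smap e he x‖ ≤ ‖x‖ := by
  have := (Smap e he).le_of_opNorm_le (LinearMap.mkContinuous_norm_le _ zero_le_one _) x
  simpa using this

/-- the graph of the weighted coordinate map -/
def Gr : Submodule ℝ (WithLp 2 (E × H2)) where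
  carrier := {p | p.snd = Smap e he p.fst}
  add_mem' {p q} hp hq := by
    show p.snd + q.snd = Smap e he (p.fst + q.fst)
    rw [map_add, ← hp, ← hq]
  zero_mem' := by
    show (0 : H2) = Smap e he 0
    rw [map_zero]
  smul_mem' c p hp := by
    show c • p.snd = Smap e he (c • p.fst)
    rw [map_smul, ← hp]

lemma isClosed_Gr : IsClosed (Gr e he : Set (WithLp 2 (E × H2))) := by
  have h1 : Continuous (fun p : WithLp 2 (E × H2) => p.snd) :=
    continuous_snd.comp (WithLp.prod_continuous_ofLp 2 E H2)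
  have h2 : Continuous (fun p : WithLp 2 (E × H2) => p.fst) :=
    continuous_fst.comp (WithLp.prod_continuous_ofLp 2 E H2)
  exact isClosed_eq h1 ((Smap e he).continuous.comp h2)

/-- the renormed space -/
def RX : Type := ↥(Gr e he)

noncomputable instance : NormedAddCommGroup (RX e he) :=
  inferInstanceAs (NormedAddCommGroup (Gr e he))

noncomputable instance : NormedSpace ℝ (RX e he) :=
  inferInstanceAs (NormedSpace ℝ (Gr e he))

instance [CompleteSpace E] : CompleteSpace (RX e he) := (isClosed_Gr e he).completeSpace_coe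

/-- first component -/
def pr (p : RX e he) : E := p.1.fst

/-- second component -/
def sn (p : RX e he) : H2 := p.1.snd

lemma norm_sq (p : RX e he) : ‖p‖ ^ 2 = ‖pr e he p‖ ^ 2 + ‖sn e he p‖ ^ 2 :=
  WithLp.prod_norm_sq_eq_of_L2 p.1

lemma norm_pr_le (p : RX e he) : ‖pr e he p‖ ≤ ‖p‖ := by
  refine le_of_sq_le_sq ?_ (norm_nonneg _)
  rw [norm_sq]
  linarith [sq_nonneg ‖sn e he p‖]

lemma sn_apply (p : RX e he) (i : ℕ) : (sn e he p : ℕ → ℝ) i = wt i * e i (pr e he p) := by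
  have h1 : sn e he p = Smap e he (pr e he p) := p.2
  rw [h1, Smap_apply]

/-- coordinate functionals of the renormed space -/
noncomputable def dd (i : ℕ) : RX e he →L[ℝ] ℝ :=
  LinearMap.mkContinuous
    { toFun := fun p => e i (pr e he p)
      map_add' := fun p q => by
        show e i (pr e he p + pr e he q) = _
        rw [map_add]
      map_smul' := fun c p => by
        show e i (c • pr e he p) = _
        rw [map_smul]; rfl } 1 (fun p => by
      rw [one_mul]
      exact (he i _).trans (norm_pr_le e he p))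

lemma dd_apply (i : ℕ) (p : RX e he) : dd e he i p = e i (pr e he p) := rfl

lemma norm_dd_le (i : ℕ) : ‖dd e he i‖ ≤ 1 := LinearMap.mkContinuous_norm_le _ zero_le_one _

/-- the identity map onto the renormed space -/
noncomputable def JX : E →L[ℝ] RX e he :=
  LinearMap.mkContinuous
    { toFun := fun x => (⟨WithLp.toLp 2 (x, Smap e he x), rfl⟩ : Gr e he)
      map_add' := fun x y => by
        refine Subtype.ext ?_
        show WithLp.toLp 2 (x + y, Smap e he (x + y)) =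
          WithLp.toLp 2 (x, Smap e he x) + WithLp.toLp 2 (y, Smap e he y)
        rw [map_add]; rfl
      map_smul' := fun c x => by
        refine Subtype.ext ?_
        show WithLp.toLp 2 (c • x, Smap e he (c • x)) = c • WithLp.toLp 2 (x, Smap e he x)
        rw [map_smul]; rfl } 2 (fun x => by
      refine le_of_sq_le_sq ?_ (by positivity)
      have h1 := WithLp.prod_norm_sq_eq_of_L2 (WithLp.toLp 2 (x, Smap e he x) : WithLp 2 (E × H2))
      refine (le_of_eq h1).trans ?_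
      show ‖x‖ ^ 2 + ‖Smap e he x‖ ^ 2 ≤ (2 * ‖x‖) ^ 2
      have h2 := norm_Smap_le e he x
      have h3 : ‖Smap e he x‖ ^ 2 ≤ ‖x‖ ^ 2 := pow_le_pow_left₀ (norm_nonneg _) h2 2
      nlinarith [norm_nonneg x])

lemma pr_JX (x : E) : pr e he (JX e he x) = x := rfl

lemma norm_JX_le : ‖JX e he‖ ≤ 2 := LinearMap.mkContinuous_norm_le _ (by norm_num) _

lemma dd_JX (i : ℕ) (x : E) : dd e he i (JX e he x) = e i x := rfl

lemma convexity (i : ℕ) (p q : RX e he) :
    ‖p + q‖ ^ 2 + wt i ^ 2 * (dd e he i p - dd e he i q) ^ 2 ≤ 2 * (‖p‖ ^ 2 + ‖q‖ ^ 2) := by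
  have h1 := norm_sq e he p
  have h2 := norm_sq e he q
  have h3 := norm_sq e he (p + q)
  have h4 : pr e he (p + q) = pr e he p + pr e he q := rfl
  have h5 : sn e he (p + q) = sn e he p + sn e he q := rfl
  rw [h4, h5] at h3
  have h6 : ‖pr e he p + pr e he q‖ ^ 2 ≤ 2 * (‖pr e he p‖ ^ 2 + ‖pr e he q‖ ^ 2) := by
    have h7 := norm_add_le (pr e he p) (pr e he q)
    have h8 : ‖pr e he p + pr e he q‖ ^ 2 ≤ (‖pr e he p‖ + ‖pr e he q‖) ^ 2 :=
      pow_le_pow_left₀ (norm_nonneg _) h7 2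
    nlinarith [sq_nonneg (‖pr e he p‖ - ‖pr e he q‖)]
  have h9 := parallelogram_law_with_norm ℝ (sn e he p) (sn e he q)
  have h10 : |wt i * (dd e he i p - dd e he i q)| ≤ ‖sn e he p - sn e he q‖ := by
    have h11 := lp.norm_apply_le_norm (p := 2) (by norm_num) (sn e he p - sn e he q) i
    have h12 : (sn e he p - sn e he q : H2) i = wt i * (dd e he i p - dd e he i q) := by
      rw [lp.coeFn_sub, Pi.sub_apply, sn_apply, sn_apply, dd_apply, dd_apply]; ring
    rw [h12] at h11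
    exact h11
  have h13 : (wt i * (dd e he i p - dd e he i q)) ^ 2 ≤ ‖sn e he p - sn e he q‖ ^ 2 := by
    rw [← sq_abs]
    exact pow_le_pow_left₀ (abs_nonneg _) h10 2
  rw [mul_pow] at h13
  rw [h3, h1, h2]
  nlinarith

lemma strict (i : ℕ) (ξ η : (RX e he →L[ℝ] ℝ) →ₗ[ℝ] ℝ) (hξ : ∀ g, |ξ g| ≤ ‖g‖)
    (hη : ∀ g, |η g| ≤ ‖g‖) (x' : RX e he →L[ℝ] ℝ) (hx' : ‖x'‖ = 1) (h1 : ξ x' = 1)
    (h2 : η x' = 1) : ξ (dd e he i) = η (dd e he i) := by
  by_contra hne
  set δ : ℝ := |ξ (dd e he i) - η (dd e he i)| with hδ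
  have hδ0 : 0 < δ := abs_pos.mpr (sub_ne_zero.mpr hne)
  have hw := wt_pos i
  set ε : ℝ := min (min (δ / 4) 1) (wt i ^ 2 * δ ^ 2 / 64) with hε
  have hε0 : 0 < ε := by
    refine lt_min (lt_min (by positivity) one_pos) (by positivity)
  have hε1 : ε ≤ δ / 4 := (min_le_left _ _).trans (min_le_left _ _)
  have hε2 : ε ≤ 1 := (min_le_left _ _).trans (min_le_right _ _)
  have hε3 : ε ≤ wt i ^ 2 * δ ^ 2 / 64 := min_le_right _ _
  obtain ⟨p, hp1, hp2, hp3⟩ := goldstine ξ hξ x' (dd e he i) ε hε0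
  obtain ⟨q, hq1, hq2, hq3⟩ := goldstine η hη x' (dd e he i) ε hε0
  rw [h1] at hp2
  rw [h2] at hq2
  have h3 : 2 - 2 * ε ≤ ‖p + q‖ := by
    have h4 := x'.le_opNorm (p + q)
    rw [hx', one_mul, map_add, Real.norm_eq_abs] at h4
    have h5 := le_abs_self (x' p + x' q)
    have h6 := (abs_le.mp hp2).1
    have h7 := (abs_le.mp hq2).1
    linarith
  have h4 := convexity e he i p q
  have h5 : (2 - 2 * ε) ^ 2 ≤ ‖p + q‖ ^ 2 := pow_le_pow_left₀ (by linarith) h3 2
  have h6 : ‖p‖ ^ 2 ≤ 1 := pow_le_one₀ (norm_nonneg _) hp1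
  have h7 : ‖q‖ ^ 2 ≤ 1 := pow_le_one₀ (norm_nonneg _) hq1
  have h8 : wt i ^ 2 * (dd e he i p - dd e he i q) ^ 2 ≤ 8 * ε := by nlinarith
  have h9 : δ / 2 ≤ |dd e he i p - dd e he i q| := by
    have h10 : δ ≤ |dd e he i p - ξ (dd e he i)| + |dd e he i p - dd e he i q| +
        |dd e he i q - η (dd e he i)| := by
      rw [hδ]
      have : ξ (dd e he i) - η (dd e he i) = -(dd e he i p - ξ (dd e he i)) +
        (dd e he i p - dd e he i q) + (dd e he i q - η (dd e he i)) := by ring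
      rw [this]
      refine (abs_add_le _ _).trans ?_
      refine add_le_add ((abs_add_le _ _).trans ?_) le_rfl
      rw [abs_neg]
    linarith
  have h10 : (δ / 2) ^ 2 ≤ (dd e he i p - dd e he i q) ^ 2 := by
    rw [← sq_abs (dd e he i p - dd e he i q)]
    exact pow_le_pow_left₀ (by positivity) h9 2
  have h11 : wt i ^ 2 * (δ / 2) ^ 2 ≤ wt i ^ 2 * (dd e he i p - dd e he i q) ^ 2 :=
    mul_le_mul_of_nonneg_left h10 (by positivity)
  have h12 : 0 < wt i ^ 2 * δ ^ 2 := by positivity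
  nlinarith

end Graph

end Pool.Agent.H86R3.Nuc
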