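import Pool.Agent.Helper362.ApC
import Pool.Agent.H86R3.NucB
import Pool.Agent.H86R3.NucX

set_option autoImplicit false
open Filter Topology
open scoped ENNReal

namespace Pool.Agent.H86R3.Nuc

open Pool.Agent.Helper362.ApNoBap

variable (D : Data)

/-- the coordinate functionals -/
noncomputable def ev (i : ℕ) : D.S →L[ℝ] ℝ :=
  LinearMap.mkContinuous
    { toFun := fun x => ((x : D.S) : Y) i
      map_add' := fun x y => rfl
      map_smul' := fun c x => rfl } 1 (fun x => by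
      rw [one_mul]
      exact abs_le_norm (x : Y) i)

lemma ev_apply (i : ℕ) (x : D.S) : ev D i x = (x : Y) i := rfl

lemma ev_le (i : ℕ) (x : D.S) : |ev D i x| ≤ ‖x‖ := abs_le_norm (x : Y) i

/-- the renormed space -/
abbrev XX : Type := RX (ev D) (ev_le D)

lemma flat (y : D.S) (hy : ‖y‖ = 1) : ∃ F : Finset ℕ, ∀ w : D.S, (∀ i ∈ F, ev D i w = 0) →
    ∃ t : ℝ, 0 < t ∧ ‖y + t • w‖ ≤ 1 ∧ ‖y - t • w‖ ≤ 1 := by
  have h1 := (Metric.tendsto_nhds.mp (D.S_c0 y y.2)) (1 / 2) (by norm_num)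
  rw [eventually_cofinite] at h1
  refine ⟨h1.toFinset, fun w hw => ?_⟩
  have hw0 : 0 < 2 * (‖w‖ + 1) := by positivity
  refine ⟨1 / (2 * (‖w‖ + 1)), by positivity, ?_, ?_⟩
  · have key : ∀ i, |((y + (1 / (2 * (‖w‖ + 1))) • w : D.S) : Y) i| ≤ 1 := by
      intro i
      have e1 : ((y + (1 / (2 * (‖w‖ + 1))) • w : D.S) : Y) i =
          (y : Y) i + (1 / (2 * (‖w‖ + 1))) * (w : Y) i := rfl
      rw [e1]
      by_cases hi : i ∈ h1.toFinset
      · have h2 : (w : Y) i = 0 := hw i hi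
        rw [h2, mul_zero, add_zero]
        have := abs_le_norm (y : Y) i
        have h3 : ‖(y : Y)‖ = 1 := hy
        linarith
      · rw [Set.Finite.mem_toFinset] at hi
        have h2 : dist ((y : Y) i) 0 < 1 / 2 := by
          by_contra hc
          exact hi hc
        rw [Real.dist_eq, sub_zero] at h2
        have h3 : |(1 / (2 * (‖w‖ + 1))) * (w : Y) i| ≤ 1 / 2 := by
          rw [abs_mul, abs_of_pos (by positivity)]
          have h4 : |(w : Y) i| ≤ ‖w‖ := abs_le_norm (w : Y) i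
          rw [one_div, inv_mul_le_iff₀ hw0]
          linarith
        refine (abs_add_le _ _).trans ?_
        linarith
    exact norm_le _ 1 zero_le_one key
  · have key : ∀ i, |((y - (1 / (2 * (‖w‖ + 1))) • w : D.S) : Y) i| ≤ 1 := by
      intro i
      have e1 : ((y - (1 / (2 * (‖w‖ + 1))) • w : D.S) : Y) i =
          (y : Y) i - (1 / (2 * (‖w‖ + 1))) * (w : Y) i := rfl
      rw [e1]
      by_cases hi : i ∈ h1.toFinset
      · have h2 : (w : Y) i = 0 := hw i hi
        rw [h2, mul_zero, sub_zero]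
        have := abs_le_norm (y : Y) i
        have h3 : ‖(y : Y)‖ = 1 := hy
        linarith
      · rw [Set.Finite.mem_toFinset] at hi
        have h2 : dist ((y : Y) i) 0 < 1 / 2 := by
          by_contra hc
          exact hi hc
        rw [Real.dist_eq, sub_zero] at h2
        have h3 : |(1 / (2 * (‖w‖ + 1))) * (w : Y) i| ≤ 1 / 2 := by
          rw [abs_mul, abs_of_pos (by positivity)]
          have h4 : |(w : Y) i| ≤ ‖w‖ := abs_le_norm (w : Y) i
          rw [one_div, inv_mul_le_iff₀ hw0]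
          linarith
        refine (abs_sub _ _).trans ?_
        linarith
    exact norm_le _ 1 zero_le_one key

section Form

variable (B : D.S →ₗ[ℝ] (XX D →L[ℝ] ℝ) →ₗ[ℝ] ℝ) (hB : ∀ y x', |B y x'| ≤ ‖y‖ * ‖x'‖)

/-- coordinates of the operator -/
noncomputable def Bt : D.S →L[ℝ] Y :=
  LinearMap.mkContinuous
    { toFun := fun y => ⟨fun i => B y (dd (ev D) (ev_le D) i), memY _ ‖y‖ (fun i => by
        refine (hB _ _).trans ?_
        have := norm_dd_le (ev D) (ev_le D) i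
        calc ‖y‖ * ‖dd (ev D) (ev_le D) i‖ ≤ ‖y‖ * 1 :=
              mul_le_mul_of_nonneg_left this (norm_nonneg _)
          _ = ‖y‖ := mul_one _)⟩
      map_add' := fun x y => by
        ext i
        show B (x + y) (dd (ev D) (ev_le D) i) = _
        rw [map_add]; rfl
      map_smul' := fun c x => by
        ext i
        show B (c • x) (dd (ev D) (ev_le D) i) = _
        rw [map_smul]; rfl } 1 (fun y => by
      rw [one_mul]
      refine norm_le _ _ (norm_nonneg _) (fun i => ?_)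
      refine (hB _ _).trans ?_
      have := norm_dd_le (ev D) (ev_le D) i
      calc ‖y‖ * ‖dd (ev D) (ev_le D) i‖ ≤ ‖y‖ * 1 :=
            mul_le_mul_of_nonneg_left this (norm_nonneg _)
        _ = ‖y‖ := mul_one _)

lemma Bt_apply (y : D.S) (i : ℕ) : Bt D B hB y i = B y (dd (ev D) (ev_le D) i) := rfl

lemma norm_Bt_le : ‖Bt D B hB‖ ≤ 1 := LinearMap.mkContinuous_norm_le _ zero_le_one _

include hB in
lemma kills (y : D.S) (x' : XX D →L[ℝ] ℝ) (hy : ‖y‖ = 1) (hx' : ‖x'‖ = 1) (h1 : B y x' = 1) :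
    ∃ F : Finset ℕ, ∀ w : D.S, (∀ i ∈ F, ev D i w = 0) →
      ∀ i, B w (dd (ev D) (ev_le D) i) = 0 := by
  obtain ⟨F, hF⟩ := flat D y hy
  refine ⟨F, fun w hw i => ?_⟩
  obtain ⟨t, ht, ht1, ht2⟩ := hF w hw
  have b1 : ∀ g, |B (y + t • w) g| ≤ ‖g‖ := fun g => (hB _ g).trans (by
    calc _ ≤ 1 * ‖g‖ := mul_le_mul_of_nonneg_right ht1 (norm_nonneg _)
      _ = _ := one_mul _)
  have b2 : ∀ g, |B (y - t • w) g| ≤ ‖g‖ := fun g => (hB _ g).trans (by
    calc _ ≤ 1 * ‖g‖ := mul_le_mul_of_nonneg_right ht2 (norm_nonneg _)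
      _ = _ := one_mul _)
  have e1 : B (y + t • w) x' + B (y - t • w) x' = 2 := by
    rw [map_add, map_sub, LinearMap.add_apply, LinearMap.sub_apply, h1]; ring
  have u1 := (abs_le.mp (b1 x')).2
  have u2 := (abs_le.mp (b2 x')).2
  rw [hx'] at u1 u2
  have h3 := strict (ev D) (ev_le D) i (B (y + t • w)) (B (y - t • w)) b1 b2 x' hx'
    (by linarith) (by linarith)
  rw [map_add, map_sub, LinearMap.add_apply, LinearMap.sub_apply, map_smul,
    LinearMap.smul_apply, smul_eq_mul] at h3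
  have h4 : t * B w (dd (ev D) (ev_le D) i) = 0 := by linarith
  exact (mul_eq_zero.mp h4).resolve_left ht.ne'

lemma fin_range (F : Finset ℕ) (hF : ∀ w : D.S, (∀ i ∈ F, ev D i w = 0) →
      ∀ i, B w (dd (ev D) (ev_le D) i) = 0) :
    FiniteDimensional ℝ (LinearMap.range (Bt D B hB : D.S →ₗ[ℝ] Y)) := by
  let π : D.S →ₗ[ℝ] (F → ℝ) := LinearMap.pi (fun i => ((ev D i : D.S →L[ℝ] ℝ) : D.S →ₗ[ℝ] ℝ))
  have hker : LinearMap.ker π ≤ LinearMap.ker (Bt D B hB : D.S →ₗ[ℝ] Y) := by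
    intro w hw
    rw [LinearMap.mem_ker] at hw ⊢
    have h1 : ∀ i ∈ F, ev D i w = 0 := fun i hi => congrFun hw ⟨i, hi⟩
    ext i
    exact hF w h1 i
  have h2 : FiniteDimensional ℝ (D.S ⧸ LinearMap.ker π) :=
    FiniteDimensional.of_injective (π.quotKerEquivRange.toLinearMap)
      π.quotKerEquivRange.injective
  have h3 : LinearMap.range (Bt D B hB : D.S →ₗ[ℝ] Y) =
      LinearMap.range ((LinearMap.ker π).liftQ (Bt D B hB : D.S →ₗ[ℝ] Y) hker) := by
    rw [Submodule.range_liftQ]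
  rw [h3]
  infer_instance

lemma Phi_Bt (l h : ℕ) (y : D.S) : D.Phi l h (Bt D B hB y) = 0 := by
  let ξ : (XX D →L[ℝ] ℝ) →L[ℝ] ℝ := (B y).mkContinuous ‖y‖ (fun x' => hB y x')
  let a : ℕ → (XX D →L[ℝ] ℝ) := fun g =>
    (D.A g h / D.w l g) • dd (ev D) (ev_le D) (D.e.symm (l, 0, g))
  have ha : Summable a := by
    refine Summable.of_norm_bounded (D.hr.div_const (D.eps l)) (fun g => ?_)
    show ‖(D.A g h / D.w l g) • dd (ev D) (ev_le D) (D.e.symm (l, 0, g))‖ ≤ _
    rw [norm_smul, Real.norm_eq_abs, abs_div, abs_of_pos (D.w_pos l g)]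
    have h1 := norm_dd_le (ev D) (ev_le D) (D.e.symm (l, 0, g))
    have h2 : |D.A g h| / D.w l g ≤ D.r g / D.eps l :=
      div_le_div₀ (D.r_nonneg g) (D.hA g h) (D.heps l) (D.hw l g)
    calc _ ≤ |D.A g h| / D.w l g * 1 :=
          mul_le_mul_of_nonneg_left h1 (div_nonneg (abs_nonneg _) (D.w_pos l g).le)
      _ = |D.A g h| / D.w l g := mul_one _
      _ ≤ _ := h2
  have h0 : ∑' g, a g = 0 := by
    refine ContinuousLinearMap.ext (fun p => ?_)
    have h1 : HasSum (fun g => a g p) ((∑' g, a g) p) :=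
      ha.hasSum.mapL (ContinuousLinearMap.apply ℝ ℝ p)
    have h2 := D.Phi_zero l h ((pr (ev D) (ev_le D) p : D.S) : Y)
      (pr (ev D) (ev_le D) p : D.S).2
    rw [Data.Phi_apply] at h2
    have h3 : ∀ g, a g p = D.phi l g ((pr (ev D) (ev_le D) p : D.S) : Y) * D.A g h := by
      intro g
      show (D.A g h / D.w l g) * ((pr (ev D) (ev_le D) p : D.S) : Y) (D.e.symm (l, 0, g)) = _
      unfold Data.phi
      ring
    simp_rw [h3] at h1
    rw [← h1.tsum_eq, h2]
    rfl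
  have h4 : HasSum (fun g => ξ (a g)) (ξ (∑' g, a g)) := ha.hasSum.mapL ξ
  rw [h0, map_zero] at h4
  rw [Data.Phi_apply]
  have h5 : ∀ g, ξ (a g) = D.phi l g (Bt D B hB y) * D.A g h := by
    intro g
    show B y ((D.A g h / D.w l g) • dd (ev D) (ev_le D) (D.e.symm (l, 0, g))) = _
    rw [map_smul, smul_eq_mul]
    unfold Data.phi
    rw [Bt_apply]
    ring
  simp_rw [h5] at h4
  exact h4.tsum_eq

end Form

end Pool.Agent.H86R3.Nuc
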