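import Pool.Agent.Helper362.ApC
import Pool.Agent.Helper362.ApF

/-!
An instance of the matrix data with the parameters needed for the main estimate.
-/

set_option autoImplicit false
open scoped Topology ENNReal
open Filter

namespace Pool.Agent.H86R3.Nuc

open Pool.Agent.Helper362.ApNoBap

noncomputable def A' (m n : ℕ) : ℝ := A (eG.symm m) (eG.symm n)

noncomputable def r' (m : ℕ) : ℝ := r (eG.symm m)

lemma summable_r' : Summable r' := (Equiv.summable_iff eG.symm).mpr summable_r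

lemma r'_nonneg (g : ℕ) : 0 ≤ r' g := (abs_nonneg _).trans (A_bound (eG.symm g) (eG.symm g))

noncomputable def epsL (l : ℕ) : ℝ := 1 / (4 * (l + 1) * (∑' g, r' g + 1))

lemma tsum_nonneg' : 0 ≤ ∑' g, r' g := tsum_nonneg r'_nonneg

lemma epsL_pos (l : ℕ) : 0 < epsL l := by
  unfold epsL
  have := tsum_nonneg'
  positivity

lemma epsL_le (l : ℕ) : epsL l ≤ 1 := by
  unfold epsL
  have := tsum_nonneg'
  have hl : (0 : ℝ) ≤ l := Nat.cast_nonneg l
  rw [div_le_one (by positivity)]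
  nlinarith [mul_nonneg hl this]

lemma exists_M (l : ℕ) : ∃ M : ℕ, ((l + 1 : ℝ) / epsL l + 1) * (∑' g, r' (g + M)) ≤ 1 / 4 := by
  have ht : Tendsto (fun M : ℕ => ((l + 1 : ℝ) / epsL l + 1) * (∑' g, r' (g + M))) atTop (𝓝 0) := by
    simpa using (tendsto_sum_nat_add r').const_mul ((l + 1 : ℝ) / epsL l + 1)
  obtain ⟨M, hM⟩ := eventually_atTop.mp (ht.eventually_le_const (show (0 : ℝ) < 1 / 4 by norm_num))
  exact ⟨M, hM M le_rfl⟩

noncomputable def ML (l : ℕ) : ℕ := Classical.choose (exists_M l)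

noncomputable def dat : Data where
  A := A'
  r := r'
  e := (Denumerable.eqv (ℕ × ℕ × ℕ)).symm
  w := fun l g => if g < ML l then 1 else epsL l
  eps := epsL
  hr := summable_r'
  hA := fun g h => A_bound _ _
  hA0 := fun g => (tendsto_A (eG.symm g)).comp eG.symm.injective.tendsto_cofinite
  hsq := fun g h => by
    have h1 := (Equiv.hasSum_iff eG.symm).mpr (hasSum_sq (eG.symm g) (eG.symm h))
    exact h1.tsum_eq
  htr := by
    have h1 := (Equiv.hasSum_iff eG.symm).mpr hasSum_trace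
    exact h1.tsum_eq
  heps := epsL_pos
  heps1 := epsL_le
  hw := fun l g => by split_ifs <;> [exact epsL_le l; exact le_rfl]
  hw1 := fun l g => by split_ifs <;> [exact le_rfl; exact epsL_le l]

theorem exists_data : ∃ D : Data, ∀ l : ℕ, ∃ M : ℕ, (∀ g, g < M → D.w l g = 1) ∧
    ((l + 1 : ℝ) / D.eps l + 1) * D.tail M ≤ 1 / 4 ∧
    (l + 1 : ℝ) * D.eps l * ∑' g, D.r g ≤ 1 / 4 := by
  refine ⟨dat, fun l => ⟨ML l, fun g hg => if_pos hg, Classical.choose_spec (exists_M l), ?_⟩⟩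
  show (l + 1 : ℝ) * epsL l * ∑' g, r' g ≤ 1 / 4
  have h0 := tsum_nonneg'
  have hl : (0 : ℝ) ≤ l := Nat.cast_nonneg l
  have h1 : (l + 1 : ℝ) * epsL l * ∑' g, r' g = (∑' g, r' g) / (4 * (∑' g, r' g + 1)) := by
    unfold epsL
    have h2 : ∑' g, r' g + 1 ≠ 0 := by linarith
    have h3 : (l + 1 : ℝ) ≠ 0 := by linarith
    field_simp
  rw [h1, div_le_div_iff₀ (by positivity) (by norm_num)]
  linarith

end Pool.Agent.H86R3.Nuc
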