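import Mathlib

/-!
Nuclear operators between real Banach spaces, the nuclear norm, and attainment of the nuclear norm.
-/

set_option autoImplicit false

namespace Pool.Agent.H86R3.Nuc

section

variable {X Y : Type} [NormedAddCommGroup X] [NormedSpace ℝ X]
  [NormedAddCommGroup Y] [NormedSpace ℝ Y]

/-- The sequences `f` of functionals on `X` and `y` of vectors of `Y` are a nuclear representation
of the bounded operator `T`. -/
def IsRep (T : X →L[ℝ] Y) (f : ℕ → X →L[ℝ] ℝ) (y : ℕ → Y) : Prop :=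
  Summable (fun n => ‖f n‖ * ‖y n‖) ∧ ∀ x, HasSum (fun n => f n x • y n) (T x)

/-- `T` is nuclear. -/
def IsNuclear (T : X →L[ℝ] Y) : Prop := ∃ f y, IsRep T f y

/-- The nuclear norm: the infimum of `∑ ‖f n‖ * ‖y n‖` over all nuclear representations. -/
noncomputable def nuclearNorm (T : X →L[ℝ] Y) : ℝ :=
  sInf {r : ℝ | ∃ f y, IsRep T f y ∧ r = ∑' n, ‖f n‖ * ‖y n‖}

/-- `T` is nuclear and attains its nuclear norm. -/
def AttainsNuclearNorm (T : X →L[ℝ] Y) : Prop :=
  ∃ f y, IsRep T f y ∧ nuclearNorm T = ∑' n, ‖f n‖ * ‖y n‖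

end

end Pool.Agent.H86R3.Nuc
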