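import Pool.Agent.Helper362.ApC

set_option autoImplicit false
open Filter Topology
open scoped ENNReal

namespace Pool.Agent.H86R3.Nuc

open Pool.Agent.Helper362.ApNoBap

variable (D : Data)

lemma norm_psum_le' (l k : ℕ) (x : Y) (hx : ∀ h, D.Phi l h x = 0) :
    ‖∑ g ∈ Finset.range k, D.phi l g x • D.row g‖ ≤ ‖x‖ / D.eps l * D.tail k := by
  have h0 : 0 ≤ ‖x‖ / D.eps l := div_nonneg (norm_nonneg _) (D.heps l).le
  refine norm_le _ _ (mul_nonneg h0 (D.tail_nonneg k)) (fun h => ?_)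
  have h1 : (∑ g ∈ Finset.range k, D.phi l g x • D.row g : Y) h =
      ∑ g ∈ Finset.range k, D.phi l g x * D.A g h := by
    rw [lp.coeFn_sum, Finset.sum_apply]
    refine Finset.sum_congr rfl (fun g _ => ?_)
    rw [lp.coeFn_smul, Pi.smul_apply, smul_eq_mul, Data.row_apply]
  have h2 := (D.summable_phi l h x).sum_add_tsum_nat_add k
  have h3 := hx h
  rw [Data.Phi_apply] at h3
  rw [h3] at h2
  have h4 : ∑ g ∈ Finset.range k, D.phi l g x * D.A g h =
      - ∑' g, D.phi l (g + k) x * D.A (g + k) h := by linarith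
  rw [h1, h4, abs_neg]
  have h5 : ∀ g, ‖D.phi l (g + k) x * D.A (g + k) h‖ ≤ (‖x‖ / D.eps l) * D.r (g + k) := fun g => by
    rw [Real.norm_eq_abs, abs_mul]
    exact mul_le_mul (D.abs_phi_le l _ x) (D.hA _ h) (abs_nonneg _) h0
  have h6 := tsum_of_norm_bounded (((D.summable_tail k).mul_left (‖x‖ / D.eps l)).hasSum) h5
  rw [tsum_mul_left] at h6
  exact h6

lemma norm_comb_le' (l k : ℕ) (z : Y) (hz : ∀ h, D.Phi l h z = 0) :
    ‖∑ g ∈ Finset.range k, D.phi l g z • D.v l k g‖ ≤ ‖z‖ / D.eps l * D.tail k := by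
  have h1 : ((∑ g ∈ Finset.range k, D.phi l g z • D.v l k g : D.S) : Y) =
      D.J l k (∑ g ∈ Finset.range k, D.phi l g z • D.row g) := by
    rw [map_sum, AddSubmonoidClass.coe_finsetSum]
    refine Finset.sum_congr rfl (fun g hg => ?_)
    rw [Submodule.coe_smul, map_smul, D.v_coe l k g (Finset.mem_range.mp hg)]
  have h2 : ‖∑ g ∈ Finset.range k, D.phi l g z • D.v l k g‖ =
      ‖((∑ g ∈ Finset.range k, D.phi l g z • D.v l k g : D.S) : Y)‖ := rfl
  rw [h2, h1]
  exact (D.norm_J_le l k _).trans (norm_psum_le' D l k z hz)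

/-- trace like sums -/
noncomputable def Th (l : ℕ) (T : D.S →L[ℝ] Y) (k : ℕ) : ℝ :=
  ∑ g ∈ Finset.range k, D.phi l g (T (D.v l k g))

lemma Th_bound (l : ℕ) (T : D.S →L[ℝ] Y)
    (hT : FiniteDimensional ℝ (LinearMap.range (T : D.S →ₗ[ℝ] Y)))
    (hP : ∀ h y, D.Phi l h (T y) = 0) :
    ∃ c : ℝ, ∀ k, |Th D l T k| ≤ c * D.tail k := by
  set Rg := LinearMap.range (T : D.S →ₗ[ℝ] Y) with hRg
  let b := Module.finBasis ℝ Rg
  let T' : D.S →L[ℝ] Rg := T.codRestrict Rg (fun x => ⟨x, rfl⟩)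
  let f : Fin (Module.finrank ℝ Rg) → (D.S →L[ℝ] ℝ) := fun j =>
    (LinearMap.toContinuousLinearMap (b.coord j)).comp T'
  have hf : ∀ x, T x = ∑ j, f j x • ((b j : Rg) : Y) := by
    intro x
    have h1 := b.sum_repr (T' x)
    have h2 : ((T' x : Rg) : Y) = T x := rfl
    rw [← h2, ← h1]
    rw [AddSubmonoidClass.coe_finsetSum]
    exact Finset.sum_congr rfl (fun j _ => rfl)
  have hb : ∀ j h, D.Phi l h ((b j : Rg) : Y) = 0 := by
    intro j h
    obtain ⟨y, hy⟩ := (b j : Rg).2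
    have := hP h y
    rw [← hy]
    exact this
  refine ⟨∑ j, ‖f j‖ * (‖((b j : Rg) : Y)‖ / D.eps l), fun k => ?_⟩
  have h3 : Th D l T k =
      ∑ j, f j (∑ g ∈ Finset.range k, D.phi l g ((b j : Rg) : Y) • D.v l k g) := by
    unfold Th
    have : ∀ g ∈ Finset.range k, D.phi l g (T (D.v l k g)) =
        ∑ j, D.phi l g ((b j : Rg) : Y) * f j (D.v l k g) := by
      intro g _
      rw [hf, Data.phi_sum]
      refine Finset.sum_congr rfl (fun j _ => ?_)
      rw [Data.phi_smul, mul_comm]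
    rw [Finset.sum_congr rfl this, Finset.sum_comm]
    refine Finset.sum_congr rfl (fun j _ => ?_)
    rw [map_sum]
    refine Finset.sum_congr rfl (fun g _ => ?_)
    rw [map_smul, smul_eq_mul]
  rw [h3, Finset.sum_mul]
  refine (Finset.abs_sum_le_sum_abs _ _).trans (Finset.sum_le_sum (fun j _ => ?_))
  have h4 := (f j).le_opNorm (∑ g ∈ Finset.range k, D.phi l g ((b j : Rg) : Y) • D.v l k g)
  rw [Real.norm_eq_abs] at h4
  refine h4.trans ?_
  rw [mul_assoc]
  exact mul_le_mul_of_nonneg_left (norm_comb_le' D l k _ (hb j)) (norm_nonneg (f j))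

/-- The main estimate. -/
theorem main_est (l M : ℕ) (hM1 : ∀ g, g < M → D.w l g = 1) (T : D.S →L[ℝ] Y) (hTn : ‖T‖ ≤ 1)
    (hT : FiniteDimensional ℝ (LinearMap.range (T : D.S →ₗ[ℝ] Y)))
    (hP : ∀ h y, D.Phi l h (T y) = 0) :
    |∑ g ∈ Finset.range M, D.phi l g (T (D.v l M g))| ≤
      D.eps l * ∑' g, D.r g + D.tail M / D.eps l := by
  obtain ⟨c1, hc1⟩ := Th_bound D l T hT hP
  have he := D.heps l
  have key : ∀ k, M ≤ k → |∑ g ∈ Finset.range M, D.phi l g (T (D.v l M g))| ≤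
      c1 * D.tail k + (D.eps l * ∑' g, D.r g + D.tail M / D.eps l) := by
    intro k hk
    have e1 : ∑ g ∈ Finset.range M, D.phi l g (T (D.v l M g)) = Th D l T k -
        (∑ g ∈ Finset.range M, D.phi l g (T (D.v l k g - D.v l M g)) +
          ∑ g ∈ Finset.Ico M k, D.phi l g (T (D.v l k g))) := by
      unfold Th
      rw [← Finset.sum_range_add_sum_Ico _ hk]
      have : ∑ g ∈ Finset.range M, D.phi l g (T (D.v l k g - D.v l M g)) =
          ∑ g ∈ Finset.range M, D.phi l g (T (D.v l k g)) -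
          ∑ g ∈ Finset.range M, D.phi l g (T (D.v l M g)) := by
        rw [← Finset.sum_sub_distrib]
        refine Finset.sum_congr rfl (fun g _ => ?_)
        rw [map_sub, Data.phi_sub]
      rw [this]; ring
    rw [e1]
    have b0 := hc1 k
    have b1 : |∑ g ∈ Finset.range M, D.phi l g (T (D.v l k g - D.v l M g))| ≤
        D.eps l * ∑' g, D.r g := by
      refine (Finset.abs_sum_le_sum_abs _ _).trans ?_
      have h1 : ∀ g ∈ Finset.range M, |D.phi l g (T (D.v l k g - D.v l M g))| ≤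
          D.eps l * D.r g := by
        intro g hg
        have hgM := Finset.mem_range.mp hg
        have h2 := D.abs_phi_le_w l g (T (D.v l k g - D.v l M g))
        rw [hM1 g hgM, div_one] at h2
        have h3 : ‖T (D.v l k g - D.v l M g)‖ ≤ 1 * ‖D.v l k g - D.v l M g‖ :=
          T.le_of_opNorm_le hTn _
        have h4 : ‖D.v l k g - D.v l M g‖ ≤ D.eps l * D.r g := by
          have h5 : ‖D.v l k g - D.v l M g‖ = ‖((D.v l k g - D.v l M g : D.S) : Y)‖ := rfl
          rw [h5, Submodule.coe_sub, D.v_coe l k g (by omega), D.v_coe l M g hgM]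
          exact (D.norm_J_sub_le l k M _).trans
            (mul_le_mul_of_nonneg_left (D.norm_row_le g) he.le)
        linarith
      refine (Finset.sum_le_sum h1).trans ?_
      rw [← Finset.mul_sum]
      exact mul_le_mul_of_nonneg_left (D.hr.sum_le_tsum _ (fun g _ => D.r_nonneg g)) he.le
    have b2 : |∑ g ∈ Finset.Ico M k, D.phi l g (T (D.v l k g))| ≤ D.tail M / D.eps l := by
      refine (Finset.abs_sum_le_sum_abs _ _).trans ?_
      have h1 : ∀ g ∈ Finset.Ico M k, |D.phi l g (T (D.v l k g))| ≤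
          (D.eps l)⁻¹ * D.r g := by
        intro g hg
        have hgk := (Finset.mem_Ico.mp hg).2
        have h2 := D.abs_phi_le l g (T (D.v l k g))
        have h3 : ‖T (D.v l k g)‖ ≤ 1 * ‖D.v l k g‖ := T.le_of_opNorm_le hTn _
        have h4 : ‖D.v l k g‖ ≤ D.r g := by
          have h5 : ‖D.v l k g‖ = ‖((D.v l k g : D.S) : Y)‖ := rfl
          rw [h5, D.v_coe l k g hgk]
          exact (D.norm_J_le l k _).trans (D.norm_row_le g)
        have h6 : ‖T (D.v l k g)‖ ≤ D.r g := by linarith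
        calc _ ≤ _ := h2
          _ ≤ D.r g / D.eps l := div_le_div_of_nonneg_right h6 he.le
          _ = _ := by ring
      refine (Finset.sum_le_sum h1).trans ?_
      rw [← Finset.mul_sum]
      have h7 := mul_le_mul_of_nonneg_left (D.sum_Ico_le M k) (inv_nonneg.mpr he.le)
      refine h7.trans (le_of_eq ?_)
      ring
    have b3 := abs_add_le (∑ g ∈ Finset.range M, D.phi l g (T (D.v l k g - D.v l M g)))
      (∑ g ∈ Finset.Ico M k, D.phi l g (T (D.v l k g)))
    have b4 := abs_sub (Th D l T k)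
      (∑ g ∈ Finset.range M, D.phi l g (T (D.v l k g - D.v l M g)) +
          ∑ g ∈ Finset.Ico M k, D.phi l g (T (D.v l k g)))
    linarith
  have hlim : Tendsto (fun k => c1 * D.tail k + (D.eps l * ∑' g, D.r g + D.tail M / D.eps l))
      atTop (𝓝 (c1 * 0 + (D.eps l * ∑' g, D.r g + D.tail M / D.eps l))) :=
    (D.tendsto_tail.const_mul c1).add_const _
  rw [mul_zero, zero_add] at hlim
  exact ge_of_tendsto hlim (eventually_atTop.mpr ⟨M, key⟩)

end Pool.Agent.H86R3.Nuc
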