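import Pool.Agent.Helper362.ApC
import Pool.Agent.H86R3.NucA

set_option autoImplicit false
open Filter Topology
open scoped ENNReal

namespace Pool.Agent.H86R3.Nuc

open Pool.Agent.Helper362.ApNoBap

variable (D : Data)

lemma ptwise (T : ℕ → D.S →L[ℝ] D.S) (T0 : D.S →L[ℝ] D.S) (C : ℝ) (hC : ∀ m, ‖T m‖ ≤ C)
    (hT0 : ‖T0‖ ≤ C) (h : ∀ x : D.S, (x : Y) ∈ D.S0 → ∃ N0, ∀ N ≥ N0, T N x = T0 x) (x : D.S) :
    Tendsto (fun m => T m x) atTop (𝓝 (T0 x)) := by
  have hC0 : 0 ≤ C := le_trans (norm_nonneg T0) hT0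
  rw [Metric.tendsto_atTop]
  intro ε hε
  have hx : (x : Y) ∈ closure (D.S0 : Set Y) := x.2
  obtain ⟨d, hd, hxd⟩ := Metric.mem_closure_iff.mp hx (ε / (2 * C + 1)) (by positivity)
  let d' : D.S := ⟨d, D.S0_le hd⟩
  obtain ⟨N0, hN0⟩ := h d' hd
  refine ⟨N0, fun m hm => ?_⟩
  have h1 := hN0 m hm
  have h2 : T m x - T0 x = T m (x - d') - T0 (x - d') := by
    rw [map_sub, map_sub, h1]; abel
  rw [dist_eq_norm, h2]
  have h3 : ‖x - d'‖ < ε / (2 * C + 1) := by
    have h4 : ‖x - d'‖ = dist (x : Y) d := (dist_eq_norm (x : Y) d).symm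
    rw [h4]; exact hxd
  have h5 : ‖T m (x - d')‖ ≤ C * ‖x - d'‖ := (T m).le_of_opNorm_le (hC m) _
  have h6 : ‖T0 (x - d')‖ ≤ C * ‖x - d'‖ := T0.le_of_opNorm_le hT0 _
  have h7 := norm_sub_le (T m (x - d')) (T0 (x - d'))
  have h8 : (2 * C + 1) * ‖x - d'‖ < ε := by
    rw [lt_div_iff₀ (by positivity)] at h3
    linarith
  nlinarith [norm_nonneg (x - d')]

section

variable {X : Type} [NormedAddCommGroup X] [NormedSpace ℝ X] (J : D.S →L[ℝ] X)
  {ι : Type} (s : Finset ι) (a : ι → X →L[ℝ] ℝ) (b : ι → D.S)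
  (f : ℕ → X →L[ℝ] ℝ) (y : ℕ → D.S)

/-- the trace formula holds after composition with an operator -/
def Good (P : D.S →L[ℝ] D.S) : Prop :=
  ∑' n, f n (J (P (y n))) = ∑ i ∈ s, a i (J (P (b i)))

lemma good_fin (hrep : IsRep (∑ i ∈ s, (a i).smulRight (b i)) f y) (P : D.S →L[ℝ] D.S)
    (hP : FiniteDimensional ℝ (LinearMap.range (P : D.S →ₗ[ℝ] D.S))) :
    Good D J s a b f y P := by
  set Rg := LinearMap.range (P : D.S →ₗ[ℝ] D.S) with hRg
  let c := Module.finBasis ℝ Rg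
  let P' : D.S →L[ℝ] Rg := P.codRestrict Rg (fun x => ⟨x, rfl⟩)
  let φ : Fin (Module.finrank ℝ Rg) → (D.S →L[ℝ] ℝ) := fun j =>
    (LinearMap.toContinuousLinearMap (c.coord j)).comp P'
  have hφ : ∀ x, P x = ∑ j, φ j x • ((c j : Rg) : D.S) := by
    intro x
    have h1 := c.sum_repr (P' x)
    have h2 : ((P' x : Rg) : D.S) = P x := rfl
    rw [← h2, ← h1]
    rw [AddSubmonoidClass.coe_finsetSum]
    exact Finset.sum_congr rfl (fun j _ => rfl)
  have h1 : ∀ j, HasSum (fun n => φ j (y n) * f n (J ((c j : Rg) : D.S)))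
      (∑ i ∈ s, a i (J ((c j : Rg) : D.S)) * φ j (b i)) := by
    intro j
    have h2 := (hrep.2 (J ((c j : Rg) : D.S))).mapL (φ j)
    have h3 : φ j ((∑ i ∈ s, (a i).smulRight (b i)) (J ((c j : Rg) : D.S))) =
        ∑ i ∈ s, a i (J ((c j : Rg) : D.S)) * φ j (b i) := by
      rw [sum_apply, map_sum]
      refine Finset.sum_congr rfl (fun i _ => ?_)
      show φ j (a i (J ((c j : Rg) : D.S)) • b i) = _
      rw [map_smul, smul_eq_mul]
    rw [h3] at h2
    convert h2 using 2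
    rw [map_smul, smul_eq_mul, mul_comm]
  have h2 := hasSum_sum (s := Finset.univ) (fun j _ => h1 j)
  unfold Good
  have h3 : ∀ n, f n (J (P (y n))) = ∑ j, φ j (y n) * f n (J ((c j : Rg) : D.S)) := by
    intro n
    rw [hφ, map_sum, map_sum]
    refine Finset.sum_congr rfl (fun j _ => ?_)
    rw [map_smul, map_smul, smul_eq_mul]
  simp_rw [h3]
  rw [h2.tsum_eq, Finset.sum_comm]
  refine Finset.sum_congr rfl (fun i _ => ?_)
  rw [hφ, map_sum, map_sum]
  refine Finset.sum_congr rfl (fun j _ => ?_)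
  rw [map_smul, map_smul, smul_eq_mul, mul_comm]

lemma good_lim (hsum : Summable (fun n => ‖f n‖ * ‖y n‖)) (T : ℕ → D.S →L[ℝ] D.S)
    (T0 : D.S →L[ℝ] D.S) (C : ℝ) (hC : ∀ m, ‖T m‖ ≤ C)
    (hlim : ∀ x, Tendsto (fun m => T m x) atTop (𝓝 (T0 x)))
    (hgood : ∀ m, Good D J s a b f y (T m)) : Good D J s a b f y T0 := by
  have h1 : Tendsto (fun m => ∑' n, f n (J (T m (y n)))) atTop (𝓝 (∑' n, f n (J (T0 (y n))))) := by
    refine tendsto_tsum_of_dominated_convergence (bound := fun n => ‖J‖ * C * (‖f n‖ * ‖y n‖))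
      (hsum.mul_left _) (fun n => ?_) (Eventually.of_forall (fun m n => ?_))
    · exact (((f n).comp J).continuous.tendsto _).comp (hlim (y n))
    · have e1 : ‖f n (J (T m (y n)))‖ ≤ ‖f n‖ * ‖J (T m (y n))‖ := (f n).le_opNorm _
      have e2 : ‖J (T m (y n))‖ ≤ ‖J‖ * ‖T m (y n)‖ := J.le_opNorm _
      have e3 : ‖T m (y n)‖ ≤ C * ‖y n‖ := (T m).le_of_opNorm_le (hC m) _
      calc _ ≤ _ := e1
        _ ≤ ‖f n‖ * (‖J‖ * (C * ‖y n‖)) :=
          mul_le_mul_of_nonneg_left (e2.trans (mul_le_mul_of_nonneg_left e3 (norm_nonneg J)))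
            (norm_nonneg (f n))
        _ = _ := by ring
  have h2 : Tendsto (fun m => ∑ i ∈ s, a i (J (T m (b i)))) atTop
      (𝓝 (∑ i ∈ s, a i (J (T0 (b i))))) :=
    tendsto_finsetSum _ (fun i _ => (((a i).comp J).continuous.tendsto _).comp (hlim (b i)))
  have h3 : (fun m => ∑' n, f n (J (T m (y n)))) = fun m => ∑ i ∈ s, a i (J (T m (b i))) :=
    funext hgood
  rw [h3] at h1
  exact tendsto_nhds_unique h1 h2

/-- restriction operators -/
noncomputable def RS (L : ℕ) : D.S →L[ℝ] D.S :=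
  ((D.R L).comp D.S.subtypeL).codRestrict D.S (fun x => D.R_mem L x x.2)

lemma norm_RS_le (L : ℕ) : ‖RS D L‖ ≤ 1 := by
  refine ContinuousLinearMap.opNorm_le_bound _ zero_le_one (fun x => ?_)
  exact (D.R L).le_of_opNorm_le (D.norm_R_le L) _

lemma norm_T_le (L N : ℕ) : ‖D.T L N‖ ≤ 1 + D.B L := by
  have := D.one_le_B L
  refine ContinuousLinearMap.opNorm_le_bound _ (by linarith) (fun x => ?_)
  exact (D.P L N).le_of_opNorm_le (D.norm_P_le L N) _

/-- The trace of an operator with finite expansion does not depend on the representation. -/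
theorem trace_eq (hrep : IsRep (∑ i ∈ s, (a i).smulRight (b i)) f y) :
    ∑' n, f n (J (y n)) = ∑ i ∈ s, a i (J (b i)) := by
  have h1 : ∀ L, Good D J s a b f y (RS D L) := by
    intro L
    have hB := D.one_le_B L
    refine good_lim D J s a b f y hrep.1 (fun N => D.T L N) (RS D L) (1 + D.B L)
      (fun N => norm_T_le D L N) ?_ (fun N => good_fin D J s a b f y hrep _ (D.T_fin L N))
    refine ptwise D _ _ (1 + D.B L) (fun N => norm_T_le D L N) ?_ (fun x hx => ?_)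
    · have := norm_RS_le D L; linarith
    · obtain ⟨N0, hN0⟩ := D.P_stab L (x : Y) hx
      exact ⟨N0, fun N hN => Subtype.ext (hN0 N hN)⟩
  have h2 : Good D J s a b f y (ContinuousLinearMap.id ℝ D.S) := by
    refine good_lim D J s a b f y hrep.1 (fun L => RS D L) _ 1 (fun L => norm_RS_le D L) ?_ h1
    refine ptwise D _ _ 1 (fun L => norm_RS_le D L) ?_ (fun x hx => ?_)
    · exact ContinuousLinearMap.norm_id_le
    · obtain ⟨L0, hL0⟩ := D.R_stab (x : Y) hx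
      exact ⟨L0, fun L hL => Subtype.ext (hL0 L hL)⟩
  exact h2

theorem nn_lower (hJ : ‖J‖ ≤ 2) : ∑ i ∈ s, a i (J (b i)) ≤
    2 * nuclearNorm (∑ i ∈ s, (a i).smulRight (b i)) := by
  have hnuc : IsNuclear (∑ i ∈ s, (a i).smulRight (b i)) := by
    have : ∑ i ∈ s, (a i).smulRight (b i) ∈ NucSub X D.S :=
      Submodule.sum_mem _ (fun i _ => nuclear_rank_one (a i) (b i))
    exact this
  have h1 : (1 / 2) * ∑ i ∈ s, a i (J (b i)) ≤ nuclearNorm (∑ i ∈ s, (a i).smulRight (b i)) := by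
    refine le_nn hnuc _ (fun f y hrep => ?_)
    rw [← trace_eq D J s a b f y hrep]
    have h2 : ∀ n, ‖f n (J (y n))‖ ≤ 2 * (‖f n‖ * ‖y n‖) := by
      intro n
      have e1 : ‖f n (J (y n))‖ ≤ ‖f n‖ * ‖J (y n)‖ := (f n).le_opNorm _
      have e2 : ‖J (y n)‖ ≤ 2 * ‖y n‖ := J.le_of_opNorm_le hJ _
      calc _ ≤ _ := e1
        _ ≤ ‖f n‖ * (2 * ‖y n‖) := mul_le_mul_of_nonneg_left e2 (norm_nonneg _)
        _ = _ := by ring
    have h3 := tsum_of_norm_bounded ((hrep.1.mul_left 2).hasSum) h2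
    rw [tsum_mul_left, Real.norm_eq_abs] at h3
    have h4 := le_abs_self (∑' n, f n (J (y n)))
    linarith
  linarith

end

end Pool.Agent.H86R3.Nuc
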