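import Pool.Agent.H86R3.Increment

set_option autoImplicit false

open Filter Topology Set

namespace Pool.Agent.H86R3

/-- The ordinal interval. -/
abbrev OL : Type 1 := Set.Icc (0 : Ordinal.{0}) (Ordinal.omega0 ^ Ordinal.omega0)

/-- The clopen set `(a, b]`. -/
def blk (a b : Ordinal.{0}) : Set OL := {x | a < x.1 ∧ x.1 ≤ b}

lemma isClopen_blk (a b : Ordinal.{0}) : IsClopen (blk a b) := by
  have h1 : IsClopen {x : Ordinal.{0} | a < x} := by
    refine ⟨?_, isOpen_Ioi⟩
    have : {x : Ordinal.{0} | a < x} = Set.Ici (Order.succ a) := by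
      ext x; simp [Order.succ_le_iff]
    rw [this]; exact isClosed_Ici
  have h2 : IsClopen {x : Ordinal.{0} | x ≤ b} := by
    refine ⟨isClosed_Iic, ?_⟩
    have : {x : Ordinal.{0} | x ≤ b} = Set.Iio (Order.succ b) := by
      ext x; simp [Order.lt_succ_iff]
    rw [this]; exact isOpen_Iio
  exact (h1.preimage continuous_subtype_val).inter (h2.preimage continuous_subtype_val)

/-- The indicator function of `(a, b]`. -/
noncomputable def ind (a b : Ordinal.{0}) : C(OL, ℝ) :=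
  ⟨Set.indicator (blk a b) 1, continuous_one.indicator (by
    intro x hx
    rw [(isClopen_blk a b).frontier_eq] at hx
    exact absurd hx (notMem_empty x))⟩

lemma ind_apply (a b : Ordinal.{0}) (x : OL) : ind a b x = Set.indicator (blk a b) 1 x := rfl

lemma ind_one {a b : Ordinal.{0}} {x : OL} (h1 : a < x.1) (h2 : x.1 ≤ b) : ind a b x = 1 := by
  rw [ind_apply, Set.indicator_of_mem (show x ∈ blk a b from ⟨h1, h2⟩)]; rfl

lemma ind_zero {a b : Ordinal.{0}} {x : OL} (h1 : x.1 ≤ a) : ind a b x = 0 := by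
  rw [ind_apply, Set.indicator_of_notMem (show x ∉ blk a b from fun h => (not_lt.mpr h1) h.1)]

open Ordinal in
lemma isLUB_seq (β γ : Ordinal.{0}) (hγ : 0 < γ) :
    IsLUB (Set.range (fun i : ℕ => β + γ * ((i + 1 : ℕ) : Ordinal.{0}))) (β + γ * ω) := by
  constructor
  · rintro _ ⟨i, rfl⟩
    have h1 : ((i + 1 : ℕ) : Ordinal.{0}) ≤ ω := (natCast_lt_omega0 _).le
    dsimp only
    gcongr
  · intro b hb
    have hn := (isNormal_add_right β).comp (isNormal_mul_right hγ)
    have := (hn.le_iff_forall_le isSuccLimit_omega0 (b := b)).mpr (by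
      intro c hc
      obtain ⟨n, rfl⟩ := lt_omega0.mp hc
      have h1 : β + γ * ((n + 1 : ℕ) : Ordinal.{0}) ≤ b := hb ⟨n, rfl⟩
      refine le_trans ?_ h1
      simp only [Function.comp_apply]
      have h2 : (n : Ordinal.{0}) ≤ ((n + 1 : ℕ) : Ordinal.{0}) := by
        exact_mod_cast Nat.le_succ n
      gcongr)
    exact this

variable {K : Type*} [TopologicalSpace K] [CompactSpace K] [T2Space K]
variable {X : Type*} [NormedAddCommGroup X] [NormedSpace ℝ X] [CompleteSpace X]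

open Ordinal in
lemma climb (hX : NoCopy X) (hK : NoC0 K) (J : C(OL, ℝ) →L[ℝ] C(K, X))
    (Q : C(K, X) →L[ℝ] C(OL, ℝ)) (hQJ : Q.comp J = ContinuousLinearMap.id ℝ _) (n : ℕ) :
    ∀ (β : Ordinal.{0}) (s : OL), s.1 = β + ω ^ (n : Ordinal.{0}) →
      ∃ l : OL, ‖mu Q s‖ + n * (1 / (2 * (‖J‖ + 1))) ≤ ‖mu Q l‖ := by
  induction n with
  | zero =>
    intro β s _
    exact ⟨s, by simp⟩
  | succ n ih =>
    intro β s hs
    have hγ : (0 : Ordinal.{0}) < ω ^ (n : Ordinal.{0}) := opow_pos _ omega0_pos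
    have hs' : s.1 = β + ω ^ (n : Ordinal.{0}) * ω := by
      rw [hs]
      congr 1
      rw [Nat.cast_succ, ← Order.succ_eq_add_one, opow_succ]
    have hlub := isLUB_seq β (ω ^ (n : Ordinal.{0})) hγ
    rw [← hs'] at hlub
    have hle : ∀ i : ℕ, β + ω ^ (n : Ordinal.{0}) * ((i + 1 : ℕ) : Ordinal.{0}) ≤ s.1 :=
      fun i => hlub.1 ⟨i, rfl⟩
    let si : ℕ → OL := fun i => ⟨β + ω ^ (n : Ordinal.{0}) * ((i + 1 : ℕ) : Ordinal.{0}),
      zero_le, (hle i).trans s.2.2⟩
    have hsi : Tendsto si atTop (𝓝 s) := by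
      rw [tendsto_subtype_rng]
      apply tendsto_atTop_isLUB _ hlub
      intro i j hij
      have h2 : ((i + 1 : ℕ) : Ordinal.{0}) ≤ ((j + 1 : ℕ) : Ordinal.{0}) := by
        exact_mod_cast Nat.succ_le_succ hij
      dsimp only
      gcongr
    let u : ℕ → C(OL, ℝ) := fun k => ind (β + ω ^ (n : Ordinal.{0}) * (k : Ordinal.{0})) s.1
    have hmono : Monotone (fun k : ℕ => β + ω ^ (n : Ordinal.{0}) * (k : Ordinal.{0})) := by
      intro i j hij
      have h2 : (i : Ordinal.{0}) ≤ (j : Ordinal.{0}) := by exact_mod_cast hij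
      dsimp only
      gcongr
    have hanti : ∀ l, Antitone (fun k => u k l) := by
      intro l k k' hkk'
      change Set.indicator _ (1 : OL → ℝ) l ≤ Set.indicator _ (1 : OL → ℝ) l
      apply Set.indicator_le_indicator_of_subset
      · intro x hx
        exact ⟨lt_of_le_of_lt (hmono hkk') hx.1, hx.2⟩
      · intro _; exact zero_le_one
    have h01 : ∀ k l, 0 ≤ u k l ∧ u k l ≤ 1 := by
      intro k l
      change 0 ≤ Set.indicator _ (1 : OL → ℝ) l ∧ Set.indicator _ (1 : OL → ℝ) l ≤ 1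
      constructor
      · exact Set.indicator_nonneg (fun _ _ => zero_le_one) _
      · by_cases h : l ∈ blk (β + ω ^ (n : Ordinal.{0}) * (k : Ordinal.{0})) s.1
        · rw [Set.indicator_of_mem h]; simp
        · rw [Set.indicator_of_notMem h]; exact zero_le_one
    have hus : ∀ k, u k s = 1 := by
      intro k
      refine ind_one ?_ le_rfl
      rw [hs']
      have h1 : ω ^ (n : Ordinal.{0}) * (k : Ordinal.{0}) < ω ^ (n : Ordinal.{0}) * ω :=
        (mul_lt_mul_iff_right₀ hγ).mpr (natCast_lt_omega0 k)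
      gcongr
    have hz : ∀ i, ∃ k0, ∀ k, k0 ≤ k → u k (si i) = 0 := by
      intro i
      refine ⟨i + 1, fun k hk => ind_zero ?_⟩
      exact hmono hk
    have hinc := increment hX hK J Q hQJ u hanti h01 s si hsi hus hz
    obtain ⟨i, hi⟩ := hinc.exists
    obtain ⟨l, hl⟩ := ih (β + ω ^ (n : Ordinal.{0}) * (i : Ordinal.{0})) (si i) (by
      change β + ω ^ (n : Ordinal.{0}) * ((i + 1 : ℕ) : Ordinal.{0}) = _
      rw [Nat.cast_succ, mul_add_one, add_assoc])
    refine ⟨l, ?_⟩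
    push_cast
    linarith

open Ordinal in
theorem no_factor_omega (hX : NoCopy X) (hK : NoC0 K) (J : C(OL, ℝ) →L[ℝ] C(K, X))
    (Q : C(K, X) →L[ℝ] C(OL, ℝ)) (hQJ : Q.comp J = ContinuousLinearMap.id ℝ _) : False := by
  have hc : 0 < 1 / (2 * (‖J‖ + 1)) := by positivity
  obtain ⟨n, hn⟩ := exists_nat_gt (‖Q‖ / (1 / (2 * (‖J‖ + 1))))
  rw [div_lt_iff₀ hc] at hn
  have hle : ω ^ (n : Ordinal.{0}) ≤ ω ^ (ω : Ordinal.{0}) :=
    (opow_le_opow_iff_right one_lt_omega0).mpr (natCast_lt_omega0 n).le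
  obtain ⟨l, hl⟩ := climb hX hK J Q hQJ n 0 ⟨ω ^ (n : Ordinal.{0}), zero_le, hle⟩ (by simp)
  have h1 := norm_mu_le Q l
  have h2 := norm_nonneg (mu Q (⟨ω ^ (n : Ordinal.{0}), zero_le, hle⟩ : OL))
  linarith

end Pool.Agent.H86R3
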