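import Pool.Agent.H86R3.CZero

set_option autoImplicit false

open Filter Topology Set

namespace Pool.Agent.H86R3

lemma rosenthal_aux (ε : ℝ) (hε : 0 < ε) (p : ℕ) : ∀ (m : ℕ → ℕ → ℝ), (∀ k j, 0 ≤ m k j) →
    (∀ k (F : Finset ℕ), k ∉ F → ∑ j ∈ F, m k j ≤ p * ε) →
    ∃ φ : ℕ → ℕ, StrictMono φ ∧ ∀ k (F : Finset ℕ), k ∉ F → ∑ j ∈ F, m (φ k) (φ j) ≤ ε := by
  induction p with
  | zero =>
    intro m _ h
    refine ⟨id, strictMono_id, fun k F hk => ?_⟩
    have := h k F hk
    simp only [Nat.cast_zero, zero_mul] at this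
    exact this.trans hε.le
  | succ p ih =>
    intro m h0 h
    by_cases hgood : ∃ i : ℕ, ∀ n (F : Finset ℕ), n ∉ F →
        ∑ j ∈ F, m (Nat.pair i n) (Nat.pair i j) ≤ ε
    · obtain ⟨i, hi⟩ := hgood
      exact ⟨fun n => Nat.pair i n, fun a b hab => Nat.pair_lt_pair_right i hab, hi⟩
    · push Not at hgood
      choose n F hnF hF using hgood
      set k : ℕ → ℕ := fun i => Nat.pair i (n i) with hk
      have hkinf : Tendsto k atTop atTop := by
        refine tendsto_atTop_mono (fun i => Nat.left_le_pair i (n i)) tendsto_id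
      obtain ⟨θ, hθ, hkθ⟩ := strictMono_subseq_of_tendsto_atTop hkinf
      have hinj : ∀ a b, k a = k b → a = b := by
        intro a b hab
        have := congrArg Nat.unpair hab
        simp only [hk, Nat.unpair_pair, Prod.mk.injEq] at this
        exact this.1
      obtain ⟨φ', hφ', hφ''⟩ := ih (fun a b => m (k (θ a)) (k (θ b))) (fun a b => h0 _ _) (by
        intro a G haG
        classical
        have hdisj : Disjoint (G.image (fun b => k (θ b)))
            ((F (θ a)).image (fun j => Nat.pair (θ a) j)) := by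
          rw [Finset.disjoint_left]
          intro x hx hx'
          obtain ⟨b, hb, rfl⟩ := Finset.mem_image.mp hx
          obtain ⟨j, hj, hj'⟩ := Finset.mem_image.mp hx'
          have := congrArg Nat.unpair hj'
          simp only [hk, Nat.unpair_pair, Prod.mk.injEq] at this
          have hab : a = b := hθ.injective this.1
          exact haG (hab ▸ hb)
        have hnot : k (θ a) ∉ G.image (fun b => k (θ b)) ∪
            (F (θ a)).image (fun j => Nat.pair (θ a) j) := by
          rw [Finset.mem_union, not_or]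
          constructor
          · intro hx
            obtain ⟨b, hb, hb'⟩ := Finset.mem_image.mp hx
            have : b = a := hθ.injective (hinj _ _ hb')
            exact haG (this ▸ hb)
          · intro hx
            obtain ⟨j, hj, hj'⟩ := Finset.mem_image.mp hx
            have := congrArg Nat.unpair hj'
            simp only [hk, Nat.unpair_pair, Prod.mk.injEq] at this
            exact hnF (θ a) (this.2 ▸ hj)
        have htot := h (k (θ a)) _ hnot
        rw [Finset.sum_union hdisj] at htot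
        have e1 : ∑ x ∈ G.image (fun b => k (θ b)), m (k (θ a)) x
            = ∑ b ∈ G, m (k (θ a)) (k (θ b)) := by
          apply Finset.sum_image
          intro b _ c _ hbc
          exact hθ.injective (hinj _ _ hbc)
        have e2 : ∑ x ∈ (F (θ a)).image (fun j => Nat.pair (θ a) j), m (k (θ a)) x
            = ∑ j ∈ F (θ a), m (k (θ a)) (Nat.pair (θ a) j) := by
          apply Finset.sum_image
          intro b _ c _ hbc
          have := congrArg Nat.unpair hbc
          simp only [Nat.unpair_pair, Prod.mk.injEq] at this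
          exact this.2
        rw [e1, e2] at htot
        have h3 := hF (θ a)
        push_cast at htot
        have h4 : m (k (θ a)) = m (Nat.pair (θ a) (n (θ a))) := rfl
        rw [h4] at htot
        have h5 : ∑ b ∈ G, m (Nat.pair (θ a) (n (θ a))) (k (θ b)) ≤ p * ε := by linarith
        exact h5)
      refine ⟨fun a => k (θ (φ' a)), fun a b hab => hkθ (hφ' hab), fun a G haG => ?_⟩
      exact hφ'' a G haG

/-- Rosenthal's lemma for nonnegative matrices with bounded row sums. -/
lemma rosenthal (m : ℕ → ℕ → ℝ) (h0 : ∀ k j, 0 ≤ m k j) (C : ℝ)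
    (hC : ∀ k (F : Finset ℕ), ∑ j ∈ F, m k j ≤ C) (ε : ℝ) (hε : 0 < ε) :
    ∃ φ : ℕ → ℕ, StrictMono φ ∧ ∀ k (F : Finset ℕ), k ∉ F → ∑ j ∈ F, m (φ k) (φ j) ≤ ε := by
  obtain ⟨p, hp⟩ := exists_nat_ge (C / ε)
  refine rosenthal_aux ε hε p m h0 fun k F _ => (hC k F).trans ?_
  rwa [div_le_iff₀ hε] at hp

variable {E : Type*} [NormedAddCommGroup E] [NormedSpace ℝ E]

/-- Weakly unconditionally Cauchy with constant `C`. -/
def WUC (x : ℕ → E) (C : ℝ) : Prop :=
  ∀ (F : Finset ℕ) (a : ℕ → ℝ), (∀ n, |a n| ≤ 1) → ‖∑ n ∈ F, a n • x n‖ ≤ C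

lemma WUC.scaled {x : ℕ → E} {C : ℝ} (h : WUC x C) (F : Finset ℕ) (a : ℕ → ℝ) {r : ℝ}
    (hr : 0 ≤ r) (ha : ∀ n ∈ F, |a n| ≤ r) : ‖∑ n ∈ F, a n • x n‖ ≤ C * r := by
  classical
  rcases hr.eq_or_lt with hr0 | hr0
  · subst hr0
    have : ∑ n ∈ F, a n • x n = 0 := by
      apply Finset.sum_eq_zero
      intro n hn
      have := ha n hn
      rw [abs_nonpos_iff.mp this, zero_smul]
    rw [this]; simp
  · have h1 := h F (fun n => if n ∈ F then a n / r else 0) (by
      intro n
      split_ifs with hn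
      · rw [abs_div, abs_of_pos hr0, div_le_one hr0]
        exact ha n hn
      · simp)
    have h2 : ∑ n ∈ F, a n • x n = r • ∑ n ∈ F, (if n ∈ F then a n / r else 0) • x n := by
      rw [Finset.smul_sum]
      refine Finset.sum_congr rfl fun n hn => ?_
      rw [if_pos hn, smul_smul, mul_div_cancel₀ _ hr0.ne']
    rw [h2, norm_smul, Real.norm_eq_abs, abs_of_pos hr0, mul_comm]
    gcongr

lemma WUC.subseq {x : ℕ → E} {C : ℝ} (h : WUC x C) {φ : ℕ → ℕ} (hφ : StrictMono φ) :
    WUC (fun n => x (φ n)) C := by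
  classical
  intro F a ha
  have h1 := h (F.image φ) (fun n => if hn : ∃ k, φ k = n then a hn.choose else 0) (by
    intro n
    split_ifs with hn
    · exact ha _
    · simp)
  rw [Finset.sum_image (fun b _ c _ hbc => hφ.injective hbc)] at h1
  convert h1 using 3
  rename_i n _
  have hn : ∃ k, φ k = φ n := ⟨n, rfl⟩
  rw [dif_pos hn, hφ.injective hn.choose_spec]

/-- The operator `c_0 → E` attached to a weakly unconditionally Cauchy sequence. -/
lemma WUC.exists_op [CompleteSpace E] {x : ℕ → E} {C : ℝ} (h : WUC x C) :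
    ∃ R : CZ →L[ℝ] E, ∀ a : CZ, HasSum (fun n => a n • x n) (R a) := by
  have hsum : ∀ a : CZ, Summable (fun n => a n • x n) := by
    intro a
    rw [summable_iff_vanishing_norm]
    intro ε hε
    have hC0 : 0 ≤ C := by
      have := h ∅ 0 (by simp)
      simpa using this
    obtain ⟨N, hN⟩ := (Metric.tendsto_atTop.mp (CZ.tendsto a)) (ε / (2 * (C + 1))) (by positivity)
    refine ⟨Finset.range N, fun t ht => ?_⟩
    have h1 := h.scaled t (fun n => a n) (r := ε / (2 * (C + 1))) (by positivity) (by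
      intro n hn
      have hnN : N ≤ n := by
        by_contra hlt
        exact (Finset.disjoint_left.mp ht hn) (Finset.mem_range.mpr (not_le.mp hlt))
      have := hN n hnN
      rw [Real.dist_eq, sub_zero] at this
      exact this.le)
    refine lt_of_le_of_lt h1 ?_
    have : C * (ε / (2 * (C + 1))) = ε * (C / (2 * (C + 1))) := by ring
    rw [this]
    have h2 : C / (2 * (C + 1)) < 1 := by
      rw [div_lt_one (by positivity)]; linarith
    calc ε * (C / (2 * (C + 1))) < ε * 1 := by gcongr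
      _ = ε := mul_one _
  have hbound : ∀ a : CZ, ‖∑' n, a n • x n‖ ≤ C * ‖a‖ := by
    intro a
    have h1 : Tendsto (fun F : Finset ℕ => ‖∑ n ∈ F, a n • x n‖) atTop
        (𝓝 ‖∑' n, a n • x n‖) := ((hsum a).hasSum).norm
    refine le_of_tendsto' h1 fun F => ?_
    exact h.scaled F (fun n => a n) (norm_nonneg a) (fun n _ => CZ.abs_apply_le a n)
  refine ⟨LinearMap.mkContinuous
    { toFun := fun a => ∑' n, a n • x n
      map_add' := by
        intro a b
        rw [← (hsum a).tsum_add (hsum b)]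
        congr 1
        funext n
        rw [ZeroAtInftyContinuousMap.add_apply, add_smul]
      map_smul' := by
        intro c a
        rw [RingHom.id_apply, ← (hsum a).tsum_const_smul c]
        congr 1
        funext n
        rw [ZeroAtInftyContinuousMap.smul_apply, smul_smul, smul_eq_mul] } C hbound, fun a => ?_⟩
  exact (hsum a).hasSum

/-- Bessaga-Pelczynski. -/
lemma WUC.embeds [CompleteSpace E] {x : ℕ → E} {C δ : ℝ} (h : WUC x C) (hδ : 0 < δ)
    (hx : ∀ n, δ ≤ ‖x n‖) :
    ∃ (T : CZ →L[ℝ] E) (c : ℝ), 0 < c ∧ ∀ f : CZ, c * ‖f‖ ≤ ‖T f‖ := by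
  have hdual : ∀ n, ∃ g : E →L[ℝ] ℝ, ‖g‖ ≤ 1 ∧ g (x n) = ‖x n‖ := by
    intro n
    obtain ⟨g, hg, hg'⟩ := exists_dual_vector'' ℝ (x n)
    exact ⟨g, hg, hg'⟩
  choose g hg hgx using hdual
  have hrow : ∀ k (F : Finset ℕ), ∑ j ∈ F, |g k (x j)| ≤ C := by
    intro k F
    have h1 : ∑ j ∈ F, |g k (x j)| = g k (∑ j ∈ F, (SignType.sign (g k (x j)) : ℝ) • x j) := by
      rw [map_sum]
      refine Finset.sum_congr rfl fun j _ => ?_
      rw [map_smul, smul_eq_mul, sign_mul_self]
    rw [h1]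
    calc g k (∑ j ∈ F, (SignType.sign (g k (x j)) : ℝ) • x j)
        ≤ ‖g k (∑ j ∈ F, (SignType.sign (g k (x j)) : ℝ) • x j)‖ := le_abs_self _
      _ ≤ ‖g k‖ * ‖∑ j ∈ F, (SignType.sign (g k (x j)) : ℝ) • x j‖ := (g k).le_opNorm _
      _ ≤ 1 * C := by
          gcongr
          · exact hg k
          · refine h F _ fun n => ?_
            rcases lt_trichotomy (g k (x n)) 0 with h | h | h
            · simp [sign_neg h]
            · simp [h]
            · simp [sign_pos h]
      _ = C := one_mul C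
  obtain ⟨φ, hφ, hφs⟩ := rosenthal (fun k j => |g k (x j)|) (fun _ _ => abs_nonneg _) C hrow
    (δ / 2) (half_pos hδ)
  obtain ⟨T, hT⟩ := (h.subseq hφ).exists_op
  refine ⟨T, δ / 2, half_pos hδ, fun a => ?_⟩
  have hkey : ∀ k, |a k| * δ ≤ ‖T a‖ + ‖a‖ * (δ / 2) := by
    intro k
    have hs : HasSum (fun n => g (φ k) (a n • x (φ n))) (g (φ k) (T a)) :=
      (hT a).mapL (g (φ k))
    have h2 : ∀ F : Finset ℕ, k ∈ F → |a k| * δ - ‖a‖ * (δ / 2) ≤
        |∑ n ∈ F, g (φ k) (a n • x (φ n))| := by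
      intro F hkF
      rw [← Finset.add_sum_erase F _ hkF]
      have h3 : |∑ n ∈ F.erase k, g (φ k) (a n • x (φ n))| ≤ ‖a‖ * (δ / 2) := by
        calc |∑ n ∈ F.erase k, g (φ k) (a n • x (φ n))|
            ≤ ∑ n ∈ F.erase k, |g (φ k) (a n • x (φ n))| := Finset.abs_sum_le_sum_abs _ _
          _ ≤ ∑ n ∈ F.erase k, ‖a‖ * |g (φ k) (x (φ n))| := by
              refine Finset.sum_le_sum fun n _ => ?_
              rw [map_smul, smul_eq_mul, abs_mul]
              gcongr
              exact CZ.abs_apply_le a n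
          _ = ‖a‖ * ∑ n ∈ F.erase k, |g (φ k) (x (φ n))| := by rw [Finset.mul_sum]
          _ ≤ ‖a‖ * (δ / 2) := by
              gcongr
              exact hφs k (F.erase k) (Finset.notMem_erase k F)
      have h4 : |a k| * δ ≤ |g (φ k) (a k • x (φ k))| := by
        rw [map_smul, smul_eq_mul, abs_mul, hgx]
        gcongr
        exact (hx _).trans (le_abs_self _)
      have h5 := abs_add_le (g (φ k) (a k • x (φ k)) + ∑ n ∈ F.erase k, g (φ k) (a n • x (φ n)))
        (-∑ n ∈ F.erase k, g (φ k) (a n • x (φ n)))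
      rw [add_neg_cancel_right, abs_neg] at h5
      linarith
    have h3 : Tendsto (fun F : Finset ℕ => |∑ n ∈ F, g (φ k) (a n • x (φ n))|) atTop
        (𝓝 |g (φ k) (T a)|) := hs.abs
    have h4 : |a k| * δ - ‖a‖ * (δ / 2) ≤ |g (φ k) (T a)| := by
      refine ge_of_tendsto h3 ?_
      filter_upwards [eventually_ge_atTop {k}] with F hF
      exact h2 F (by simpa using hF)
    have h5 : |g (φ k) (T a)| ≤ ‖T a‖ := by
      calc |g (φ k) (T a)| ≤ ‖g (φ k)‖ * ‖T a‖ := (g (φ k)).le_opNorm _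
        _ ≤ 1 * ‖T a‖ := by gcongr; exact hg _
        _ = ‖T a‖ := one_mul _
    linarith
  have hfin : ‖a‖ ≤ (‖T a‖ + ‖a‖ * (δ / 2)) / δ := by
    rw [CZ.norm_le_iff _ (by positivity)]
    intro k
    rw [le_div_iff₀ hδ]
    exact hkey k
  rw [le_div_iff₀ hδ] at hfin
  linarith

/-- A complemented copy of `c_0` from a weakly unconditionally Cauchy sequence and a weak-star
null sequence of functionals. -/
lemma WUC.complemented [CompleteSpace E] {x : ℕ → E} {C D δ : ℝ} (h : WUC x C) (hδ : 0 < δ)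
    (ν : ℕ → E →L[ℝ] ℝ) (hD : ∀ n, ‖ν n‖ ≤ D) (hν : ∀ f, Tendsto (fun n => ν n f) atTop (𝓝 0))
    (hx : ∀ n, δ ≤ |ν n (x n)|) :
    ∃ (J : CZ →L[ℝ] E) (Q : E →L[ℝ] CZ), Q.comp J = ContinuousLinearMap.id ℝ _ := by
  have hD0 : 0 ≤ D := (norm_nonneg _).trans (hD 0)
  have hC0 : 0 ≤ C := by
    have := h ∅ 0 (by simp)
    simpa using this
  have hrow : ∀ k (F : Finset ℕ), ∑ j ∈ F, |ν k (x j)| ≤ D * C := by
    intro k F
    have h1 : ∑ j ∈ F, |ν k (x j)| = ν k (∑ j ∈ F, (SignType.sign (ν k (x j)) : ℝ) • x j) := by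
      rw [map_sum]
      refine Finset.sum_congr rfl fun j _ => ?_
      rw [map_smul, smul_eq_mul, sign_mul_self]
    rw [h1]
    calc ν k (∑ j ∈ F, (SignType.sign (ν k (x j)) : ℝ) • x j)
        ≤ ‖ν k (∑ j ∈ F, (SignType.sign (ν k (x j)) : ℝ) • x j)‖ := le_abs_self _
      _ ≤ ‖ν k‖ * ‖∑ j ∈ F, (SignType.sign (ν k (x j)) : ℝ) • x j‖ := (ν k).le_opNorm _
      _ ≤ D * C := by
          gcongr
          · exact hD k
          · refine h F _ fun n => ?_
            rcases lt_trichotomy (ν k (x n)) 0 with h | h | h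
            · simp [sign_neg h]
            · simp [h]
            · simp [sign_pos h]
  obtain ⟨φ, hφ, hφs⟩ := rosenthal (fun k j => |ν k (x j)|) (fun _ _ => abs_nonneg _) (D * C) hrow
    (δ / 2) (half_pos hδ)
  obtain ⟨T, hT⟩ := (h.subseq hφ).exists_op
  have hne : ∀ n, ν n (x n) ≠ 0 := by
    intro n h0
    have := hx n
    rw [h0, abs_zero] at this
    linarith
  have hQlim : ∀ f : E, Tendsto (fun n => ν (φ n) f / ν (φ n) (x (φ n))) atTop (𝓝 0) := by
    intro f
    rw [tendsto_zero_iff_abs_tendsto_zero]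
    have h1 : Tendsto (fun n => |ν (φ n) f| / δ) atTop (𝓝 0) := by
      have := ((hν f).comp hφ.tendsto_atTop).abs.div_const δ
      simpa using this
    refine squeeze_zero (fun n => abs_nonneg _) (fun n => ?_) h1
    simp only [Function.comp_apply]
    rw [abs_div]
    gcongr
    exact hx _
  let Q0 : E →L[ℝ] CZ := LinearMap.mkContinuous
    { toFun := fun f => CZ.ofSeq _ (hQlim f)
      map_add' := by
        intro f g
        ext n
        simp only [CZ.ofSeq_apply, ZeroAtInftyContinuousMap.add_apply, map_add, add_div]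
      map_smul' := by
        intro c f
        ext n
        simp only [CZ.ofSeq_apply, ZeroAtInftyContinuousMap.smul_apply, map_smul, smul_eq_mul,
          RingHom.id_apply, mul_div_assoc] } (D / δ) (by
    intro f
    rw [CZ.norm_le_iff _ (by positivity)]
    intro n
    change |ν (φ n) f / ν (φ n) (x (φ n))| ≤ _
    rw [abs_div, div_mul_eq_mul_div]
    have h1 : |ν (φ n) f| ≤ D * ‖f‖ := ((ν (φ n)).le_opNorm f).trans (by gcongr; exact hD _)
    gcongr
    exact hx _)
  have hQ0 : ∀ f n, Q0 f n = ν (φ n) f / ν (φ n) (x (φ n)) := fun f n => rfl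
  -- `Q0 T` is a small perturbation of the identity
  have hpert : ‖(1 : CZ →L[ℝ] CZ) - Q0.comp T‖ ≤ 1 / 2 := by
    apply ContinuousLinearMap.opNorm_le_bound _ (by norm_num)
    intro a
    rw [CZ.norm_le_iff _ (by positivity)]
    intro k
    rw [_root_.sub_apply, ZeroAtInftyContinuousMap.sub_apply,
      one_apply_eq_self, ContinuousLinearMap.comp_apply, hQ0]
    have hs : HasSum (fun n => ν (φ k) (a n • x (φ n))) (ν (φ k) (T a)) :=
      (hT a).mapL (ν (φ k))
    have h3 : Tendsto (fun F : Finset ℕ => |a k * ν (φ k) (x (φ k)) -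
        ∑ n ∈ F, ν (φ k) (a n • x (φ n))|) atTop
        (𝓝 |a k * ν (φ k) (x (φ k)) - ν (φ k) (T a)|) :=
      (Tendsto.const_sub _ (show Tendsto (fun F : Finset ℕ => ∑ n ∈ F, ν (φ k) (a n • x (φ n))) atTop _
        from hs)).abs
    have h4 : |a k * ν (φ k) (x (φ k)) - ν (φ k) (T a)| ≤ ‖a‖ * (δ / 2) := by
      refine le_of_tendsto h3 ?_
      filter_upwards [eventually_ge_atTop {k}] with F hF
      have hkF : k ∈ F := by simpa using hF
      rw [← Finset.add_sum_erase F _ hkF, map_smul, smul_eq_mul, sub_add_cancel_left, abs_neg]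
      calc |∑ n ∈ F.erase k, ν (φ k) (a n • x (φ n))|
          ≤ ∑ n ∈ F.erase k, |ν (φ k) (a n • x (φ n))| := Finset.abs_sum_le_sum_abs _ _
        _ ≤ ∑ n ∈ F.erase k, ‖a‖ * |ν (φ k) (x (φ n))| := by
            refine Finset.sum_le_sum fun n _ => ?_
            rw [map_smul, smul_eq_mul, abs_mul]
            gcongr
            exact CZ.abs_apply_le a n
        _ = ‖a‖ * ∑ n ∈ F.erase k, |ν (φ k) (x (φ n))| := by rw [Finset.mul_sum]
        _ ≤ ‖a‖ * (δ / 2) := by
            gcongr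
            exact hφs k (F.erase k) (Finset.notMem_erase k F)
    have h5 : a k - ν (φ k) (T a) / ν (φ k) (x (φ k))
        = (a k * ν (φ k) (x (φ k)) - ν (φ k) (T a)) / ν (φ k) (x (φ k)) := by
      rw [sub_div, mul_div_cancel_right₀ _ (hne _)]
    rw [h5, abs_div, div_le_iff₀ (abs_pos.mpr (hne _))]
    calc |a k * ν (φ k) (x (φ k)) - ν (φ k) (T a)| ≤ ‖a‖ * (δ / 2) := h4
      _ = 1 / 2 * ‖a‖ * δ := by ring
      _ ≤ 1 / 2 * ‖a‖ * |ν (φ k) (x (φ k))| := by gcongr; exact hx _
  have hunit : IsUnit (Q0.comp T : CZ →L[ℝ] CZ) := by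
    have hlt : ‖(1 : CZ →L[ℝ] CZ) - Q0.comp T‖ < 1 := by
      have h12 : (1 / 2 : ℝ) < 1 := by norm_num
      exact lt_of_le_of_lt hpert h12
    have h1 : IsUnit (1 - ((1 : CZ →L[ℝ] CZ) - Q0.comp T)) :=
      isUnit_one_sub_of_norm_lt_one (R := CZ →L[ℝ] CZ) hlt
    have e : (1 : CZ →L[ℝ] CZ) - ((1 : CZ →L[ℝ] CZ) - Q0.comp T) = Q0.comp T := by
      ext a n; simp
    rw [← e]
    exact h1
  obtain ⟨V, hV⟩ := hunit
  refine ⟨T, (V⁻¹ : (CZ →L[ℝ] CZ)ˣ).val.comp Q0, ?_⟩
  rw [ContinuousLinearMap.comp_assoc, ← hV]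
  exact Units.inv_mul V

end Pool.Agent.H86R3
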