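import Mathlib

set_option autoImplicit false

open Filter Topology Set

namespace Pool.Agent.H86R3

/-- Limit of a real sequence along a fixed non-principal ultrafilter. -/
noncomputable def ulim (u : ℕ → ℝ) : ℝ := limUnder (hyperfilter ℕ : Filter ℕ) u

lemma tendsto_ulim {u : ℕ → ℝ} {C : ℝ} (h : ∀ n, |u n| ≤ C) :
    Tendsto u (hyperfilter ℕ : Filter ℕ) (𝓝 (ulim u)) := by
  have hc : IsCompact (Set.Icc (-C) C) := isCompact_Icc
  have hle : ((hyperfilter ℕ).map u : Filter ℝ) ≤ 𝓟 (Set.Icc (-C) C) := by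
    rw [Filter.le_principal_iff]
    change u ⁻¹' (Set.Icc (-C) C) ∈ (hyperfilter ℕ : Filter ℕ)
    exact Filter.mem_of_superset Filter.univ_mem (fun n _ => abs_le.mp (h n))
  obtain ⟨x, _, hx⟩ := hc.ultrafilter_le_nhds ((hyperfilter ℕ).map u) hle
  exact tendsto_nhds_limUnder ⟨x, hx⟩

lemma ulim_eq_of_tendsto_hyper {u : ℕ → ℝ} {a : ℝ} (h : Tendsto u (hyperfilter ℕ : Filter ℕ) (𝓝 a)) :
    ulim u = a :=
  tendsto_nhds_unique (tendsto_nhds_limUnder ⟨a, h⟩) h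

lemma ulim_eq_of_tendsto {u : ℕ → ℝ} {a : ℝ} (h : Tendsto u atTop (𝓝 a)) : ulim u = a := by
  apply ulim_eq_of_tendsto_hyper
  refine h.mono_left ?_
  rw [← Nat.cofinite_eq_atTop]
  exact hyperfilter_le_cofinite

lemma ulim_const (a : ℝ) : ulim (fun _ => a) = a := ulim_eq_of_tendsto tendsto_const_nhds

lemma ulim_add {u v : ℕ → ℝ} {C D : ℝ} (hu : ∀ n, |u n| ≤ C) (hv : ∀ n, |v n| ≤ D) :
    ulim (fun n => u n + v n) = ulim u + ulim v :=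
  ulim_eq_of_tendsto_hyper ((tendsto_ulim hu).add (tendsto_ulim hv))

lemma ulim_smul {u : ℕ → ℝ} {C : ℝ} (c : ℝ) (hu : ∀ n, |u n| ≤ C) :
    ulim (fun n => c * u n) = c * ulim u :=
  ulim_eq_of_tendsto_hyper ((tendsto_ulim hu).const_mul c)

lemma ulim_sub {u v : ℕ → ℝ} {C D : ℝ} (hu : ∀ n, |u n| ≤ C) (hv : ∀ n, |v n| ≤ D) :
    ulim (fun n => u n - v n) = ulim u - ulim v :=
  ulim_eq_of_tendsto_hyper ((tendsto_ulim hu).sub (tendsto_ulim hv))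

lemma abs_ulim_le {u : ℕ → ℝ} {C : ℝ} (hu : ∀ n, |u n| ≤ C) : |ulim u| ≤ C :=
  le_of_tendsto' (tendsto_ulim hu).abs hu

lemma abs_ulim_sub_le {u v : ℕ → ℝ} {C D E : ℝ} (hu : ∀ n, |u n| ≤ C) (hv : ∀ n, |v n| ≤ D)
    (h : ∀ n, |u n - v n| ≤ E) : |ulim u - ulim v| ≤ E := by
  rw [← ulim_sub hu hv]
  exact abs_ulim_le h

end Pool.Agent.H86R3
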