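import Pool.Agent.H86R3.Rosenthal

set_option autoImplicit false

open Filter Topology Set

namespace Pool.Agent.H86R3

section
variable {K : Type*} [TopologicalSpace K] {X : Type*} [NormedAddCommGroup X]
  [NormedSpace ℝ X]

/-- Soft threshold of a vector valued continuous function. -/
noncomputable def soft (η : ℝ) (hη : 0 < η) (G : C(K, X)) : C(K, X) :=
  ⟨fun t => (max (‖G t‖ - η) 0 / max ‖G t‖ η) • G t, by
    have h1 : Continuous fun t => ‖G t‖ := G.continuous.norm
    refine Continuous.smul (Continuous.div ((h1.sub continuous_const).max continuous_const)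
      (h1.max continuous_const) fun t => ?_) G.continuous
    have : 0 < max ‖G t‖ η := lt_max_of_lt_right hη
    exact this.ne'⟩

lemma soft_apply (η : ℝ) (hη : 0 < η) (G : C(K, X)) (t : K) :
    soft η hη G t = (max (‖G t‖ - η) 0 / max ‖G t‖ η) • G t := rfl

lemma soft_eq_zero (η : ℝ) (hη : 0 < η) (G : C(K, X)) {t : K} (ht : ‖G t‖ ≤ η) :
    soft η hη G t = 0 := by
  rw [soft_apply, max_eq_right (by linarith), zero_div, zero_smul]

lemma norm_soft_le (η : ℝ) (hη : 0 < η) (G : C(K, X)) (t : K) :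
    ‖soft η hη G t‖ ≤ ‖G t‖ := by
  rw [soft_apply, norm_smul, Real.norm_eq_abs]
  have h1 : 0 < max ‖G t‖ η := lt_max_of_lt_right hη
  have h2 : |max (‖G t‖ - η) 0 / max ‖G t‖ η| ≤ 1 := by
    rw [abs_of_nonneg (div_nonneg (le_max_right _ _) h1.le), div_le_one h1]
    apply max_le
    · exact (by linarith : ‖G t‖ - η ≤ ‖G t‖).trans (le_max_left _ _)
    · exact h1.le
  calc _ ≤ 1 * ‖G t‖ := by gcongr
    _ = ‖G t‖ := one_mul _

lemma norm_sub_soft_apply (η : ℝ) (hη : 0 < η) (G : C(K, X)) (t : K) :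
    ‖G t - soft η hη G t‖ ≤ η := by
  rcases le_or_gt ‖G t‖ η with h | h
  · rw [soft_eq_zero η hη G h, sub_zero]; exact h
  · rw [soft_apply, max_eq_left (by linarith : (0 : ℝ) ≤ ‖G t‖ - η), max_eq_left h.le]
    have h0 : 0 < ‖G t‖ := hη.trans h
    have : G t - ((‖G t‖ - η) / ‖G t‖) • G t = (η / ‖G t‖) • G t := by
      have : G t - ((‖G t‖ - η) / ‖G t‖) • G t = (1 - (‖G t‖ - η) / ‖G t‖) • G t := by
        rw [sub_smul, one_smul]
      rw [this]
      congr 1
      field_simp
      ring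
    rw [this, norm_smul, Real.norm_eq_abs, abs_of_nonneg (by positivity)]
    rw [div_mul_cancel₀ _ h0.ne']

end

variable {K : Type*} [TopologicalSpace K] [CompactSpace K] {X : Type*} [NormedAddCommGroup X]
  [NormedSpace ℝ X]

lemma norm_sub_soft (η : ℝ) (hη : 0 < η) (G : C(K, X)) : ‖G - soft η hη G‖ ≤ η := by
  rw [ContinuousMap.norm_le _ hη.le]
  intro t
  exact norm_sub_soft_apply η hη G t

lemma norm_soft (η : ℝ) (hη : 0 < η) (G : C(K, X)) : ‖soft η hη G‖ ≤ ‖G‖ := by
  rw [ContinuousMap.norm_le _ (norm_nonneg _)]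
  intro t
  exact (norm_soft_le η hη G t).trans (G.norm_coe_le_norm t)

/-- Multiplication of a vector valued function by a scalar function. -/
noncomputable def sm (φ : C(K, ℝ)) (H : C(K, X)) : C(K, X) :=
  ⟨fun t => φ t • H t, φ.continuous.smul H.continuous⟩

@[simp] lemma sm_apply (φ : C(K, ℝ)) (H : C(K, X)) (t : K) : sm φ H t = φ t • H t := rfl

lemma norm_sm_le (φ : C(K, ℝ)) (H : C(K, X)) {a b : ℝ} (ha : 0 ≤ a) (hb : 0 ≤ b)
    (h1 : ∀ t, |φ t| ≤ a) (h2 : ∀ t, ‖H t‖ ≤ b) : ‖sm φ H‖ ≤ a * b := by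
  rw [ContinuousMap.norm_le _ (by positivity)]
  intro t
  rw [sm_apply, norm_smul]
  exact mul_le_mul (h1 t) (h2 t) (norm_nonneg _) ha

/-- The variation of `μ` on `O` is at most `c`. -/
def V (μ : C(K, X) →L[ℝ] ℝ) (O : Set K) (c : ℝ) : Prop :=
  ∀ G : C(K, X), ‖G‖ ≤ 1 → (∀ t, t ∉ O → G t = 0) → |μ G| ≤ c

lemma V.mono {μ : C(K, X) →L[ℝ] ℝ} {O O' : Set K} {c c' : ℝ} (h : V μ O c) (hO : O' ⊆ O)
    (hc : c ≤ c') : V μ O' c' :=
  fun G hG hG0 => (h G hG fun t ht => hG0 t fun h' => ht (hO h')).trans hc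

lemma V.union [T2Space K] {μ : C(K, X) →L[ℝ] ℝ} {W₁ W₂ : Set K} {a b : ℝ} (h1 : V μ W₁ a)
    (h2 : V μ W₂ b) (hW1 : IsOpen W₁) (hW2 : IsOpen W₂) : V μ (W₁ ∪ W₂) (a + b) := by
  intro G hG hG0
  apply le_of_forall_pos_le_add
  intro ε hε
  set η : ℝ := ε / (‖μ‖ + 1) with hηd
  have hη : 0 < η := by positivity
  set G' := soft η hη G with hG'
  set C : Set K := {t | η ≤ ‖G t‖} with hC
  have hCc : IsClosed C := isClosed_le continuous_const G.continuous.norm
  have hG'0 : ∀ t, t ∉ C → G' t = 0 := fun t ht => soft_eq_zero η hη G (not_le.mp ht).le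
  have hCW : C ⊆ W₁ ∪ W₂ := by
    intro t ht
    by_contra h
    have := hG0 t h
    rw [hC, mem_ofPred_eq, this, norm_zero] at ht
    linarith
  obtain ⟨φ, hφ0, hφ1, hφ⟩ := exists_continuous_zero_one_of_isClosed (X := K)
    (hCc.sdiff hW1) (hCc.sdiff hW2) (by
      rw [Set.disjoint_left]
      rintro t ⟨ht, ht1⟩ ⟨_, ht2⟩
      rcases hCW ht with h | h
      · exact ht1 h
      · exact ht2 h)
  have hsplit : G' = sm φ G' + sm (1 - φ) G' := by
    ext t
    simp [sub_smul]
  have hG'n : ∀ t, ‖G' t‖ ≤ 1 := fun t => (norm_soft_le η hη G t).trans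
    ((G.norm_coe_le_norm t).trans hG)
  have e1 : |μ (sm φ G')| ≤ a := by
    apply h1
    · have := norm_sm_le φ G' zero_le_one zero_le_one (fun t => by
        rw [abs_of_nonneg (hφ t).1]; exact (hφ t).2) hG'n
      simpa using this
    · intro t ht
      rw [sm_apply]
      by_cases htC : t ∈ C
      · have : φ t = 0 := hφ0 ⟨htC, ht⟩
        rw [this, zero_smul]
      · rw [hG'0 t htC, smul_zero]
  have e2 : |μ (sm (1 - φ) G')| ≤ b := by
    apply h2
    · have := norm_sm_le (1 - φ) G' zero_le_one zero_le_one (fun t => by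
        have h3 := hφ t
        rw [ContinuousMap.sub_apply, ContinuousMap.one_apply,
          abs_of_nonneg (by linarith [h3.2])]
        linarith [h3.1]) hG'n
      simpa using this
    · intro t ht
      rw [sm_apply]
      by_cases htC : t ∈ C
      · have : φ t = 1 := hφ1 ⟨htC, ht⟩
        simp [this]
      · rw [hG'0 t htC, smul_zero]
  have e3 : |μ (G - G')| ≤ ε := by
    calc |μ (G - G')| ≤ ‖μ‖ * ‖G - G'‖ := μ.le_opNorm _
      _ ≤ ‖μ‖ * η := by gcongr; exact norm_sub_soft η hη G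
      _ = ε * (‖μ‖ / (‖μ‖ + 1)) := by rw [hηd]; ring
      _ ≤ ε * 1 := by
          gcongr
          rw [div_le_one (by positivity)]; linarith
      _ = ε := mul_one _
  have e4 : μ G = μ (G - G') + (μ (sm φ G') + μ (sm (1 - φ) G')) := by
    rw [← map_add, ← hsplit, ← map_add, sub_add_cancel]
  rw [e4]
  calc _ ≤ |μ (G - G')| + |μ (sm φ G') + μ (sm (1 - φ) G')| := abs_add_le _ _
    _ ≤ |μ (G - G')| + (|μ (sm φ G')| + |μ (sm (1 - φ) G')|) := by gcongr; exact abs_add_le _ _
    _ ≤ a + b + ε := by linarith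

lemma inner_reg (μ : C(K, X) →L[ℝ] ℝ) (O : Set K) {δ : ℝ} (hδ : 0 < δ) :
    ∃ C : Set K, IsClosed C ∧ C ⊆ O ∧ V μ (O \ C) δ := by
  set S : Set ℝ := {r | ∃ G : C(K, X), ‖G‖ ≤ 1 ∧ (∀ t, t ∉ O → G t = 0) ∧ r = μ G} with hS
  have hSb : BddAbove S := by
    refine ⟨‖μ‖, ?_⟩
    rintro r ⟨G, hG, _, rfl⟩
    calc μ G ≤ ‖μ G‖ := le_abs_self _
      _ ≤ ‖μ‖ * ‖G‖ := μ.le_opNorm _
      _ ≤ ‖μ‖ * 1 := by gcongr
      _ = ‖μ‖ := mul_one _
  have hSn : S.Nonempty := ⟨0, 0, by simp, fun _ _ => rfl, by simp⟩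
  obtain ⟨r, ⟨G, hG, hG0, rfl⟩, hr⟩ := exists_lt_of_lt_csSup hSn
    (show sSup S - δ / 2 < sSup S by linarith)
  set η : ℝ := δ / (2 * (‖μ‖ + 1)) with hηd
  have hη : 0 < η := by positivity
  refine ⟨{t | η ≤ ‖G t‖}, isClosed_le continuous_const G.continuous.norm, ?_, ?_⟩
  · intro t ht
    by_contra h
    have := hG0 t h
    rw [mem_ofPred_eq, this, norm_zero] at ht
    linarith
  · intro H hH hH0
    have key : ∀ σ : ℝ, |σ| = 1 → σ * μ H ≤ δ := by
      intro σ hσ
      have hmem : μ (soft η hη G + σ • H) ∈ S := by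
        refine ⟨_, ?_, ?_, rfl⟩
        · rw [ContinuousMap.norm_le _ zero_le_one]
          intro t
          rw [ContinuousMap.add_apply, ContinuousMap.smul_apply]
          by_cases ht : η ≤ ‖G t‖
          · rw [hH0 t (fun h => h.2 ht), smul_zero, add_zero]
            exact (norm_soft_le η hη G t).trans ((G.norm_coe_le_norm t).trans hG)
          · rw [soft_eq_zero η hη G (not_le.mp ht).le, zero_add, norm_smul, Real.norm_eq_abs, hσ,
              one_mul]
            exact (H.norm_coe_le_norm t).trans hH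
        · intro t ht
          rw [ContinuousMap.add_apply, ContinuousMap.smul_apply, hH0 t (fun h => ht h.1),
            soft_eq_zero η hη G (by rw [hG0 t ht, norm_zero]; exact hη.le)]
          simp
      have h1 := le_csSup hSb hmem
      rw [map_add, map_smul, smul_eq_mul] at h1
      have h2 : |μ (G - soft η hη G)| ≤ δ / 2 := by
        calc |μ (G - soft η hη G)| ≤ ‖μ‖ * ‖G - soft η hη G‖ := μ.le_opNorm _
          _ ≤ ‖μ‖ * η := by gcongr; exact norm_sub_soft η hη G
          _ = δ / 2 * (‖μ‖ / (‖μ‖ + 1)) := by rw [hηd]; field_simp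
          _ ≤ δ / 2 * 1 := by
              gcongr
              rw [div_le_one (by positivity)]; linarith
          _ = δ / 2 := mul_one _
      rw [map_sub, abs_le] at h2
      linarith [h2.1, h2.2]
    rw [abs_le]
    have k1 := key 1 (by simp)
    have k2 := key (-1) (by simp)
    constructor <;> linarith

/-- The variation tends to zero along decreasing open sets with empty intersection. -/
lemma V_tendsto_zero [T2Space K] (μ : C(K, X) →L[ℝ] ℝ) (O : ℕ → Set K) (hO : ∀ n, IsOpen (O n))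
    (hanti : Antitone O) (hemp : ⋂ n, O n = ∅) {ε : ℝ} (hε : 0 < ε) : ∃ k, V μ (O k) ε := by
  by_contra hcon
  push Not at hcon
  choose C hCc hCO hCV using fun k : ℕ => inner_reg μ (O k) (δ := ε / 2 ^ (k + 1)) (by positivity)
  set D : ℕ → Set K := fun k => ⋂ j ∈ Finset.range (k + 1), C j with hD
  have hU : ∀ k, V μ (⋃ j ∈ Finset.range (k + 1), (O j \ C j))
      (∑ j ∈ Finset.range (k + 1), ε / 2 ^ (j + 1)) := by
    intro k
    induction k with
    | zero =>
      have := hCV 0
      simpa using this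
    | succ k ih =>
      have hop : IsOpen (⋃ j ∈ Finset.range (k + 1), (O j \ C j)) :=
        isOpen_biUnion fun j _ => (hO j).sdiff (hCc j)
      have h1 := ih.union (hCV (k + 1)) hop ((hO _).sdiff (hCc _))
      rw [Finset.sum_range_succ]
      refine h1.mono ?_ le_rfl
      intro t ht
      rw [mem_iUnion₂] at ht
      obtain ⟨j, hj, htj⟩ := ht
      rw [Finset.mem_range] at hj
      rcases Nat.lt_succ_iff_lt_or_eq.mp hj with h | h
      · left
        rw [mem_iUnion₂]
        exact ⟨j, Finset.mem_range.mpr h, htj⟩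
      · right
        rw [← h]; exact htj
  have hsum : ∀ k : ℕ, ∑ j ∈ Finset.range (k + 1), ε / 2 ^ (j + 1) ≤ ε := by
    intro k
    have : ∀ n : ℕ, ∑ j ∈ Finset.range n, ε / 2 ^ (j + 1) = ε - ε / 2 ^ n := by
      intro n
      induction n with
      | zero => simp
      | succ n ih =>
        rw [Finset.sum_range_succ, ih, pow_succ]
        field_simp
        ring
    rw [this]
    have : 0 < ε / 2 ^ (k + 1) := by positivity
    linarith
  have hDne : ∀ k, (D k).Nonempty := by
    intro k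
    rw [Set.nonempty_iff_ne_empty]
    intro hempty
    apply hcon k
    refine (hU k).mono ?_ (hsum k)
    intro t ht
    have htD : t ∉ D k := by rw [hempty]; exact notMem_empty t
    rw [hD] at htD
    simp only [mem_iInter, not_forall] at htD
    obtain ⟨j, hj, htj⟩ := htD
    rw [mem_iUnion₂]
    refine ⟨j, hj, ?_, htj⟩
    rw [Finset.mem_range] at hj
    exact hanti (Nat.lt_succ_iff.mp hj) ht
  have hDc : ∀ k, IsClosed (D k) := fun k => isClosed_biInter fun j _ => hCc j
  have hDm : ∀ k, D (k + 1) ⊆ D k := by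
    intro k t ht
    simp only [hD, mem_iInter] at ht ⊢
    intro j hj
    exact ht j (Finset.mem_range.mpr (by have := Finset.mem_range.mp hj; omega))
  obtain ⟨t, ht⟩ := IsCompact.nonempty_iInter_of_sequence_nonempty_isCompact_isClosed D hDm hDne
    (hDc 0).isCompact hDc
  have : t ∈ ⋂ n, O n := by
    rw [mem_iInter] at ht ⊢
    intro n
    have h1 := ht n
    simp only [hD, mem_iInter] at h1
    exact hCO n (h1 n (Finset.mem_range.mpr (Nat.lt_succ_self n)))
  rw [hemp] at this
  exact this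

end Pool.Agent.H86R3
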