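import Pool.Agent.H86R3.WncDefs
import Pool.Agent.H86R3.VecMeas

set_option autoImplicit false

open Filter Topology Set
open scoped ENNReal NNReal

namespace Pool.Agent.H86R3.Wnc

variable {K : Type*} [TopologicalSpace K]

/-- `max_{a < m < b} e_m`. -/
noncomputable def gg (e : ℕ → C(K, ℝ≥0)) (a b : ℕ) : C(K, ℝ≥0) :=
  ⟨fun t => (Finset.Ioo a b).sup (fun m => e m t),
    Continuous.finset_sup_apply fun m _ => (e m).continuous⟩

lemma gg_apply (e : ℕ → C(K, ℝ≥0)) (a b : ℕ) (t : K) :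
    gg e a b t = (Finset.Ioo a b).sup (fun m => e m t) := rfl

/-- The functions `f_s`, lists are written with the last index first. -/
noncomputable def FF (e : ℕ → C(K, ℝ≥0)) : List ℕ → C(K, ℝ≥0)
  | [] => 0
  | [_] => 0
  | b :: a :: l => gg e a b + FF e (a :: l)

/-- Extensions of `s` by `k` further indices, increasing and larger than `a`. -/
def EE : ℕ → ℕ → List ℕ → Set (List ℕ)
  | 0, _, s => {s}
  | k + 1, a, s => {s' | ∃ m, a < m ∧ s' ∈ EE k m (m :: s)}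

lemma gg_le_one {e : ℕ → C(K, ℝ≥0)} (he : ∀ m t, e m t ≤ 1) (a b : ℕ) (t : K) :
    gg e a b t ≤ 1 := by
  rw [gg_apply]
  exact Finset.sup_le fun m _ => he m t

lemma FF_cons_ge (e : ℕ → C(K, ℝ≥0)) (m : ℕ) (s : List ℕ) (t : K) : FF e s t ≤ FF e (m :: s) t := by
  cases s with
  | nil => simp [FF]
  | cons a l =>
    rw [FF, ContinuousMap.add_apply]
    exact le_add_of_nonneg_left (zero_le)

lemma FF_cons_le {e : ℕ → C(K, ℝ≥0)} (he : ∀ m t, e m t ≤ 1) (m : ℕ) (s : List ℕ) (t : K) :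
    FF e (m :: s) t ≤ FF e s t + 1 := by
  cases s with
  | nil => simp [FF]
  | cons a l =>
    rw [FF, ContinuousMap.add_apply, add_comm]
    gcongr
    exact gg_le_one he a m t

lemma FF_ext (e : ℕ → C(K, ℝ≥0)) (k : ℕ) : ∀ (m : ℕ) (s s' : List ℕ), s' ∈ EE k m (m :: s) →
    ∀ t, FF e (m :: s) t ≤ FF e s' t ∧
      ∀ η : ℝ≥0, (∀ m', m < m' → e m' t ≤ η) → FF e s' t ≤ FF e (m :: s) t + k * η := by
  induction k with
  | zero =>
    intro m s s' hs' t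
    have h0 : s' = m :: s := hs'
    rw [h0]
    exact ⟨le_rfl, fun η _ => by simp⟩
  | succ k ih =>
    intro m s s' hs' t
    obtain ⟨m', hm', hs''⟩ := hs'
    obtain ⟨h1, h2⟩ := ih m' (m :: s) s' hs'' t
    refine ⟨(FF_cons_ge e m' (m :: s) t).trans h1, fun η hη => ?_⟩
    have h3 := h2 η (fun m'' hm'' => hη m'' (hm'.trans hm''))
    have h4 : FF e (m' :: m :: s) t = gg e m m' t + FF e (m :: s) t := rfl
    have h5 : gg e m m' t ≤ η := by
      rw [gg_apply]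
      exact Finset.sup_le fun j hj => hη j (Finset.mem_Ioo.mp hj).1
    rw [h4] at h3
    calc FF e s' t ≤ gg e m m' t + FF e (m :: s) t + k * η := h3
      _ ≤ η + FF e (m :: s) t + k * η := by gcongr
      _ = FF e (m :: s) t + ((k + 1 : ℕ) : ℝ≥0) * η := by push_cast; ring

/-- Upper bound for all `f_s`. -/
lemma FF_le {e : ℕ → C(K, ℝ≥0)} (he : ∀ m t, e m t ≤ 1) (s : List ℕ) (t : K) :
    FF e s t ≤ s.length := by
  induction s with
  | nil => simp [FF]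
  | cons m s ih =>
    calc FF e (m :: s) t ≤ FF e s t + 1 := FF_cons_le he m s t
      _ ≤ s.length + 1 := by gcongr
      _ = ((m :: s).length : ℝ≥0) := by simp

lemma EE_length (k : ℕ) : ∀ (a : ℕ) (s s' : List ℕ), s' ∈ EE k a s →
    s'.length = s.length + k := by
  induction k with
  | zero => intro a s s' h; rw [show s' = s from h]; rfl
  | succ k ih =>
    intro a s s' h
    obtain ⟨m, _, h⟩ := h
    have := ih m (m :: s) s' h
    rw [this, List.length_cons]; omega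

/-- Complexification of a nonnegative continuous function. -/
noncomputable def toC (f : C(K, ℝ≥0)) : C(K, ℂ) :=
  ⟨fun t => ((f t : ℝ) : ℂ), Complex.continuous_ofReal.comp (NNReal.continuous_coe.comp f.continuous)⟩

@[simp] lemma toC_apply (f : C(K, ℝ≥0)) (t : K) : toC f t = ((f t : ℝ) : ℂ) := rfl

variable [CompactSpace K] [T2Space K]

/-- Functionals are small on functions controlled by the tails of a pointwise null sequence. -/
lemma tail_small {e : ℕ → C(K, ℝ≥0)} (he : ∀ m t, e m t ≤ 1)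
    (he0 : ∀ t, Tendsto (fun m => e m t) atTop (𝓝 0)) (φ : StrongDual ℂ C(K, ℂ)) (k : ℕ)
    {ε : ℝ} (hε : 0 < ε) : ∃ M0 : ℕ, ∀ R : C(K, ℂ),
      (∀ t, ∀ η : ℝ≥0, (∀ m, M0 < m → e m t ≤ η) → ‖R t‖ ≤ k * η) → ‖φ R‖ ≤ ε := by
  set μ₁ : C(K, ℂ) →L[ℝ] ℝ := Complex.reCLM.comp (φ.restrictScalars ℝ) with hμ₁
  set μ₂ : C(K, ℂ) →L[ℝ] ℝ := Complex.imCLM.comp (φ.restrictScalars ℝ) with hμ₂
  set ε' : ℝ := ε / (4 * (k + 1)) with hε'
  have hε'0 : 0 < ε' := by positivity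
  set η : ℝ≥0 := ⟨ε / (4 * (k + 1) * (‖μ₁‖ + ‖μ₂‖ + 1)), by positivity⟩ with hη
  have hη0 : (0 : ℝ) < η := by
    change 0 < ε / (4 * (k + 1) * (‖μ₁‖ + ‖μ₂‖ + 1))
    positivity
  have hη0' : 0 < η := by exact_mod_cast hη0
  set O : ℕ → Set K := fun N => {t | ∃ m, N < m ∧ η < e m t} with hO
  have hOo : ∀ N, IsOpen (O N) := by
    intro N
    have : O N = ⋃ m, ⋃ (_ : N < m), {t | η < e m t} := by
      ext t; simp [hO]
    rw [this]
    exact isOpen_iUnion fun m => isOpen_iUnion fun _ => isOpen_lt continuous_const (e m).continuous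
  have hOa : Antitone O := by
    rintro N N' h t ⟨m, hm, hmt⟩
    exact ⟨m, lt_of_le_of_lt h hm, hmt⟩
  have hOe : ⋂ N, O N = ∅ := by
    rw [eq_empty_iff_forall_notMem]
    intro t ht
    rw [mem_iInter] at ht
    have h1 : ∀ᶠ m in atTop, e m t < η := (he0 t).eventually_lt_const hη0'
    obtain ⟨N, hN⟩ := eventually_atTop.mp h1
    obtain ⟨m, hm, hmt⟩ := ht N
    exact absurd (hN m hm.le) (not_lt.mpr hmt.le)
  obtain ⟨N₁, hN₁⟩ := V_tendsto_zero μ₁ O hOo hOa hOe hε'0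
  obtain ⟨N₂, hN₂⟩ := V_tendsto_zero μ₂ O hOo hOa hOe hε'0
  refine ⟨max N₁ N₂, fun R hR => ?_⟩
  have hR1 : ‖R‖ ≤ k + 1 := by
    rw [ContinuousMap.norm_le _ (by positivity)]
    intro t
    have := hR t 1 (fun m _ => he m t)
    push_cast at this
    linarith
  set κ : ℝ := (k + 1) * η with hκ
  have hκ0 : 0 < κ := by positivity
  have hoff : ∀ t, t ∉ O (max N₁ N₂) → soft κ hκ0 R t = 0 := by
    intro t ht
    apply soft_eq_zero
    have h1 : ∀ m, max N₁ N₂ < m → e m t ≤ η := by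
      intro m hm
      by_contra h
      exact ht ⟨m, hm, not_le.mp h⟩
    have := hR t η h1
    rw [hκ]
    linarith
  have hs : ‖soft κ hκ0 R‖ ≤ k + 1 := (norm_soft κ hκ0 R).trans hR1
  have hk1 : (0 : ℝ) < k + 1 := by positivity
  have hμκ : ∀ μ : C(K, ℂ) →L[ℝ] ℝ, ‖μ‖ ≤ ‖μ₁‖ + ‖μ₂‖ + 1 → ‖μ‖ * κ ≤ ε / 4 := by
    intro μ hμ
    calc ‖μ‖ * κ ≤ (‖μ₁‖ + ‖μ₂‖ + 1) * κ := by gcongr
      _ = ε / 4 := by
          rw [hκ]
          change (‖μ₁‖ + ‖μ₂‖ + 1) * ((k + 1) * (ε / (4 * (k + 1) * (‖μ₁‖ + ‖μ₂‖ + 1)))) = _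
          have : ‖μ₁‖ + ‖μ₂‖ + 1 ≠ 0 := by positivity
          field_simp
  have hboth : ∀ (μ : C(K, ℂ) →L[ℝ] ℝ) (N : ℕ), V μ (O N) ε' → N ≤ max N₁ N₂ →
      ‖μ‖ ≤ ‖μ₁‖ + ‖μ₂‖ + 1 → |μ R| ≤ ε / 2 := by
    intro μ N hV hN hμ
    have h1 : |μ (R - soft κ hκ0 R)| ≤ ε / 4 := by
      calc |μ (R - soft κ hκ0 R)| ≤ ‖μ‖ * ‖R - soft κ hκ0 R‖ := μ.le_opNorm _
        _ ≤ ‖μ‖ * κ := by gcongr; exact norm_sub_soft κ hκ0 R
        _ ≤ ε / 4 := hμκ μ hμ
    have h2 : |μ (soft κ hκ0 R)| ≤ ε / 4 := by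
      have hV' := hV.mono (hOa hN) le_rfl
      have h3 := hV' (((k : ℝ) + 1)⁻¹ • soft κ hκ0 R) (by
        rw [norm_smul, Real.norm_eq_abs, abs_of_pos (inv_pos.mpr hk1), inv_mul_le_iff₀ hk1,
          mul_one]
        exact hs) (fun t ht => by
          rw [ContinuousMap.smul_apply, hoff t ht, smul_zero])
      rw [map_smul, smul_eq_mul, abs_mul, abs_of_pos (inv_pos.mpr hk1),
        inv_mul_le_iff₀ hk1] at h3
      calc _ ≤ (k + 1) * ε' := h3
        _ = ε / 4 := by rw [hε']; field_simp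
    have h3 : μ R = μ (R - soft κ hκ0 R) + μ (soft κ hκ0 R) := by
      rw [← map_add, sub_add_cancel]
    rw [h3]
    calc _ ≤ _ := abs_add_le _ _
      _ ≤ ε / 2 := by linarith
  have hb1 := hboth μ₁ N₁ hN₁ (le_max_left _ _) (by linarith [norm_nonneg μ₂])
  have hb2 := hboth μ₂ N₂ hN₂ (le_max_right _ _) (by linarith [norm_nonneg μ₁])
  have e1 : μ₁ R = (φ R).re := rfl
  have e2 : μ₂ R = (φ R).im := rfl
  calc ‖φ R‖ ≤ |(φ R).re| + |(φ R).im| := Complex.norm_le_abs_re_add_abs_im _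
    _ ≤ ε := by rw [← e1, ← e2]; linarith

end Pool.Agent.H86R3.Wnc
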