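import Pool.Agent.H86R3.Wnc2

set_option autoImplicit false

open Filter Topology Set
open scoped ENNReal NNReal

namespace Pool.Agent.H86R3.Wnc

variable {K : Type*} [TopologicalSpace K] [CompactSpace K]

omit [CompactSpace K] in
lemma ev_and_gt {p : ℕ → Prop} (hp : ∀ᶠ m in (hyperfilter ℕ : Filter ℕ), p m) (b : ℕ) :
    ∃ m, b < m ∧ p m := by
  have h1 : ∀ᶠ m in (hyperfilter ℕ : Filter ℕ), b < m := by
    apply hyperfilter_le_cofinite
    rw [Nat.cofinite_eq_atTop]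
    exact eventually_gt_atTop b
  obtain ⟨m, hm⟩ := (h1.and hp).exists
  exact ⟨m, hm⟩

/-- Lower bound for the De Blasi measure. -/
lemma lower {e : ℕ → C(K, ℝ≥0)} 
    (he0 : ∀ t, Tendsto (fun m => e m t) atTop (𝓝 0)) (n : ℕ)
    (hpts : ∀ u : Finset ℕ, u.card ≤ n + 1 → ∃ t, ∀ m ∈ u, e m t = 1) :
    ENNReal.ofReal (n / 2) ≤ deBlasi (AA e (n + 1) 0 []) := by
  refine le_iInf fun L => le_iInf fun hLne => le_iInf fun hL => ?_
  by_contra hlt
  rw [not_le] at hlt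
  obtain ⟨ρ, hρ0, hρ1, hρ2⟩ := ENNReal.lt_iff_exists_real_btwn.mp hlt
  have hρn : ρ < n / 2 := (ENNReal.ofReal_lt_ofReal_iff_of_nonneg hρ0).mp hρ2
  have hex : ∀ s : List ℕ, ∃ y : L, s ∈ EE (n + 1) 0 [] → ‖toC (FF e s) - y‖ < ρ := by
    intro s
    by_cases hs : s ∈ EE (n + 1) 0 []
    · have hmem : toC (FF e s) ∈ AA e (n + 1) 0 [] := ⟨s, hs, rfl⟩
      have h1 : Metric.infEDist (toC (FF e s)) L < ENNReal.ofReal ρ :=
        lt_of_le_of_lt ((excess_le_iff _ _ _).mp le_rfl _ hmem) hρ1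
      obtain ⟨y, hy, hyd⟩ := Metric.infEDist_lt_iff.mp h1
      refine ⟨⟨y, hy⟩, fun _ => ?_⟩
      rw [edist_dist, dist_eq_norm] at hyd
      exact (ENNReal.ofReal_lt_ofReal_iff_of_nonneg (norm_nonneg _)).mp hyd
    · obtain ⟨y, hy⟩ := hLne
      exact ⟨⟨y, hy⟩, fun h => absurd h hs⟩
  choose h hh using hex
  have hW : ∀ x : ℕ → L, ∃ y : L, ∀ φ : StrongDual ℂ C(K, ℂ),
      Tendsto (fun m => φ (x m : C(K, ℂ))) (hyperfilter ℕ : Filter ℕ) (𝓝 (φ y)) := by
    intro x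
    obtain ⟨y, hy, hφ⟩ := weak_limit hL (fun m => (x m : C(K, ℂ))) (fun m => (x m).2)
    exact ⟨⟨y, hy⟩, hφ⟩
  choose W hW using hW
  let hk : ℕ → List ℕ → L := fun k => Nat.rec (motive := fun _ => List ℕ → L) h
    (fun _ f s => W (fun m => f (m :: s))) k
  have hk0 : ∀ s, hk 0 s = h s := fun s => rfl
  have hks : ∀ k s, hk (k + 1) s = W (fun m => hk k (m :: s)) := fun k s => rfl
  have hklim : ∀ k s (x : K), Tendsto (fun m => (hk k (m :: s) : C(K, ℂ)) x)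
      (hyperfilter ℕ : Filter ℕ) (𝓝 ((hk (k + 1) s : C(K, ℂ)) x)) := by
    intro k s x
    exact hW (fun m => (hk k (m :: s) : L)) (ContinuousMap.evalCLM ℂ x)
  -- points
  have hτ : ∀ u : List ℕ, ∃ t : K, u.length ≤ n + 1 → ∀ m ∈ u, e m t = 1 := by
    intro u
    by_cases hu : u.length ≤ n + 1
    · obtain ⟨t, ht⟩ := hpts u.toFinset ((List.toFinset_card_le u).trans hu)
      exact ⟨t, fun _ m hm => ht m (List.mem_toFinset.mpr hm)⟩
    · obtain ⟨t, _⟩ := hpts ∅ (by simp)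
      exact ⟨t, fun h => absurd h hu⟩
  choose τ hτ using hτ
  have hP : ∀ x : ℕ → K, ∃ y : K, Tendsto x (hyperfilter ℕ : Filter ℕ) (𝓝 y) := by
    intro x
    obtain ⟨y, _, hy⟩ := (isCompact_univ (X := K)).ultrafilter_le_nhds
      ((hyperfilter ℕ).map x) (by simp)
    exact ⟨y, hy⟩
  choose P hP using hP
  let τk : ℕ → List ℕ → K := fun k => Nat.rec (motive := fun _ => List ℕ → K) τ
    (fun _ f u => P (fun m => f (m :: u))) k
  have hτklim : ∀ k u, Tendsto (fun m => τk k (m :: u)) (hyperfilter ℕ : Filter ℕ)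
      (𝓝 (τk (k + 1) u)) := fun k u => hP (fun m => τk k (m :: u))
  -- one step in each variable
  have stepS : ∀ k s (x : K) (η : ℝ), 0 < η → ∀ b : ℕ, ∃ i, b < i ∧
      ‖(hk k (i :: s) : C(K, ℂ)) x - (hk (k + 1) s : C(K, ℂ)) x‖ ≤ η := by
    intro k s x η hη b
    have h1 := (Metric.tendsto_nhds.mp (hklim k s x)) η hη
    obtain ⟨m, hm, hm'⟩ := ev_and_gt h1 b
    exact ⟨m, hm, by rw [← dist_eq_norm]; exact hm'.le⟩
  have stepT : ∀ k u (f : C(K, ℂ)) (η : ℝ), 0 < η → ∀ b : ℕ, ∃ j, b < j ∧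
      ‖f (τk k (j :: u)) - f (τk (k + 1) u)‖ ≤ η := by
    intro k u f η hη b
    have h0 : Tendsto (fun m => f (τk k (m :: u))) (hyperfilter ℕ : Filter ℕ)
        (𝓝 (f (τk (k + 1) u))) := (f.continuous.tendsto _).comp (hτklim k u)
    have h1 := (Metric.tendsto_nhds.mp h0) η hη
    obtain ⟨m, hm, hm'⟩ := ev_and_gt h1 b
    exact ⟨m, hm, by rw [← dist_eq_norm]; exact hm'.le⟩
  -- interleaved path
  have path1 : ∀ (η : ℝ), 0 < η → ∀ k a (l u : List ℕ) (b j : ℕ), j ∈ u → a < j → j ≤ b →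
      ∃ s' ∈ EE k a (a :: l), ∃ u' : List ℕ, u'.length = u.length + k ∧ (∀ m ∈ u, m ∈ u') ∧
      ‖(h s' : C(K, ℂ)) (τ u') - (hk k (a :: l) : C(K, ℂ)) (τk k u)‖ ≤ 2 * k * η ∧
      ∀ x, (∀ m ∈ u', e m x = 1) → FF e (a :: l) x + k ≤ FF e s' x := by
    intro η hη k
    induction k with
    | zero =>
      intro a l u b j _ _ _
      refine ⟨a :: l, rfl, u, by simp, fun m hm => hm, ?_, fun x _ => by simp⟩
      change ‖(h (a :: l) : C(K, ℂ)) (τ u) - (h (a :: l) : C(K, ℂ)) (τ u)‖ ≤ _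
      simp
    | succ k ih =>
      intro a l u b j hju haj hjb
      obtain ⟨i, hbi, hi⟩ := stepS k (a :: l) (τk (k + 1) u) η hη b
      obtain ⟨j', hij', hj'⟩ := stepT k u (hk k (i :: a :: l) : C(K, ℂ)) η hη i
      obtain ⟨s', hs', u', hu'l, hu'm, hu'n, hu'F⟩ := ih i (a :: l) (j' :: u) j' j'
        (by simp) hij' le_rfl
      refine ⟨s', ⟨i, by omega, hs'⟩, u', ?_, fun m hm => hu'm m (by simp [hm]), ?_, ?_⟩
      · rw [hu'l, List.length_cons]; omega
      · have e1 : (h s' : C(K, ℂ)) (τ u') - (hk (k + 1) (a :: l) : C(K, ℂ)) (τk (k + 1) u)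
            = ((h s' : C(K, ℂ)) (τ u') - (hk k (i :: a :: l) : C(K, ℂ)) (τk k (j' :: u))) +
              ((hk k (i :: a :: l) : C(K, ℂ)) (τk k (j' :: u)) -
                (hk k (i :: a :: l) : C(K, ℂ)) (τk (k + 1) u)) +
              ((hk k (i :: a :: l) : C(K, ℂ)) (τk (k + 1) u) -
                (hk (k + 1) (a :: l) : C(K, ℂ)) (τk (k + 1) u)) := by ring
        rw [e1]
        refine (norm_add₃_le).trans ?_
        push_cast
        linarith
      · intro x hx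
        have h1 := hu'F x hx
        have h2 : FF e (i :: a :: l) x = gg e a i x + FF e (a :: l) x := rfl
        have h3 : 1 ≤ gg e a i x := by
          rw [gg_apply, ← hx j (hu'm j (by simp [hju]))]
          exact Finset.le_sup (f := fun m => e m x) (Finset.mem_Ioo.mpr ⟨haj, by omega⟩)
        rw [h2] at h1
        calc FF e (a :: l) x + ((k + 1 : ℕ) : ℝ≥0) = 1 + FF e (a :: l) x + k := by
              push_cast; ring
          _ ≤ gg e a i x + FF e (a :: l) x + k := by gcongr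
          _ ≤ FF e s' x := h1
  -- path in the functions only
  have path2 : ∀ (η : ℝ), 0 < η → ∀ k a (s : List ℕ) (x : K), ∃ s' ∈ EE k a s,
      ‖(h s' : C(K, ℂ)) x - (hk k s : C(K, ℂ)) x‖ ≤ k * η := by
    intro η hη k
    induction k with
    | zero =>
      intro a s x
      refine ⟨s, rfl, ?_⟩
      change ‖(h s : C(K, ℂ)) x - (h s : C(K, ℂ)) x‖ ≤ _
      simp
    | succ k ih =>
      intro a s x
      obtain ⟨i, hai, hi⟩ := stepS k s x η hη a
      obtain ⟨s', hs', hs'n⟩ := ih i (i :: s) x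
      refine ⟨s', ⟨i, hai, hs'⟩, ?_⟩
      have e1 : (h s' : C(K, ℂ)) x - (hk (k + 1) s : C(K, ℂ)) x
          = ((h s' : C(K, ℂ)) x - (hk k (i :: s) : C(K, ℂ)) x) +
            ((hk k (i :: s) : C(K, ℂ)) x - (hk (k + 1) s : C(K, ℂ)) x) := by ring
      rw [e1]
      refine (norm_add_le _ _).trans ?_
      push_cast
      linarith
  -- combine
  set x0 : K := τk (n + 1) [] with hx0
  set V0 : ℂ := (hk (n + 1) [] : C(K, ℂ)) x0 with hV0
  have key : ∀ η : ℝ≥0, 0 < η → (n : ℝ) ≤ 2 * ρ + (4 * n + 4) * η := by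
    intro η hη
    have hη' : (0 : ℝ) < η := hη
    -- first path
    obtain ⟨i, hi0, hi⟩ := stepS n [] x0 η hη' 0
    obtain ⟨j, hij, hj⟩ := stepT n [] (hk n [i] : C(K, ℂ)) η hη' i
    obtain ⟨s', hs', u', hu'l, hu'm, hu'n, hu'F⟩ := path1 η hη' n i [] [j] j j (by simp) hij le_rfl
    have hs'E : s' ∈ EE (n + 1) 0 [] := ⟨i, hi0, hs'⟩
    have hu'len : u'.length ≤ n + 1 := by rw [hu'l]; simp [add_comm]
    have hF1 : (n : ℝ) ≤ (FF e s' (τ u') : ℝ) := by
      have h1 := hu'F (τ u') (hτ u' hu'len)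
      have h2 : FF e [i] (τ u') = 0 := rfl
      rw [h2, zero_add] at h1
      exact_mod_cast h1
    have hn1 : ‖(h s' : C(K, ℂ)) (τ u') - V0‖ ≤ (2 * n + 2) * η := by
      have e1 : (h s' : C(K, ℂ)) (τ u') - V0
          = ((h s' : C(K, ℂ)) (τ u') - (hk n [i] : C(K, ℂ)) (τk n [j])) +
            ((hk n [i] : C(K, ℂ)) (τk n [j]) - (hk n [i] : C(K, ℂ)) (τk (n + 1) [])) +
            ((hk n [i] : C(K, ℂ)) x0 - (hk (n + 1) [] : C(K, ℂ)) x0) := by
        rw [hV0, hx0]; ring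
      rw [e1]
      refine (norm_add₃_le).trans ?_
      linarith
    have hd1 : ‖toC (FF e s') (τ u') - (h s' : C(K, ℂ)) (τ u')‖ ≤ ρ := by
      have := ContinuousMap.norm_coe_le_norm (toC (FF e s') - (h s' : C(K, ℂ))) (τ u')
      rw [ContinuousMap.sub_apply] at this
      exact this.trans (hh s' hs'E).le
    have hV1 : (n : ℝ) - ρ - (2 * n + 2) * η ≤ ‖V0‖ := by
      have h1 : ‖toC (FF e s') (τ u')‖ = (FF e s' (τ u') : ℝ) := by
        rw [toC_apply, Complex.norm_real, Real.norm_eq_abs, abs_of_nonneg (NNReal.coe_nonneg _)]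
      have h2 : toC (FF e s') (τ u') = (toC (FF e s') (τ u') - (h s' : C(K, ℂ)) (τ u')) +
          ((h s' : C(K, ℂ)) (τ u') - V0) + V0 := by ring
      have h3 : ‖toC (FF e s') (τ u')‖ ≤ ‖toC (FF e s') (τ u') - (h s' : C(K, ℂ)) (τ u')‖ +
          ‖(h s' : C(K, ℂ)) (τ u') - V0‖ + ‖V0‖ := by
        conv_lhs => rw [h2]
        exact norm_add₃_le
      rw [h1] at h3
      linarith
    -- second path
    have hev : ∀ᶠ m in atTop, e m x0 < η := (he0 x0).eventually_lt_const hη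
    obtain ⟨M, hM⟩ := eventually_atTop.mp hev
    obtain ⟨i2, hi2, hi2'⟩ := stepS n [] x0 η hη' M
    obtain ⟨s'', hs'', hs''n⟩ := path2 η hη' n i2 [i2] x0
    have hs''E : s'' ∈ EE (n + 1) 0 [] := ⟨i2, by omega, hs''⟩
    have hF2 : (FF e s'' x0 : ℝ) ≤ n * η := by
      have h1 := (FF_ext e n i2 [] s'' hs'' x0).2 η (fun m' hm' => (hM m' (by omega)).le)
      have h2 : FF e [i2] x0 = 0 := rfl
      rw [h2, zero_add] at h1
      exact_mod_cast h1
    have hn2 : ‖(h s'' : C(K, ℂ)) x0 - V0‖ ≤ (n + 1) * η := by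
      have e1 : (h s'' : C(K, ℂ)) x0 - V0
          = ((h s'' : C(K, ℂ)) x0 - (hk n [i2] : C(K, ℂ)) x0) +
            ((hk n [i2] : C(K, ℂ)) x0 - (hk (n + 1) [] : C(K, ℂ)) x0) := by
        rw [hV0]; ring
      rw [e1]
      refine (norm_add_le _ _).trans ?_
      linarith
    have hd2 : ‖toC (FF e s'') x0 - (h s'' : C(K, ℂ)) x0‖ ≤ ρ := by
      have := ContinuousMap.norm_coe_le_norm (toC (FF e s'') - (h s'' : C(K, ℂ))) x0
      rw [ContinuousMap.sub_apply] at this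
      exact this.trans (hh s'' hs''E).le
    have hV2 : ‖V0‖ ≤ ρ + (2 * n + 1) * η := by
      have h1 : ‖toC (FF e s'') x0‖ = (FF e s'' x0 : ℝ) := by
        rw [toC_apply, Complex.norm_real, Real.norm_eq_abs, abs_of_nonneg (NNReal.coe_nonneg _)]
      have h2 : V0 = toC (FF e s'') x0 - (toC (FF e s'') x0 - (h s'' : C(K, ℂ)) x0) -
          ((h s'' : C(K, ℂ)) x0 - V0) := by ring
      have h3 : ‖V0‖ ≤ ‖toC (FF e s'') x0‖ + ‖toC (FF e s'') x0 - (h s'' : C(K, ℂ)) x0‖ +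
          ‖(h s'' : C(K, ℂ)) x0 - V0‖ := by
        conv_lhs => rw [h2]
        exact (norm_sub_le _ _).trans (by gcongr; exact norm_sub_le _ _)
      rw [h1] at h3
      linarith
    linarith
  -- conclusion
  have hfin : (n : ℝ) ≤ 2 * ρ := by
    by_contra hcon
    rw [not_le] at hcon
    have hpos : 0 < ((n : ℝ) - 2 * ρ) / (2 * (4 * n + 4)) := by
      apply div_pos (by linarith) (by positivity)
    have h1 := key ⟨((n : ℝ) - 2 * ρ) / (2 * (4 * n + 4)), hpos.le⟩ hpos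
    have h2 : (4 * (n : ℝ) + 4) * (((n : ℝ) - 2 * ρ) / (2 * (4 * n + 4))) = ((n : ℝ) - 2 * ρ) / 2 := by
      field_simp
    change (n : ℝ) ≤ 2 * ρ + (4 * n + 4) * (((n : ℝ) - 2 * ρ) / (2 * (4 * n + 4))) at h1
    rw [h2] at h1
    linarith
  linarith

end Pool.Agent.H86R3.Wnc
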